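import Mathlib

/-!
# Generalized star height: basic definitions
-/

set_option autoImplicit false

namespace Pool.Agent.GSH

variable {A : Type*}

/-- Concatenation (product) of two languages. -/
def cat (K L : Set (List A)) : Set (List A) := {w | ∃ u ∈ K, ∃ v ∈ L, u ++ v = w}

/-- Kleene star of a language: all finite concatenations of words of `K`. -/
def star (K : Set (List A)) : Set (List A) :=
  {w | ∃ l : List (List A), (∀ u ∈ l, u ∈ K) ∧ l.flatten = w}

/-- `Ht n L`: the language `L` is denoted by an extended regular expression (built from the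
empty language, the empty word and letters with complement, union, intersection, concatenation
and Kleene star) with at most `n` nested stars, i.e. `L` has generalized star height at most
`n`. -/
inductive Ht : ℕ → Set (List A) → Prop
  | empty (n : ℕ) : Ht n ∅
  | one (n : ℕ) : Ht n {[]}
  | letter (n : ℕ) (a : A) : Ht n {[a]}
  | compl {n : ℕ} {K : Set (List A)} : Ht n K → Ht n Kᶜ
  | union {n : ℕ} {K L : Set (List A)} : Ht n K → Ht n L → Ht n (K ∪ L)
  | inter {n : ℕ} {K L : Set (List A)} : Ht n K → Ht n L → Ht n (K ∩ L)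
  | cat {n : ℕ} {K L : Set (List A)} : Ht n K → Ht n L → Ht n (cat K L)
  | star {n : ℕ} {K : Set (List A)} : Ht n K → Ht (n + 1) (star K)

theorem Ht.succ {n : ℕ} {L : Set (List A)} (h : Ht n L) : Ht (n + 1) L := by
  induction h with
  | empty n => exact Ht.empty _
  | one n => exact Ht.one _
  | letter n a => exact Ht.letter _ a
  | compl _ ih => exact ih.compl
  | union _ _ ih1 ih2 => exact ih1.union ih2
  | inter _ _ ih1 ih2 => exact ih1.inter ih2
  | cat _ _ ih1 ih2 => exact ih1.cat ih2
  | star _ ih => exact ih.star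

theorem Ht.mono {n m : ℕ} (hnm : n ≤ m) {L : Set (List A)} (h : Ht n L) : Ht m L := by
  induction hnm with
  | refl => exact h
  | step _ ih => exact ih.succ

theorem Ht.univ (n : ℕ) : Ht n (Set.univ : Set (List A)) := by
  have := (Ht.empty (A := A) n).compl
  simpa using this

theorem mem_cat {K L : Set (List A)} {w : List A} :
    w ∈ cat K L ↔ ∃ u ∈ K, ∃ v ∈ L, u ++ v = w := Iff.rfl

theorem mem_star {K : Set (List A)} {w : List A} :
    w ∈ star K ↔ ∃ l : List (List A), (∀ u ∈ l, u ∈ K) ∧ l.flatten = w := Iff.rfl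

theorem nil_mem_star (K : Set (List A)) : [] ∈ star K := ⟨[], by simp, by simp⟩

theorem star_append {K : Set (List A)} {u v : List A} (hu : u ∈ star K) (hv : v ∈ star K) :
    u ++ v ∈ star K := by
  obtain ⟨l, hl, rfl⟩ := hu
  obtain ⟨m, hm, rfl⟩ := hv
  refine ⟨l ++ m, ?_, by simp⟩
  intro w hw
  rcases List.mem_append.1 hw with h | h
  · exact hl w h
  · exact hm w h

theorem mem_star_of_mem {K : Set (List A)} {u : List A} (hu : u ∈ K) : u ∈ star K :=
  ⟨[u], by simpa using hu, by simp⟩

/-- Splitting a word of `K*` at an arbitrary position. -/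
theorem star_split {K : Set (List A)} {p q : List A} (h : p ++ q ∈ star K) :
    (p ∈ star K ∧ q ∈ star K) ∨
      ∃ p1 p2 q1 q2, p = p1 ++ p2 ∧ q = q1 ++ q2 ∧ p1 ∈ star K ∧ p2 ++ q1 ∈ K ∧ q2 ∈ star K := by
  obtain ⟨l, hl, hw⟩ := h
  induction l generalizing p with
  | nil =>
    left
    simp at hw
    obtain ⟨rfl, rfl⟩ := hw
    exact ⟨nil_mem_star K, nil_mem_star K⟩
  | cons k l ih =>
    rw [List.flatten_cons] at hw
    have hk : k ∈ K := hl k (by simp)
    have hl' : ∀ u ∈ l, u ∈ K := fun u hu => hl u (by simp [hu])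
    rcases List.append_eq_append_iff.1 hw with ⟨c, hc1, hc2⟩ | ⟨c, hc1, hc2⟩
    · -- p = k ++ c, l.flatten = c ++ q
      rcases ih hl' (p := c) hc2 with ⟨h1, h2⟩ | ⟨p1, p2, q1, q2, hp, hq, h1, h2, h3⟩
      · left
        refine ⟨?_, h2⟩
        rw [hc1]
        exact star_append (mem_star_of_mem hk) h1
      · right
        refine ⟨k ++ p1, p2, q1, q2, ?_, hq, star_append (mem_star_of_mem hk) h1, h2, h3⟩
        rw [hc1, hp, List.append_assoc]
    · -- k = p ++ c, q = c ++ l.flatten
      right
      refine ⟨[], p, c, l.flatten, by simp, hc2, nil_mem_star K, ?_, ⟨l, hl', rfl⟩⟩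
      rw [← hc1]; exact hk

/-! ### Closure under reversal and quotients -/

theorem reverse_cat (K L : Set (List A)) :
    List.reverse ⁻¹' (cat K L) = cat (List.reverse ⁻¹' L) (List.reverse ⁻¹' K) := by
  ext w
  constructor
  · rintro ⟨u, hu, v, hv, h⟩
    refine ⟨v.reverse, by simpa using hv, u.reverse, by simpa using hu, ?_⟩
    rw [← List.reverse_append, h, List.reverse_reverse]
  · rintro ⟨u, hu, v, hv, h⟩
    refine ⟨v.reverse, hv, u.reverse, hu, ?_⟩
    rw [← List.reverse_append, h]

theorem reverse_mem_star {K : Set (List A)} {w : List A}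
    (h : w ∈ star K) : w.reverse ∈ star (List.reverse ⁻¹' K) := by
  obtain ⟨l, hl, rfl⟩ := h
  refine ⟨(l.map List.reverse).reverse, ?_, ?_⟩
  · intro u hu
    simp only [List.mem_reverse, List.mem_map] at hu
    obtain ⟨v, hv, rfl⟩ := hu
    simpa using hl v hv
  · rw [List.reverse_flatten]

theorem reverse_star (K : Set (List A)) :
    List.reverse ⁻¹' (star K) = star (List.reverse ⁻¹' K) := by
  ext w
  constructor
  · intro h
    have := reverse_mem_star (K := K) (w := w.reverse) h
    rwa [List.reverse_reverse] at this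
  · intro h
    have := reverse_mem_star h
    have h2 : (List.reverse ⁻¹' (List.reverse ⁻¹' K) : Set (List A)) = K := by
      ext u; simp
    rw [h2] at this
    exact this

theorem Ht.reverse {n : ℕ} {L : Set (List A)} (h : Ht n L) : Ht n (List.reverse ⁻¹' L) := by
  induction h with
  | empty n => simpa using Ht.empty n
  | one n =>
    have : (List.reverse ⁻¹' {[]} : Set (List A)) = {[]} := by ext w; simp
    rw [this]; exact Ht.one n
  | letter n a =>
    have : (List.reverse ⁻¹' {[a]} : Set (List A)) = {[a]} := by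
      ext w
      simp only [Set.mem_preimage, Set.mem_singleton_iff]
      constructor
      · intro h; have := congrArg List.reverse h; simpa using this
      · rintro rfl; simp
    rw [this]; exact Ht.letter n a
  | compl _ ih => rw [Set.preimage_compl]; exact ih.compl
  | union _ _ ih1 ih2 => rw [Set.preimage_union]; exact ih1.union ih2
  | inter _ _ ih1 ih2 => rw [Set.preimage_inter]; exact ih1.inter ih2
  | cat _ _ ih1 ih2 => rw [reverse_cat]; exact ih2.cat ih1
  | star _ ih => rw [reverse_star]; exact ih.star

/-- Left quotient by a letter. -/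
def lq (a : A) (L : Set (List A)) : Set (List A) := {w | a :: w ∈ L}

theorem lq_cat (a : A) (K L : Set (List A)) [Decidable ([] ∈ K)] :
    lq a (cat K L) = if [] ∈ K then cat (lq a K) L ∪ lq a L else cat (lq a K) L := by
  ext w
  split_ifs with h
  · constructor
    · rintro ⟨u, hu, v, hv, huv⟩
      cases u with
      | nil => right; simp at huv; subst huv; exact hv
      | cons b u =>
        left
        simp at huv
        obtain ⟨rfl, rfl⟩ := huv
        exact ⟨u, hu, v, hv, rfl⟩
    · rintro (⟨u, hu, v, hv, rfl⟩ | hw)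
      · exact ⟨a :: u, hu, v, hv, by simp⟩
      · exact ⟨[], h, a :: w, hw, by simp⟩
  · constructor
    · rintro ⟨u, hu, v, hv, huv⟩
      cases u with
      | nil => exact absurd hu h
      | cons b u =>
        simp at huv
        obtain ⟨rfl, rfl⟩ := huv
        exact ⟨u, hu, v, hv, rfl⟩
    · rintro ⟨u, hu, v, hv, rfl⟩
      exact ⟨a :: u, hu, v, hv, by simp⟩

theorem lq_star (a : A) (K : Set (List A)) : lq a (star K) = cat (lq a K) (star K) := by
  ext w
  constructor
  · rintro ⟨l, hl, hw⟩
    induction l with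
    | nil => simp at hw
    | cons k l ih =>
      cases k with
      | nil =>
        simp only [List.flatten_cons, List.nil_append] at hw
        exact ih (fun u hu => hl u (by simp [hu])) hw
      | cons b u =>
        simp only [List.flatten_cons, List.cons_append, List.cons.injEq] at hw
        obtain ⟨rfl, rfl⟩ := hw
        exact ⟨u, hl _ (by simp), l.flatten, ⟨l, fun v hv => hl v (by simp [hv]), rfl⟩, rfl⟩
  · rintro ⟨u, hu, v, ⟨l, hl, rfl⟩, rfl⟩
    refine ⟨(a :: u) :: l, ?_, by simp⟩
    intro x hx
    rcases List.mem_cons.1 hx with rfl | hx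
    · exact hu
    · exact hl x hx

theorem Ht.lq {n : ℕ} {L : Set (List A)} (h : Ht n L) (a : A) : Ht n (lq a L) := by
  classical
  induction h with
  | empty n =>
    have : GSH.lq a (∅ : Set (List A)) = ∅ := rfl
    rw [this]; exact Ht.empty n
  | one n =>
    have : GSH.lq a ({[]} : Set (List A)) = ∅ := by
      ext w; simp [GSH.lq]
    rw [this]; exact Ht.empty n
  | letter n b =>
    by_cases hab : a = b
    · subst hab
      have : GSH.lq a ({[a]} : Set (List A)) = {[]} := by
        ext w; simp [GSH.lq]
      rw [this]; exact Ht.one n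
    · have : GSH.lq a ({[b]} : Set (List A)) = ∅ := by
        ext w; simp [GSH.lq, hab]
      rw [this]; exact Ht.empty n
  | @compl n K _ ih =>
    have : GSH.lq a Kᶜ = (GSH.lq a K)ᶜ := rfl
    rw [this]; exact ih.compl
  | @union n K L _ _ ih1 ih2 =>
    have : GSH.lq a (K ∪ L) = GSH.lq a K ∪ GSH.lq a L := rfl
    rw [this]; exact ih1.union ih2
  | @inter n K L _ _ ih1 ih2 =>
    have : GSH.lq a (K ∩ L) = GSH.lq a K ∩ GSH.lq a L := rfl
    rw [this]; exact ih1.inter ih2
  | @cat n K L hK hL ih1 ih2 =>
    rw [lq_cat]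
    split_ifs
    · exact (ih1.cat hL).union ih2
    · exact ih1.cat hL
  | @star n K hK ih =>
    rw [lq_star]
    exact ih.succ.cat hK.star

theorem Ht.quotL {n : ℕ} {L : Set (List A)} (h : Ht n L) (u : List A) :
    Ht n {w | u ++ w ∈ L} := by
  induction u generalizing L with
  | nil => simpa using h
  | cons a u ih =>
    have := ih (h.lq a)
    exact this

theorem Ht.quotR {n : ℕ} {L : Set (List A)} (h : Ht n L) (v : List A) :
    Ht n {w | w ++ v ∈ L} := by
  have h1 := (h.reverse.quotL v.reverse).reverse
  have : (List.reverse ⁻¹' {w | v.reverse ++ w ∈ (List.reverse ⁻¹' L : Set (List A))}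
      : Set (List A)) = {w | w ++ v ∈ L} := by
    ext w
    simp
  rwa [this] at h1

theorem Ht.quot {n : ℕ} {L : Set (List A)} (h : Ht n L) (u v : List A) :
    Ht n {w | u ++ w ++ v ∈ L} := by
  have := (h.quotR v).quotL u
  exact this

end Pool.Agent.GSH
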