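import Pool.Agent.GSH.Meas

/-!
# Counter automata with a hub
-/

set_option autoImplicit false

namespace Pool.Agent.GSH

variable {A Q : Type}

section Defs

variable (step : Q → A → Q) (inc : Q → A → Prop)

open Classical in
/-- number of increments along a run -/
noncomputable def incs : Q → List A → ℕ
  | _, [] => 0
  | q, a :: w => (if inc q a then 1 else 0) + incs (step q a) w

theorem incs_append (q : Q) (u v : List A) :
    incs step inc q (u ++ v) = incs step inc q u + incs step inc (List.foldl step q u) v := by
  induction u generalizing q with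
  | nil => simp [incs]
  | cons a u ih => simp [incs, ih, add_assoc]

open Classical in
/-- the automaton with counter -/
noncomputable def cstep (M : ℕ) (s : Q × ZMod M) (a : A) : Q × ZMod M :=
  (step s.1 a, s.2 + if inc s.1 a then 1 else 0)

theorem foldl_cstep (M : ℕ) (s : Q × ZMod M) (w : List A) :
    List.foldl (cstep step inc M) s w =
      (List.foldl step s.1 w, s.2 + (incs step inc s.1 w : ZMod M)) := by
  induction w generalizing s with
  | nil => simp [incs]
  | cons a w ih =>
    rw [List.foldl_cons, ih]
    simp only [cstep, incs, List.foldl_cons, Nat.cast_add, add_assoc]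
    congr 2
    split_ifs <;> simp

end Defs

theorem zmod_val_pred {M : ℕ} [NeZero M] {x : ZMod M} (hx : x ≠ 0) :
    (x - 1).val + 1 = x.val := by
  have h1 : x.val ≠ 0 := by rwa [Ne, ZMod.val_eq_zero]
  have h2 : x.val < M := ZMod.val_lt x
  have h3 : x - 1 = ((x.val - 1 : ℕ) : ZMod M) := by
    rw [Nat.cast_sub (by omega)]; simp
  rw [h3, ZMod.val_cast_of_lt (by omega)]
  omega

section Bounds

variable {step : Q → A → Q} {inc : Q → A → Prop} {t0 : Q} {W : Q → Prop}

theorem stepD_ne_none {M : ℕ} {s : Q × ZMod M} {a : A} {w : List A}
    (h : List.foldl (stepD (cstep step inc M) (t0, 0)) (some s) (a :: w) ≠ none) :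
    cstep step inc M s a ≠ (t0, 0) ∧
      List.foldl (stepD (cstep step inc M) (t0, 0)) (some (cstep step inc M s a)) w ≠ none := by
  rw [List.foldl_cons] at h
  by_cases h1 : cstep step inc M s a = (t0, 0)
  · exfalso
    apply h
    have : stepD (cstep step inc M) (t0, 0) (some s) a = none := by simp [stepD, h1]
    rw [this, foldl_stepD_none]
  · refine ⟨h1, ?_⟩
    have : stepD (cstep step inc M) (t0, 0) (some s) a = some (cstep step inc M s a) := by
      simp [stepD, h1]
    rwa [this] at h

theorem incs_le_of_inv (h1 : ∀ q a, inc q a → q = t0 ∨ W q)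
    (h2 : ∀ q a, inc q a → ¬ W (step q a)) (h3 : ∀ q a, W (step q a) → q = t0 ∨ W q)
    {M : ℕ} [NeZero M] (w : List A) (q : Q) (κ : ZMod M) (hI : (q = t0 ∨ W q) → κ ≠ 0)
    (hav : List.foldl (stepD (cstep step inc M) (t0, 0)) (some (q, κ)) w ≠ none) :
    incs step inc q w ≤ (-κ).val := by
  induction w generalizing q κ with
  | nil => simp [incs]
  | cons a w ih =>
    obtain ⟨hne, hav'⟩ := stepD_ne_none hav
    by_cases hinc : inc q a
    · have hκ : κ ≠ 0 := hI (h1 q a hinc)
      have hc : cstep step inc M (q, κ) a = (step q a, κ + 1) := by simp [cstep, hinc]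
      rw [hc] at hne hav'
      have := ih (step q a) (κ + 1) (by
        rintro (h | h)
        · intro h0; exact hne (by rw [h, h0])
        · exact absurd h (h2 q a hinc)) hav'
      simp only [incs, hinc, if_true]
      have h5 := zmod_val_pred (neg_ne_zero.2 hκ)
      have h6 : -(κ + 1) = -κ - 1 := by ring
      rw [h6] at this
      omega
    · have hc : cstep step inc M (q, κ) a = (step q a, κ) := by simp [cstep, hinc]
      rw [hc] at hne hav'
      have := ih (step q a) κ (by
        rintro (h | h)
        · intro h0; exact hne (by rw [h, h0])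
        · exact hI (h3 q a h)) hav'
      simp only [incs, hinc, if_false]
      omega

theorem incs_le (h1 : ∀ q a, inc q a → q = t0 ∨ W q)
    (h2 : ∀ q a, inc q a → ¬ W (step q a)) (h3 : ∀ q a, W (step q a) → q = t0 ∨ W q)
    {M : ℕ} [NeZero M] (w : List A) (q : Q) (κ : ZMod M)
    (hav : List.foldl (stepD (cstep step inc M) (t0, 0)) (some (q, κ)) w ≠ none) :
    incs step inc q w ≤ M + 1 := by
  induction w generalizing q κ with
  | nil => simp [incs]
  | cons a w ih =>
    obtain ⟨hne, hav'⟩ := stepD_ne_none hav
    by_cases hinc : inc q a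
    · have hc : cstep step inc M (q, κ) a = (step q a, κ + 1) := by simp [cstep, hinc]
      rw [hc] at hne hav'
      have := incs_le_of_inv h1 h2 h3 w (step q a) (κ + 1) (by
        rintro (h | h)
        · intro h0; exact hne (by rw [h, h0])
        · exact absurd h (h2 q a hinc)) hav'
      simp only [incs, hinc, if_true]
      have h5 := ZMod.val_lt (-(κ + 1))
      omega
    · have hc : cstep step inc M (q, κ) a = (step q a, κ) := by simp [cstep, hinc]
      rw [hc] at hne hav'
      have := ih (step q a) κ hav'
      simp only [incs, hinc, if_false]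
      omega

/-- a bounded monotone sequence of naturals is eventually constant -/
theorem eventually_const {c : ℕ → ℕ} (hc : Monotone c) {B : ℕ} (hB : ∀ n, c n ≤ B) :
    ∃ n0, ∀ n, n0 ≤ n → c n = c n0 := by
  have : ∃ b, ∃ n, B - c n = b := ⟨_, 0, rfl⟩
  classical
  obtain ⟨n0, hn0⟩ := Nat.find_spec this
  refine ⟨n0, fun n hn => ?_⟩
  have h1 := hc hn
  have h2 : Nat.find this ≤ B - c n := Nat.find_min' this ⟨n, rfl⟩
  have h3 := hB n
  have h4 := hB n0
  omega

/-- The counter lemma. -/
theorem counter [Finite Q] [Finite A] (h1 : ∀ q a, inc q a → q = t0 ∨ W q)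
    (h2 : ∀ q a, inc q a → ¬ W (step q a)) (h3 : ∀ q a, W (step q a) → q = t0 ∨ W q)
    (h4 : ∀ (q : Q) (w : List A), (∀ n, incs step inc q (rep n w) = 0) →
      ∃ n, List.foldl step q (rep (n + 1) w) = List.foldl step q (rep n w))
    (M : ℕ) [NeZero M] (q0 : Q) :
    Meas 1 (fun w : List A => (List.foldl step q0 w, (incs step inc q0 w : ZMod M))) := by
  have main := hub (cstep step inc M) (t0, (0 : ZMod M)) ?_ (q0, 0)
  · have e : (fun w : List A => List.foldl (cstep step inc M) (q0, 0) w) =
        (fun w : List A => (List.foldl step q0 w, (incs step inc q0 w : ZMod M))) := by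
      funext w
      rw [foldl_cstep]; simp
    rw [← e]
    exact main
  · intro w s
    cases s with
    | none => exact ⟨0, by rw [foldl_stepD_none, foldl_stepD_none]⟩
    | some s =>
      obtain ⟨q, κ⟩ := s
      by_cases hav : ∀ n, List.foldl (stepD (cstep step inc M) (t0, 0)) (some (q, κ)) (rep n w) ≠
          none
      · -- increments are bounded
        have hbd : ∀ n, incs step inc q (rep n w) ≤ M + 1 := fun n =>
          incs_le h1 h2 h3 (rep n w) q κ (hav n)
        have hmono : Monotone (fun n => incs step inc q (rep n w)) := by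
          apply monotone_nat_of_le_succ
          intro n
          rw [rep_succ', incs_append]
          omega
        obtain ⟨n0, hn0⟩ := eventually_const hmono hbd
        set q1 := List.foldl step q (rep n0 w) with hq1
        have hz : ∀ m, incs step inc q1 (rep m w) = 0 := by
          intro m
          have h5 := hn0 (n0 + m) (by omega)
          simp only [rep_add, incs_append] at h5
          rw [hq1]
          omega
        obtain ⟨n, hn⟩ := h4 q1 w hz
        refine ⟨n0 + n, ?_⟩
        rw [foldl_stepD_some' _ _ (hav _), foldl_stepD_some' _ _ (hav _), foldl_cstep, foldl_cstep]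
        congr 2
        · show List.foldl step q (rep (n0 + n + 1) w) = List.foldl step q (rep (n0 + n) w)
          rw [add_assoc, rep_add, rep_add n0 n, List.foldl_append, List.foldl_append]
          exact hn
        · show κ + (incs step inc q (rep (n0 + n + 1) w) : ZMod M) =
            κ + (incs step inc q (rep (n0 + n) w) : ZMod M)
          have e1 := hn0 (n0 + n + 1) (by omega)
          have e2 := hn0 (n0 + n) (by omega)
          rw [e1, e2]
      · push Not at hav
        obtain ⟨n, hn⟩ := hav
        refine ⟨n, ?_⟩
        rw [rep_succ', List.foldl_append, hn, foldl_stepD_none]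

end Bounds

/-- counting the letter `a` modulo `M` -/
theorem meas_count [Finite A] [DecidableEq A] (a : A) (M : ℕ) [NeZero M] :
    Meas 1 (fun w : List A => ((w.count a : ℕ) : ZMod M)) := by
  have h := counter (Q := Unit) (step := fun _ (_ : A) => ()) (inc := fun _ x => x = a)
    (t0 := ()) (W := fun _ => False) (by intro q x _; left; rfl) (by intro q x _ h; exact h)
    (by intro q x h; exact h.elim) (by intro q w _; exact ⟨0, rfl⟩) M ()
  refine (h.comp (fun p => p.2)).determined (fun w w' e => ?_)
  have hc : ∀ w : List A, incs (fun _ (_ : A) => ()) (fun _ x => x = a) () w = w.count a := by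
    intro w
    induction w with
    | nil => rfl
    | cons x w ih =>
      rw [incs, ih, List.count_cons]
      by_cases hx : x = a
      · simp [hx, add_comm]
      · simp [hx]
  simpa [hc] using e

end Pool.Agent.GSH
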