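import Pool.Agent.GSH.Grp

/-!
# From normal subgroups to characters
-/

set_option autoImplicit false

namespace Pool.Agent.GSH

variable {A : Type}

open scoped commutatorElement

theorem exists_dual' (K V : Type) [Field K] [AddCommGroup V] [Module K V] {v : V}
    (hv : v ≠ 0) : ∃ φ : V →+ K, φ v ≠ 0 := by
  obtain ⟨f, hf⟩ := Module.Projective.exists_dual_ne_zero K (x := v) hv
  exact ⟨LinearMap.toAddMonoidHom f, hf⟩

theorem exists_addChar {p : ℕ} [Fact p.Prime] {V : Type} [AddCommGroup V]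
    (hp : ∀ x : V, p • x = 0) {v : V} (hv : v ≠ 0) : ∃ φ : V →+ ZMod p, φ v ≠ 0 := by
  let _ : Module (ZMod p) V := AddCommGroup.zmodModule hp
  exact exists_dual' (ZMod p) V hv

/-- Separation of the elements outside a normal subgroup with elementary abelian quotient by
characters. -/
theorem exists_char {p : ℕ} [Fact p.Prime] {G : Type} [Group G] (N : Subgroup G) [N.Normal]
    (hcomm : ∀ g h : G, ⁅g, h⁆ ∈ N) (hexp : ∀ g : G, g ^ p ∈ N) {g : G} (hg : g ∉ N) :
    ∃ χ : G →* Multiplicative (ZMod p), (∀ n ∈ N, χ n = 1) ∧ χ g ≠ 1 := by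
  let Q := G ⧸ N
  have hc : ∀ x y : Q, x * y = y * x := by
    intro x y
    induction x using QuotientGroup.induction_on with
    | _ x =>
    induction y using QuotientGroup.induction_on with
    | _ y =>
    rw [← QuotientGroup.mk_mul, ← QuotientGroup.mk_mul, QuotientGroup.eq]
    have := hcomm y⁻¹ x⁻¹
    rw [commutatorElement_def] at this
    have e : (x * y)⁻¹ * (y * x) = y⁻¹ * x⁻¹ * y⁻¹⁻¹ * x⁻¹⁻¹ := by group
    rw [e]; exact this
  let _ : CommGroup Q := { (inferInstance : Group Q) with mul_comm := hc }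
  have hp : ∀ x : Additive Q, p • x = 0 := by
    intro x
    obtain ⟨y, hy⟩ := QuotientGroup.mk_surjective (s := N) (Additive.toMul x)
    apply Additive.toMul.injective
    rw [toMul_nsmul, toMul_zero, ← hy]
    rw [← QuotientGroup.mk_pow]
    exact (QuotientGroup.eq_one_iff _).2 (hexp y)
  let v : Additive Q := Additive.ofMul (QuotientGroup.mk' N g)
  have hv : v ≠ 0 := by
    intro h
    apply hg
    have : QuotientGroup.mk' N g = 1 := Additive.ofMul.injective h
    exact (QuotientGroup.eq_one_iff _).1 this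
  obtain ⟨φ, hφ⟩ := exists_addChar hp hv
  refine ⟨{ toFun := fun x => Multiplicative.ofAdd (φ (Additive.ofMul (QuotientGroup.mk' N x)))
            map_one' := ?_
            map_mul' := ?_ }, ?_, ?_⟩
  · simp
  · intro x y
    rw [map_mul, ofMul_mul, map_add, ofAdd_add]
  · intro n hn
    show Multiplicative.ofAdd (φ (Additive.ofMul (QuotientGroup.mk' N n))) = 1
    have : QuotientGroup.mk' N n = 1 := (QuotientGroup.eq_one_iff _).2 hn
    rw [this]; simp
  · intro h
    apply hφ
    exact Multiplicative.ofAdd.injective h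

theorem meas_quotient {p : ℕ} [Fact p.Prime] {G : Type} [Group G] [Finite G] [Finite A]
    (K N : Subgroup G) [K.Normal] [N.Normal] (hKN : K ≤ N) (hab : ∀ x ∈ N, ∀ y ∈ N, ⁅x, y⁆ ∈ K)
    (hcomm : ∀ g h : G, ⁅g, h⁆ ∈ N) (hexp : ∀ g : G, g ^ p ∈ N) (f : A → G) :
    Meas 1 (fun w : List A => QuotientGroup.mk' K (w.map f).prod) := by
  have hpp := (Fact.out : p.Prime).one_lt
  have : NeZero p := ⟨by omega⟩
  have : Finite (Multiplicative (ZMod p)) := inferInstanceAs (Finite (ZMod p))
  have hfin : Finite ((G ⧸ K) →* Multiplicative (ZMod p)) :=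
    Finite.of_injective (fun χ => (χ : (G ⧸ K) → Multiplicative (ZMod p)))
      DFunLike.coe_injective
  let _ := Fintype.ofFinite ((G ⧸ K) →* Multiplicative (ZMod p))
  let χ : ((G ⧸ K) →* Multiplicative (ZMod p)) → (G ⧸ K) →* Multiplicative (ZMod p) := fun c => c
  have key : ∀ g : G, pv χ (QuotientGroup.mk' K g) = 0 → g ∈ N := by
    intro g hg
    by_contra hgN
    obtain ⟨c, hc1, hc2⟩ := exists_char (p := p) N hcomm hexp hgN
    have hK : K ≤ c.ker := fun n hn => hc1 n (hKN hn)
    have h1 := congrFun hg (QuotientGroup.lift K c hK)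
    have h2 : (QuotientGroup.lift K c hK) (QuotientGroup.mk' K g) = c g := rfl
    apply hc2
    have h3 : Multiplicative.toAdd ((QuotientGroup.lift K c hK) (QuotientGroup.mk' K g)) = 0 := h1
    rw [h2] at h3
    exact Multiplicative.toAdd.injective h3
  have main := meas_group_core χ (A := A) (by
    intro x y hx hy
    obtain ⟨g, rfl⟩ := QuotientGroup.mk'_surjective K x
    obtain ⟨h, rfl⟩ := QuotientGroup.mk'_surjective K y
    have h1 := hab h⁻¹ (N.inv_mem (key h hy)) g⁻¹ (N.inv_mem (key g hx))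
    rw [commutatorElement_def] at h1
    rw [← map_mul, ← map_mul]
    show ((g * h : G) : G ⧸ K) = ((h * g : G) : G ⧸ K)
    rw [QuotientGroup.eq]
    have e : (g * h)⁻¹ * (h * g) = h⁻¹ * g⁻¹ * h⁻¹⁻¹ * g⁻¹⁻¹ := by group
    rw [e]; exact h1) (fun a => QuotientGroup.mk' K (f a))
  convert main using 2 with w
  rw [map_list_prod, List.map_map]
  rfl

/-- The main theorem. -/
theorem main_elem {G : Type} [Group G] [Finite G] [Finite A] {ι : Type} [Finite ι]
    (p : ι → ℕ) (hp : ∀ i, (p i).Prime) (K N : ι → Subgroup G) (hK : ∀ i, (K i).Normal)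
    (hN : ∀ i, (N i).Normal) (hKN : ∀ i, K i ≤ N i) (hab : ∀ i, ∀ x ∈ N i, ∀ y ∈ N i, ⁅x, y⁆ ∈ K i)
    (hcomm : ∀ i, ∀ g h : G, ⁅g, h⁆ ∈ N i) (hexp : ∀ i, ∀ g : G, g ^ p i ∈ N i)
    (htriv : ⨅ i, K i = ⊥) (f : A → G) (T : Set G) :
    Ht 1 {w : List A | (w.map f).prod ∈ T} := by
  have h1 : Meas 1 (fun (w : List A) (i : ι) => QuotientGroup.mk' (K i) (w.map f).prod) := by
    refine Meas.pi (fun i => ?_)
    have : Fact (p i).Prime := ⟨hp i⟩
    exact meas_quotient (p := p i) (K i) (N i) (hKN i) (hab i) (hcomm i) (hexp i) f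
  have h2 : Meas 1 (fun w : List A => (w.map f).prod) := by
    refine h1.determined (fun w w' e => ?_)
    have h3 : (w.map f).prod⁻¹ * (w'.map f).prod ∈ ⨅ i, K i := by
      rw [Subgroup.mem_iInf]
      intro i
      have := congrFun e i
      exact QuotientGroup.eq.1 this
    rw [htriv, Subgroup.mem_bot] at h3
    exact (inv_mul_eq_one.1 h3)
  exact h2.preimage T

end Pool.Agent.GSH
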