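import Pool.Agent.GSH.FCWord

/-!
# Finite codes: the core theorem on long extensions which are proper powers
-/

set_option autoImplicit false

namespace Pool.Agent.GSH.FC

open Pool.Agent.GSH

variable {A B : Type}

/-- The morphism of free monoids defined by `c`. -/
def E (c : B → List A) (l : List B) : List A := (l.map c).flatten

/-- `c` is a code: its morphism is injective. -/
def Code (c : B → List A) : Prop := Function.Injective (E c)

section

variable (c : B → List A)

theorem E_nil : E c [] = [] := rfl

theorem E_cons (b : B) (l : List B) : E c (b :: l) = c b ++ E c l := by simp [E]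

theorem E_single (b : B) : E c [b] = c b := by simp [E]

theorem E_append (l m : List B) : E c (l ++ m) = E c l ++ E c m := by simp [E]

theorem E_rep (n : ℕ) (l : List B) : E c (rep n l) = rep n (E c l) := by
  induction n with
  | zero => rw [rep_zero, rep_zero]; rfl
  | succ n ih => rw [rep_succ, E_append, ih, rep_succ]

end

variable {c : B → List A}

theorem Code.ne_nil (hc : Code c) (b : B) : c b ≠ [] := by
  intro h0
  have := hc (show E c [b] = E c [] by rw [E_single, h0, E_nil])
  exact absurd this (by simp)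

theorem Code.length_le (hc : Code c) (l : List B) : l.length ≤ (E c l).length := by
  induction l with
  | nil => simp
  | cons b l ih =>
    rw [E_cons, List.length_append, List.length_cons]
    have := List.length_pos_iff.2 (hc.ne_nil b)
    omega

theorem Code.E_ne_nil (hc : Code c) {l : List B} (hl : l ≠ []) : E c l ≠ [] := by
  intro h0
  have := hc.length_le l
  rw [h0] at this
  exact hl (List.eq_nil_of_length_eq_zero (by simpa using this))

/-- two consecutive equal roots -/
theorem Code.const_of_root (hc : Code c) {x : List B} {b : B} {t : List A} {j j' : ℕ}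
    (h1 : E c x = rep j t) (h2 : E c x ++ c b = rep j' t) :
    ∀ y ∈ x, y = b := by
  have ht : t ≠ [] := by
    rintro rfl
    rw [rep_nil] at h2
    exact hc.ne_nil b (List.append_eq_nil_iff.1 h2).2
  have htl : 0 < t.length := List.length_pos_iff.2 ht
  have hl := congrArg List.length h2
  have hl1 := congrArg List.length h1
  rw [List.length_append] at hl
  rw [length_rep] at hl hl1
  have hb : 0 < (c b).length := List.length_pos_iff.2 (hc.ne_nil b)
  have hjj : j < j' := by
    by_contra h0
    have : j' * t.length ≤ j * t.length := Nat.mul_le_mul_right _ (by omega)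
    omega
  obtain ⟨d, rfl⟩ : ∃ d, j' = j + d := ⟨j' - j, by omega⟩
  have hcb : c b = rep d t := by
    rw [rep_add, ← h1] at h2
    exact List.append_cancel_left h2
  have key : E c (rep d x) = E c (rep j [b]) := by
    rw [E_rep, E_rep, h1, E_single, hcb, rep_rep, rep_rep, Nat.mul_comm]
  have key2 := hc key
  have hd : 1 ≤ d := by omega
  obtain ⟨d, rfl⟩ : ∃ e, d = e + 1 := ⟨d - 1, by omega⟩
  intro y hy
  have h3 : y ∈ rep j [b] := by
    rw [← key2, rep_succ]
    exact List.mem_append_left _ hy
  unfold rep at h3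
  rw [List.mem_flatten] at h3
  obtain ⟨l, hl, hyl⟩ := h3
  rw [List.mem_replicate] at hl
  rw [hl.2] at hyl
  simpa using hyl

theorem exponent_two {W W' t t' : List A} {j j' D : ℕ} (ht : ¬ NP t) (ht' : ¬ NP t')
    (hj : 2 ≤ j) (hj' : 2 ≤ j') (hW : W = rep j t) (hW' : W' = rep j' t') (hp : W <+: W')
    (hne : t ≠ t') (hlen : W'.length ≤ W.length + D) (hD : 2 * D ≤ W.length) : j' = 2 := by
  have h1 : W.length < t.length + t'.length := by
    by_contra h0
    exact hne (prim_comm ht ht' (root_comm hW hW' (by omega) (by omega) hp (by omega)))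
  have hl := congrArg List.length hW
  have hl' := congrArg List.length hW'
  rw [length_rep] at hl hl'
  have h2 : 2 * t.length ≤ j * t.length := Nat.mul_le_mul_right _ hj
  by_contra h3
  have h4 : 3 * t'.length ≤ j' * t'.length := Nat.mul_le_mul_right _ (by omega)
  omega

theorem rep_two (t : List A) : rep 2 t = t ++ t := by
  rw [show (2 : ℕ) = 1 + 1 from rfl, rep_succ, rep_one]

/-- The core theorem: if `2 D + 4` consecutive prefixes are proper powers then the word is
constant. -/
theorem core (hc : Code c) {D : ℕ} (hD : ∀ b, (c b).length ≤ D) {s bs : List B} (hs : s ≠ [])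
    (hbs : 2 * D + 3 ≤ bs.length)
    (hall : ∀ i ≤ 2 * D + 3, NP (E c (s ++ bs.take i))) : ∃ b, ∀ x ∈ s, x = b := by
  have hsl : 0 < s.length := List.length_pos_iff.2 hs
  by_contra hcon
  have hW : ∀ i (hi : i < bs.length),
      E c (s ++ bs.take (i + 1)) = E c (s ++ bs.take i) ++ c bs[i] := by
    intro i hi
    rw [List.take_succ_eq_append_getElem hi, ← List.append_assoc, E_append, E_single]
  have hlen : ∀ i ≤ bs.length, i + 1 ≤ (E c (s ++ bs.take i)).length := by
    intro i hi
    refine le_trans ?_ (hc.length_le _)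
    rw [List.length_append, List.length_take, min_eq_left hi]
    omega
  have hne : ∀ i, E c (s ++ bs.take i) ≠ [] := by
    intro i
    apply hc.E_ne_nil
    simp [hs]
  have hroot : ∀ i ≤ 2 * D + 3, ∃ t j, ¬ NP t ∧ 2 ≤ j ∧ E c (s ++ bs.take i) = rep j t :=
    fun i hi => exists_root' (hall i hi) (hne i)
  -- different consecutive roots
  have hdiff : ∀ i (hi : i < bs.length) (t t' : List A) (j j' : ℕ),
      E c (s ++ bs.take i) = rep j t → E c (s ++ bs.take (i + 1)) = rep j' t' → t ≠ t' := by
    rintro i hi t _ j j' h1 h2 rfl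
    rw [hW i hi] at h2
    apply hcon
    refine ⟨bs[i], fun x hx => ?_⟩
    exact hc.const_of_root h1 h2 x (List.mem_append_left _ hx)
  have hstep : ∀ i (hi : i < bs.length),
      E c (s ++ bs.take i) <+: E c (s ++ bs.take (i + 1)) ∧
      (E c (s ++ bs.take (i + 1))).length ≤ (E c (s ++ bs.take i)).length + D := by
    intro i hi
    rw [hW i hi]
    exact ⟨List.prefix_append _ _, by rw [List.length_append]; have := hD bs[i]; omega⟩
  obtain ⟨t0, j0, p0, q0, r0⟩ := hroot (2 * D) (by omega)
  obtain ⟨t1, j1, p1, q1, r1⟩ := hroot (2 * D + 1) (by omega)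
  obtain ⟨t2, j2, p2, q2, r2⟩ := hroot (2 * D + 2) (by omega)
  obtain ⟨t3, j3, p3, q3, r3⟩ := hroot (2 * D + 3) (by omega)
  have i0 : 2 * D < bs.length := by omega
  have i1 : 2 * D + 1 < bs.length := by omega
  have i2 : 2 * D + 2 < bs.length := by omega
  have s1 : j1 = 2 := exponent_two p0 p1 q0 q1 r0 r1 (hstep _ i0).1
    (hdiff _ i0 _ _ _ _ r0 r1) (hstep _ i0).2 (by have := hlen (2 * D) (by omega); omega)
  have s2 : j2 = 2 := exponent_two p1 p2 q1 q2 r1 r2 (hstep _ i1).1
    (hdiff _ i1 _ _ _ _ r1 r2) (hstep _ i1).2 (by have := hlen (2 * D + 1) (by omega); omega)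
  have s3 : j3 = 2 := exponent_two p2 p3 q2 q3 r2 r3 (hstep _ i2).1
    (hdiff _ i2 _ _ _ _ r2 r3) (hstep _ i2).2 (by have := hlen (2 * D + 2) (by omega); omega)
  subst s1 s2 s3
  rw [rep_two] at r1 r2 r3
  have w1 := hW _ i1
  have w2 := hW _ i2
  have hl1 := hlen (2 * D + 1) (by omega)
  rw [r1, List.length_append] at hl1
  rw [r1] at w1
  rw [show 2 * D + 1 + 1 = 2 * D + 2 from rfl, r2] at w1
  rw [r2, show 2 * D + 2 + 1 = 2 * D + 3 from rfl, r3] at w2
  refine p2 (core3 w1 w2 (hc.ne_nil _) (hc.ne_nil _) ?_)
  have g1 := hD bs[2 * D + 1]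
  have g2 := hD bs[2 * D + 2]
  omega

/-- A letter and a long run of another letter give a primitive word. -/
theorem Code.prim_run (hc : Code c) {D : ℕ} (hD : ∀ b, (c b).length ≤ D) {b y : B} (hby : y ≠ b)
    {n : ℕ} (hn : D + 2 ≤ n) : ¬ NP (E c (rep n [b] ++ [y])) ∧ ¬ NP (E c ([y] ++ rep n [b])) := by
  have h1 : ¬ NP (E c (rep n [b] ++ [y])) := by
    rw [E_append, E_rep, E_single, E_single]
    apply FC.prim_run
    · intro h
      rw [← E_single c b, ← E_single c y, ← E_append, ← E_append] at h
      have := hc h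
      simp only [List.cons_append, List.nil_append, List.cons.injEq] at this
      exact hby this.2.1
    · have g1 := hD y
      have g2 := List.length_pos_iff.2 (hc.ne_nil b)
      nlinarith
  refine ⟨h1, fun h => h1 ?_⟩
  rw [E_append] at h ⊢
  exact h.conj

end Pool.Agent.GSH.FC
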