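import Pool.Agent.GSH.FCMeas

/-!
# Counting occurrences of words over a code
-/

set_option autoImplicit false

namespace Pool.Agent.GSH.FC

open Pool.Agent.GSH

variable {A B : Type}

open Classical in
/-- indicator of a proposition -/
noncomputable def chi (p : Prop) : ℕ := if p then 1 else 0

theorem chi_pos {p : Prop} (h : p) : chi p = 1 := by unfold chi; rw [if_pos h]

theorem chi_neg {p : Prop} (h : ¬ p) : chi p = 0 := by unfold chi; rw [if_neg h]

theorem chi_congr {p q : Prop} (h : p ↔ q) : chi p = chi q := by rw [propext h]

/-- number of occurrences of the word `V` at the positions `i` with `i = r` modulo `M` -/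
noncomputable def oc {M : ℕ} (V : List B) : ZMod M → List B → ℕ
  | _, [] => 0
  | r, b :: l => chi (r = 0 ∧ V <+: b :: l) + oc V (r - 1) l

theorem oc_nil {M : ℕ} (V : List B) (r : ZMod M) : oc V r [] = 0 := rfl

theorem oc_cons {M : ℕ} (V : List B) (r : ZMod M) (b : B) (l : List B) :
    oc V r (b :: l) = chi (r = 0 ∧ V <+: b :: l) + oc V (r - 1) l := rfl

theorem oc_skip {M : ℕ} (V : List B) (γ l : List B) (r : ZMod M)
    (h : ∀ i < γ.length, r ≠ (i : ZMod M)) :
    oc V r (γ ++ l) = oc V (r - ((γ.length : ℕ) : ZMod M)) l := by
  induction γ generalizing r with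
  | nil => simp
  | cons g γ ih =>
    rw [List.cons_append, oc_cons, chi_neg, ih (r - 1), List.length_cons]
    · push_cast
      rw [zero_add]
      congr 1
      ring
    · intro i hi h0
      apply h (i + 1) (by simpa using hi)
      push_cast
      rw [← h0]; ring
    · rintro ⟨h0, _⟩
      exact h 0 (by simp) (by rw [h0]; simp)

theorem oc_block {q : ℕ} (hq : 0 < q) {V β l : List B} (hV : V.length = q) (hβ : β.length = q) :
    oc V (0 : ZMod q) (β ++ l) = chi (β = V) + oc V (0 : ZMod q) l := by
  cases β with
  | nil => simp at hβ; omega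
  | cons b γ =>
    have hγ : γ.length + 1 = q := by simpa using hβ
    rw [List.cons_append, oc_cons, oc_skip]
    · have h1 : (0 : ZMod q) - 1 - ((γ.length : ℕ) : ZMod q) = 0 := by
        have : (((γ.length + 1 : ℕ)) : ZMod q) = 0 := by rw [hγ, ZMod.natCast_self]
        push_cast at this
        linear_combination -this
      rw [h1]
      congr 1
      apply chi_congr
      constructor
      · rintro ⟨_, h⟩
        exact (eq_of_prefix (X := b :: (γ ++ l)) (by exact ⟨l, rfl⟩) h (by rw [hβ, hV]))
      · rintro rfl
        exact ⟨rfl, l, rfl⟩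
    · intro i hi h0
      have h1 : (((i + 1 : ℕ)) : ZMod q) = 0 := by
        push_cast
        linear_combination -h0
      rw [ZMod.natCast_eq_zero_iff] at h1
      have := Nat.le_of_dvd (by omega) h1
      omega

theorem oc_short {M : ℕ} {V l : List B} (r : ZMod M) (h : l.length < V.length) :
    oc V r l = 0 := by
  induction l generalizing r with
  | nil => rfl
  | cons b l ih =>
    rw [oc_cons, chi_neg, ih _ (by simp at h; omega)]
    rintro ⟨_, h1⟩
    have := h1.length_le
    omega

section Kill

variable {c : B → List A}

theorem H.star_prim [Finite A] {V : List B} (hV : ¬ NP (E c V)) : H c 0 (GSH.star {V}) := by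
  unfold H
  rw [image_star, Set.image_singleton]
  exact ht_star_prim hV

/-- the blocks of length `q` modulo `M` -/
theorem ME.blocks [Finite B] (q M : ℕ) [NeZero q] [NeZero M] :
    ME c (fun l => ((l.length / q : ℕ) : ZMod M)) := by
  have : NeZero (q * M) := ⟨Nat.mul_ne_zero (NeZero.ne q) (NeZero.ne M)⟩
  refine (ME.length (q * M)).determined (fun l l' h => ?_)
  rw [ZMod.natCast_eq_natCast_iff'] at h ⊢
  rw [← Nat.mod_mul_right_div_self, ← Nat.mod_mul_right_div_self, h]

theorem kill_zero [Finite A] [Finite B] (hc : Code c) {V : List B} (hV : ¬ NP (E c V)) {q : ℕ} [NeZero q]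
    (hq : V.length = q) (M : ℕ) [NeZero M] :
    ME c (fun l => ((oc V (0 : ZMod q) l : ℕ) : ZMod M)) := by
  classical
  have hq0 : 0 < q := Nat.pos_of_ne_zero (NeZero.ne q)
  let g : List B → ZMod M := fun l => ((l.length / q : ℕ) : ZMod M) -
    ((oc V (0 : ZMod q) l : ℕ) : ZMod M)
  have hdiv : ∀ β l : List B, β.length = q → (β ++ l).length / q = 1 + l.length / q := by
    intro β l hβ
    rw [List.length_append, hβ, Nat.add_div_left _ hq0, Nat.add_comm]
  have gV : ∀ l, g (V ++ l) = g l := by
    intro l
    simp only [g]
    rw [hdiv V l hq, oc_block hq0 hq hq, chi_pos rfl]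
    push_cast; ring
  have gβ : ∀ β l : List B, β.length = q → β ≠ V → g (β ++ l) = 1 + g l := by
    intro β l h1 h2
    simp only [g]
    rw [hdiv β l h1, oc_block hq0 hq h1, chi_neg h2]
    push_cast; ring
  have gs : ∀ v ∈ star ({V} : Set (List B)), ∀ l, g (v ++ l) = g l := by
    rintro v ⟨L, hL, rfl⟩ l
    induction L with
    | nil => rfl
    | cons x L ih =>
      have hx : x = V := hL x (by simp)
      rw [hx, List.flatten_cons, List.append_assoc, gV, ih (fun y hy => hL y (by simp [hy]))]
  have gr : ∀ r : List B, r.length < q → g r = 0 := by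
    intro r hr
    simp only [g]
    rw [Nat.div_eq_of_lt hr, oc_short _ (by omega)]
    simp
  let K : Set (List B) := cat (star {V}) {β | β.length = q ∧ β ≠ V}
  let R : Set (List B) := cat (star {V}) {r | r.length < q}
  have hK : H c 0 K := (H.star_prim hV).cat
    (H.finite ((finite_length q).subset (fun β hβ => hβ.1)))
  have hR : H c 1 R := ((H.star_prim hV).mono (by omega)).cat
    (H.finite (List.finite_length_lt B q))
  have main : ME c g := by
    refine tick hK hR g ?_ ?_
    · intro l
      induction hn : l.length using Nat.strong_induction_on generalizing l with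
      | _ n ih =>
        rcases Nat.lt_or_ge l.length q with hl | hl
        · exact ⟨[], l, by simp, ⟨[], nil_mem_star _, l, hl, rfl⟩, rfl⟩
        · obtain ⟨ks, r, h1, h2, h3⟩ := ih (l.drop q).length
            (by rw [List.length_drop]; omega) (l.drop q) rfl
          have hlt : (l.take q).length = q := by rw [List.length_take]; omega
          have hl' : l = l.take q ++ (ks.flatten ++ r) := by
            rw [← h3, List.take_append_drop]
          by_cases hV' : l.take q = V
          · cases ks with
            | nil =>
              obtain ⟨v, hv, r', hr', rfl⟩ := h2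
              refine ⟨[], V ++ (v ++ r'), by simp, ⟨V ++ v,
                star_append (mem_star_of_mem rfl) hv, r', hr', by simp⟩, ?_⟩
              rw [hV'] at hl'
              exact hl'
            | cons k ks =>
              obtain ⟨v, hv, β, hβ, hk⟩ := h1 k (by simp)
              refine ⟨(V ++ k) :: ks, r, ?_, h2, ?_⟩
              · intro x hx
                rcases List.mem_cons.1 hx with rfl | hx
                · exact ⟨V ++ v, star_append (mem_star_of_mem rfl) hv, β, hβ,
                    by rw [List.append_assoc, hk]⟩
                · exact h1 x (by simp [hx])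
              · rw [hV'] at hl'
                rw [hl']; simp
          · refine ⟨l.take q :: ks, r, ?_, h2, ?_⟩
            · intro x hx
              rcases List.mem_cons.1 hx with rfl | hx
              · exact ⟨[], nil_mem_star _, _, ⟨hlt, hV'⟩, rfl⟩
              · exact h1 x hx
            · rw [List.flatten_cons, List.append_assoc]
              exact hl'
    · intro ks r h1 h2
      induction ks with
      | nil =>
        obtain ⟨v, hv, r', hr', rfl⟩ := h2
        rw [List.flatten_nil, List.nil_append, gs v hv, gr r' hr']
        simp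
      | cons k ks ih =>
        obtain ⟨v, hv, β, ⟨hβ1, hβ2⟩, rfl⟩ := h1 k (by simp)
        rw [List.flatten_cons, List.append_assoc, List.append_assoc, gs v hv, gβ β _ hβ1 hβ2,
          ih (fun x hx => h1 x (by simp [hx])), List.length_cons]
        push_cast; ring
  have := (ME.blocks (c := c) q M).comp₂ hc main (fun x y => x - y)
  refine this.determined (fun l l' h => ?_)
  simpa [g] using h

/-- counting the occurrences of a word with primitive image -/
theorem kill [Finite A] [Finite B] (hc : Code c) {V : List B} (hV : ¬ NP (E c V)) {q : ℕ} [NeZero q]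
    (hq : V.length = q) (M : ℕ) [NeZero M] (r : ZMod q) :
    ME c (fun l => ((oc V r l : ℕ) : ZMod M)) := by
  refine (kill_zero hc hV hq M).shift r.val (fun s l hs => ?_)
  congr 1
  rw [oc_skip, hs, ZMod.natCast_zmod_val, sub_self]
  intro i hi h0
  rw [hs] at hi
  have h1 : r.val = i := by
    rw [h0, ZMod.val_cast_of_lt (hi.trans (ZMod.val_lt r))]
  omega

end Kill

section Coarse

open Classical in
theorem oc_coarse {m q : ℕ} [NeZero q] (hd : m ∣ q) (V : List B) (r : ZMod m) (l : List B) :
    oc V r l = ∑ s ∈ Finset.univ.filter (fun s : ZMod q => ZMod.castHom hd (ZMod m) s = r),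
      oc V s l := by
  induction l generalizing r with
  | nil => simp [oc_nil]
  | cons b l ih =>
    simp only [oc_cons]
    rw [Finset.sum_add_distrib, ih]
    congr 1
    · rw [Finset.sum_filter]
      by_cases hr : r = 0 ∧ V <+: b :: l
      · rw [chi_pos hr, Finset.sum_eq_single 0]
        · rw [map_zero, if_pos hr.1.symm, chi_pos ⟨rfl, hr.2⟩]
        · intro s _ hs
          rw [chi_neg (fun h => hs h.1)]
          split_ifs <;> rfl
        · intro h0
          exact absurd (Finset.mem_univ _) h0
      · rw [chi_neg hr]
        symm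
        apply Finset.sum_eq_zero
        intro s _
        by_cases h1 : ZMod.castHom hd (ZMod m) s = r
        · rw [if_pos h1, chi_neg]
          rintro ⟨rfl, h2⟩
          rw [map_zero] at h1
          exact hr ⟨h1.symm, h2⟩
        · rw [if_neg h1]
    · symm
      refine Finset.sum_equiv (Equiv.subRight 1) ?_ ?_
      · intro s
        simp only [Finset.mem_filter, Finset.mem_univ, true_and, Equiv.subRight_apply, map_sub,
          map_one]
        constructor
        · intro h1; rw [h1]
        · intro h1; exact sub_left_injective h1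
      · intro s _
        rfl

variable {c : B → List A} [Finite A] [Finite B]

theorem kill_coarse (hc : Code c) {V : List B} (hV : ¬ NP (E c V)) {m : ℕ}
    (hm : m ∣ V.length) (M : ℕ) [NeZero M] (r : ZMod m) :
    ME c (fun l => ((oc V r l : ℕ) : ZMod M)) := by
  classical
  have hV0 : V ≠ [] := by
    rintro rfl
    exact hV NP.nil
  have : NeZero V.length := ⟨fun h => hV0 (List.eq_nil_of_length_eq_zero h)⟩
  have h1 : ME c (fun l => ∑ s ∈ Finset.univ.filter
      (fun s : ZMod V.length => ZMod.castHom hm (ZMod m) s = r), ((oc V s l : ℕ) : ZMod M)) :=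
    ME.sum hc _ (fun s _ => kill hc hV rfl M s)
  refine h1.determined (fun l l' h => ?_)
  rw [oc_coarse hm V r l, oc_coarse hm V r l']
  push_cast
  exact h

end Coarse

section Boundary

theorem oc_right [Fintype B] {M : ℕ} {V : List B} (hV : V ≠ []) (r : ZMod M) (l : List B) :
    oc V r l = (∑ b : B, oc (V ++ [b]) r l) +
      chi (V <:+ l ∧ ((l.length : ℕ) : ZMod M) = r + ((V.length : ℕ) : ZMod M)) := by
  induction l generalizing r with
  | nil =>
    simp only [oc_nil, Finset.sum_const_zero, zero_add]
    rw [chi_neg]
    rintro ⟨h, _⟩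
    exact hV (List.suffix_nil.1 h)
  | cons x l ih =>
    simp only [oc_cons]
    rw [Finset.sum_add_distrib, ih]
    have key : chi (r = 0 ∧ V <+: x :: l) +
        chi (V <:+ l ∧ ((l.length : ℕ) : ZMod M) = r - 1 + ((V.length : ℕ) : ZMod M)) =
        (∑ b : B, chi (r = 0 ∧ V ++ [b] <+: x :: l)) +
        chi (V <:+ x :: l ∧ (((x :: l).length : ℕ) : ZMod M) = r + ((V.length : ℕ) : ZMod M)) := by
      have hlen : (((x :: l).length : ℕ) : ZMod M) = r + ((V.length : ℕ) : ZMod M) ↔
          ((l.length : ℕ) : ZMod M) = r - 1 + ((V.length : ℕ) : ZMod M) := by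
        rw [List.length_cons]
        push_cast
        constructor
        · intro h; linear_combination h
        · intro h; linear_combination h
      by_cases hVl : V = x :: l
      · have h1 : ¬ V <:+ l := by
          intro h
          have := h.length_le
          rw [hVl, List.length_cons] at this
          omega
        have h2 : ∀ b : B, ¬ (V ++ [b] <+: x :: l) := by
          intro b h
          have := h.length_le
          rw [hVl] at this
          simp at this
        have h3 : V <+: x :: l := by rw [hVl]
        have h4 : V <:+ x :: l := by rw [hVl]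
        have h5 : (((x :: l).length : ℕ) : ZMod M) = r + ((V.length : ℕ) : ZMod M) ↔ r = 0 := by
          rw [hVl]
          constructor
          · intro h; linear_combination -h
          · rintro rfl; rw [zero_add]
        rw [chi_neg (p := V <:+ l ∧ _) (fun h => h1 h.1),
          Finset.sum_eq_zero (fun b _ => chi_neg (fun h => h2 b h.2)), add_zero, zero_add]
        apply chi_congr
        rw [h5]
        exact ⟨fun h => ⟨h4, h.1⟩, fun h => ⟨h.2, h3⟩⟩
      · have h1 : V <:+ x :: l ↔ V <:+ l := by
          rw [List.suffix_cons_iff]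
          simp [hVl]
        have h1' : chi (V <:+ x :: l ∧ (((x :: l).length : ℕ) : ZMod M) =
            r + ((V.length : ℕ) : ZMod M)) =
            chi (V <:+ l ∧ ((l.length : ℕ) : ZMod M) = r - 1 + ((V.length : ℕ) : ZMod M)) :=
          chi_congr (and_congr h1 hlen)
        rw [h1']
        congr 1
        by_cases hr : r = 0 ∧ V <+: x :: l
        · obtain ⟨s, hs⟩ := hr.2
          cases s with
          | nil => exact absurd (by simpa using hs) hVl
          | cons y s =>
            rw [chi_pos hr, Finset.sum_eq_single y]
            · rw [chi_pos]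
              refine ⟨hr.1, s, ?_⟩
              rw [← hs]; simp
            · intro b _ hb
              rw [chi_neg]
              rintro ⟨_, s', hs'⟩
              rw [← hs] at hs'
              have : b :: s' = y :: s := by
                apply List.append_cancel_left (as := V)
                simpa using hs'
              exact hb (List.cons.inj this).1
            · intro h0; exact absurd (Finset.mem_univ _) h0
        · rw [chi_neg hr]
          symm
          apply Finset.sum_eq_zero
          intro b _
          rw [chi_neg]
          rintro ⟨h2, h3⟩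
          exact hr ⟨h2, (List.prefix_append _ _).trans h3⟩
    omega

theorem oc_left_aux [Fintype B] {M : ℕ} {V : List B} (hV : V ≠ []) (l : List B) :
    ∀ (r : ZMod M) (x : B), ∑ b : B, oc (b :: V) r (x :: l) = oc V r l := by
  induction l with
  | nil =>
    intro r x
    simp only [oc_cons, oc_nil, add_zero]
    apply Finset.sum_eq_zero
    intro b _
    rw [chi_neg]
    rintro ⟨_, h⟩
    have h1 := h.length_le
    have h2 := List.length_pos_iff.2 hV
    simp at h1
    exact hV h1
  | cons y l ih =>
    intro r x
    have h1 : ∀ b : B, oc (b :: V) r (x :: y :: l) =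
        chi (r = 0 ∧ b :: V <+: x :: y :: l) + oc (b :: V) (r - 1) (y :: l) :=
      fun b => rfl
    simp only [h1]
    rw [Finset.sum_add_distrib, ih, oc_cons]
    congr 1
    rw [Finset.sum_eq_single x]
    · apply chi_congr
      constructor
      · rintro ⟨h2, s, hs⟩
        exact ⟨h2, s, by simpa using hs⟩
      · rintro ⟨h2, s, hs⟩
        exact ⟨h2, s, by simpa using hs⟩
    · intro b _ hb
      rw [chi_neg]
      rintro ⟨_, s, hs⟩
      simp only [List.cons_append, List.cons.injEq] at hs
      exact hb hs.1
    · intro h0; exact absurd (Finset.mem_univ _) h0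

theorem oc_left [Fintype B] {M : ℕ} {V : List B} (hV : V ≠ []) (r : ZMod M) (l : List B) :
    oc V r l = chi (r = 0 ∧ V <+: l) + ∑ b : B, oc (b :: V) (r - 1) l := by
  cases l with
  | nil =>
    simp only [oc_nil, Finset.sum_const_zero, add_zero]
    rw [chi_neg]
    rintro ⟨_, h⟩
    exact hV (List.prefix_nil.1 h)
  | cons x l => rw [oc_left_aux hV, oc_cons]

variable {c : B → List A} [Finite B]

theorem ME.chi (hc : Code c) {S : Set (List B)} (hS : H c 1 S) (M : ℕ) [NeZero M] :
    ME c (fun l : List B => ((FC.chi (l ∈ S) : ℕ) : ZMod M)) := by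
  classical
  have h3 := ME.ind hc hS ((1 : ℕ) : ZMod M) ((0 : ℕ) : ZMod M)
  convert h3 using 2 with l
  by_cases h5 : l ∈ S
  · rw [chi_pos h5, if_pos h5]
  · rw [chi_neg h5, if_neg h5]

theorem ME.suffix (hc : Code c) (V : List B) {m : ℕ} [NeZero m] (r : ZMod m) (M : ℕ) [NeZero M] :
    ME c (fun l : List B => ((FC.chi (V <:+ l ∧ ((l.length : ℕ) : ZMod m) =
      r + ((V.length : ℕ) : ZMod m)) : ℕ) : ZMod M)) := by
  have h1 : H c 1 {l : List B | V <:+ l} := by
    have : {l : List B | V <:+ l} = cat Set.univ {V} := by
      ext l
      constructor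
      · rintro ⟨s, rfl⟩; exact ⟨s, trivial, V, rfl, rfl⟩
      · rintro ⟨s, _, _, rfl, rfl⟩; exact ⟨s, rfl⟩
    rw [this]
    exact H.univ.cat (H.finite (Set.finite_singleton _))
  exact ME.chi hc (h1.inter hc (ME.length (c := c) m (r + ((V.length : ℕ) : ZMod m)))) M

theorem ME.pfx (hc : Code c) (V : List B) (p : Prop) (M : ℕ) [NeZero M] :
    ME c (fun l : List B => ((FC.chi (p ∧ V <+: l) : ℕ) : ZMod M)) := by
  have h1 : H c 1 {l : List B | V <+: l} := by
    have : {l : List B | V <+: l} = cat {V} Set.univ := by
      ext l
      constructor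
      · rintro ⟨s, rfl⟩; exact ⟨V, rfl, s, trivial, rfl⟩
      · rintro ⟨_, rfl, s, _, rfl⟩; exact ⟨s, rfl⟩
    rw [this]
    exact (H.finite (Set.finite_singleton _)).cat H.univ
  exact ME.chi hc (H.prop p h1) M

end Boundary

end Pool.Agent.GSH.FC
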