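import Pool.Agent.GSH.FCCount

/-!
# Finite codes and abelian groups
-/

set_option autoImplicit false

namespace Pool.Agent.GSH.FC

open Pool.Agent.GSH

variable {A B : Type}

/-- number of all occurrences of the word `V` -/
noncomputable def tot (V : List B) (l : List B) : ℕ := oc V (0 : ZMod 1) l

theorem tot_eq_sum {M : ℕ} [NeZero M] (V l : List B) :
    tot V l = ∑ r : ZMod M, oc V r l := by
  classical
  unfold tot
  rw [oc_coarse (one_dvd M) V 0 l, Finset.filter_true_of_mem]
  intro s _
  exact Subsingleton.elim _ _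

theorem tot_right [Fintype B] {V : List B} (hV : V ≠ []) (l : List B) :
    tot V l = (∑ b : B, tot (V ++ [b]) l) +
      chi (V <:+ l ∧ ((l.length : ℕ) : ZMod 1) = 0 + ((V.length : ℕ) : ZMod 1)) :=
  oc_right hV 0 l

theorem tot_single [DecidableEq B] (b : B) (l : List B) : tot [b] l = l.count b := by
  unfold tot
  have h0 : ∀ r : ZMod 1, r = 0 := fun r => Subsingleton.elim _ _
  induction l with
  | nil => rfl
  | cons x l ih =>
    rw [oc_cons, h0 (0 - 1), ih, List.count_cons]
    by_cases hx : x = b
    · subst hx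
      rw [chi_pos ⟨rfl, l, rfl⟩]
      simp [Nat.add_comm]
    · rw [chi_neg]
      · simp [hx]
      · rintro ⟨_, s, hs⟩
        simp only [List.cons_append, List.nil_append, List.cons.injEq] at hs
        exact hx hs.1.symm

section Tree

variable {c : B → List A} [Finite A] [Finite B]

theorem tree (hc : Code c) (M : ℕ) [NeZero M] : ∀ (n : ℕ) (V : List B), V ≠ [] →
    (∀ γ : List B, γ.length = n → ∃ i ≤ n, ¬ NP (E c (V ++ γ.take i))) →
    ME c (fun l => ((tot V l : ℕ) : ZMod M)) := by
  classical
  let _ := Fintype.ofFinite B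
  have base : ∀ V : List B, ¬ NP (E c V) → ME c (fun l => ((tot V l : ℕ) : ZMod M)) :=
    fun V hV => kill_coarse hc hV (one_dvd _) M 0
  intro n
  induction n with
  | zero =>
    intro V _ hP
    obtain ⟨i, hi, h⟩ := hP [] rfl
    exact base V (by simpa using h)
  | succ n ih =>
    intro V hV hP
    by_cases hN : NP (E c V)
    · have h1 : ∀ b : B, ME c (fun l => ((tot (V ++ [b]) l : ℕ) : ZMod M)) := by
        intro b
        refine ih (V ++ [b]) (by simp) ?_
        intro γ hγ
        obtain ⟨i, hi, h⟩ := hP (b :: γ) (by simp [hγ])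
        cases i with
        | zero => exact absurd (by simpa using hN) h
        | succ i =>
          refine ⟨i, by omega, ?_⟩
          rw [List.take_succ_cons] at h
          simpa [List.append_assoc] using h
      have h2 := ME.sum hc Finset.univ (fun b _ => h1 b)
      have h3 := ME.suffix hc V (m := 1) 0 M
      refine (h2.comp₂ hc h3 (fun x y => x + y)).determined (fun l l' h => ?_)
      rw [tot_right hV l, tot_right hV l']
      push_cast
      exact h
    · exact base V hN

omit [Finite A] in
theorem exists_bound (c : B → List A) : ∃ D, ∀ b, (c b).length ≤ D := by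
  let _ := Fintype.ofFinite B
  exact ⟨Finset.univ.sup (fun b => (c b).length), fun b =>
    Finset.le_sup (f := fun b => (c b).length) (Finset.mem_univ b)⟩

/-- nonconstant words can be counted -/
theorem nonconst (hc : Code c) (M : ℕ) [NeZero M] {V : List B} (hV : ¬ ∃ b, ∀ x ∈ V, x = b)
    (hV0 : V ≠ []) : ME c (fun l => ((tot V l : ℕ) : ZMod M)) := by
  obtain ⟨D, hD⟩ := exists_bound c
  refine tree hc M (2 * D + 3) V hV0 (fun γ hγ => ?_)
  by_contra h
  push Not at h
  exact hV (core hc hD hV0 (by omega) h)

omit [Finite B] in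
theorem run_succ (b : B) (n : ℕ) : rep n [b] ++ [b] = rep (n + 1) [b] := (rep_succ' n [b]).symm

/-- from runs of length `n + 1` to runs of length `n` -/
theorem run_down (hc : Code c) (M : ℕ) [NeZero M] (b : B) {n : ℕ} (hn : 1 ≤ n)
    (h : ME c (fun l => ((tot (rep (n + 1) [b]) l : ℕ) : ZMod M))) :
    ME c (fun l => ((tot (rep n [b]) l : ℕ) : ZMod M)) := by
  classical
  let _ := Fintype.ofFinite B
  have hV : rep n [b] ≠ [] := by
    obtain ⟨n, rfl⟩ : ∃ m, n = m + 1 := ⟨n - 1, by omega⟩
    rw [rep_succ]; simp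
  have h1 : ∀ y : B, ME c (fun l => ((tot (rep n [b] ++ [y]) l : ℕ) : ZMod M)) := by
    intro y
    by_cases hy : y = b
    · subst hy
      rw [run_succ]
      exact h
    · refine nonconst hc M ?_ (by simp)
      rintro ⟨z, hz⟩
      have e1 : y = z := hz y (by simp)
      have e2 : b = z := by
        apply hz
        obtain ⟨n, rfl⟩ : ∃ m, n = m + 1 := ⟨n - 1, by omega⟩
        rw [rep_succ]; simp
      exact hy (e1.trans e2.symm)
  have h2 := ME.sum hc Finset.univ (fun y _ => h1 y)
  have h3 := ME.suffix hc (rep n [b]) (m := 1) 0 M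
  refine (h2.comp₂ hc h3 (fun x y => x + y)).determined (fun l l' h => ?_)
  rw [tot_right hV l, tot_right hV l']
  push_cast
  exact h

theorem run_down' (hc : Code c) (M : ℕ) [NeZero M] (b : B) (n : ℕ)
    (h : ME c (fun l => ((tot (rep (n + 1) [b]) l : ℕ) : ZMod M))) :
    ME c (fun l => ((tot (rep 1 [b]) l : ℕ) : ZMod M)) := by
  induction n with
  | zero => exact h
  | succ n ih => exact ih (run_down hc M b (by omega) h)

/-- long runs -/
theorem run_long (hc : Code c) (M : ℕ) [NeZero M] (b : B) {D : ℕ} (hD : ∀ b, (c b).length ≤ D)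
    {n : ℕ} (hn : D + 2 ≤ n) (hM : M ∣ n + 1) :
    ME c (fun l => ((tot (rep n [b]) l : ℕ) : ZMod M)) := by
  classical
  let _ := Fintype.ofFinite B
  set V : List B := rep n [b] with hVdef
  have hV : V ≠ [] := by
    rw [hVdef]
    obtain ⟨n, rfl⟩ : ∃ m, n = m + 1 := ⟨n - 1, by omega⟩
    rw [rep_succ]; simp
  have hVl : V.length = n := by rw [hVdef, length_rep]; simp
  -- the functions
  have hR : ∀ (y : B), y ≠ b → ∀ r : ZMod M, ME c (fun l => ((oc (V ++ [y]) r l : ℕ) : ZMod M)) :=
    fun y hy r => kill_coarse hc (hc.prim_run hD hy hn).1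
      (by rw [List.length_append, hVl]; exact hM) M r
  have hL : ∀ (y : B), y ≠ b → ∀ r : ZMod M, ME c (fun l => ((oc (y :: V) r l : ℕ) : ZMod M)) :=
    fun y hy r => kill_coarse hc (hc.prim_run hD hy hn).2
      (by show M ∣ ([y] ++ V).length; rw [List.length_append, hVl, Nat.add_comm]; exact hM) M r
  have e1 : V ++ [b] = b :: V := by
    rw [hVdef, run_succ, rep_succ]; rfl
  -- difference of consecutive phases
  have step : ∀ r : ZMod M, ME c (fun l => ((oc V r l : ℕ) : ZMod M) - ((oc V (r + 1) l : ℕ) : ZMod M)) := by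
    intro r
    have s1 := ME.sum hc (Finset.univ.erase b) (fun y hy => hR y (Finset.ne_of_mem_erase hy) r)
    have s2 := ME.sum hc (Finset.univ.erase b) (fun y hy => hL y (Finset.ne_of_mem_erase hy) r)
    have s3 := ME.suffix hc V r M
    have s4 := ME.pfx hc V (r + 1 = 0) M
    have s5 := (s1.comp₂ hc s3 (fun x y => x + y)).comp₂ hc
      (s2.comp₂ hc s4 (fun x y => x + y)) (fun x y => x - y)
    refine s5.determined (fun l l' h => ?_)
    have key : ∀ l : List B, ((oc V r l : ℕ) : ZMod M) - ((oc V (r + 1) l : ℕ) : ZMod M) =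
        (∑ y ∈ Finset.univ.erase b, ((oc (V ++ [y]) r l : ℕ) : ZMod M)) +
        ((chi (V <:+ l ∧ ((l.length : ℕ) : ZMod M) = r + ((V.length : ℕ) : ZMod M)) : ℕ) : ZMod M) -
        ((∑ y ∈ Finset.univ.erase b, ((oc (y :: V) r l : ℕ) : ZMod M)) +
        ((chi (r + 1 = 0 ∧ V <+: l) : ℕ) : ZMod M)) := by
      intro l
      rw [oc_right hV r l, oc_left hV (r + 1) l, add_sub_cancel_right,
        ← Finset.add_sum_erase Finset.univ (fun y => oc (V ++ [y]) r l) (Finset.mem_univ b),
        ← Finset.add_sum_erase Finset.univ (fun y => oc (y :: V) r l) (Finset.mem_univ b), e1]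
      push_cast
      ring
    rw [key l, key l']
    exact h
  have diff : ∀ j : ℕ, ME c (fun l => ((oc V ((j : ℕ) : ZMod M) l : ℕ) : ZMod M) -
      ((oc V (0 : ZMod M) l : ℕ) : ZMod M)) := by
    intro j
    induction j with
    | zero =>
      refine (ME.const (c := c) (0 : ZMod M)).determined (fun l l' _ => ?_)
      simp
    | succ j ih =>
      refine (ih.comp₂ hc (step ((j : ℕ) : ZMod M)) (fun x y => x - y)).determined
        (fun l l' h => ?_)
      have key : ∀ l : List B, ((oc V (((j + 1 : ℕ)) : ZMod M) l : ℕ) : ZMod M) -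
          ((oc V (0 : ZMod M) l : ℕ) : ZMod M) =
          (((oc V ((j : ℕ) : ZMod M) l : ℕ) : ZMod M) - ((oc V (0 : ZMod M) l : ℕ) : ZMod M)) -
          (((oc V ((j : ℕ) : ZMod M) l : ℕ) : ZMod M) -
            ((oc V (((j : ℕ) : ZMod M) + 1) l : ℕ) : ZMod M)) := by
        intro l
        push_cast
        ring
      rw [key l, key l']
      exact h
  have tsum := ME.sum hc (Finset.univ : Finset (ZMod M)) (fun r _ => diff r.val)
  refine tsum.determined (fun l l' h => ?_)
  have key : ∀ l : List B, ((tot V l : ℕ) : ZMod M) =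
      ∑ r : ZMod M, (((oc V ((r.val : ℕ) : ZMod M) l : ℕ) : ZMod M) -
        ((oc V (0 : ZMod M) l : ℕ) : ZMod M)) := by
    intro l
    rw [tot_eq_sum (M := M) V l, Finset.sum_sub_distrib, Finset.sum_const, Finset.card_univ,
      ZMod.card, nsmul_eq_mul, ZMod.natCast_self, zero_mul, sub_zero]
    push_cast
    refine Finset.sum_congr rfl (fun r _ => ?_)
    rw [ZMod.natCast_zmod_val]
  rw [key l, key l']
  exact h

/-- The number of the letters `b` modulo `M` is measurable. -/
theorem ME.count (hc : Code c) (M : ℕ) [NeZero M] [DecidableEq B] (b : B) :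
    ME c (fun l => ((l.count b : ℕ) : ZMod M)) := by
  obtain ⟨D, hD⟩ := exists_bound c
  have hM : 1 ≤ M := Nat.one_le_iff_ne_zero.2 (NeZero.ne M)
  have h1 : D + 2 ≤ M * (D + 3) - 1 := by
    have : D + 3 ≤ M * (D + 3) := Nat.le_mul_of_pos_left _ hM
    omega
  have h2 : M ∣ M * (D + 3) - 1 + 1 := by
    rw [Nat.sub_add_cancel (by omega)]
    exact Dvd.intro _ rfl
  have h3 := run_long hc M b hD h1 h2
  obtain ⟨k, hk⟩ : ∃ k, M * (D + 3) - 1 = k + 1 := ⟨M * (D + 3) - 2, by omega⟩
  rw [hk] at h3
  have h4 := run_down' hc M b k h3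
  rw [rep_one] at h4
  refine h4.determined (fun l l' h => ?_)
  simpa [tot_single] using h

end Tree

/-- The product of the values in a finite abelian group is measurable. -/
theorem ME.abelian [Finite A] [Finite B] {c : B → List A} (hc : Code c) {G : Type} [CommGroup G]
    [Finite G] (φ : B → G) : ME c (fun l => (l.map φ).prod) := by
  classical
  let _ := Fintype.ofFinite B
  have : NeZero (Nat.card G) := ⟨Nat.card_pos.ne'⟩
  have h1 := ME.pi hc (fun b : B => ME.count hc (Nat.card G) b)
  refine h1.determined (fun l l' h => ?_)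
  have key : ∀ l : List B, (l.map φ).prod = ∏ b : B, φ b ^ l.count b := by
    intro l
    induction l with
    | nil => simp
    | cons x l ih =>
      rw [List.map_cons, List.prod_cons, ih]
      have : ∀ b : B, φ b ^ (x :: l).count b = (if b = x then φ b else 1) * φ b ^ l.count b := by
        intro b
        rw [List.count_cons]
        by_cases hb : b = x
        · subst hb
          simp [pow_succ, mul_comm]
        · have hb' : ¬ x = b := fun h => hb h.symm
          simp [hb, hb']
      simp only [this]
      rw [Finset.prod_mul_distrib, Finset.prod_ite_eq']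
      simp
  rw [key l, key l']
  refine Finset.prod_congr rfl (fun b _ => ?_)
  have hb := congrFun h b
  rw [ZMod.natCast_eq_natCast_iff] at hb
  exact pow_eq_pow_iff_modEq.2 (hb.of_dvd (orderOf_dvd_natCard (φ b)))

/-- The closure of the languages of finite abelian groups under Boolean operations and
concatenation. -/
inductive AbCl {B : Type} : Set (List B) → Prop
  | group {G : Type} [CommGroup G] [Finite G] (φ : B → G) (T : Set G) :
      AbCl {l : List B | (l.map φ).prod ∈ T}
  | word (v : List B) : AbCl {v}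
  | compl {K : Set (List B)} : AbCl K → AbCl Kᶜ
  | union {K L : Set (List B)} : AbCl K → AbCl L → AbCl (K ∪ L)
  | inter {K L : Set (List B)} : AbCl K → AbCl L → AbCl (K ∩ L)
  | cat {K L : Set (List B)} : AbCl K → AbCl L → AbCl (cat K L)

theorem main_code [Finite A] [Finite B] {c : B → List A} (hc : Code c) {L : Set (List B)}
    (hL : AbCl L) : H c 1 L := by
  induction hL with
  | group φ T => exact (ME.abelian hc φ).preimage T
  | word v => exact H.finite (Set.finite_singleton v)
  | compl _ ih => exact ih.compl hc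
  | union _ _ ih1 ih2 => exact ih1.union ih2
  | inter _ _ ih1 ih2 => exact ih1.inter hc ih2
  | cat _ _ ih1 ih2 => exact ih1.cat ih2

end Pool.Agent.GSH.FC
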