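import Pool.Agent.GSH.FCCode

/-!
# Measurable functions on the words over a code, the tick lemma
-/

set_option autoImplicit false

namespace Pool.Agent.GSH.FC

open Pool.Agent.GSH

variable {A B : Type}

theorem ht_word (n : ℕ) (w : List A) : Ht n {w} := by
  induction w with
  | nil => exact Ht.one n
  | cons a w ih =>
    have : ({a :: w} : Set (List A)) = cat {[a]} {w} := by
      ext x
      constructor
      · rintro rfl; exact ⟨[a], rfl, w, rfl, rfl⟩
      · rintro ⟨_, rfl, _, rfl, rfl⟩; rfl
    rw [this]
    exact (Ht.letter n a).cat ih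

theorem ht_finite (n : ℕ) {S : Set (List A)} (hS : S.Finite) : Ht n S := by
  refine Set.Finite.induction_on _ hS (Ht.empty n) ?_
  intro a s _ _ ih
  rw [Set.insert_eq]
  exact (ht_word n a).union ih

/-- the encoded language has height at most `n` -/
def H (c : B → List A) (n : ℕ) (S : Set (List B)) : Prop := Ht n (E c '' S)

section H

variable {c : B → List A} {n : ℕ}

theorem H.mono {m : ℕ} (hnm : n ≤ m) {S : Set (List B)} (h : H c n S) : H c m S :=
  Ht.mono hnm h

theorem H.union {S T : Set (List B)} (hS : H c n S) (hT : H c n T) : H c n (S ∪ T) := by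
  unfold H
  rw [Set.image_union]
  exact Ht.union hS hT

theorem H.iUnion {ι : Type*} [Finite ι] {S : ι → Set (List B)} (h : ∀ i, H c n (S i)) :
    H c n (⋃ i, S i) := by
  unfold H
  rw [Set.image_iUnion]
  exact Ht.iUnion h

theorem H.finite {S : Set (List B)} (hS : S.Finite) : H c n S := ht_finite n (hS.image _)

theorem H.prop (p : Prop) {S : Set (List B)} (h : H c n S) : H c n {l | p ∧ l ∈ S} := by
  by_cases hp : p
  · simpa [hp] using h
  · have : {l | p ∧ l ∈ S} = ∅ := by ext l; simp [hp]
    rw [this]
    exact H.finite Set.finite_empty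

theorem image_cat (c : B → List A) (S T : Set (List B)) :
    E c '' (cat S T) = cat (E c '' S) (E c '' T) := by
  ext w
  constructor
  · rintro ⟨_, ⟨u, hu, v, hv, rfl⟩, rfl⟩
    exact ⟨_, ⟨u, hu, rfl⟩, _, ⟨v, hv, rfl⟩, (E_append c u v).symm⟩
  · rintro ⟨_, ⟨u, hu, rfl⟩, _, ⟨v, hv, rfl⟩, rfl⟩
    exact ⟨u ++ v, ⟨u, hu, v, hv, rfl⟩, E_append c u v⟩

theorem H.cat {S T : Set (List B)} (hS : H c n S) (hT : H c n T) : H c n (cat S T) := by
  unfold H
  rw [image_cat]
  exact Ht.cat hS hT

theorem image_star (c : B → List A) (S : Set (List B)) : E c '' (star S) = star (E c '' S) := by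
  ext w
  constructor
  · rintro ⟨_, ⟨l, hl, rfl⟩, rfl⟩
    refine ⟨l.map (E c), ?_, ?_⟩
    · intro u hu
      rw [List.mem_map] at hu
      obtain ⟨v, hv, rfl⟩ := hu
      exact ⟨v, hl v hv, rfl⟩
    · clear hl
      induction l with
      | nil => rfl
      | cons x l ih => rw [List.map_cons, List.flatten_cons, List.flatten_cons, E_append, ih]
  · rintro ⟨l, hl, rfl⟩
    induction l with
    | nil => exact ⟨[], nil_mem_star S, rfl⟩
    | cons x l ih =>
      obtain ⟨u, hu, hx⟩ := hl x (by simp)
      obtain ⟨v, hv, hx'⟩ := ih (fun y hy => hl y (by simp [hy]))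
      refine ⟨u ++ v, star_append (mem_star_of_mem hu) hv, ?_⟩
      rw [E_append, hx, hx', List.flatten_cons]

theorem H.star {S : Set (List B)} (hS : H c n S) : H c (n + 1) (star S) := by
  unfold H
  rw [image_star]
  exact Ht.star hS

theorem finite_length [Finite B] (q : ℕ) : {l : List B | l.length = q}.Finite :=
  List.finite_length_eq B q

theorem star_length_one : star {l : List B | l.length = 1} = Set.univ := by
  ext l
  refine ⟨fun _ => trivial, fun _ => ?_⟩
  induction l with
  | nil => exact nil_mem_star _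
  | cons b l ih =>
    exact star_append (u := [b]) (mem_star_of_mem rfl) (ih trivial)

theorem H.univ [Finite B] : H c 1 (Set.univ : Set (List B)) := by
  rw [← star_length_one]
  exact H.star (H.finite (finite_length 1))

theorem H.compl [Finite B] (hc : Code c) {S : Set (List B)} (hS : H c 1 S) : H c 1 Sᶜ := by
  unfold H
  have : E c '' Sᶜ = E c '' Set.univ ∩ (E c '' S)ᶜ := by
    rw [Set.compl_eq_univ_sdiff, Set.image_sdiff hc]
    rfl
  rw [this]
  exact Ht.inter H.univ (Ht.compl hS)

theorem H.inter (hc : Code c) {S T : Set (List B)} (hS : H c n S) (hT : H c n T) :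
    H c n (S ∩ T) := by
  unfold H
  rw [Set.image_inter hc]
  exact Ht.inter hS hT

theorem H.iInter [Finite B] (hc : Code c) {ι : Type*} [Finite ι] {S : ι → Set (List B)}
    (h : ∀ i, H c 1 (S i)) : H c 1 (⋂ i, S i) := by
  have : (⋂ i, S i) = (⋃ i, (S i)ᶜ)ᶜ := by
    rw [Set.compl_iUnion]; simp
  rw [this]
  exact H.compl hc (H.iUnion (fun i => H.compl hc (h i)))

end H

/-- the level sets of `F` give languages of height at most one -/
def ME (c : B → List A) {X : Type*} (F : List B → X) : Prop := ∀ x, H c 1 {l | F l = x}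

section ME

variable {c : B → List A} {X Y : Type*}

theorem ME.const [Finite B] (x : X) : ME c (fun _ : List B => x) := by
  intro y
  by_cases h : x = y
  · simpa [h] using H.univ (c := c)
  · simpa [h] using H.finite (c := c) (n := 1) Set.finite_empty

theorem ME.prod (hc : Code c) {f : List B → X} {g : List B → Y} (hf : ME c f) (hg : ME c g) :
    ME c (fun w => (f w, g w)) := by
  rintro ⟨x, y⟩
  have : {w : List B | (f w, g w) = (x, y)} = {w | f w = x} ∩ {w | g w = y} := by
    ext w; simp
  rw [this]
  exact (hf x).inter hc (hg y)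

theorem ME.pi [Finite B] (hc : Code c) {ι : Type*} [Finite ι] {X : ι → Type*}
    {f : ∀ i, List B → X i} (hf : ∀ i, ME c (f i)) : ME c (fun w i => f i w) := by
  intro x
  have : {w : List B | (fun i => f i w) = x} = ⋂ i, {w | f i w = x i} := by
    ext w; simp [funext_iff]
  rw [this]
  exact H.iInter hc (fun i => hf i (x i))

theorem ME.determined [Finite X] {f : List B → X} {g : List B → Y} (hf : ME c f)
    (h : ∀ w w', f w = f w' → g w = g w') : ME c g := by
  intro y
  have : {w : List B | g w = y} =
      ⋃ x : X, {w | (∃ w0, f w0 = x ∧ g w0 = y) ∧ w ∈ {w | f w = x}} := by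
    ext w
    simp only [Set.mem_iUnion]
    constructor
    · intro hw
      exact ⟨f w, ⟨w, rfl, hw⟩, rfl⟩
    · rintro ⟨x, ⟨w0, h1, h2⟩, h3⟩
      have h3' : f w = x := h3
      show g w = y
      rw [← h2]
      exact h w w0 (by rw [h3', h1])
  rw [this]
  exact H.iUnion (fun x => H.prop _ (hf x))

theorem ME.comp [Finite X] {f : List B → X} (hf : ME c f) (h : X → Y) :
    ME c (fun w => h (f w)) :=
  hf.determined (fun w w' e => by rw [e])

theorem ME.comp₂ [Finite X] [Finite Y] (hc : Code c) {Z : Type*} {f : List B → X}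
    {g : List B → Y} (hf : ME c f) (hg : ME c g) (h : X → Y → Z) :
    ME c (fun w => h (f w) (g w)) :=
  (hf.prod hc hg).comp (fun p => h p.1 p.2)

theorem ME.preimage [Finite X] {f : List B → X} (hf : ME c f) (T : Set X) :
    H c 1 {w | f w ∈ T} := by
  have := hf.comp (fun x => x ∈ T) True
  simpa using this

theorem ME.sum [Finite B] (hc : Code c) {ι R : Type*} [AddCommMonoid R] [Finite R]
    {f : ι → List B → R} (s : Finset ι) (hf : ∀ i ∈ s, ME c (f i)) :
    ME c (fun w => ∑ i ∈ s, f i w) := by
  classical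
  induction s using Finset.induction_on with
  | empty => simpa using ME.const (c := c) (0 : R)
  | insert a s ha ih =>
    have h1 := ih (fun i hi => hf i (Finset.mem_insert_of_mem hi))
    have h2 := hf a (Finset.mem_insert_self a s)
    have := h2.comp₂ hc h1 (fun x y => x + y)
    simpa [Finset.sum_insert ha] using this

/-- indicator functions -/
theorem ME.ind [Finite B] (hc : Code c) {S : Set (List B)} (hS : H c 1 S) {R : Type*} (a b : R)
    [DecidablePred (· ∈ S)] : ME c (fun l => if l ∈ S then a else b) := by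
  have h : ME c (fun l => l ∈ S) := by
    intro p
    by_cases hp : p
    · have : {l : List B | (l ∈ S) = p} = S := by ext l; simp [hp]
      rw [this]; exact hS
    · have : {l : List B | (l ∈ S) = p} = Sᶜ := by ext l; simp [hp]
      rw [this]; exact hS.compl hc
  refine h.determined (fun w w' e => ?_)
  have e' : w ∈ S ↔ w' ∈ S := iff_of_eq e
  by_cases hw : w ∈ S
  · rw [if_pos hw, if_pos (e'.1 hw)]
  · rw [if_neg hw, if_neg (fun h => hw (e'.2 h))]

end ME

/-! ### The tick lemma -/

/-- products of `n` words of `K` -/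
def pw (K : Set (List B)) (n : ℕ) : Set (List B) :=
  {l | ∃ ks : List (List B), ks.length = n ∧ (∀ k ∈ ks, k ∈ K) ∧ ks.flatten = l}

theorem pw_zero (K : Set (List B)) : pw K 0 = {[]} := by
  ext l
  constructor
  · rintro ⟨ks, h1, _, rfl⟩
    rw [List.eq_nil_of_length_eq_zero h1]; rfl
  · rintro rfl
    exact ⟨[], rfl, by simp, rfl⟩

theorem pw_succ (K : Set (List B)) (n : ℕ) : pw K (n + 1) = cat K (pw K n) := by
  ext l
  constructor
  · rintro ⟨ks, h1, h2, rfl⟩
    cases ks with
    | nil => exact absurd h1 (by simp)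
    | cons k ks =>
      exact ⟨k, h2 k (by simp), ks.flatten,
        ⟨ks, by simpa using h1, fun x hx => h2 x (by simp [hx]), rfl⟩, by simp⟩
  · rintro ⟨k, hk, _, ⟨ks, h1, h2, rfl⟩, rfl⟩
    refine ⟨k :: ks, by simp [h1], ?_, by simp⟩
    intro x hx
    rcases List.mem_cons.1 hx with rfl | hx
    · exact hk
    · exact h2 x hx

theorem H.pw {c : B → List A} {n : ℕ} {K : Set (List B)} (hK : H c n K) (m : ℕ) :
    H c n (pw K m) := by
  induction m with
  | zero => rw [pw_zero]; exact H.finite (Set.finite_singleton _)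
  | succ m ih => rw [pw_succ]; exact hK.cat ih

theorem split_pw {K : Set (List B)} (M ρ : ℕ) : ∀ (a : ℕ) (ks : List (List B)),
    ks.length = M * a + ρ → (∀ k ∈ ks, k ∈ K) → ks.flatten ∈ cat (star (pw K M)) (pw K ρ) := by
  intro a
  induction a with
  | zero =>
    intro ks h1 h2
    exact ⟨[], nil_mem_star _, ks.flatten, ⟨ks, by simpa using h1, h2, rfl⟩, rfl⟩
  | succ a ih =>
    intro ks h1 h2
    have h3 : M ≤ ks.length := by rw [h1]; nlinarith
    obtain ⟨u, hu, v, hv, huv⟩ := ih (ks.drop M) (by rw [List.length_drop, h1]; rw [Nat.mul_succ]; omega)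
      (fun k hk => h2 k (List.mem_of_mem_drop hk))
    refine ⟨(ks.take M).flatten ++ u, star_append (mem_star_of_mem ?_) hu, v, hv, ?_⟩
    · exact ⟨ks.take M, by rw [List.length_take]; omega,
        fun k hk => h2 k (List.mem_of_mem_take hk), rfl⟩
    · rw [List.append_assoc, huv, ← List.flatten_append, List.take_append_drop]

theorem star_pw {K : Set (List B)} (M : ℕ) {s : List B} (hs : s ∈ star (pw K M)) :
    ∃ ks : List (List B), (∀ k ∈ ks, k ∈ K) ∧ ks.flatten = s ∧ ((ks.length : ℕ) : ZMod M) = 0 := by
  obtain ⟨l, hl, rfl⟩ := hs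
  induction l with
  | nil => exact ⟨[], by simp, rfl, by simp⟩
  | cons x l ih =>
    obtain ⟨ks, h1, h2, h3⟩ := ih (fun y hy => hl y (by simp [hy]))
    obtain ⟨ks', g1, g2, rfl⟩ := hl x (by simp)
    refine ⟨ks' ++ ks, ?_, by rw [List.flatten_append, h2, List.flatten_cons], ?_⟩
    · intro k hk
      rcases List.mem_append.1 hk with hk | hk
      · exact g2 k hk
      · exact h1 k hk
    · rw [List.length_append, g1, Nat.cast_add, h3, ZMod.natCast_self, add_zero]

/-- The tick lemma. -/
theorem tick {c : B → List A} {K R : Set (List B)} (hK : H c 0 K) (hR : H c 1 R) {M : ℕ}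
    [NeZero M] (m : List B → ZMod M)
    (hdec : ∀ l, ∃ ks : List (List B), ∃ r, (∀ k ∈ ks, k ∈ K) ∧ r ∈ R ∧ l = ks.flatten ++ r)
    (hm : ∀ (ks : List (List B)) (r : List B), (∀ k ∈ ks, k ∈ K) → r ∈ R →
      m (ks.flatten ++ r) = ((ks.length : ℕ) : ZMod M)) : ME c m := by
  intro y
  have : {l | m l = y} = cat (star (pw K M)) (cat (pw K y.val) R) := by
    ext l
    constructor
    · intro hl
      obtain ⟨ks, r, h1, h2, rfl⟩ := hdec l
      have hl' : m (ks.flatten ++ r) = y := hl
      rw [hm ks r h1 h2] at hl'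
      have h3 : ks.length % M = y.val := by rw [← hl', ZMod.val_natCast]
      obtain ⟨u, hu, v, hv, huv⟩ := split_pw M y.val (ks.length / M) ks
        (by rw [← h3]; exact (Nat.div_add_mod _ _).symm) h1
      exact ⟨u, hu, v ++ r, ⟨v, hv, r, h2, rfl⟩, by rw [← List.append_assoc, huv]⟩
    · rintro ⟨s, hs, _, ⟨_, ⟨ks2, h1, h2, rfl⟩, r, hr, rfl⟩, rfl⟩
      obtain ⟨ks1, g1, rfl, g3⟩ := star_pw M hs
      show m _ = y
      rw [← List.append_assoc, ← List.flatten_append, hm (ks1 ++ ks2) r ?_ hr]
      · rw [List.length_append, Nat.cast_add, g3, h1, zero_add, ZMod.natCast_zmod_val]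
      · intro k hk
        rcases List.mem_append.1 hk with hk | hk
        · exact g1 k hk
        · exact h2 k hk
  rw [this]
  exact (H.star (hK.pw M)).cat (((hK.pw _).mono (by omega)).cat hR)

/-- the length modulo `M` -/
theorem ME.length [Finite B] {c : B → List A} (M : ℕ) [NeZero M] :
    ME c (fun l => ((l.length : ℕ) : ZMod M)) := by
  refine tick (K := {l | l.length = 1}) (R := {[]}) (H.finite (finite_length 1))
    (H.finite (Set.finite_singleton _)) _ ?_ ?_
  · intro l
    induction l with
    | nil => exact ⟨[], [], by simp, rfl, rfl⟩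
    | cons b l ih =>
      obtain ⟨ks, r, h1, h2, h3⟩ := ih
      refine ⟨[b] :: ks, r, ?_, h2, by rw [h3]; simp⟩
      intro k hk
      rcases List.mem_cons.1 hk with rfl | hk
      · rfl
      · exact h1 k hk
  · rintro ks r h1 rfl
    congr 1
    rw [List.append_nil]
    induction ks with
    | nil => rfl
    | cons k ks ih =>
      rw [List.flatten_cons, List.length_append, List.length_cons,
        ih (fun x hx => h1 x (by simp [hx])), show k.length = 1 from h1 k (by simp)]
      omega

/-- shifting by a prefix of fixed length -/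
theorem ME.shift [Finite B] {c : B → List A} {X : Type*} {F G : List B → X} (j : ℕ)
    (hF : ME c F) (h : ∀ s l, s.length = j → G (s ++ l) = F l) : ME c G := by
  intro x
  have : {l | G l = x} = cat {s | s.length = j} {l | F l = x} ∪ {l | l.length < j ∧ G l = x} := by
    ext l
    constructor
    · intro hl
      have hl' : G l = x := hl
      rcases Nat.lt_or_ge l.length j with h1 | h1
      · exact Or.inr ⟨h1, hl⟩
      · left
        refine ⟨l.take j, by show (l.take j).length = j; rw [List.length_take]; omega, l.drop j, ?_,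
          List.take_append_drop j l⟩
        show F _ = x
        rw [← h (l.take j) (l.drop j) (by rw [List.length_take]; omega), List.take_append_drop]
        exact hl'
    · rintro (⟨s, hs, l, hl, rfl⟩ | ⟨_, h2⟩)
      · show G _ = x
        rw [h s l hs]; exact hl
      · exact h2
  rw [this]
  refine ((H.finite (finite_length j)).cat (hF x)).union (H.finite ?_)
  refine Set.Finite.subset (s := {l : List B | l.length < j}) ?_ (fun l hl => hl.1)
  exact List.finite_length_lt B j

end Pool.Agent.GSH.FC
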