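import Pool.Agent.GSH.Meas

/-!
# Combinatorics on words: commuting words, primitive words, centralizers are star-free
-/

set_option autoImplicit false

namespace Pool.Agent.GSH.FC

open Pool.Agent.GSH

variable {A : Type}

theorem length_rep (n : ℕ) (u : List A) : (rep n u).length = n * u.length := by
  induction n with
  | zero => simp [rep_zero]
  | succ n ih => rw [rep_succ, List.length_append, ih]; ring

theorem rep_nil (n : ℕ) : rep n ([] : List A) = [] := by
  induction n with
  | zero => exact rep_zero _
  | succ n ih => rw [rep_succ, ih]; rfl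

theorem rep_rep (m n : ℕ) (u : List A) : rep m (rep n u) = rep (m * n) u := by
  induction m with
  | zero => simp [rep_zero]
  | succ m ih => rw [rep_succ, ih, ← rep_add]; congr 1; ring

/-- commuting words are powers of a common word -/
theorem comm_powers_aux : ∀ (n : ℕ) (u v : List A), u.length + v.length ≤ n → u ++ v = v ++ u →
    ∃ z a b, u = rep a z ∧ v = rep b z := by
  intro n
  induction n with
  | zero =>
    intro u v h _
    have hu : u = [] := List.eq_nil_of_length_eq_zero (by omega)
    have hv : v = [] := List.eq_nil_of_length_eq_zero (by omega)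
    exact ⟨[], 0, 0, by rw [hu, rep_zero], by rw [hv, rep_zero]⟩
  | succ n ih =>
    intro u v h e
    rcases Nat.eq_zero_or_pos u.length with hu | hu
    · exact ⟨v, 0, 1, by rw [List.eq_nil_of_length_eq_zero hu, rep_zero], (rep_one v).symm⟩
    rcases Nat.eq_zero_or_pos v.length with hv | hv
    · exact ⟨u, 1, 0, (rep_one u).symm, by rw [List.eq_nil_of_length_eq_zero hv, rep_zero]⟩
    rcases List.append_eq_append_iff.1 e with ⟨x, h1, h2⟩ | ⟨x, h1, h2⟩
    · have hl : v.length = u.length + x.length := by rw [h1, List.length_append]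
      obtain ⟨z, a, b, h3, h4⟩ := ih u x (by omega) (h1.symm.trans h2)
      exact ⟨z, a, a + b, h3, by rw [rep_add, ← h3, ← h4]; exact h1⟩
    · have hl : u.length = v.length + x.length := by rw [h1, List.length_append]
      obtain ⟨z, a, b, h3, h4⟩ := ih v x (by omega) (h1.symm.trans h2)
      exact ⟨z, a + b, a, by rw [rep_add, ← h3, ← h4]; exact h1, h3⟩

theorem comm_powers {u v : List A} (e : u ++ v = v ++ u) : ∃ z a b, u = rep a z ∧ v = rep b z :=
  comm_powers_aux _ u v le_rfl e

/-- proper powers -/
def NP (W : List A) : Prop := ∃ t j, 2 ≤ j ∧ W = rep j t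

theorem NP.nil : NP ([] : List A) := ⟨[], 2, le_rfl, (rep_nil 2).symm⟩

theorem ne_nil_of_not_NP {W : List A} (h : ¬ NP W) : W ≠ [] := by
  rintro rfl; exact h NP.nil

theorem exists_root : ∀ (n : ℕ) (W : List A), W.length ≤ n → W ≠ [] →
    ∃ t j, ¬ NP t ∧ 1 ≤ j ∧ W = rep j t := by
  intro n
  induction n with
  | zero =>
    intro W h h1
    exact absurd (List.eq_nil_of_length_eq_zero (by omega)) h1
  | succ n ih =>
    intro W h h1
    by_cases hW : NP W
    · obtain ⟨t, j, hj, rfl⟩ := hW
      have ht : t ≠ [] := by rintro rfl; exact h1 (rep_nil j)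
      have htl : 0 < t.length := List.length_pos_iff.2 ht
      rw [length_rep] at h
      obtain ⟨t', j', h2, h3, h4⟩ := ih t (by nlinarith) ht
      refine ⟨t', j * j', h2, Nat.mul_pos (by omega) h3, ?_⟩
      rw [← rep_rep, ← h4]
    · exact ⟨W, 1, hW, le_rfl, (rep_one W).symm⟩

theorem exists_root' {W : List A} (h : NP W) (h1 : W ≠ []) :
    ∃ t j, ¬ NP t ∧ 2 ≤ j ∧ W = rep j t := by
  obtain ⟨t, j, h2, h3, h4⟩ := exists_root _ W le_rfl h1
  refine ⟨t, j, h2, ?_, h4⟩
  by_contra hj
  have : j = 1 := by omega
  subst this
  rw [rep_one] at h4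
  exact h2 (h4 ▸ h)

theorem eq_of_power {t z : List A} {a : ℕ} (h : ¬ NP t) (e : t = rep a z) : t = z := by
  rcases Nat.lt_or_ge a 2 with ha | ha
  · have : a = 0 ∨ a = 1 := by omega
    rcases this with rfl | rfl
    · rw [rep_zero] at e
      exact absurd (e ▸ NP.nil) h
    · rwa [rep_one] at e
  · exact absurd ⟨z, a, ha, e⟩ h

theorem prim_comm {t t' : List A} (h : ¬ NP t) (h' : ¬ NP t') (e : t ++ t' = t' ++ t) :
    t = t' := by
  obtain ⟨z, a, b, h1, h2⟩ := comm_powers e
  rw [eq_of_power h h1, eq_of_power h' h2]

theorem power_of_comm {t w : List A} (h : ¬ NP t) (e : w ++ t = t ++ w) : ∃ a, w = rep a t := by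
  obtain ⟨z, a, b, h1, h2⟩ := comm_powers e
  rw [← eq_of_power h h2] at h1
  exact ⟨a, h1⟩

theorem NP_of_comm {u v : List A} (hu : u ≠ []) (hv : v ≠ []) (e : u ++ v = v ++ u) :
    NP (u ++ v) := by
  obtain ⟨z, a, b, h1, h2⟩ := comm_powers e
  refine ⟨z, a + b, ?_, by rw [rep_add, ← h1, ← h2]⟩
  have ha : a ≠ 0 := by rintro rfl; exact hu (by rw [h1, rep_zero])
  have hb : b ≠ 0 := by rintro rfl; exact hv (by rw [h2, rep_zero])
  omega

theorem rep_rot (n : ℕ) (u v : List A) : v ++ rep n (u ++ v) ++ u = rep (n + 1) (v ++ u) := by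
  induction n with
  | zero => rw [rep_zero, rep_one]; simp
  | succ n ih => rw [rep_succ, rep_succ, ← ih]; simp [List.append_assoc]

theorem NP.conj {a b : List A} (h : NP (a ++ b)) : NP (b ++ a) := by
  obtain ⟨t, j, hj, e⟩ := h
  obtain ⟨n, rfl⟩ : ∃ n, j = n + 1 := ⟨j - 1, by omega⟩
  obtain ⟨i, k, u1, u2, hu, hik, ha, hb⟩ := rep_cut e
  refine ⟨u2 ++ u1, n + 1, hj, ?_⟩
  rw [← rep_rot, ha, hb, ← hu, ← hik, Nat.add_comm i k, rep_add]
  simp [List.append_assoc]

theorem comm_rep {u v : List A} (e : u ++ v = v ++ u) (k : ℕ) : u ++ rep k v = rep k v ++ u := by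
  induction k with
  | zero => rw [rep_zero]; simp
  | succ k ih => rw [rep_succ, ← List.append_assoc, e, List.append_assoc, ih, List.append_assoc]

theorem eq_of_prefix {a b X : List A} (ha : a <+: X) (hb : b <+: X) (h : a.length = b.length) :
    a = b :=
  (List.prefix_of_prefix_length_le ha hb h.le).eq_of_length h

theorem append_prefix {a b : List A} (u : List A) (h : a <+: b) : u ++ a <+: u ++ b := by
  obtain ⟨s, rfl⟩ := h
  exact ⟨s, by simp⟩

theorem prefix_rep {X v : List A} (h : X <+: v ++ X) (k : ℕ) : X <+: rep k v ++ X := by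
  induction k with
  | zero => rw [rep_zero]; simp
  | succ k ih =>
    refine h.trans ?_
    rw [rep_succ, List.append_assoc]
    exact append_prefix v ih

theorem prefix_rep' {X v : List A} (h : X <+: v ++ X) (k : ℕ) (hk : X.length ≤ (rep k v).length) :
    X <+: rep k v :=
  List.prefix_of_prefix_length_le (prefix_rep h k) (List.prefix_append _ _) hk

theorem root_comm {W W' t t' : List A} {j j' : ℕ} (hW : W = rep j t) (hW' : W' = rep j' t')
    (hj : 1 ≤ j) (hj' : 1 ≤ j') (hp : W <+: W') (hlen : t.length + t'.length ≤ W.length) :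
    t ++ t' = t' ++ t := by
  obtain ⟨j, rfl⟩ : ∃ n, j = n + 1 := ⟨j - 1, by omega⟩
  obtain ⟨j', rfl⟩ : ∃ n, j' = n + 1 := ⟨j' - 1, by omega⟩
  have hWW := hp.length_le
  have e1 : W = t ++ rep j t := by rw [hW, rep_succ]
  have e2 : W = rep j t ++ t := by rw [hW, rep_succ']
  have e3 : W' = t' ++ rep j' t' := by rw [hW', rep_succ]
  have e4 : W' = rep j' t' ++ t' := by rw [hW', rep_succ']
  have l2 : W.length = (rep j t).length + t.length := by rw [e2, List.length_append]
  have l4 : W'.length = (rep j' t').length + t'.length := by rw [e4, List.length_append]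
  have p1 : t' <+: W' := ⟨_, e3.symm⟩
  have p2 : t' <+: W := List.prefix_of_prefix_length_le p1 hp (by omega)
  have p3 : t' <+: rep j t :=
    List.prefix_of_prefix_length_le p2 ⟨_, e2.symm⟩ (by omega)
  have p4 : t ++ t' <+: W' := by
    refine List.IsPrefix.trans ?_ hp
    rw [e1]
    exact append_prefix t p3
  have p5 : t <+: W' := List.IsPrefix.trans ⟨_, e1.symm⟩ hp
  have p6 : t <+: rep j' t' :=
    List.prefix_of_prefix_length_le p5 ⟨_, e4.symm⟩ (by omega)
  have p7 : t' ++ t <+: W' := by
    rw [e3]
    exact append_prefix t' p6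
  exact eq_of_prefix p4 p7 (by simp [Nat.add_comm])

/-- three consecutive squares -/
theorem core3 {t1 t2 t3 e1 e2 : List A} (h1 : t2 ++ t2 = t1 ++ t1 ++ e1)
    (h2 : t3 ++ t3 = t2 ++ t2 ++ e2) (he1 : e1 ≠ []) (he2 : e2 ≠ [])
    (hl : e1.length + e2.length ≤ 2 * t1.length) : NP t2 := by
  have hl1 := congrArg List.length h1
  have hl2 := congrArg List.length h2
  simp only [List.length_append] at hl1 hl2
  have g1 : 0 < e1.length := List.length_pos_iff.2 he1
  have g2 : 0 < e2.length := List.length_pos_iff.2 he2
  obtain ⟨u, rfl⟩ : t1 <+: t2 :=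
    List.prefix_of_prefix_length_le (l₃ := t2 ++ t2) ⟨t1 ++ e1, by rw [h1]; simp⟩
      (List.prefix_append _ _) (by omega)
  obtain ⟨v, rfl⟩ : (t1 ++ u) <+: t3 :=
    List.prefix_of_prefix_length_le (l₃ := t3 ++ t3) ⟨(t1 ++ u) ++ e2, by rw [h2]; simp⟩
      (List.prefix_append _ _) (by rw [List.length_append]; simp only [List.length_append] at hl1 hl2; omega)
  simp only [List.length_append] at hl1 hl2
  have hu : 0 < u.length := by omega
  have hv : 0 < v.length := by omega
  have hu' : u ≠ [] := List.length_pos_iff.1 hu
  have ht' : t1 ≠ [] := List.length_pos_iff.1 (by omega)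
  -- the periods
  have q1 : u ++ (t1 ++ u) = t1 ++ e1 := by
    have : t1 ++ (u ++ (t1 ++ u)) = t1 ++ (t1 ++ e1) := by
      simpa [List.append_assoc] using h1
    exact List.append_cancel_left this
  have q2 : v ++ ((t1 ++ u) ++ v) = (t1 ++ u) ++ e2 := by
    have : (t1 ++ u) ++ (v ++ ((t1 ++ u) ++ v)) = (t1 ++ u) ++ ((t1 ++ u) ++ e2) := by
      simpa [List.append_assoc] using h2
    exact List.append_cancel_left this
  have p1 : t1 <+: u ++ t1 := by
    refine List.prefix_of_prefix_length_le (l₃ := t1 ++ e1) (List.prefix_append _ _) ?_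
      (by simp)
    rw [← q1, ← List.append_assoc]
    exact List.prefix_append _ _
  have p2 : t1 ++ u <+: v ++ (t1 ++ u) := by
    refine List.prefix_of_prefix_length_le (l₃ := (t1 ++ u) ++ e2) (List.prefix_append _ _) ?_
      (by simp)
    rw [← q2]
    exact append_prefix v (List.prefix_append _ _)
  have p3 : t1 <+: v ++ t1 := by
    refine List.prefix_of_prefix_length_le (l₃ := v ++ (t1 ++ u))
      ((List.prefix_append _ _).trans p2) ?_ (by simp)
    exact append_prefix v (List.prefix_append _ _)
  have p4 : v <+: t1 := List.prefix_of_prefix_length_le (List.prefix_append _ _) p3 (by omega)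
  have p5 : u <+: t1 := List.prefix_of_prefix_length_le (List.prefix_append _ _) p1 (by omega)
  have p6 : u ++ v <+: t1 := by
    refine List.prefix_of_prefix_length_le (l₃ := u ++ t1) (append_prefix u p4) p1 ?_
    rw [List.length_append]; omega
  have p7 : v ++ u <+: t1 := by
    refine List.prefix_of_prefix_length_le (l₃ := v ++ t1) (append_prefix v p5) p3 ?_
    rw [List.length_append]; omega
  have huv : u ++ v = v ++ u := eq_of_prefix p6 p7 (by simp [Nat.add_comm])
  -- t2 = t1 ++ u is a prefix of a power of v
  have p8 : t1 ++ u <+: rep (t1 ++ u).length v := by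
    refine prefix_rep' p2 _ ?_
    rw [length_rep]
    nlinarith
  have p9 : t1 ++ u <+: u ++ (t1 ++ u) := by
    refine List.prefix_of_prefix_length_le (l₃ := u ++ rep (t1 ++ u).length v) ?_
      (append_prefix u p8) (by simp)
    rw [comm_rep huv]
    exact p8.trans (List.prefix_append _ _)
  have p10 : t1 ++ u = u ++ t1 := by
    refine eq_of_prefix (X := u ++ (t1 ++ u)) p9 ?_ (by simp [Nat.add_comm])
    exact append_prefix u (List.prefix_append _ _)
  exact NP_of_comm ht' hu' p10

/-- A long power of a word followed by a word which does not commute with it is primitive. -/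
theorem prim_run {p e : List A} {n : ℕ} (hc : p ++ e ≠ e ++ p)
    (hn : e.length + 2 * p.length ≤ n * p.length) : ¬ NP (rep n p ++ e) := by
  intro h
  have hp : p ≠ [] := by rintro rfl; exact hc (by simp)
  have hpl : 0 < p.length := List.length_pos_iff.2 hp
  have hne : rep n p ++ e ≠ [] := by
    intro h0
    have := congrArg List.length h0
    simp only [List.length_append, length_rep, List.length_nil] at this
    omega
  obtain ⟨t, j, ht, hj, hW⟩ := exists_root' h hne
  have hlen := congrArg List.length hW
  simp only [List.length_append, length_rep] at hlen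
  have h2 : 2 * t.length ≤ j * t.length := Nat.mul_le_mul_right _ hj
  have hn1 : 1 ≤ n := by
    by_contra h0
    have : n = 0 := by omega
    subst this
    omega
  have hcom : p ++ t = t ++ p :=
    root_comm (W := rep n p) (W' := rep n p ++ e) rfl hW hn1 (by omega)
      (List.prefix_append _ _) (by rw [length_rep]; omega)
  obtain ⟨a, ha⟩ := power_of_comm ht hcom
  -- e commutes with t
  have h3 : e ++ t = t ++ e := by
    have h4 : rep n p ++ (e ++ t) = rep n p ++ (t ++ e) := by
      have h5 : rep n p ++ t = t ++ rep n p := by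
        rw [ha, rep_rep]
        exact (comm_rep rfl _).symm
      rw [← List.append_assoc, hW, ← List.append_assoc, h5, List.append_assoc, hW]
      exact (comm_rep rfl _).symm
    exact List.append_cancel_left h4
  obtain ⟨b, hb⟩ := power_of_comm ht h3
  apply hc
  rw [ha, hb, ← rep_add, ← rep_add, Nat.add_comm]

/-! ### Centralizers are star-free -/

section Centralizer

variable (u : List A)

open Classical in
/-- the rotation automaton -/
noncomputable def rstep (s : Option {v : List A // v.length = u.length}) (a : A) :
    Option {v : List A // v.length = u.length} :=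
  match s with
  | none => none
  | some v => if v.1.head? = some a then some ⟨v.1.rotate 1, by rw [List.length_rotate]; exact v.2⟩
      else none

theorem rstep_none (w : List A) : List.foldl (rstep u) none w = none := by
  induction w with
  | nil => rfl
  | cons a w ih => exact ih

theorem foldl_rstep (hu : u ≠ []) (w : List A) (v v' : {v : List A // v.length = u.length}) :
    List.foldl (rstep u) (some v) w = some v' ↔ w ++ v'.1 = v.1 ++ w := by
  induction w generalizing v with
  | nil =>
    simp only [List.foldl_nil, Option.some.injEq, List.nil_append, List.append_nil]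
    constructor
    · rintro rfl; rfl
    · intro h; exact Subtype.ext h.symm
  | cons a w ih =>
    rw [List.foldl_cons]
    obtain ⟨v, hv⟩ := v
    cases v with
    | nil => exact absurd (List.eq_nil_of_length_eq_zero (by simpa using hv.symm)) hu
    | cons b t =>
      by_cases hab : b = a
      · subst hab
        have h1 : rstep u (some ⟨b :: t, hv⟩) b =
            some ⟨(b :: t).rotate 1, by rw [List.length_rotate]; exact hv⟩ := by
          simp [rstep]
        rw [h1, ih]
        have h2 : (b :: t).rotate 1 = t ++ [b] := by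
          rw [List.rotate_cons_succ, List.rotate_zero]
        simp only [h2]
        simp
      · have h1 : rstep u (some ⟨b :: t, hv⟩) a = none := by
          simp [rstep, hab]
        rw [h1, rstep_none]
        constructor
        · intro h; exact absurd h (by simp)
        · intro h
          simp only [List.cons_append, List.cons.injEq] at h
          exact absurd h.1.symm hab

theorem ht_centralizer [Finite A] : Ht 0 {w : List A | w ++ u = u ++ w} := by
  by_cases hu : u = []
  · subst hu
    have : {w : List A | w ++ [] = [] ++ w} = Set.univ := by ext w; simp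
    rw [this]
    exact Ht.univ 0
  have hfin : Finite {v : List A // v.length = u.length} :=
    (List.finite_length_eq A u.length).to_subtype
  have hul : 0 < u.length := List.length_pos_iff.2 hu
  have main := autom_starfree (rstep u) ?_ (some ⟨u, rfl⟩) (some ⟨u, rfl⟩)
  · convert main using 1
    ext w
    exact (foldl_rstep u hu w ⟨u, rfl⟩ ⟨u, rfl⟩).symm
  · intro w s
    cases s with
    | none => exact ⟨0, by rw [rstep_none, rstep_none]⟩
    | some v =>
      by_cases hd : ∃ m, List.foldl (rstep u) (some v) (rep m w) = none
      · obtain ⟨m, hm⟩ := hd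
        refine ⟨m, ?_⟩
        rw [rep_succ', List.foldl_append, hm, rstep_none]
      · push Not at hd
        refine ⟨0, ?_⟩
        rw [rep_zero, List.foldl_nil, zero_add, rep_one, foldl_rstep u hu]
        rcases Nat.eq_zero_or_pos w.length with hw | hw
        · rw [List.eq_nil_of_length_eq_zero hw]; simp
        obtain ⟨v', hv'⟩ := Option.ne_none_iff_exists'.1 (hd (u.length + 1))
        rw [foldl_rstep u hu] at hv'
        have hvl : v.1.length = u.length := v.2
        have p0 : v.1 <+: rep u.length w := by
          refine List.prefix_of_prefix_length_le (l₃ := v.1 ++ rep (u.length + 1) w)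
            (List.prefix_append _ _) ?_ ?_
          · rw [← hv', rep_succ', List.append_assoc]
            exact List.prefix_append _ _
          · rw [length_rep, hvl]
            nlinarith
        refine eq_of_prefix (X := v.1 ++ rep (u.length + 1) w) ?_ ?_ (by simp [Nat.add_comm])
        · rw [← hv', rep_succ, List.append_assoc]
          exact append_prefix w (p0.trans (List.prefix_append _ _))
        · rw [rep_succ]
          exact append_prefix v.1 (List.prefix_append _ _)

theorem star_singleton_eq {u : List A} (hu : ¬ NP u) :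
    star {u} = {w : List A | w ++ u = u ++ w} := by
  ext w
  constructor
  · rintro ⟨l, hl, rfl⟩
    show l.flatten ++ u = u ++ l.flatten
    induction l with
    | nil => simp
    | cons x l ih =>
      have hx : x = u := hl x (by simp)
      subst hx
      rw [List.flatten_cons, List.append_assoc, ih (fun y hy => hl y (by simp [hy]))]
  · intro h
    obtain ⟨a, rfl⟩ := power_of_comm hu h
    refine ⟨List.replicate a u, ?_, rfl⟩
    intro x hx
    rw [List.mem_replicate] at hx
    exact hx.2

/-- the star of a primitive word is star-free -/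
theorem ht_star_prim [Finite A] {u : List A} (hu : ¬ NP u) : Ht 0 (star {u}) := by
  rw [star_singleton_eq hu]
  exact ht_centralizer u

end Centralizer

end Pool.Agent.GSH.FC
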