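import Pool.Agent.GSH.Basic

/-!
# Finite syntactic index of the languages denoted by extended regular expressions
-/

set_option autoImplicit false

namespace Pool.Agent.GSH

universe u

variable {A : Type u}

/-- `L` is recognised through a function with finite range, compatible with all contexts. -/
def FinData (L : Set (List A)) : Prop :=
  ∃ (D : Type u) (_ : Finite D) (d : List A → D), ∀ u v, d u = d v →
    ∀ x y : List A, x ++ u ++ y ∈ L → x ++ v ++ y ∈ L

theorem FinData.compl {L : Set (List A)} (h : FinData L) : FinData Lᶜ := by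
  obtain ⟨D, hD, d, hd⟩ := h
  refine ⟨D, hD, d, fun u v huv x y hx hv => hx (hd v u huv.symm x y hv)⟩

theorem FinData.union {K L : Set (List A)} (hK : FinData K) (hL : FinData L) :
    FinData (K ∪ L) := by
  obtain ⟨D, hD, d, hd⟩ := hK
  obtain ⟨E, hE, e, he⟩ := hL
  refine ⟨D × E, inferInstance, fun w => (d w, e w), fun u v huv x y hx => ?_⟩
  simp only [Prod.mk.injEq] at huv
  rcases hx with hx | hx
  · exact Or.inl (hd u v huv.1 x y hx)
  · exact Or.inr (he u v huv.2 x y hx)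

theorem FinData.inter {K L : Set (List A)} (hK : FinData K) (hL : FinData L) :
    FinData (K ∩ L) := by
  obtain ⟨D, hD, d, hd⟩ := hK
  obtain ⟨E, hE, e, he⟩ := hL
  refine ⟨D × E, inferInstance, fun w => (d w, e w), fun u v huv x y hx => ?_⟩
  simp only [Prod.mk.injEq] at huv
  exact ⟨hd u v huv.1 x y hx.1, he u v huv.2 x y hx.2⟩

theorem FinData.finite {L : Set (List A)} (h : L.Finite) : FinData L := by
  classical
  -- the longest word of L
  obtain ⟨N, hN⟩ : ∃ N : ℕ, ∀ w ∈ L, w.length ≤ N := by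
    obtain ⟨N, hN⟩ := (h.image List.length).bddAbove
    exact ⟨N, fun w hw => hN ⟨w, hw, rfl⟩⟩
  -- factors of words of L
  let F : Set (List A) := {u | ∃ x y, x ++ u ++ y ∈ L}
  have hF : F.Finite := by
    have : F ⊆ ⋃ w ∈ L, {u | u ∈ (w.inits.flatMap List.tails)} := by
      rintro u ⟨x, y, hxy⟩
      refine Set.mem_biUnion hxy ?_
      simp only [Set.mem_ofPred_eq, List.mem_flatMap, List.mem_inits, List.mem_tails]
      exact ⟨x ++ u, ⟨y, rfl⟩, ⟨x, rfl⟩⟩
    refine Set.Finite.subset ?_ this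
    exact h.biUnion (fun w _ => List.finite_toSet _)
  have := hF.to_subtype
  refine ⟨Option F, inferInstance, fun w => if hw : w ∈ F then some ⟨w, hw⟩ else none,
    fun u v huv x y hx => ?_⟩
  have hu : u ∈ F := ⟨x, y, hx⟩
  simp only [hu, dif_pos] at huv
  by_cases hv : v ∈ F
  · simp only [hv, dif_pos, Option.some.injEq, Subtype.mk.injEq] at huv
    rwa [← huv]
  · simp [hv] at huv

/-- splitting `x ++ u ++ y` -/
theorem split3 {x u y p q : List A} (h : p ++ q = x ++ u ++ y) :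
    (∃ x1 x2, x = x1 ++ x2 ∧ p = x1 ∧ q = x2 ++ u ++ y) ∨
    (∃ u1 u2, u = u1 ++ u2 ∧ p = x ++ u1 ∧ q = u2 ++ y) ∨
    (∃ y1 y2, y = y1 ++ y2 ∧ p = x ++ u ++ y1 ∧ q = y2) := by
  rw [List.append_assoc] at h
  rcases List.append_eq_append_iff.1 h with ⟨c, hc1, hc2⟩ | ⟨c, hc1, hc2⟩
  · -- x = p ++ c, q = c ++ (u ++ y)
    left
    exact ⟨p, c, hc1, rfl, by rw [hc2, List.append_assoc]⟩
  · -- p = x ++ c, u ++ y = c ++ q
    rcases List.append_eq_append_iff.1 hc2 with ⟨e, he1, he2⟩ | ⟨e, he1, he2⟩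
    · -- c = u ++ e, y = e ++ q
      right; right
      exact ⟨e, q, he2, by rw [hc1, he1, List.append_assoc], rfl⟩
    · -- u = c ++ e, q = e ++ y
      right; left
      exact ⟨c, e, he1, hc1, he2⟩

theorem FinData.cat {K L : Set (List A)} (hK : FinData K) (hL : FinData L) :
    FinData (cat K L) := by
  obtain ⟨D, hD, d, hd⟩ := hK
  obtain ⟨E, hE, e, he⟩ := hL
  refine ⟨(D × E) × Set (D × E), inferInstance,
    fun w => ((d w, e w), {c | ∃ w1 w2, w = w1 ++ w2 ∧ c = (d w1, e w2)}),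
    fun u v huv x y hx => ?_⟩
  simp only [Prod.mk.injEq] at huv
  obtain ⟨⟨h1, h2⟩, h3⟩ := huv
  obtain ⟨p, hp, q, hq, hpq⟩ := hx
  rcases split3 hpq with ⟨x1, x2, hx, rfl, rfl⟩ | ⟨u1, u2, hu, rfl, rfl⟩ | ⟨y1, y2, hy, rfl, rfl⟩
  · refine ⟨p, hp, x2 ++ v ++ y, he u v h2 x2 y hq, ?_⟩
    rw [hx]; simp [List.append_assoc]
  · have : (d u1, e u2) ∈ {c | ∃ w1 w2, v = w1 ++ w2 ∧ c = (d w1, e w2)} := by
      rw [← h3]; exact ⟨u1, u2, hu, rfl⟩
    obtain ⟨v1, v2, hv, hc⟩ := this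
    simp only [Prod.mk.injEq] at hc
    refine ⟨x ++ v1, ?_, v2 ++ y, ?_, ?_⟩
    · have := hd u1 v1 hc.1 x [] (by simpa using hp)
      simpa using this
    · have := he u2 v2 hc.2 [] y (by simpa using hq)
      simpa using this
    · rw [hv]; simp [List.append_assoc]
  · refine ⟨x ++ v ++ y1, hd u v h1 x y1 hp, q, hq, ?_⟩
    rw [hy]; simp [List.append_assoc]

theorem FinData.star {K : Set (List A)} (hK : FinData K) : FinData (star K) := by
  obtain ⟨D, hD, d, hd⟩ := hK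
  -- left data
  let a : List A → Prop × Set D := fun w =>
    (w ∈ GSH.star K, {c | ∃ w1 w2, w = w1 ++ w2 ∧ w2 ∈ GSH.star K ∧ c = d w1})
  let b : List A → Prop × Set D := fun w =>
    (w ∈ GSH.star K, {c | ∃ w1 w2, w = w1 ++ w2 ∧ w1 ∈ GSH.star K ∧ c = d w2})
  have ha : ∀ u v, a u = a v → ∀ x : List A, x ++ u ∈ GSH.star K → x ++ v ∈ GSH.star K := by
    intro u v huv x hx
    simp only [a, Prod.mk.injEq] at huv
    obtain ⟨h1, h2⟩ := huv
    rcases star_split hx with ⟨hx1, hx2⟩ | ⟨p1, p2, q1, q2, hp, hq, hs1, hs2, hs3⟩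
    · exact star_append hx1 (by rw [← h1]; exact hx2)
    · have : d q1 ∈ {c | ∃ w1 w2, v = w1 ++ w2 ∧ w2 ∈ GSH.star K ∧ c = d w1} := by
        rw [← h2]; exact ⟨q1, q2, hq, hs3, rfl⟩
      obtain ⟨v1, v2, hv, hv2, hc⟩ := this
      have := hd q1 v1 hc p2 [] (by simpa using hs2)
      have h4 : x ++ v = p1 ++ ((p2 ++ v1) ++ v2) := by rw [hp, hv]; simp [List.append_assoc]
      rw [h4]
      exact star_append hs1 (star_append (mem_star_of_mem (by simpa using this)) hv2)
  have hb : ∀ u v, b u = b v → ∀ y : List A, u ++ y ∈ GSH.star K → v ++ y ∈ GSH.star K := by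
    intro u v huv y hx
    simp only [b, Prod.mk.injEq] at huv
    obtain ⟨h1, h2⟩ := huv
    rcases star_split hx with ⟨hx1, hx2⟩ | ⟨p1, p2, q1, q2, hp, hq, hs1, hs2, hs3⟩
    · exact star_append (by rw [← h1]; exact hx1) hx2
    · have : d p2 ∈ {c | ∃ w1 w2, v = w1 ++ w2 ∧ w1 ∈ GSH.star K ∧ c = d w2} := by
        rw [← h2]; exact ⟨p1, p2, hp, hs1, rfl⟩
      obtain ⟨v1, v2, hv, hv2, hc⟩ := this
      have := hd p2 v2 hc [] q1 (by simpa using hs2)
      have h4 : v ++ y = v1 ++ ((v2 ++ q1) ++ q2) := by rw [hq, hv]; simp [List.append_assoc]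
      rw [h4]
      exact star_append hv2 (star_append (mem_star_of_mem (by simpa using this)) hs3)
  refine ⟨D × Set ((Prop × Set D) × (Prop × Set D)), inferInstance,
    fun w => (d w, {c | ∃ w1 w2, w = w1 ++ w2 ∧ c = (a w1, b w2)}), fun u v huv x y hx => ?_⟩
  simp only [Prod.mk.injEq] at huv
  obtain ⟨h1, h2⟩ := huv
  have key : (∃ x1 x2 y1 y2, x = x1 ++ x2 ∧ y = y1 ++ y2 ∧ x1 ∈ GSH.star K ∧
      x2 ++ u ++ y1 ∈ K ∧ y2 ∈ GSH.star K) ∨
      (∃ u1 u2, u = u1 ++ u2 ∧ x ++ u1 ∈ GSH.star K ∧ u2 ++ y ∈ GSH.star K) := by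
    rw [List.append_assoc] at hx
    rcases star_split hx with ⟨hx1, hx2⟩ | ⟨p1, p2, q1, q2, hp, hq, hs1, hs2, hs3⟩
    · right
      exact ⟨[], u, by simp, by simpa using hx1, hx2⟩
    · rcases List.append_eq_append_iff.1 hq with ⟨c, hc1, hc2⟩ | ⟨c, hc1, hc2⟩
      · -- q1 = u ++ c, y = c ++ q2
        left
        exact ⟨p1, p2, c, q2, hp, hc2, hs1, by rw [List.append_assoc, ← hc1]; exact hs2, hs3⟩
      · -- u = q1 ++ c, q2 = c ++ y
        right
        refine ⟨q1, c, hc1, ?_, by rw [← hc2]; exact hs3⟩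
        rw [hp, List.append_assoc]
        exact star_append hs1 (mem_star_of_mem hs2)
  rcases key with ⟨x1, x2, y1, y2, hx, hy, hs1, hs2, hs3⟩ | ⟨u1, u2, hu, hs1, hs2⟩
  · have := hd u v h1 x2 y1 hs2
    have h4 : x ++ v ++ y = x1 ++ ((x2 ++ v ++ y1) ++ y2) := by
      rw [hx, hy]; simp [List.append_assoc]
    rw [h4]
    exact star_append hs1 (star_append (mem_star_of_mem this) hs3)
  · have : (a u1, b u2) ∈ {c | ∃ w1 w2, v = w1 ++ w2 ∧ c = (a w1, b w2)} := by
      rw [← h2]; exact ⟨u1, u2, hu, rfl⟩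
    obtain ⟨v1, v2, hv, hc⟩ := this
    simp only [Prod.mk.injEq] at hc
    have h3 := ha u1 v1 hc.1 x hs1
    have h4 := hb u2 v2 hc.2 y hs2
    have h5 : x ++ v ++ y = (x ++ v1) ++ (v2 ++ y) := by rw [hv]; simp [List.append_assoc]
    rw [h5]
    exact star_append h3 h4

theorem Ht.finData {n : ℕ} {L : Set (List A)} (h : Ht n L) : FinData L := by
  induction h with
  | empty n => exact FinData.finite Set.finite_empty
  | one n => exact FinData.finite (Set.finite_singleton _)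
  | letter n a => exact FinData.finite (Set.finite_singleton _)
  | compl _ ih => exact ih.compl
  | union _ _ ih1 ih2 => exact ih1.union ih2
  | inter _ _ ih1 ih2 => exact ih1.inter ih2
  | cat _ _ ih1 ih2 => exact ih1.cat ih2
  | star _ ih => exact ih.star

/-- The set of quotients `u⁻¹ L v⁻¹`. -/
def quots (L : Set (List A)) : Set (Set (List A)) := {X | ∃ u v, X = {w | u ++ w ++ v ∈ L}}

theorem FinData.quots_finite {L : Set (List A)} (h : FinData L) : (quots L).Finite := by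
  obtain ⟨D, hD, d, hd⟩ := h
  have : quots L ⊆ Set.range (fun S : Set D => d ⁻¹' S) := by
    rintro X ⟨u, v, rfl⟩
    refine ⟨d '' {w | u ++ w ++ v ∈ L}, ?_⟩
    ext w
    constructor
    · rintro ⟨w', hw', h⟩
      exact hd w' w h u v hw'
    · intro hw
      exact ⟨w, hw, rfl⟩
  exact (Set.finite_range _).subset this

end Pool.Agent.GSH
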