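import Pool.Agent.GSH.Vec

/-!
# Groups with an abelian normal subgroup and elementary abelian quotient
-/

set_option autoImplicit false

namespace Pool.Agent.GSH

variable {A : Type}

section Core

variable {p : ℕ} [Fact p.Prime] {G : Type} [Group G] {ι : Type} [Fintype ι]
  (χ : ι → G →* Multiplicative (ZMod p))

/-- the vector of the values of the characters -/
def pv (g : G) : ι → ZMod p := fun i => Multiplicative.toAdd (χ i g)

theorem pv_mul (g h : G) : pv χ (g * h) = pv χ g + pv χ h := by
  funext i; simp [pv]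

theorem pv_one : pv χ (1 : G) = 0 := by
  funext i; simp [pv]

theorem pv_inv (g : G) : pv χ g⁻¹ = - pv χ g := by
  funext i; simp [pv]

/-- the joint kernel -/
def jker : Subgroup G where
  carrier := {g | pv χ g = 0}
  mul_mem' := by
    intro a b ha hb
    show pv χ (a * b) = 0
    rw [pv_mul, show pv χ a = 0 from ha, show pv χ b = 0 from hb, add_zero]
  one_mem' := pv_one χ
  inv_mem' := by
    intro a ha
    show pv χ a⁻¹ = 0
    rw [pv_inv, show pv χ a = 0 from ha, neg_zero]

open Classical in
/-- transversal -/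
noncomputable def tr (v : ι → ZMod p) : G := if h : ∃ g, pv χ g = v then h.choose else 1

theorem pv_tr (g : G) : pv χ (tr χ (pv χ g)) = pv χ g := by
  unfold tr
  have h : ∃ g', pv χ g' = pv χ g := ⟨g, rfl⟩
  rw [dif_pos h]
  exact h.choose_spec

open Classical in
/-- cocycle -/
noncomputable def kap (f : A → G) (v : ι → ZMod p) (x : A) : jker χ :=
  if h : tr χ v * f x * (tr χ (v + pv χ (f x)))⁻¹ ∈ jker χ then ⟨_, h⟩ else 1

theorem kap_val (f : A → G) (g : G) (x : A) :
    ((kap χ f (pv χ g) x : jker χ) : G) =
      tr χ (pv χ g) * f x * (tr χ (pv χ (g * f x)))⁻¹ := by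
  unfold kap
  rw [dif_pos]
  · simp only [pv_mul]
  · show pv χ _ = 0
    rw [← pv_mul, pv_mul, pv_mul, pv_inv, pv_tr, pv_tr, pv_mul]
    abel

/-- product of the cocycle along a word -/
noncomputable def pk (f : A → G) : (ι → ZMod p) → List A → jker χ
  | _, [] => 1
  | v, x :: w => kap χ f v x * pk f (v + pv χ (f x)) w

theorem pk_val (f : A → G) (g : G) (w : List A) :
    ((pk χ f (pv χ g) w : jker χ) : G) =
      tr χ (pv χ g) * (w.map f).prod * (tr χ (pv χ (g * (w.map f).prod)))⁻¹ := by
  induction w generalizing g with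
  | nil => simp [pk]
  | cons x w ih =>
    rw [pk, Subgroup.coe_mul, kap_val, ← pv_mul, ih, List.map_cons, List.prod_cons, ← mul_assoc g]
    group

open Classical in
theorem pk_eq_prod [Fintype A] (hc : ∀ x y : jker χ, x * y = y * x) (f : A → G)
    (v : ι → ZMod p) (w : List A) :
    letI : CommGroup (jker χ) := { (inferInstance : Group (jker χ)) with mul_comm := hc }
    pk χ f v w = ∏ t : (ι → ZMod p) × A, kap χ f t.1 t.2 ^ occ (fun x => pv χ (f x)) t.2 t.1 v w := by
  letI : CommGroup (jker χ) := { (inferInstance : Group (jker χ)) with mul_comm := hc }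
  induction w generalizing v with
  | nil => simp [pk, occ]
  | cons x w ih =>
    rw [pk, ih]
    have h1 : ∀ t : (ι → ZMod p) × A,
        kap χ f t.1 t.2 ^ occ (fun x => pv χ (f x)) t.2 t.1 v (x :: w) =
        (if t = (v, x) then kap χ f t.1 t.2 else 1) *
          kap χ f t.1 t.2 ^ occ (fun x => pv χ (f x)) t.2 t.1 (v + pv χ (f x)) w := by
      rintro ⟨u, a⟩
      rw [occ, pow_add]
      congr 1
      by_cases h : x = a ∧ v = u
      · obtain ⟨rfl, rfl⟩ := h
        simp
      · have h' : ¬ (u, a) = (v, x) := by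
          intro e
          simp only [Prod.mk.injEq] at e
          exact h ⟨e.2.symm, e.1.symm⟩
        simp [h, h']
    simp only [h1, Finset.prod_mul_distrib]
    congr 1
    rw [Finset.prod_ite_eq' Finset.univ (v, x) (fun t => kap χ f t.1 t.2)]
    simp

theorem pv_prod [Fintype A] [DecidableEq A] (f : A → G) (w : List A) :
    pv χ (w.map f).prod = ∑ a : A, fun i => (w.count a : ZMod p) * pv χ (f a) i := by
  induction w with
  | nil => 
    funext i
    simp [pv_one]
  | cons x w ih =>
    rw [List.map_cons, List.prod_cons, pv_mul, ih]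
    funext i
    rw [Pi.add_apply, Finset.sum_apply, Finset.sum_apply]
    have : ∀ a : A, ((x :: w).count a : ZMod p) * pv χ (f a) i =
        (if x = a then pv χ (f a) i else 0) + (w.count a : ZMod p) * pv χ (f a) i := by
      intro a
      rw [List.count_cons]
      by_cases h : x = a
      · simp [h]; ring
      · simp [h]
    simp only [this, Finset.sum_add_distrib, Finset.sum_ite_eq, Finset.mem_univ, if_true]

theorem meas_group_core [Finite G] [Finite A]
    (hab : ∀ x y : G, pv χ x = 0 → pv χ y = 0 → x * y = y * x) (f : A → G) :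
    Meas 1 (fun w : List A => (w.map f).prod) := by
  classical
  have hp := (Fact.out : p.Prime).one_lt
  have : NeZero p := ⟨by omega⟩
  have := Fintype.ofFinite A
  have hc : ∀ x y : jker χ, x * y = y * x := fun x y => Subtype.ext (hab x.1 y.1 x.2 y.2)
  set N := Nat.card G with hN
  have : NeZero N := ⟨Nat.card_pos.ne'⟩
  -- the measured data
  have h1 : Meas 1 (fun (w : List A) (t : (ι → ZMod p) × A) =>
      (occ (fun x => pv χ (f x)) t.2 t.1 0 w : ZMod N)) :=
    Meas.pi (fun t => meas_occ_vec _ _ _ _ N)
  have h2 : Meas 1 (fun w : List A => pv χ (w.map f).prod) := by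
    have h3 : Meas 1 (fun w : List A => ∑ a : A, fun i => (w.count a : ZMod p) * pv χ (f a) i) :=
      Meas.sum _ (fun a _ => (meas_count a p).comp (fun x => fun i => x * pv χ (f a) i))
    convert h3 using 2 with w
    exact pv_prod χ f w
  refine (h1.prod h2).determined (fun w w' e => ?_)
  simp only [Prod.mk.injEq] at e
  obtain ⟨e1, e2⟩ := e
  have hpk : pk χ f 0 w = pk χ f 0 w' := by
    letI : CommGroup (jker χ) := { (inferInstance : Group (jker χ)) with mul_comm := hc }
    rw [pk_eq_prod χ hc, pk_eq_prod χ hc]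
    refine Finset.prod_congr rfl (fun t _ => ?_)
    have e3 := congrFun e1 t
    rw [ZMod.natCast_eq_natCast_iff] at e3
    refine pow_eq_pow_of_modEq e3 ?_
    apply Subtype.ext
    show ((kap χ f t.1 t.2 : jker χ) : G) ^ N = 1
    exact pow_card_eq_one'
  have h4 := pk_val χ f 1 w
  have h5 := pk_val χ f 1 w'
  rw [pv_one, one_mul] at h4 h5
  rw [hpk, h5, e2] at h4
  have h6 := mul_right_cancel h4
  exact (mul_left_cancel h6).symm

end Core

end Pool.Agent.GSH
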