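import Pool.Agent.GSH.Fin

/-!
# Group languages: reduction to stars
-/

set_option autoImplicit false

namespace Pool.Agent.GSH

universe u

variable {A : Type u}

/-- powers of a word -/
def rep (n : ℕ) (u : List A) : List A := (List.replicate n u).flatten

theorem rep_zero (u : List A) : rep 0 u = [] := by simp [rep]

theorem rep_succ (n : ℕ) (u : List A) : rep (n + 1) u = u ++ rep n u := by
  simp [rep, List.replicate_succ]

theorem rep_add (m n : ℕ) (u : List A) : rep (m + n) u = rep m u ++ rep n u := by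
  rw [rep, rep, rep, List.replicate_add, List.flatten_append]

theorem rep_one (u : List A) : rep 1 u = u := by simp [rep]

theorem rep_succ' (n : ℕ) (u : List A) : rep (n + 1) u = rep n u ++ u := by
  rw [rep_add, rep_one]

theorem rep_cut {p q u : List A} {n : ℕ} (h : p ++ q = rep (n + 1) u) :
    ∃ i j u1 u2, u = u1 ++ u2 ∧ i + j = n ∧ p = rep i u ++ u1 ∧ q = u2 ++ rep j u := by
  induction n generalizing p with
  | zero =>
    rw [rep_one] at h
    exact ⟨0, 0, p, q, h.symm, rfl, by simp [rep_zero], by simp [rep_zero]⟩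
  | succ n ih =>
    rw [rep_succ] at h
    rcases List.append_eq_append_iff.1 h with ⟨c, hc1, hc2⟩ | ⟨c, hc1, hc2⟩
    · -- u = p ++ c, q = c ++ rep
      exact ⟨0, n + 1, p, c, hc1, by simp, by simp [rep_zero], hc2⟩
    · -- p = u ++ c, rep = c ++ q
      obtain ⟨i, j, u1, u2, hu, hij, hp, hq⟩ := ih (p := c) hc2.symm
      refine ⟨i + 1, j, u1, u2, hu, by omega, ?_, hq⟩
      rw [hc1, hp, rep_succ, List.append_assoc]

/-- `L` does not distinguish the `n`-th and `(n+1)`-st power of `u`. -/
def Abs (u : List A) (L : Set (List A)) (n : ℕ) : Prop :=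
  ∀ x y, x ++ rep n u ++ y ∈ L ↔ x ++ rep (n + 1) u ++ y ∈ L

theorem Abs.succ {u : List A} {L : Set (List A)} {n : ℕ} (h : Abs u L n) : Abs u L (n + 1) := by
  intro x y
  have := h (x ++ u) y
  rw [rep_succ, rep_succ (n + 1)]
  simpa [List.append_assoc] using this

theorem Abs.mono {u : List A} {L : Set (List A)} {n m : ℕ} (hnm : n ≤ m) (h : Abs u L n) :
    Abs u L m := by
  induction hnm with
  | refl => exact h
  | step _ ih => exact ih.succ

theorem Abs.shift {u : List A} {L : Set (List A)} {n i : ℕ} (h : Abs u L n) (hi : n ≤ i)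
    (x y : List A) : x ++ rep i u ++ y ∈ L ↔ x ++ rep (i + 1) u ++ y ∈ L :=
  h.mono hi x y

theorem Abs.cat {u : List A} {K L : Set (List A)} {n m : ℕ} (hK : Abs u K n) (hL : Abs u L m) :
    Abs u (cat K L) (n + m + 1) := by
  intro x y
  constructor
  · rintro ⟨p, hp, q, hq, hpq⟩
    rcases split3 hpq with ⟨x1, x2, hx, rfl, rfl⟩ | ⟨u1, u2, hu, rfl, rfl⟩ |
      ⟨y1, y2, hy, rfl, rfl⟩
    · refine ⟨p, hp, _, (hL.shift (by omega) x2 y).1 hq, ?_⟩
      rw [hx]; simp [List.append_assoc]
    · obtain ⟨i, j, v1, v2, hv, hij, rfl, rfl⟩ := rep_cut hu.symm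
      rcases Nat.lt_or_ge i n with hi | hi
      · refine ⟨_, hp, v2 ++ rep (j + 1) u ++ y, ?_, ?_⟩
        · exact (hL.shift (by omega) v2 y).1 hq
        · have : rep (n + m + 1 + 1) u = rep i u ++ (v1 ++ v2) ++ rep (j + 1) u := by
            rw [← hv, ← hij, ← rep_succ', ← rep_add]; congr 1; omega
          rw [this]; simp [List.append_assoc]
      · refine ⟨x ++ rep (i + 1) u ++ v1, ?_, _, hq, ?_⟩
        · have := (hK.shift (i := i) (by omega) x v1).1 (by simpa [List.append_assoc] using hp)
          exact this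
        · have : rep (n + m + 1 + 1) u = rep (i + 1) u ++ (v1 ++ v2) ++ rep j u := by
            rw [← hv, ← hij, ← rep_succ', ← rep_add]; congr 1; omega
          rw [this]; simp [List.append_assoc]
    · refine ⟨_, (hK.shift (by omega) x y1).1 hp, q, hq, ?_⟩
      rw [hy]; simp [List.append_assoc]
  · rintro ⟨p, hp, q, hq, hpq⟩
    rcases split3 hpq with ⟨x1, x2, hx, rfl, rfl⟩ | ⟨u1, u2, hu, rfl, rfl⟩ |
      ⟨y1, y2, hy, rfl, rfl⟩
    · refine ⟨p, hp, _, (hL.shift (by omega) x2 y).2 hq, ?_⟩
      rw [hx]; simp [List.append_assoc]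
    · obtain ⟨i, j, v1, v2, hv, hij, rfl, rfl⟩ := rep_cut hu.symm
      rcases Nat.lt_or_ge n i with hi | hi
      · obtain ⟨i, rfl⟩ : ∃ k, i = k + 1 := ⟨i - 1, by omega⟩
        refine ⟨x ++ rep i u ++ v1, ?_, _, hq, ?_⟩
        · exact (hK.shift (i := i) (by omega) x v1).2 (by simpa [List.append_assoc] using hp)
        · have : rep (n + m + 1) u = rep i u ++ (v1 ++ v2) ++ rep j u := by
            rw [← hv, ← rep_succ', ← rep_add]; congr 1; omega
          rw [this]; simp [List.append_assoc]
      · obtain ⟨j, rfl⟩ : ∃ k, j = k + 1 := ⟨j - 1, by omega⟩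
        refine ⟨_, hp, v2 ++ rep j u ++ y, ?_, ?_⟩
        · exact (hL.shift (i := j) (by omega) v2 y).2 hq
        · have : rep (n + m + 1) u = rep i u ++ (v1 ++ v2) ++ rep j u := by
            rw [← hv, ← rep_succ', ← rep_add]; congr 1; omega
          rw [this]; simp [List.append_assoc]
    · refine ⟨_, (hK.shift (by omega) x y1).2 hp, q, hq, ?_⟩
      rw [hy]; simp [List.append_assoc]

theorem Abs.finite {u : List A} {L : Set (List A)} (N : ℕ) (h : ∀ w ∈ L, w.length ≤ N) :
    Abs u L (N + 1) := by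
  intro x y
  rcases List.eq_nil_or_concat u with rfl | ⟨v, a, rfl⟩
  · simp [rep]
  · constructor
    · intro hx
      have := h _ hx
      simp [rep, Nat.mul_add] at this
      omega
    · intro hx
      have := h _ hx
      simp [rep, Nat.mul_add] at this
      omega

/-- The words `w`, `w'` have the same contexts with respect to all languages of the family. -/
def Cg (S : Set (Set (List A))) (w w' : List A) : Prop :=
  ∀ L ∈ S, ∀ x y, x ++ w ++ y ∈ L ↔ x ++ w' ++ y ∈ L

theorem Cg.refl (S : Set (Set (List A))) (w : List A) : Cg S w w := fun _ _ _ _ => Iff.rfl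

theorem Cg.symm {S : Set (Set (List A))} {w w' : List A} (h : Cg S w w') : Cg S w' w :=
  fun L hL x y => (h L hL x y).symm

theorem Cg.trans {S : Set (Set (List A))} {w w' w'' : List A} (h : Cg S w w')
    (h' : Cg S w' w'') : Cg S w w'' :=
  fun L hL x y => (h L hL x y).trans (h' L hL x y)

theorem Cg.append {S : Set (Set (List A))} {a a' b b' : List A} (h : Cg S a a')
    (h' : Cg S b b') : Cg S (a ++ b) (a' ++ b') := by
  intro L hL x y
  have h1 := h L hL x (b ++ y)
  have h2 := h' L hL (x ++ a') y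
  simp only [List.append_assoc] at h1 h2 ⊢
  exact h1.trans h2

theorem Cg.rep {S : Set (Set (List A))} {a a' : List A} (h : Cg S a a') (n : ℕ) :
    Cg S (rep n a) (rep n a') := by
  induction n with
  | zero => rw [rep_zero, rep_zero]; exact Cg.refl _ _
  | succ n ih => rw [rep_succ, rep_succ]; exact h.append ih

/-- Idempotent powers. -/
theorem exists_idem_pow {S : Set (Set (List A))} (hS : S.Finite) (hF : ∀ L ∈ S, FinData L)
    (w : List A) : ∃ k, 1 ≤ k ∧ Cg S (GSH.rep k w) (GSH.rep k w ++ GSH.rep k w) := by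
  classical
  -- the finite set of all quotients
  let Q : Set (Set (List A)) := ⋃ L ∈ S, quots L
  have hQ : Q.Finite := hS.biUnion (fun L hL => (hF L hL).quots_finite)
  have := hQ.to_subtype
  obtain ⟨i, j, hij, he⟩ := Finite.exists_ne_map_eq_of_infinite
    (fun k : ℕ => ({X : Q | GSH.rep k w ∈ X.1} : Set Q))
  have key : Cg S (GSH.rep i w) (GSH.rep j w) := by
    intro L hL x y
    have hX : {v | x ++ v ++ y ∈ L} ∈ Q := Set.mem_biUnion hL ⟨x, y, rfl⟩
    have h1 := Set.ext_iff.1 he ⟨_, hX⟩
    exact h1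
  have main : ∀ i j : ℕ, i < j → Cg S (GSH.rep i w) (GSH.rep j w) →
      ∃ k, 1 ≤ k ∧ Cg S (GSH.rep k w) (GSH.rep k w ++ GSH.rep k w) := by
    intro i j hlt hc
    obtain ⟨p, rfl⟩ : ∃ p, j = i + p := ⟨j - i, by omega⟩
    have hp : 1 ≤ p := by omega
    have step : ∀ m, i ≤ m → Cg S (GSH.rep m w) (GSH.rep (m + p) w) := by
      intro m hm
      obtain ⟨d, rfl⟩ : ∃ d, m = i + d := ⟨m - i, by omega⟩
      have h1 := hc.append (Cg.refl S (GSH.rep d w))
      rw [← rep_add, ← rep_add] at h1
      have : i + p + d = i + d + p := by omega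
      rwa [this] at h1
    have steps : ∀ t m, i ≤ m → Cg S (GSH.rep m w) (GSH.rep (m + t * p) w) := by
      intro t
      induction t with
      | zero => intro m _; simpa using Cg.refl S (GSH.rep m w)
      | succ t ih =>
        intro m hm
        have h1 := (ih m hm).trans (step (m + t * p) (by omega))
        have : m + t * p + p = m + (t + 1) * p := by ring
        rwa [this] at h1
    refine ⟨(i + 1) * p, by nlinarith, ?_⟩
    have h1 := steps (i + 1) ((i + 1) * p) (by nlinarith)
    rwa [rep_add] at h1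
  rcases lt_or_gt_of_ne hij with h | h
  · exact main i j h key
  · exact main j i h key.symm

/-- Every language of height at most `n + 1` is absorbing for the words which are idempotent
with respect to finitely many stars of languages of height at most `n`. -/
theorem Ht.abs {m : ℕ} {L : Set (List A)} (h : Ht m L) : ∀ n, m = n + 1 →
    ∃ F : Set (Set (List A)), F.Finite ∧ (∀ K ∈ F, Ht n K) ∧
      ∀ u, Cg (GSH.star '' F) u (u ++ u) → ∃ n0, Abs u L n0 := by
  induction h with
  | empty m =>
    intro n _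
    exact ⟨∅, Set.finite_empty, by simp, fun u _ => ⟨1, Abs.finite 0 (by simp)⟩⟩
  | one m =>
    intro n _
    exact ⟨∅, Set.finite_empty, by simp, fun u _ => ⟨1, Abs.finite 0 (by simp)⟩⟩
  | letter m a =>
    intro n _
    exact ⟨∅, Set.finite_empty, by simp, fun u _ => ⟨2, Abs.finite 1 (by simp)⟩⟩
  | compl _ ih =>
    intro n hn
    obtain ⟨F, h1, h2, h3⟩ := ih n hn
    refine ⟨F, h1, h2, fun u hu => ?_⟩
    obtain ⟨n0, hn0⟩ := h3 u hu
    exact ⟨n0, fun x y => not_congr (hn0 x y)⟩
  | union _ _ ih1 ih2 =>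
    intro n hn
    obtain ⟨F, h1, h2, h3⟩ := ih1 n hn
    obtain ⟨G, g1, g2, g3⟩ := ih2 n hn
    refine ⟨F ∪ G, h1.union g1, ?_, fun u hu => ?_⟩
    · rintro K (hK | hK)
      · exact h2 K hK
      · exact g2 K hK
    · obtain ⟨n0, hn0⟩ := h3 u (fun L hL => hu L (by rw [Set.image_union]; exact Or.inl hL))
      obtain ⟨n1, hn1⟩ := g3 u (fun L hL => hu L (by rw [Set.image_union]; exact Or.inr hL))
      refine ⟨max n0 n1, fun x y => or_congr ?_ ?_⟩
      · exact hn0.shift (le_max_left _ _) x y
      · exact hn1.shift (le_max_right _ _) x y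
  | inter _ _ ih1 ih2 =>
    intro n hn
    obtain ⟨F, h1, h2, h3⟩ := ih1 n hn
    obtain ⟨G, g1, g2, g3⟩ := ih2 n hn
    refine ⟨F ∪ G, h1.union g1, ?_, fun u hu => ?_⟩
    · rintro K (hK | hK)
      · exact h2 K hK
      · exact g2 K hK
    · obtain ⟨n0, hn0⟩ := h3 u (fun L hL => hu L (by rw [Set.image_union]; exact Or.inl hL))
      obtain ⟨n1, hn1⟩ := g3 u (fun L hL => hu L (by rw [Set.image_union]; exact Or.inr hL))
      refine ⟨max n0 n1, fun x y => and_congr ?_ ?_⟩
      · exact hn0.shift (le_max_left _ _) x y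
      · exact hn1.shift (le_max_right _ _) x y
  | cat _ _ ih1 ih2 =>
    intro n hn
    obtain ⟨F, h1, h2, h3⟩ := ih1 n hn
    obtain ⟨G, g1, g2, g3⟩ := ih2 n hn
    refine ⟨F ∪ G, h1.union g1, ?_, fun u hu => ?_⟩
    · rintro K (hK | hK)
      · exact h2 K hK
      · exact g2 K hK
    · obtain ⟨n0, hn0⟩ := h3 u (fun L hL => hu L (by rw [Set.image_union]; exact Or.inl hL))
      obtain ⟨n1, hn1⟩ := g3 u (fun L hL => hu L (by rw [Set.image_union]; exact Or.inr hL))
      exact ⟨_, hn0.cat hn1⟩
  | @star m K hK ih =>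
    intro n hn
    obtain rfl : m = n := by omega
    refine ⟨{K}, Set.finite_singleton _, by simpa using hK, fun u hu => ⟨1, fun x y => ?_⟩⟩
    have := hu (GSH.star K) ⟨K, rfl, rfl⟩ x y
    rw [rep_one, rep_succ, rep_one]
    exact this

/-- The syntactic monoid of `L` is a group. -/
def IsGroupLang (L : Set (List A)) : Prop :=
  ∀ u : List A, ∃ v : List A, ∀ x y : List A,
    (x ++ (u ++ v) ++ y ∈ L ↔ x ++ y ∈ L) ∧ (x ++ (v ++ u) ++ y ∈ L ↔ x ++ y ∈ L)

theorem IsGroupLang.inv {L : Set (List A)} (hL : IsGroupLang L) (u : List A) :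
    ∃ v, Cg {L} (u ++ v) [] ∧ Cg {L} (v ++ u) [] := by
  obtain ⟨v, hv⟩ := hL u
  refine ⟨v, ?_, ?_⟩
  · rintro K rfl x y
    simpa using (hv x y).1
  · rintro K rfl x y
    simpa using (hv x y).2

theorem IsGroupLang.cancel_left {L : Set (List A)} (hL : IsGroupLang L) {w a b : List A}
    (h : Cg {L} (w ++ a) (w ++ b)) : Cg {L} a b := by
  obtain ⟨v, _, hv⟩ := hL.inv w
  have h1 := (Cg.refl {L} v).append h
  rw [← List.append_assoc, ← List.append_assoc] at h1
  have h2 := hv.append (Cg.refl {L} a)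
  have h3 := hv.append (Cg.refl {L} b)
  rw [List.nil_append] at h2 h3
  exact h2.symm.trans (h1.trans h3)

theorem IsGroupLang.cancel_right {L : Set (List A)} (hL : IsGroupLang L) {w a b : List A}
    (h : Cg {L} (a ++ w) (b ++ w)) : Cg {L} a b := by
  obtain ⟨v, hv, _⟩ := hL.inv w
  have h1 := h.append (Cg.refl {L} v)
  rw [List.append_assoc, List.append_assoc] at h1
  have h2 := (Cg.refl {L} a).append hv
  have h3 := (Cg.refl {L} b).append hv
  rw [List.append_nil] at h2 h3
  exact h2.symm.trans (h1.trans h3)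

/-- The main reduction: the syntactic congruence of a group language of height at most `n + 1`
is refined by the syntactic congruence of finitely many stars of languages of height at most
`n`. -/
theorem IsGroupLang.refine {L : Set (List A)} (hL : IsGroupLang L) {n : ℕ} (h : Ht (n + 1) L) :
    ∃ F : Set (Set (List A)), F.Finite ∧ (∀ K ∈ F, Ht n K) ∧
      ∀ w w', Cg (star '' F) w w' → Cg {L} w w' := by
  obtain ⟨F, h1, h2, h3⟩ := h.abs n rfl
  refine ⟨F, h1, h2, ?_⟩
  have step1 : ∀ u, Cg (star '' F) u (u ++ u) → Cg {L} u [] := by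
    intro u hu
    obtain ⟨n0, hn0⟩ := h3 u hu
    have h4 : Cg {L} (rep n0 u ++ []) (rep n0 u ++ u) := by
      rintro K rfl x y
      rw [List.append_nil, ← rep_succ']
      exact hn0 x y
    exact (hL.cancel_left h4).symm
  intro w w' hw
  obtain ⟨k, hk, hidem⟩ := exists_idem_pow (S := star '' F) (h1.image _)
    (by rintro _ ⟨K, hK, rfl⟩; exact ((h2 K hK).star).finData) w
  obtain ⟨k, rfl⟩ : ∃ d, k = d + 1 := ⟨k - 1, by omega⟩
  have h5 : Cg {L} (w ++ rep k w) [] := by
    rw [← rep_succ]; exact step1 _ hidem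
  have h6 : Cg (star '' F) (w' ++ rep k w) (w ++ rep k w) := hw.symm.append (Cg.refl _ _)
  have h7 : Cg (star '' F) (w' ++ rep k w) ((w' ++ rep k w) ++ (w' ++ rep k w)) := by
    refine h6.trans (Cg.trans ?_ (h6.append h6).symm)
    rw [← rep_succ]; exact hidem
  have h8 := step1 _ h7
  exact hL.cancel_right (h5.trans h8.symm)

/-- A set which is determined by finitely many tests is a Boolean combination of them. -/
theorem mem_closure_of_determined {X : Type*} {F : Set (Set X)} (hF : F.Finite) {L : Set X}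
    (h : ∀ w w', (∀ T ∈ F, w ∈ T ↔ w' ∈ T) → w ∈ L → w' ∈ L) :
    L ∈ BooleanSubalgebra.closure F := by
  classical
  have hsub : F ⊆ BooleanSubalgebra.closure F := BooleanSubalgebra.subset_closure
  -- the atoms
  let atom : Finset (Set X) → Set X := fun S =>
    hF.toFinset.inf (fun T => if T ∈ S then T else Tᶜ)
  have hatom : ∀ S, atom S ∈ BooleanSubalgebra.closure F := by
    intro S
    refine Finset.inf_mem (BooleanSubalgebra.closure F : Set (Set X)) BooleanSubalgebra.top_mem
      (fun a ha b hb => BooleanSubalgebra.inf_mem ha hb) _ _ ?_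
    intro T hT
    have hT' : T ∈ F := by simpa using hT
    split_ifs
    · exact hsub hT'
    · exact BooleanSubalgebra.compl_mem (hsub hT')
  have hmem : ∀ S w, w ∈ atom S ↔ ∀ T ∈ F, (w ∈ T ↔ T ∈ S) := by
    intro S w
    simp only [atom]
    rw [Finset.inf_eq_iInf]
    simp only [Set.Finite.mem_toFinset, Set.iInf_eq_iInter, Set.mem_iInter]
    refine forall_congr' fun T => forall_congr' fun hT => ?_
    split_ifs with h
    · simp [h]
    · simp [h]
  let good : Finset (Finset (Set X)) :=
    hF.toFinset.powerset.filter (fun S => ∃ w ∈ L, w ∈ atom S)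
  have hL : L = good.sup atom := by
    ext w
    rw [Finset.sup_eq_iSup]
    simp only [Set.iSup_eq_iUnion, Set.mem_iUnion]
    constructor
    · intro hw
      refine ⟨hF.toFinset.filter (fun T => w ∈ T), ?_, ?_⟩
      · simp only [good, Finset.mem_filter, Finset.mem_powerset]
        refine ⟨Finset.filter_subset _ _, w, hw, ?_⟩
        rw [hmem]
        intro T hT
        simp [hT]
      · rw [hmem]
        intro T hT
        simp [hT]
    · rintro ⟨S, hS, hwS⟩
      simp only [good, Finset.mem_filter] at hS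
      obtain ⟨_, w', hw', hw'S⟩ := hS
      refine h w' w ?_ hw'
      intro T hT
      rw [(hmem S w').1 hw'S T hT, (hmem S w).1 hwS T hT]
  rw [hL]
  exact Finset.sup_mem (BooleanSubalgebra.closure F : Set (Set X)) BooleanSubalgebra.bot_mem
    (fun a ha b hb => BooleanSubalgebra.sup_mem ha hb) _ _ (fun S _ => hatom S)

end Pool.Agent.GSH
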