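import Pool.Agent.GSH.SF
import Pool.Agent.GSH.Reduce

/-!
# Measurable functions, automata, and the hub lemma
-/

set_option autoImplicit false

namespace Pool.Agent.GSH

variable {A : Type}

/-- All level sets of `f` have generalized star height at most `n`. -/
def Meas {X : Type*} (n : ℕ) (f : List A → X) : Prop := ∀ x, Ht n {w | f w = x}

section Meas

variable {X Y : Type*} {n : ℕ}

theorem Meas.mono {f : List A → X} {m : ℕ} (hnm : n ≤ m) (h : Meas n f) : Meas m f :=
  fun x => (h x).mono hnm

theorem Meas.const (n : ℕ) (x : X) : Meas n (fun _ : List A => x) := by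
  intro y
  by_cases h : x = y
  · simpa [h] using Ht.univ n
  · simpa [h] using Ht.empty n

theorem Meas.prod {f : List A → X} {g : List A → Y} (hf : Meas n f) (hg : Meas n g) :
    Meas n (fun w => (f w, g w)) := by
  rintro ⟨x, y⟩
  have : {w : List A | (f w, g w) = (x, y)} = {w | f w = x} ∩ {w | g w = y} := by
    ext w; simp
  rw [this]
  exact (hf x).inter (hg y)

theorem Meas.pi {ι : Type*} [Finite ι] {X : ι → Type*} {f : ∀ i, List A → X i}
    (hf : ∀ i, Meas n (f i)) : Meas n (fun w i => f i w) := by
  intro x
  have : {w : List A | (fun i => f i w) = x} = ⋂ i, {w | f i w = x i} := by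
    ext w; simp [funext_iff]
  rw [this]
  exact Ht.iInter (fun i => hf i (x i))

theorem Meas.determined [Finite X] {f : List A → X} {g : List A → Y} (hf : Meas n f)
    (h : ∀ w w', f w = f w' → g w = g w') : Meas n g := by
  intro y
  have : {w : List A | g w = y} = ⋃ x : X, {w | (∃ w0, f w0 = x ∧ g w0 = y) ∧ w ∈ {w | f w = x}} := by
    ext w
    simp only [Set.mem_iUnion]
    constructor
    · intro hw
      exact ⟨f w, ⟨w, rfl, hw⟩, rfl⟩
    · rintro ⟨x, ⟨w0, h1, h2⟩, h3⟩
      have h3' : f w = x := h3
      show g w = y
      rw [← h2]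
      exact h w w0 (by rw [h3', h1])
  rw [this]
  exact Ht.iUnion (fun x => Ht.prop _ (hf x))

theorem Meas.comp [Finite X] {f : List A → X} (hf : Meas n f) (h : X → Y) :
    Meas n (fun w => h (f w)) :=
  hf.determined (fun w w' e => by rw [e])

theorem Meas.comp₂ [Finite X] [Finite Y] {Z : Type*} {f : List A → X} {g : List A → Y}
    (hf : Meas n f) (hg : Meas n g) (h : X → Y → Z) :
    Meas n (fun w => h (f w) (g w)) :=
  (hf.prod hg).comp (fun p => h p.1 p.2)

theorem Meas.preimage [Finite X] {f : List A → X} (hf : Meas n f) (T : Set X) :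
    Ht n {w | f w ∈ T} := by
  have := hf.comp (fun x => x ∈ T) True
  simpa using this

theorem Meas.sum {ι R : Type*} [AddCommMonoid R] [Finite R] {f : ι → List A → R}
    (s : Finset ι) (hf : ∀ i ∈ s, Meas n (f i)) : Meas n (fun w => ∑ i ∈ s, f i w) := by
  classical
  induction s using Finset.induction_on with
  | empty => simpa using Meas.const n (0 : R)
  | insert a s ha ih =>
    have h1 := ih (fun i hi => hf i (Finset.mem_insert_of_mem hi))
    have h2 := hf a (Finset.mem_insert_self a s)
    have := h2.comp₂ h1 (fun x y => x + y)
    simpa [Finset.sum_insert ha] using this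

end Meas

section Autom

variable {Q : Type} (step : Q → A → Q)

theorem foldl_rep_succ (q : Q) (n : ℕ) (w : List A) :
    List.foldl step q (rep (n + 1) w) = List.foldl step (List.foldl step q (rep n w)) w := by
  rw [rep_succ', List.foldl_append]

/-- Eventually constant runs give star-free languages. -/
theorem autom_starfree [Finite Q] [Finite A]
    (hap : ∀ (w : List A) (q : Q), ∃ n,
      List.foldl step q (rep (n + 1) w) = List.foldl step q (rep n w)) (q : Q) :
    Meas 0 (fun w : List A => List.foldl step q w) := by
  classical
  let g : A → (Function.End Q)ᵐᵒᵖ := fun a => MulOpposite.op (fun q => step q a : Q → Q)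
  have hg : ∀ (w : List A) (q : Q), ((w.map g).prod).unop q = List.foldl step q w := by
    intro w
    induction w with
    | nil => intro q; rfl
    | cons a w ih =>
      intro q
      rw [List.map_cons, List.prod_cons, MulOpposite.unop_mul]
      show ((w.map g).prod).unop ((g a).unop q) = _
      rw [ih]
      rfl
  let M := MonoidHom.mrange (FreeMonoid.lift g)
  have hfin : Finite (Function.End Q)ᵐᵒᵖ := by
    have : Finite (Q → Q) := inferInstance
    exact Finite.of_equiv (Q → Q) (MulOpposite.opEquiv (α := Function.End Q))
  have hM : Finite M := inferInstance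
  have hlift : ∀ w : List A, FreeMonoid.lift g (FreeMonoid.ofList w) = (w.map g).prod := by
    intro w; rw [FreeMonoid.lift_apply]; rfl
  let f : A → M := fun a => ⟨g a, ⟨FreeMonoid.of a, by simp⟩⟩
  have hf : ∀ w : List A, (((w.map f).prod : M) : (Function.End Q)ᵐᵒᵖ) = (w.map g).prod := by
    intro w
    rw [← Submonoid.coe_subtype, map_list_prod, List.map_map]
    rfl
  have hpow : ∀ (w : List A) (n : ℕ), (w.map g).prod ^ n = ((rep n w).map g).prod := by
    intro w n
    induction n with
    | zero => simp [rep_zero]
    | succ n ih => rw [pow_succ, ih, rep_succ', List.map_append, List.prod_append]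
  have hapM : ∀ m : M, ∃ k, m ^ (k + 1) = m ^ k := by
    rintro ⟨_, ⟨w, rfl⟩⟩
    -- uniform exponent
    choose n hn using hap w.toList
    obtain ⟨N, hN⟩ : ∃ N, ∀ q, n q ≤ N := by
      have := Fintype.ofFinite Q
      exact ⟨Finset.univ.sup n, fun q => Finset.le_sup (Finset.mem_univ q)⟩
    refine ⟨N, ?_⟩
    apply Subtype.ext
    have hw : FreeMonoid.lift g w = ((w.toList).map g).prod := hlift w.toList
    rw [SubmonoidClass.coe_pow, SubmonoidClass.coe_pow]
    show (FreeMonoid.lift g w) ^ (N + 1) = (FreeMonoid.lift g w) ^ N
    rw [hw, hpow, hpow]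
    apply MulOpposite.unop_injective
    funext q
    rw [hg, hg]
    have hstable : ∀ m, n q ≤ m →
        List.foldl step q (rep (m + 1) w.toList) = List.foldl step q (rep m w.toList) := by
      intro m hm
      induction hm with
      | refl => exact hn q
      | step _ ih => rw [foldl_rep_succ, ih, ← foldl_rep_succ, ih]
    exact hstable N (hN q)
  have h1 : Meas 0 (fun w : List A => (w.map f).prod) := fun m => aperiodic_starfree hapM f m
  refine h1.determined (fun w w' e => ?_)
  have e' : (w.map g).prod = (w'.map g).prod := by rw [← hf, ← hf, e]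
  rw [← hg w q, ← hg w' q, e']

/-- The automaton with the state `σ` deleted. -/
noncomputable def stepD (σ : Q) (s : Option Q) (a : A) : Option Q :=
  open Classical in
  match s with
  | none => none
  | some q => if step q a = σ then none else some (step q a)

theorem foldl_stepD_none (σ : Q) (w : List A) :
    List.foldl (stepD step σ) none w = none := by
  induction w with
  | nil => rfl
  | cons a w ih => exact ih

theorem foldl_stepD_some (σ : Q) {q q' : Q} {w : List A}
    (h : List.foldl (stepD step σ) (some q) w = some q') : List.foldl step q w = q' := by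
  induction w generalizing q with
  | nil => simpa using h
  | cons a w ih =>
    simp only [List.foldl_cons, stepD] at h
    split_ifs at h with h1
    · rw [foldl_stepD_none] at h; exact absurd h (by simp)
    · exact ih h

theorem foldl_stepD_some' (σ : Q) {q : Q} {w : List A}
    (h : List.foldl (stepD step σ) (some q) w ≠ none) :
    List.foldl (stepD step σ) (some q) w = some (List.foldl step q w) := by
  cases h' : List.foldl (stepD step σ) (some q) w with
  | none => exact absurd h' h
  | some q' => rw [foldl_stepD_some step σ h']

/-- The hub lemma: if the automaton with the state `σ` deleted has eventually constant runs on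
powers of words, then the languages of the automaton have height at most one. -/
theorem hub [Finite Q] [Finite A] (σ : Q)
    (hda : ∀ (w : List A) (s : Option Q), ∃ n,
      List.foldl (stepD step σ) s (rep (n + 1) w) = List.foldl (stepD step σ) s (rep n w))
    (q : Q) : Meas 1 (fun w : List A => List.foldl step q w) := by
  classical
  intro q'
  -- avoiding words
  let Av : Q → Q → Set (List A) := fun q q' =>
    {w | List.foldl (stepD step σ) (some q) w = some q'}
  have hAv : ∀ q q', Ht 0 (Av q q') := fun q q' => autom_starfree (stepD step σ) hda (some q) _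
  -- first passage
  let Fp : Q → Set (List A) := fun q =>
    ⋃ t : Q × A, {w | step t.1 t.2 = σ ∧ w ∈ GSH.cat (Av q t.1) {[t.2]}}
  have hFp : ∀ q, Ht 0 (Fp q) := fun q =>
    Ht.iUnion (fun t => Ht.prop _ ((hAv q t.1).cat (Ht.letter 0 t.2)))
  have hFp1 : ∀ q w, w ∈ Fp q → List.foldl step q w = σ := by
    intro q w hw
    obtain ⟨⟨q1, a⟩, h1, u, hu, _, rfl, rfl⟩ := Set.mem_iUnion.1 hw
    rw [List.foldl_append, foldl_stepD_some step σ hu]
    exact h1
  have hFp2 : ∀ q q1 u a, u ∈ Av q q1 → step q1 a = σ → u ++ [a] ∈ Fp q := by
    intro q q1 u a hu ha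
    exact Set.mem_iUnion.2 ⟨(q1, a), ha, u, hu, [a], rfl, rfl⟩
  have hAv2 : ∀ q q1 u a, u ∈ Av q q1 → step q1 a ≠ σ → u ++ [a] ∈ Av q (step q1 a) := by
    intro q q1 u a hu ha
    show List.foldl (stepD step σ) (some q) (u ++ [a]) = _
    have hu' : List.foldl (stepD step σ) (some q) u = some q1 := hu
    rw [List.foldl_append, hu']
    simp [stepD, ha]
  let L : Set (List A) :=
    Av q q' ∪ GSH.cat (Fp q) (GSH.cat (GSH.star (Fp σ)) (Av σ q'))
  have hL : Ht 1 L :=
    ((hAv q q').mono (by omega)).union (((hFp q).mono (by omega)).cat
      (((hFp σ).star).cat ((hAv σ q').mono (by omega))))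
  convert hL using 1
  ext w
  constructor
  · intro hw
    have hw' : List.foldl step q w = q' := hw
    clear hL hw
    induction w using List.reverseRecOn generalizing q' with
    | nil =>
      left
      show List.foldl (stepD step σ) (some q) [] = some q'
      simpa using hw'
    | append_singleton w a ih =>
      rw [List.foldl_append] at hw'
      have hw2 : step (List.foldl step q w) a = q' := hw'
      rcases ih (List.foldl step q w) rfl with h | ⟨u, hu, _, ⟨v, hv, z, hz, rfl⟩, rfl⟩
      · by_cases hσ : step (List.foldl step q w) a = σ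
        · right
          refine ⟨w ++ [a], hFp2 q _ w a h hσ, [] ++ [], ⟨[], nil_mem_star _, [], ?_, rfl⟩,
            by simp⟩
          show List.foldl (stepD step σ) (some σ) [] = some q'
          rw [← hw2, hσ]; rfl
        · left
          rw [← hw2]
          exact hAv2 q _ w a h hσ
      · by_cases hσ : step (List.foldl step q (u ++ (v ++ z))) a = σ
        · right
          refine ⟨u, hu, (v ++ (z ++ [a])) ++ [], ⟨v ++ (z ++ [a]),
            star_append hv (mem_star_of_mem (hFp2 σ _ z a hz hσ)), [], ?_, rfl⟩, ?_⟩
          · show List.foldl (stepD step σ) (some σ) [] = some q'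
            rw [← hw2, hσ]; rfl
          · simp
        · right
          refine ⟨u, hu, v ++ (z ++ [a]), ⟨v, hv, z ++ [a], ?_, rfl⟩, ?_⟩
          · rw [← hw2]
            exact hAv2 σ _ z a hz hσ
          · simp
  · rintro (h | ⟨u, hu, _, ⟨v, ⟨l, hl, rfl⟩, z, hz, rfl⟩, rfl⟩)
    · exact foldl_stepD_some step σ h
    · show List.foldl step q (u ++ (l.flatten ++ z)) = q'
      rw [List.foldl_append, hFp1 q u hu, List.foldl_append]
      have : List.foldl step σ l.flatten = σ := by
        clear hz
        induction l with
        | nil => rfl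
        | cons x l ih =>
          rw [List.flatten_cons, List.foldl_append, hFp1 σ x (hl x (by simp))]
          exact ih (fun y hy => hl y (by simp [hy]))
      rw [this]
      exact foldl_stepD_some step σ hz

end Autom

end Pool.Agent.GSH
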