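import Pool.Agent.GSH.NPBase

/-!
# Functions of bounded degree; alignment of suffix sums with a power of the code; sums of lower
order; the clock lemma
-/

set_option autoImplicit false

namespace Pool.Agent.GSH.NP

open Pool.Agent.GSH Pool.Agent.GSH.FC

variable {A B : Type}

/-- All functions of degree less than `j` of the labels are measurable, for all codes. -/
def CJ (A : Type) (j : ℕ) : Prop :=
  ∀ (B : Type) (c : B → List A), SFC c → ∀ (Θ : Type) [Finite Θ] (θ : B → Θ), Lab c θ →
    ∀ (M : ℕ) [NeZero M] (F : List Θ → ZMod M), Pol j F → ME c (fun l => F (l.map θ))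

open Classical in
/-- an occurrence at the start of `l` of a word of length `n` in `C`, the rest having length `s`
modulo `q`: the value of `G` at the rest -/
noncomputable def wt {R : Type} [AddCommGroup R] (n : ℕ) (C : Set (List B)) {q : ℕ} (s : ZMod q)
    (G : List B → R) (l : List B) : R :=
  if n ≤ l.length ∧ l.take n ∈ C ∧ ((l.length - n : ℕ) : ZMod q) = s then G (l.drop n) else 0

/-! ### Functions of bounded degree -/

section Pol

variable {Θ Θ' : Type} {R : Type} [AddCommGroup R]

theorem Pol.zero (j : ℕ) : Pol j (fun _ : List Θ => (0 : R)) := by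
  induction j with
  | zero => intro l; rfl
  | succ j ih =>
    intro b
    have : (fun _ : List Θ => (0 : R) - 0) = fun _ => 0 := by funext l; exact sub_zero 0
    rw [this]
    exact ih

theorem Pol.succ {j : ℕ} : ∀ {F : List Θ → R}, Pol j F → Pol (j + 1) F := by
  induction j with
  | zero =>
    intro F h b l
    show F (b :: l) - F l = 0
    rw [h, h, sub_zero]
  | succ j ih => intro F h b; exact ih (h b)

theorem Pol.mono {i j : ℕ} (hij : i ≤ j) {F : List Θ → R} (h : Pol i F) : Pol j F := by
  induction hij with
  | refl => exact h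
  | step _ ih => exact ih.succ

theorem Pol.add {j : ℕ} : ∀ {F G : List Θ → R}, Pol j F → Pol j G →
    Pol j (fun l => F l + G l) := by
  induction j with
  | zero =>
    intro F G hF hG l
    show F l + G l = 0
    rw [hF, hG, add_zero]
  | succ j ih =>
    intro F G hF hG b
    have h := ih (hF b) (hG b)
    have e : (fun l => F (b :: l) - F l + (G (b :: l) - G l)) =
        fun l => F (b :: l) + G (b :: l) - (F l + G l) := by funext l; abel
    rw [e] at h
    exact h

theorem Pol.neg {j : ℕ} : ∀ {F : List Θ → R}, Pol j F → Pol j (fun l => - F l) := by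
  induction j with
  | zero =>
    intro F hF l
    show - F l = 0
    rw [hF, neg_zero]
  | succ j ih =>
    intro F hF b
    have h := ih (hF b)
    have e : (fun l => - (F (b :: l) - F l)) = fun l => - F (b :: l) - (- F l) := by
      funext l; abel
    rw [e] at h
    exact h

theorem Pol.sub {j : ℕ} {F G : List Θ → R} (hF : Pol j F) (hG : Pol j G) :
    Pol j (fun l => F l - G l) := by
  have h := hF.add hG.neg
  have e : (fun l => F l + - G l) = fun l => F l - G l := by funext l; abel
  rw [e] at h
  exact h

theorem Pol.sum {j : ℕ} {ι : Type*} (s : Finset ι) {F : ι → List Θ → R}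
    (h : ∀ i ∈ s, Pol j (F i)) : Pol j (fun l => ∑ i ∈ s, F i l) := by
  classical
  induction s using Finset.induction_on with
  | empty => simpa using Pol.zero (Θ := Θ) (R := R) j
  | insert a s ha ih =>
    have h1 := ih (fun i hi => h i (Finset.mem_insert_of_mem hi))
    have h2 := h a (Finset.mem_insert_self a s)
    have := h2.add h1
    simpa [Finset.sum_insert ha] using this

/-- composition with a homomorphism of groups -/
theorem Pol.map {R' : Type} [AddCommGroup R'] (f : R →+ R') {j : ℕ} : ∀ {F : List Θ → R},
    Pol j F → Pol j (fun l => f (F l)) := by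
  induction j with
  | zero =>
    intro F hF l
    show f (F l) = 0
    rw [hF, map_zero]
  | succ j ih =>
    intro F hF b
    have h := ih (hF b)
    have e : (fun l => f (F (b :: l) - F l)) = fun l => f (F (b :: l)) - f (F l) := by
      funext l; rw [map_sub]
    rw [e] at h
    exact h

/-- constants have degree `0` -/
theorem Pol.const (x : R) : Pol 1 (fun _ : List Θ => x) := by
  intro b l
  exact sub_self x

theorem Pol.prop {j : ℕ} (p : Prop) [Decidable p] {F : List Θ → R} (h : Pol j F) :
    Pol j (fun l => if p then F l else 0) := by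
  by_cases hp : p
  · simpa [hp] using h
  · simpa [hp] using Pol.zero (Θ := Θ) (R := R) j

theorem Pol.cons {j : ℕ} {F : List Θ → R} (h : Pol j F) (b : Θ) :
    Pol j (fun l => F (b :: l)) := by
  cases j with
  | zero => intro l; exact h _
  | succ j =>
    have h1 := (h b).succ.add h
    have e : (fun l => F (b :: l) - F l + F l) = fun l => F (b :: l) := by
      funext l; exact sub_add_cancel _ _
    rw [e] at h1
    exact h1

/-- shift on the left -/
theorem Pol.left {j : ℕ} (u : List Θ) : ∀ {F : List Θ → R}, Pol j F →
    Pol j (fun l => F (u ++ l)) := by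
  induction u with
  | nil => intro F h; exact h
  | cons b u ih => intro F h; exact ih (h.cons b)

/-- shift on the right -/
theorem Pol.right {j : ℕ} (v : List Θ) : ∀ {F : List Θ → R}, Pol j F →
    Pol j (fun l => F (l ++ v)) := by
  induction j with
  | zero => intro F h l; exact h _
  | succ j ih => intro F h b; exact ih (h b)

theorem Pol.diff {j : ℕ} (u : List Θ) : ∀ {F : List Θ → R}, Pol (j + 1) F →
    Pol j (fun l => F (u ++ l) - F l) := by
  induction u with
  | nil =>
    intro F h
    have e : (fun l => F ([] ++ l) - F l) = fun _ => 0 := by funext l; exact sub_self _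
    rw [e]
    exact Pol.zero j
  | cons b u ih =>
    intro F h
    have h1 := ((h b).left u).add (ih h)
    have e : (fun l => F (b :: (u ++ l)) - F (u ++ l) + (F (u ++ l) - F l)) =
        fun l => F ((b :: u) ++ l) - F l := by
      funext l; rw [List.cons_append]; abel
    rw [e] at h1
    exact h1

/-- substitution of words for letters -/
theorem Pol.subst (σ : Θ' → List Θ) {j : ℕ} : ∀ {F : List Θ → R}, Pol j F →
    Pol j (fun l : List Θ' => F ((l.map σ).flatten)) := by
  induction j with
  | zero => intro F h l; exact h _
  | succ j ih =>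
    intro F h x
    exact ih (h.diff (σ x))

/-- change of the letters -/
theorem Pol.letter (f : Θ' → Θ) {j : ℕ} : ∀ {F : List Θ → R}, Pol j F →
    Pol j (fun l : List Θ' => F (l.map f)) := by
  induction j with
  | zero => intro F h l; exact h _
  | succ j ih => intro F h x; exact ih (h (f x))

theorem Pol.fl {j Q : ℕ} {G : List Θ → R} (hG : Pol j G) (v : List Θ) :
    Pol j (fun bs : List (BL Θ Q) => G (fl bs ++ v)) :=
  (hG.right v).subst (fun b : BL Θ Q => b.1)

theorem Pol.diff_append {j : ℕ} {G : List Θ → R} (hG : Pol (j + 1) G) (v : List Θ) :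
    Pol j (fun y => G (v ++ y) - G y) := hG.diff v

/-- a function with given differences -/
theorem Pol.of_SS {j : ℕ} {D : List Θ → R} (h : ∀ b, Pol j (fun l => D (b :: l))) :
    Pol (j + 1) (SS D) := by
  intro b
  have e : (fun l => SS D (b :: l) - SS D l) = fun l => D (b :: l) := by
    funext l
    show D (b :: l) + SS D l - SS D l = D (b :: l)
    exact add_sub_cancel_right _ _
  rw [e]
  exact h b

end Pol

/-! ### Sums over suffixes -/

section SS

variable {R : Type} [AddCommGroup R]

theorem SS_nil (D : List B → R) : SS D [] = D [] := rfl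

theorem SS_cons (D : List B → R) (b : B) (l : List B) : SS D (b :: l) = D (b :: l) + SS D l := rfl

theorem SS_congr {D D' : List B → R} {l : List B} (h : ∀ x y, l = x ++ y → D y = D' y) :
    SS D l = SS D' l := by
  induction l with
  | nil => exact h [] [] rfl
  | cons b l ih =>
    rw [SS_cons, SS_cons, h [] (b :: l) rfl, ih (fun x y e => h (b :: x) y (by rw [e]; rfl))]

theorem SS_zero {D : List B → R} {l : List B} (h : ∀ x y, l = x ++ y → D y = 0) :
    SS D l = 0 := by
  induction l with
  | nil => exact h [] [] rfl
  | cons b l ih =>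
    rw [SS_cons, h [] (b :: l) rfl, ih (fun x y e => h (b :: x) y (by rw [e]; rfl)), add_zero]

theorem SS_add (D D' : List B → R) (l : List B) :
    SS (fun l => D l + D' l) l = SS D l + SS D' l := by
  induction l with
  | nil => rfl
  | cons b l ih => rw [SS_cons, SS_cons, SS_cons, ih]; abel

theorem SS_sub (D D' : List B → R) (l : List B) :
    SS (fun l => D l - D' l) l = SS D l - SS D' l := by
  induction l with
  | nil => rfl
  | cons b l ih => rw [SS_cons, SS_cons, SS_cons, ih]; abel

theorem SS_sum {ι : Type*} (s : Finset ι) (D : ι → List B → R) (l : List B) :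
    SS (fun l => ∑ i ∈ s, D i l) l = ∑ i ∈ s, SS (D i) l := by
  classical
  induction s using Finset.induction_on with
  | empty =>
    simp only [Finset.sum_empty]
    exact SS_zero (fun _ _ _ => rfl)
  | insert a s ha ih =>
    simp only [Finset.sum_insert ha]
    rw [SS_add, ih]

theorem SS_map {R' : Type} [AddCommGroup R'] (f : R →+ R') (D : List B → R) (l : List B) :
    SS (fun l => f (D l)) l = f (SS D l) := by
  induction l with
  | nil => rfl
  | cons b l ih => rw [SS_cons, SS_cons, ih, map_add]

theorem SS_append_eq (D : List B → R) (x y : List B) :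
    SS D (x ++ y) = SS (fun l => D (l ++ y)) x - D y + SS D y := by
  induction x with
  | nil =>
    show SS D y = D ([] ++ y) - D y + SS D y
    rw [List.nil_append]
    abel
  | cons b x ih => rw [List.cons_append, SS_cons, ih, SS_cons, List.cons_append]; abel

/-- the sum over the suffixes of `x ++ y`: those longer than `y`, and those of `y` -/
theorem SS_append {D : List B → R} {x y : List B}
    (h : ∀ x1 x2, x = x1 ++ x2 → x2 ≠ [] → D (x2 ++ y) = 0) : SS D (x ++ y) = SS D y := by
  induction x with
  | nil => rfl
  | cons b x ih =>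
    rw [List.cons_append, SS_cons, ih (fun x1 x2 e h2 => h (b :: x1) x2 (by rw [e]; rfl) h2)]
    have := h [] (b :: x) rfl (by simp)
    rw [List.cons_append] at this
    rw [this, zero_add]

end SS

/-! ### Alignment with the `q`-th power of the code -/

section Align

variable {R : Type} [AddCommGroup R]

/-- `D` restricted to the words whose length is `r` modulo `q` -/
def dr (q r : ℕ) (D : List B → R) (l : List B) : R := if l.length % q = r then D l else 0

theorem dr_skip {q r : ℕ} (D : List B → R) {x y : List B} (hx : x.length < q)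
    (hy : y.length % q = r) : SS (dr q r D) (x ++ y) = SS (dr q r D) y := by
  refine SS_append (fun x1 x2 e h2 => ?_)
  unfold dr
  rw [if_neg]
  intro h
  have h3 : 0 < x2.length := List.length_pos_iff.2 h2
  have h4 := congrArg List.length e
  rw [List.length_append] at h4 h
  have h5 : (x2.length + y.length) % q = y.length % q := by rw [h, hy]
  have h6 : (x2.length + y.length) ≡ (0 + y.length) [MOD q] := by
    unfold Nat.ModEq
    rw [h5, zero_add]
  have h7 : x2.length ≡ 0 [MOD q] := Nat.ModEq.add_right_cancel' _ h6
  have h8 : q ∣ x2.length := (Nat.modEq_zero_iff_dvd).1 h7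
  have h9 := Nat.le_of_dvd h3 h8
  omega

theorem dr_short {q r : ℕ} (D : List B → R) {w : List B} (hw : w.length < r) (hr : r < q) :
    SS (dr q r D) w = 0 := by
  refine SS_zero (fun x y e => ?_)
  unfold dr
  rw [if_neg]
  have h1 := congrArg List.length e
  rw [List.length_append] at h1
  rw [Nat.mod_eq_of_lt (by omega)]
  omega

theorem dr_self {q r : ℕ} (hr : r < q) (D : List B → R) {w : List B} (hw : w.length = r) :
    SS (dr q r D) w = D w := by
  have h0 : dr q r D w = D w := by
    unfold dr
    rw [if_pos (by rw [hw]; exact Nat.mod_eq_of_lt hr)]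
  cases w with
  | nil => exact h0
  | cons b w =>
    rw [SS_cons, h0, dr_short D (by rw [← hw]; exact Nat.lt_succ_self _) hr, add_zero]

theorem mod_block {q r : ℕ} (hr : r < q) {w : List B} (hw : w.length = r)
    (bs : List (BL B q)) : (fl bs ++ w).length % q = r := by
  rw [List.length_append, length_fl, hw, Nat.mul_add_mod]
  exact Nat.mod_eq_of_lt hr

theorem dr_blocks {q r : ℕ} (hr : r < q) (D : List B → R) {w : List B} (hw : w.length = r)
    (D' : List (BL B q) → R) (hD : ∀ bs, D (fl bs ++ w) = D' bs) (bs : List (BL B q)) :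
    SS (dr q r D) (fl bs ++ w) = SS D' bs := by
  induction bs with
  | nil =>
    rw [fl_nil, List.nil_append, dr_self hr D hw, SS_nil, ← hD, fl_nil, List.nil_append]
  | cons b bs ih =>
    have hb := b.2
    obtain ⟨a, b1, hb1⟩ : ∃ a b1, b.1 = a :: b1 := by
      cases h : b.1 with
      | nil => rw [h] at hb; simp at hb; omega
      | cons a b1 => exact ⟨a, b1, rfl⟩
    have e : fl (b :: bs) ++ w = a :: (b1 ++ (fl bs ++ w)) := by
      rw [fl_cons, hb1]; simp
    have h1 : dr q r D (fl (b :: bs) ++ w) = D' (b :: bs) := by
      unfold dr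
      rw [if_pos (mod_block hr hw _), hD]
    rw [SS_cons, ← h1, ← ih, e, SS_cons,
      dr_skip D (by rw [hb1] at hb; simp at hb; omega) (mod_block hr hw bs)]

theorem SS_dr {q : ℕ} (hq : 1 ≤ q) (D : List B → R) (l : List B) :
    SS D l = ∑ r ∈ Finset.range q, SS (dr q r D) l := by
  rw [← SS_sum]
  refine SS_congr (fun x y _ => ?_)
  unfold dr
  rw [Finset.sum_ite_eq, if_pos (Finset.mem_range.2 (Nat.mod_lt _ hq))]

/-- **Alignment**, words of length `r` modulo `q`. -/
theorem align_mod {c : B → List A} (hc : SFC c) {q r : ℕ} (hr' : r < q) {D : List B → R}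
    {Λ : Type} [Finite Λ] (lam : List B → Λ)
    (hlam : ∀ x, H c 1 {l | l.length = r ∧ lam l = x}) (D' : Λ → List (BL B q) → R)
    (hD : ∀ (bs : List (BL B q)) (w : List B), w.length = r → D (fl bs ++ w) = D' (lam w) bs)
    (h : ∀ x, ME (cp c q) (SS (D' x))) : ME c (SS (dr q r D)) := by
  have hq : 0 < q := by omega
  have key : ∀ (x : List B) (bs : List (BL B q)) (w : List B), x.length < q → w.length = r →
      SS (dr q r D) (x ++ (fl bs ++ w)) = SS (D' (lam w)) bs := by
    intro x bs w hx hw
    rw [dr_skip D hx (mod_block hr' hw bs)]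
    exact dr_blocks hr' D hw (D' (lam w)) (fun bs => hD bs w hw) bs
  intro y
  have e : {l | SS (dr q r D) l = y} = {l : List B | (0 : R) = y ∧ l ∈ {l : List B | l.length < r}} ∪
      ⋃ p : Fin q × Λ, cat {l : List B | l.length = p.1.val}
        (cat (fl '' {bs | SS (D' p.2) bs = y}) {l | l.length = r ∧ lam l = p.2}) := by
    ext l
    constructor
    · intro hl
      have hl' : SS (dr q r D) l = y := hl
      rcases Nat.lt_or_ge l.length r with h1 | h1
      · left
        rw [dr_short D h1 hr'] at hl'
        exact ⟨hl', h1⟩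
      · right
        have h2 : (l.length - r) % q < q := Nat.mod_lt _ hq
        have h3 : (l.length - r) % q + q * ((l.length - r) / q) = l.length - r :=
          Nat.mod_add_div _ _
        obtain ⟨bs, h4, h5⟩ := exists_fl q ((l.length - r) / q)
          ((l.drop ((l.length - r) % q)).take (q * ((l.length - r) / q)))
          (by rw [List.length_take, List.length_drop]; omega)
        have e1 : l = l.take ((l.length - r) % q) ++ (fl bs ++
            (l.drop ((l.length - r) % q)).drop (q * ((l.length - r) / q))) := by
          rw [h5, List.take_append_drop, List.take_append_drop]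
        have hw : ((l.drop ((l.length - r) % q)).drop (q * ((l.length - r) / q))).length = r := by
          rw [List.length_drop, List.length_drop]; omega
        have hx : (l.take ((l.length - r) % q)).length = (l.length - r) % q := by
          rw [List.length_take]; omega
        refine Set.mem_iUnion.2 ⟨(⟨(l.length - r) % q, h2⟩,
          lam ((l.drop ((l.length - r) % q)).drop (q * ((l.length - r) / q)))), ?_⟩
        refine ⟨_, hx, _, ⟨_, ⟨bs, ?_, rfl⟩, _, ⟨hw, rfl⟩, rfl⟩, e1.symm⟩
        show SS (D' _) bs = y
        rw [← key (l.take ((l.length - r) % q)) bs _ (by rw [hx]; exact h2) hw, ← e1]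
        exact hl'
    · rintro (⟨h1, h2⟩ | h1)
      · show SS (dr q r D) l = y
        rw [dr_short D h2 hr', ← h1]
      · obtain ⟨⟨k, x⟩, u, hu, _, ⟨_, ⟨bs, hbs, rfl⟩, w, ⟨hw, hwx⟩, rfl⟩, rfl⟩ :=
          Set.mem_iUnion.1 h1
        have hu' : u.length = k.val := hu
        have hwx' : lam w = x := hwx
        show SS (dr q r D) _ = y
        rw [key u bs w (by rw [hu']; exact k.2) hw, hwx']
        exact hbs
  rw [e]
  refine (H.prop _ ((hc.len_lt r).mono (by omega))).union (H.iUnion (fun p => ?_))
  exact ((hc.len _).mono (by omega)).cat ((H_cp.1 (h p.2 y)).cat (hlam p.2))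

/-- **Alignment.** The sum of `D` over the suffixes is measurable if for every class `x` of the
incomplete block at the end the corresponding sum over the suffixes of a word of blocks is
measurable for the power of the code. -/
theorem align_all {c : B → List A} (hc : SFC c) [Finite R] {q : ℕ} (hq : 1 ≤ q) {D : List B → R}
    {Λ : Type} [Finite Λ] (lam : List B → Λ)
    (hlam : ∀ r < q, ∀ x, H c 1 {l | l.length = r ∧ lam l = x})
    (D' : Λ → List (BL B q) → R)
    (hD : ∀ (bs : List (BL B q)) (w : List B), w.length < q → D (fl bs ++ w) = D' (lam w) bs)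
    (h : ∀ x, ME (cp c q) (SS (D' x))) : ME c (SS D) := by
  have e0 : SS D = fun l => ∑ r ∈ Finset.range q, SS (dr q r D) l := by
    funext l; exact SS_dr hq D l
  rw [e0]
  refine hc.sum _ (fun r hr => ?_)
  have hr' : r < q := Finset.mem_range.1 hr
  exact align_mod hc hr' lam (hlam r hr') D' (fun bs w hw => hD bs w (by omega)) h

/-- **Alignment**, words of length `r` modulo `Q`; the values depend on the labels of the
incomplete block. -/
theorem align {c : B → List A} (hc : SFC c) {Θ : Type} [Finite Θ] {θ : B → Θ} (hθ : Lab c θ)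
    {Q : ℕ} (_hQ : 1 ≤ Q) {r : ℕ} (hr : r < Q) (D : List B → R)
    (D' : List Θ → List (BL B Q) → R)
    (hD : ∀ (bs : List (BL B Q)) (y : List B), y.length = r → D (fl bs ++ y) = D' (y.map θ) bs)
    (hME : ∀ v : List Θ, v.length = r → ME (cp c Q) (SS (D' v))) :
    ME c (SS (fun l => if l.length % Q = r then D l else 0)) := by
  classical
  refine align_mod hc hr (Λ := Option (BL Θ r))
    (fun w => if h : (w.map θ).length = r then some ⟨w.map θ, h⟩ else none) ?_
    (fun x bs => match x with
      | none => 0
      | some v => D' v.1 bs) ?_ ?_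
  · rintro (_ | v)
    · have : {l : List B | l.length = r ∧ (if h : (l.map θ).length = r then
          some (⟨l.map θ, h⟩ : BL Θ r) else none) = none} = ∅ := by
        ext l
        simp only [Set.mem_ofPred_eq, Set.mem_empty_iff_false, iff_false, not_and]
        intro h1
        rw [dif_pos (by rw [List.length_map]; exact h1)]
        simp
      rw [this]
      exact H.finite Set.finite_empty
    · have : {l : List B | l.length = r ∧ (if h : (l.map θ).length = r then
          some (⟨l.map θ, h⟩ : BL Θ r) else none) = some v} = {l | l.map θ = v.1} := by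
        ext l
        simp only [Set.mem_ofPred_eq]
        constructor
        · rintro ⟨h1, h2⟩
          rw [dif_pos (by rw [List.length_map]; exact h1)] at h2
          exact congrArg Subtype.val (Option.some_injective _ h2)
        · intro h1
          have h2 : (l.map θ).length = r := by rw [h1]; exact v.2
          refine ⟨by rw [← h2, List.length_map], ?_⟩
          rw [dif_pos h2]
          exact congrArg some (Subtype.ext h1)
      rw [this]
      exact (hθ.word v.1).mono (by omega)
  · intro bs w hw
    have h2 : (w.map θ).length = r := by rw [List.length_map]; exact hw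
    show D (fl bs ++ w) = _
    rw [hD bs w hw, dif_pos h2]
  · rintro (_ | v)
    · have : SS (fun _ : List (BL B Q) => (0 : R)) = fun _ => 0 := by
        funext l; exact SS_zero (fun _ _ _ => rfl)
      show ME (cp c Q) (SS (fun _ : List (BL B Q) => (0 : R)))
      rw [this]
      exact (hc.pow _hQ).const 0
    · exact hME v.1 v.2

end Align

/-! ### Sums of lower order -/

section Lower

theorem SS_letter {R : Type} [AddCommGroup R] {Θ : Type} (f : B → Θ) (D : List Θ → R)
    (l : List B) : SS (fun l => D (l.map f)) l = SS D (l.map f) := by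
  induction l with
  | nil => rfl
  | cons b l ih => rw [SS_cons, ih, List.map_cons, SS_cons]

theorem Lab.set {c : B → List A} (hc : SFC c) {S : Set B} (hS : Ht 0 (c '' S)) :
    Lab c (fun b => b ∈ S) := by
  intro p
  by_cases hp : p
  · have : (fun b => b ∈ S) ⁻¹' {p} = S := by ext b; simp [hp]
    rw [this]
    exact hS
  · have h1 : (fun b => b ∈ S) ⁻¹' {p} = Sᶜ := by ext b; simp [hp]
    have hinj : Function.Injective c := by
      intro b b' h
      exact (hc.pre b b' [] (by rw [h, List.append_nil])).symm
    have h2 : c '' Sᶜ = Set.range c ∩ (c '' S)ᶜ := by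
      rw [Set.compl_eq_univ_sdiff, Set.image_sdiff hinj, Set.image_univ]
      rfl
    rw [h1, h2]
    exact hc.sf.inter hS.compl

/-- words of length at least `n` whose first `n` letters are in `C` -/
theorem H_take {c : B → List A} (hc : SFC c) {n : ℕ} {C : Set (List B)} (hC : H c 0 C)
    (hCn : ∀ l ∈ C, l.length = n) : H c 1 {l : List B | n ≤ l.length ∧ l.take n ∈ C} := by
  have : {l : List B | n ≤ l.length ∧ l.take n ∈ C} = cat C Set.univ := by
    ext l
    constructor
    · rintro ⟨_, h2⟩
      exact ⟨_, h2, l.drop n, trivial, List.take_append_drop n l⟩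
    · rintro ⟨u, hu, v, _, rfl⟩
      have h := hCn u hu
      refine ⟨by rw [List.length_append]; omega, ?_⟩
      rw [List.take_left' h]
      exact hu
  rw [this]
  exact (hC.mono (by omega)).cat hc.univ

theorem H_block {c : B → List A} (hc : SFC c) {n Q : ℕ} (hQ : n ≤ Q) {C : Set (List B)}
    (hC : H c 0 C) (hCn : ∀ l ∈ C, l.length = n) :
    Ht 0 (cp c Q '' {b : BL B Q | b.1.take n ∈ C}) := by
  have h := hC.cat (hc.len (Q - n))
  have : cp c Q '' {b : BL B Q | b.1.take n ∈ C} = E c '' cat C {l | l.length = Q - n} := by
    ext w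
    constructor
    · rintro ⟨b, hb, rfl⟩
      have h2 := b.2
      exact ⟨b.1, ⟨_, hb, b.1.drop n, by show (b.1.drop n).length = _; rw [List.length_drop, h2],
        List.take_append_drop n b.1⟩, rfl⟩
    · rintro ⟨_, ⟨u, hu, v, hv, rfl⟩, rfl⟩
      have h2 := hCn u hu
      have h3 : v.length = Q - n := hv
      refine ⟨⟨u ++ v, by rw [List.length_append]; omega⟩, ?_, rfl⟩
      show (u ++ v).take n ∈ C
      rw [List.take_left' h2]
      exact hu
  rw [this]
  exact h

instance finite_lt {Θ : Type} [Finite Θ] (q : ℕ) : Finite {v : List Θ // v.length < q} :=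
  (List.finite_length_lt Θ q).to_subtype

open Classical in
/-- the block function of `lower` -/
noncomputable def lowD {Θ R : Type} [AddCommGroup R] (n Q q : ℕ) (s : ZMod q) (G : List Θ → R)
    (x : {v : List Θ // v.length < Q} × Prop) : List (BL Θ Q × Prop) → R
  | [] => if x.2 ∧ ((x.1.1.length - n : ℕ) : ZMod q) = s then G (x.1.1.drop n) else 0
  | (u, p) :: bs => if p ∧ ((x.1.1.length : ZMod q) - n = s) then
        G (u.1.drop n ++ ((bs.map (fun z => z.1.1)).flatten ++ x.1.1)) else 0

theorem lowD_pol {Θ R : Type} [AddCommGroup R] {n Q q : ℕ} (s : ZMod q) {j : ℕ}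
    {G : List Θ → R} (hG : Pol j G) (x : {v : List Θ // v.length < Q} × Prop) :
    Pol (j + 1) (SS (lowD n Q q s G x)) := by
  classical
  apply Pol.of_SS
  rintro ⟨u, p⟩
  have h := (((hG.left (u.1.drop n)).right x.1.1).subst (fun z : BL Θ Q × Prop => z.1.1)).prop
    (p ∧ ((x.1.1.length : ZMod q) - n = s))
  have e : (fun l => lowD n Q q s G x ((u, p) :: l)) = fun l => if p ∧ ((x.1.1.length : ZMod q) -
      n = s) then G (u.1.drop n ++ ((l.map (fun z => z.1.1)).flatten ++ x.1.1)) else 0 := by
    funext l
    unfold lowD
    congr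
  rw [e]
  exact h

/-- **Sums of lower order.** -/
theorem lower {j : ℕ} (hj : CJ A (j + 1)) {c : B → List A} (hc : SFC c) {Θ : Type} [Finite Θ]
    {θ : B → Θ} (hθ : Lab c θ) {n : ℕ} (hn : 1 ≤ n) {C : Set (List B)} (hC : H c 0 C)
    (hCn : ∀ l ∈ C, l.length = n) {q : ℕ} [NeZero q] (s : ZMod q) {M : ℕ} [NeZero M]
    {G : List Θ → ZMod M} (hG : Pol j G) : ME c (SS (wt n C s (fun y => G (y.map θ)))) := by
  classical
  have hq0 : 1 ≤ q := Nat.one_le_iff_ne_zero.2 (NeZero.ne q)
  obtain ⟨Q, hQ⟩ : ∃ Q, Q = q * n := ⟨_, rfl⟩
  have hnQ : n ≤ Q := by rw [hQ]; nlinarith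
  have hQ1 : 1 ≤ Q := hn.trans hnQ
  have hQq : ((Q : ℕ) : ZMod q) = 0 := by rw [hQ, Nat.cast_mul, ZMod.natCast_self, zero_mul]
  -- labels of the blocks
  obtain ⟨θ', hθ'⟩ : ∃ θ' : BL B Q → BL Θ Q × Prop, θ' = fun b => (lb θ b, b.1.take n ∈ C) :=
    ⟨_, rfl⟩
  have hlab : Lab (cp c Q) θ' := by
    rw [hθ']
    exact (hθ.pow Q).prod (hc.pow hQ1) (Lab.set (hc.pow hQ1) (H_block hc hnQ hC hCn))
  have hfl : ∀ bs : List (BL B Q), ((bs.map θ').map (fun z => z.1.1)).flatten = (fl bs).map θ := by
    intro bs
    induction bs with
    | nil => rfl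
    | cons b bs ih =>
      rw [List.map_cons, List.map_cons, List.flatten_cons, ih, fl_cons, List.map_append, hθ']
      rfl
  refine align_all hc hQ1 (Λ := {v : List Θ // v.length < Q} × Prop)
    (fun w => (⟨(w.map θ).take (Q - 1), by rw [List.length_take]; omega⟩,
      (n ≤ w.length ∧ w.take n ∈ C)))
    ?_ (fun x bs => lowD n Q q s G x (bs.map θ')) ?_ ?_
  · rintro r hr ⟨v, p⟩
    have e : {l : List B | l.length = r ∧ ((⟨(l.map θ).take (Q - 1), by
          rw [List.length_take]; omega⟩, (n ≤ l.length ∧ l.take n ∈ C)) :
          {v : List Θ // v.length < Q} × Prop) = (v, p)} =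
        ({l | l.length = r} ∩ {l | l.map θ = v.1}) ∩ {l | (n ≤ l.length ∧ l.take n ∈ C) = p} := by
      ext l
      simp only [Set.mem_ofPred_eq, Set.mem_inter_iff, Prod.mk.injEq, Subtype.ext_iff]
      constructor
      · rintro ⟨h1, h2, h3⟩
        refine ⟨⟨h1, ?_⟩, h3⟩
        rw [← h2, List.take_of_length_le (by rw [List.length_map]; omega)]
      · rintro ⟨⟨h1, h2⟩, h3⟩
        refine ⟨h1, ?_, h3⟩
        rw [← h2, List.take_of_length_le (by rw [List.length_map]; omega)]
    rw [e]
    refine (((hc.len r).inter hc.code (hθ.word v.1)).mono (by omega)).inter hc.code ?_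
    have h1 := H_take hc hC hCn
    by_cases hp : p
    · have : {l : List B | (n ≤ l.length ∧ l.take n ∈ C) = p} =
          {l | n ≤ l.length ∧ l.take n ∈ C} := by ext l; simp [hp]
      rw [this]
      exact h1
    · have : {l : List B | (n ≤ l.length ∧ l.take n ∈ C) = p} =
          {l | n ≤ l.length ∧ l.take n ∈ C}ᶜ := by
        ext l
        simp only [hp, eq_iff_iff, iff_false, Set.mem_ofPred_eq, Set.mem_compl_iff]
      rw [this]
      exact hc.compl h1
  · intro bs w hw
    have hw' : (w.map θ).take (Q - 1) = w.map θ :=
      List.take_of_length_le (by rw [List.length_map]; omega)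
    cases bs with
    | nil =>
      show wt n C s _ (fl [] ++ w) = lowD n Q q s G _ []
      rw [fl_nil, List.nil_append]
      unfold wt lowD
      simp only [hw', List.length_map, List.map_drop, and_assoc]
    | cons b bs =>
      show wt n C s _ (fl (b :: bs) ++ w) = lowD n Q q s G _ (θ' b :: bs.map θ')
      have hb := b.2
      have h1 : (fl (b :: bs) ++ w).take n = b.1.take n := by
        rw [fl_cons, List.append_assoc, List.take_append_of_le_length (by omega)]
      have h2 : (fl (b :: bs) ++ w).drop n = b.1.drop n ++ (fl bs ++ w) := by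
        rw [fl_cons, List.append_assoc, List.drop_append_of_le_length (by omega)]
      have h3 : n ≤ (fl (b :: bs) ++ w).length := by
        rw [List.length_append, length_fl, List.length_cons, Nat.mul_succ]; omega
      have h4 : (((fl (b :: bs) ++ w).length - n : ℕ) : ZMod q) = (w.length : ZMod q) - n := by
        rw [Nat.cast_sub h3, List.length_append, length_fl, Nat.cast_add, Nat.cast_mul, hQq,
          zero_mul, zero_add]
      have h5 : θ' b = (lb θ b, b.1.take n ∈ C) := by rw [hθ']
      unfold wt lowD
      simp only [h5, h1, h2, h3, h4, hw', hfl, List.length_map, true_and, List.map_append,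
        List.map_drop]
      rfl
  · intro x
    have e : SS (fun bs : List (BL B Q) => lowD n Q q s G x (bs.map θ')) =
        fun bs => SS (lowD n Q q s G x) (bs.map θ') := by
      funext bs; exact SS_letter θ' _ bs
    rw [e]
    exact hj (BL B Q) (cp c Q) (hc.pow hQ1) _ θ' hlab M _ (lowD_pol s hG x)

end Lower

/-! ### The clock lemma -/

section Clock

/-- the differences, with the weight given by the length -/
def wlen {M : ℕ} (F : List B → ZMod M) : List B → ZMod M
  | [] => 0
  | b :: y => ((y.length : ZMod M) + 1) * (F (b :: y) - F y)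

theorem SS_wlen {M : ℕ} (F : List B → ZMod M) (l : List B) :
    SS F l = ((l.length : ZMod M) + 1) * F l - SS (wlen F) l := by
  induction l with
  | nil =>
    show F [] = ((([] : List B).length : ZMod M) + 1) * F [] - 0
    simp
  | cons b l ih =>
    rw [SS_cons, SS_cons, ih]
    show F (b :: l) + _ = _ - (((l.length : ZMod M) + 1) * (F (b :: l) - F l) + _)
    rw [List.length_cons]
    push_cast
    ring

theorem take_one_mem {S : Set B} {b : B} {y : List B} : (b :: y).take 1 ∈ one S ↔ b ∈ S := by
  constructor
  · rintro ⟨b', hb', h⟩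
    have h' : [b] = [b'] := h
    rw [List.cons.injEq] at h'
    rw [h'.1]
    exact hb'
  · intro h
    exact ⟨b, h, rfl⟩

theorem one_len {S : Set B} : ∀ l ∈ one S, l.length = 1 := by
  rintro _ ⟨b, _, rfl⟩
  rfl

/-- **The clock lemma.** -/
theorem clock {j : ℕ} (hj : CJ A j) {c : B → List A} (hc : SFC c) {Θ : Type} [Finite Θ]
    {θ : B → Θ} (hθ : Lab c θ) {M : ℕ} [NeZero M] {G : List Θ → ZMod M} (hG : Pol j G) :
    ME c (SS (fun y => G (y.map θ))) := by
  classical
  cases j with
  | zero =>
    have e : SS (fun y : List B => G (y.map θ)) = fun _ => 0 := by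
      funext l; exact SS_zero (fun _ _ _ => hG _)
    rw [e]
    exact hc.const 0
  | succ j =>
    have := Fintype.ofFinite Θ
    have h1 : ME c (fun l : List B => ((l.length : ZMod M) + 1) * G (l.map θ)) :=
      hc.comp₂ (hc.length M) (hj B c hc Θ θ hθ M G hG) (fun x y => (x + 1) * y)
    have h2 : ∀ (r : ZMod M) (i : Θ), ME c (SS (wt 1 (one (θ ⁻¹' {i})) (r - 1)
        (fun y => (fun z => G (i :: z) - G z) (y.map θ)))) := fun r i =>
      lower hj hc hθ le_rfl (H_one.2 (hθ i)) one_len (r - 1) (hG i)
    have h3 : ME c (fun l => ∑ r : ZMod M, ∑ i : Θ, r * SS (wt 1 (one (θ ⁻¹' {i})) (r - 1)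
        (fun y => (fun z => G (i :: z) - G z) (y.map θ))) l) :=
      hc.sum _ (fun r _ => hc.sum _ (fun i _ => (h2 r i).comp (fun x => r * x)))
    have e : SS (fun y : List B => G (y.map θ)) = fun l =>
        ((l.length : ZMod M) + 1) * G (l.map θ) - ∑ r : ZMod M, ∑ i : Θ,
          r * SS (wt 1 (one (θ ⁻¹' {i})) (r - 1) (fun y => (fun z => G (i :: z) - G z) (y.map θ))) l := by
      funext l
      rw [SS_wlen]
      congr 1
      have e1 : ∀ (r : ZMod M) (i : Θ), r * SS (wt 1 (one (θ ⁻¹' {i})) (r - 1)
          (fun y => (fun z => G (i :: z) - G z) (y.map θ))) l =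
          SS (fun l => r * wt 1 (one (θ ⁻¹' {i})) (r - 1)
            (fun y => (fun z => G (i :: z) - G z) (y.map θ)) l) l := by
        intro r i
        exact (SS_map (AddMonoidHom.mulLeft r) _ l).symm
      simp only [e1]
      simp only [← SS_sum]
      refine SS_congr (fun x y _ => ?_)
      cases y with
      | nil =>
        symm
        refine Finset.sum_eq_zero (fun r _ => Finset.sum_eq_zero (fun i _ => ?_))
        unfold wt
        rw [if_neg (by simp), mul_zero]
      | cons b y =>
        show ((y.length : ZMod M) + 1) * (G (θ b :: y.map θ) - G (y.map θ)) = _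
        rw [Finset.sum_eq_single ((y.length : ZMod M) + 1)]
        · rw [Finset.sum_eq_single (θ b)]
          · unfold wt
            rw [if_pos]
            · rfl
            · refine ⟨by simp, take_one_mem.2 rfl, ?_⟩
              rw [List.length_cons, Nat.add_sub_cancel, add_sub_cancel_right]
          · intro i _ hi
            unfold wt
            rw [if_neg, mul_zero]
            rintro ⟨_, h, _⟩
            exact hi (take_one_mem.1 h).symm
          · intro h
            exact absurd (Finset.mem_univ _) h
        · intro r _ hr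
          refine Finset.sum_eq_zero (fun i _ => ?_)
          unfold wt
          rw [if_neg, mul_zero]
          rintro ⟨_, _, h⟩
          rw [List.length_cons, Nat.add_sub_cancel] at h
          exact hr (by rw [h]; ring)
        · intro h
          exact absurd (Finset.mem_univ _) h
    rw [e]
    exact hc.sub h1 h3

end Clock

end Pool.Agent.GSH.NP
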