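import Pool.Agent.GSH.NPEF

/-!
# The star of a pure star-free prefix code is star-free
-/

set_option autoImplicit false

namespace Pool.Agent.GSH.NP

open Pool.Agent.GSH

variable {A : Type}

/-- all star-free subsets of `C` have star-free stars -/
def HP (C : Set (List A)) : Prop := ∀ C' ⊆ C, Ht 0 C' → Ht 0 (star C')

open Classical in
/-- one step of the greedy parse: `u` is the part of the word behind the last factor -/
noncomputable def pst (Z : Set (List A)) (u : List A) (a : A) : List A :=
  if u ++ [a] ∈ Z then [] else u ++ [a]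

/-- the greedy parse -/
noncomputable def par (Z : Set (List A)) (u w : List A) : List A := List.foldl (pst Z) u w

section Par

variable {Z : Set (List A)}

theorem par_nil (u : List A) : par Z u [] = u := rfl

theorem par_cons (u : List A) (a : A) (w : List A) : par Z u (a :: w) = par Z (pst Z u a) w := rfl

theorem par_append (u w w' : List A) : par Z u (w ++ w') = par Z (par Z u w) w' := by
  unfold par
  rw [List.foldl_append]

theorem pst_pos {u : List A} {a : A} (h : u ++ [a] ∈ Z) : pst Z u a = [] := by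
  unfold pst
  rw [if_pos h]

theorem pst_neg {u : List A} {a : A} (h : u ++ [a] ∉ Z) : pst Z u a = u ++ [a] := by
  unfold pst
  rw [if_neg h]

/-- the factors -/
theorem par_fac (w : List A) : ∀ u : List A, ∃ s ∈ star Z, u ++ w = s ++ par Z u w := by
  induction w with
  | nil => exact fun u => ⟨[], nil_mem_star Z, by rw [par_nil]; simp⟩
  | cons a w ih =>
    intro u
    rw [par_cons]
    by_cases h : u ++ [a] ∈ Z
    · rw [pst_pos h]
      obtain ⟨s, hs, e⟩ := ih []
      refine ⟨(u ++ [a]) ++ s, star_append (mem_star_of_mem h) hs, ?_⟩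
      rw [List.append_assoc, ← e]
      simp
    · rw [pst_neg h]
      obtain ⟨s, hs, e⟩ := ih (u ++ [a])
      refine ⟨s, hs, ?_⟩
      rw [← e]
      simp

/-- no factor ends -/
theorem par_free (w : List A) : ∀ u : List A, (∀ y1 y2, w = y1 ++ y2 → y1 ≠ [] → u ++ y1 ∉ Z) →
    par Z u w = u ++ w := by
  induction w with
  | nil => exact fun u _ => by rw [par_nil]; simp
  | cons a w ih =>
    intro u h
    have h1 : u ++ [a] ∉ Z := h [a] w rfl (by simp)
    rw [par_cons, pst_neg h1, ih (u ++ [a])]
    · simp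
    · intro y1 y2 e hy
      have := h (a :: y1) y2 (by rw [e]; rfl) (by simp)
      simpa using this

theorem par_hit (y : List A) : ∀ f : List A, y ≠ [] → f ++ y ∈ Z →
    ∃ y1 y2, y = y1 ++ y2 ∧ y1 ≠ [] ∧ par Z f y1 = [] := by
  induction y with
  | nil => exact fun f h _ => absurd rfl h
  | cons a y ih =>
    intro f _ h
    by_cases h1 : f ++ [a] ∈ Z
    · exact ⟨[a], y, rfl, by simp, by rw [par_cons, pst_pos h1, par_nil]⟩
    · by_cases hy : y = []
      · subst hy
        exact absurd h h1
      · obtain ⟨y1, y2, e, _, h2⟩ := ih (f ++ [a]) hy (by simpa using h)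
        exact ⟨a :: y1, y2, by rw [e]; rfl, by simp, by rw [par_cons, pst_neg h1, h2]⟩

theorem par_mem (hp : ∀ u ∈ Z, ∀ w, u ++ w ∈ Z → w = []) (he : [] ∉ Z) {z : List A}
    (hz : z ∈ Z) : par Z [] z = [] := by
  obtain ⟨z', a, rfl⟩ : ∃ z' a, z = z' ++ [a] := by
    rcases List.eq_nil_or_concat z with h | ⟨z', a, h⟩
    · exact absurd (h ▸ hz) he
    · exact ⟨z', a, by rw [h, List.concat_eq_append]⟩
  rw [par_append, par_free z' [], List.nil_append, par_cons, pst_pos hz, par_nil]
  intro y1 y2 e hy h
  rw [List.nil_append] at h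
  have := hp y1 h (y2 ++ [a]) (by rw [← List.append_assoc, ← e]; exact hz)
  simp at this

theorem par_star (hp : ∀ u ∈ Z, ∀ w, u ++ w ∈ Z → w = []) (he : [] ∉ Z) (w : List A) :
    w ∈ star Z ↔ par Z [] w = [] := by
  constructor
  · rintro ⟨l, hl, rfl⟩
    induction l with
    | nil => rfl
    | cons z l ih =>
      rw [List.flatten_cons, par_append, par_mem hp he (hl z (by simp))]
      exact ih fun u hu => hl u (by simp [hu])
  · intro h
    obtain ⟨s, hs, e⟩ := par_fac (Z := Z) w []
    rw [h, List.append_nil, List.nil_append] at e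
    rw [e]
    exact hs

/-- from a factor to the next period -/
theorem par_period (hp : ∀ u ∈ Z, ∀ w, u ++ w ∈ Z → w = []) (he : [] ∉ Z)
    (hpure : ∀ w n, 1 ≤ n → rep n w ∈ star Z → w ∈ star Z) {u w1 w2 : List A} {n n' : ℕ}
    (hn : n < n') (h1 : par Z u (rep n (w1 ++ w2) ++ w1) = [])
    (h2 : par Z u (rep n' (w1 ++ w2) ++ w1) = []) :
    par Z u (rep (n + 2) (w1 ++ w2)) = par Z u (rep (n + 1) (w1 ++ w2)) := by
  obtain ⟨j, rfl⟩ : ∃ j, n' = n + (j + 1) := ⟨n' - n - 1, by omega⟩
  have e1 : rep (n + (j + 1)) (w1 ++ w2) ++ w1 = (rep n (w1 ++ w2) ++ w1) ++ rep (j + 1) (w2 ++ w1) := by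
    rw [← FC.rep_rot j w1 w2, rep_add, rep_succ]
    simp
  rw [e1, par_append, h1, ← par_star hp he] at h2
  have h3 := hpure _ _ (by omega) h2
  rw [par_star hp he] at h3
  have key : ∀ m, par Z u (rep m (w1 ++ w2) ++ w1) = [] →
      par Z u (rep (m + 1) (w1 ++ w2) ++ w1) = [] := by
    intro m hm
    have : rep (m + 1) (w1 ++ w2) ++ w1 = (rep m (w1 ++ w2) ++ w1) ++ (w2 ++ w1) := by
      rw [rep_succ']
      simp
    rw [this, par_append, hm, h3]
  have key2 : ∀ m, par Z u (rep m (w1 ++ w2) ++ w1) = [] →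
      par Z u (rep (m + 1) (w1 ++ w2)) = par Z [] w2 := by
    intro m hm
    have : rep (m + 1) (w1 ++ w2) = (rep m (w1 ++ w2) ++ w1) ++ w2 := by
      rw [rep_succ']
      simp
    rw [this, par_append, hm]
  rw [key2 (n + 1) (key n h1), key2 n h1]

/-- subsets of pure prefix codes are pure -/
theorem unique_fac (hp : ∀ u ∈ Z, ∀ w, u ++ w ∈ Z → w = []) (he : [] ∉ Z) :
    ∀ l m : List (List A), (∀ u ∈ l, u ∈ Z) → (∀ u ∈ m, u ∈ Z) → l.flatten = m.flatten → l = m := by
  intro l
  induction l with
  | nil =>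
    intro m _ hm h
    cases m with
    | nil => rfl
    | cons z m =>
      rw [List.flatten_nil, List.flatten_cons] at h
      have h0 := (List.append_eq_nil_iff.1 h.symm).1
      exact absurd (h0 ▸ hm z (by simp)) he
  | cons y l ih =>
    intro m hl hm h
    cases m with
    | nil =>
      rw [List.flatten_nil, List.flatten_cons] at h
      have h0 := (List.append_eq_nil_iff.1 h).1
      exact absurd (h0 ▸ hl y (by simp)) he
    | cons z m =>
      rw [List.flatten_cons, List.flatten_cons] at h
      have hy := hl y (by simp)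
      have hz := hm z (by simp)
      have hyz : y = z := by
        rcases List.append_eq_append_iff.1 h with ⟨a', h1, _⟩ | ⟨c', h1, _⟩
        · have := hp y hy a' (by rw [← h1]; exact hz)
          rw [h1, this, List.append_nil]
        · have := hp z hz c' (by rw [← h1]; exact hy)
          rw [h1, this, List.append_nil]
      subst hyz
      rw [ih m (fun u hu => hl u (by simp [hu])) (fun u hu => hm u (by simp [hu]))
        (List.append_cancel_left h)]

theorem pure_sub (hp : ∀ u ∈ Z, ∀ w, u ++ w ∈ Z → w = []) (he : [] ∉ Z)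
    (hpure : ∀ w n, 1 ≤ n → rep n w ∈ star Z → w ∈ star Z) {C : Set (List A)} (hC : C ⊆ Z)
    (w : List A) (n : ℕ) (hn : 1 ≤ n) (h : rep n w ∈ star C) : w ∈ star C := by
  obtain ⟨m, hm, e⟩ := h
  have h1 : rep n w ∈ star Z := ⟨m, fun u hu => hC (hm u hu), e⟩
  obtain ⟨l, hl, rfl⟩ := hpure w n hn h1
  refine ⟨l, fun u hu => ?_, rfl⟩
  have h2 : ∀ j : ℕ, (rep j l).flatten = rep j l.flatten := by
    intro j
    induction j with
    | zero => rw [rep_zero, rep_zero]; rfl
    | succ j ih => rw [rep_succ, rep_succ, List.flatten_append, ih]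
  have h3 : ∀ j : ℕ, ∀ x ∈ rep j l, x ∈ l := by
    intro j
    induction j with
    | zero => intro x hx; rw [rep_zero] at hx; exact absurd hx (by simp)
    | succ j ih =>
      intro x hx
      rw [rep_succ, List.mem_append] at hx
      rcases hx with hx | hx
      · exact hx
      · exact ih x hx
  have h4 : rep n l = m := unique_fac hp he _ _ (fun x hx => hl x (h3 n x hx))
    (fun x hx => hC (hm x hx)) (by rw [h2, e])
  refine hm u ?_
  obtain ⟨j, rfl⟩ : ∃ j, n = j + 1 := ⟨n - 1, by omega⟩
  rw [← h4, rep_succ]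
  exact List.mem_append_left _ hu

end Par

/-! ### The automaton -/

/-- the step on the classes -/
noncomputable def qst {Z : Set (List A)} {k : ℕ} (hk : Sat k Z) (q : Quotient (efSetoid A k))
    (a : A) : Quotient (efSetoid A k) :=
  Quotient.lift (s := efSetoid A k) (fun u => Quotient.mk (efSetoid A k) (pst Z u a))
    (fun u u' h => by
      have h1 : EF k (u ++ [a]) (u' ++ [a]) := EF.append h (EF.refl _ _)
      by_cases h2 : u ++ [a] ∈ Z
      · rw [pst_pos h2, pst_pos (hk _ _ h1 h2)]
      · rw [pst_neg h2, pst_neg (fun h3 => h2 (hk _ _ h1.symm h3))]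
        exact Quotient.sound h1) q

theorem qst_mk {Z : Set (List A)} {k : ℕ} (hk : Sat k Z) (w : List A) : ∀ u : List A,
    List.foldl (qst hk) (Quotient.mk (efSetoid A k) u) w = Quotient.mk (efSetoid A k) (par Z u w) := by
  induction w with
  | nil => exact fun u => rfl
  | cons a w ih =>
    intro u
    rw [List.foldl_cons, par_cons]
    exact ih (pst Z u a)

theorem qst_ap {Z : Set (List A)} {k : ℕ} (hk : Sat k Z)
    (hp : ∀ u ∈ Z, ∀ w, u ++ w ∈ Z → w = []) (he : [] ∉ Z)
    (hpure : ∀ w n, 1 ≤ n → rep n w ∈ star Z → w ∈ star Z) (w : List A)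
    (q : Quotient (efSetoid A k)) : ∃ n,
      List.foldl (qst hk) q (rep (n + 1) w) = List.foldl (qst hk) q (rep n w) := by
  induction q using Quotient.ind with
  | _ u =>
  simp only [qst_mk hk]
  by_cases hfin : ∃ N, ∀ n, N ≤ n → ∀ w1 w2, w = w1 ++ w2 → w1 ≠ [] →
      par Z u (rep n w ++ w1) ≠ []
  · -- finitely many factors
    obtain ⟨N, hN⟩ := hfin
    have h1 : ∀ n, N ≤ n → par Z u (rep (n + 1) w) = par Z u (rep n w) ++ w := by
      intro n hn
      rw [rep_succ', par_append]
      refine par_free w _ fun y1 y2 e hy h => ?_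
      obtain ⟨x1, x2, e1, hx, h2⟩ := par_hit y1 _ hy h
      refine hN n hn x1 (x2 ++ y2) (by rw [e, e1, List.append_assoc]) hx ?_
      rw [par_append, h2]
    have h2 : ∀ j, par Z u (rep (N + j) w) = par Z u (rep N w) ++ rep j w := by
      intro j
      induction j with
      | zero => rw [Nat.add_zero, rep_zero, List.append_nil]
      | succ j ih =>
        rw [← Nat.add_assoc, h1 _ (by omega), ih, List.append_assoc, ← rep_succ']
    refine ⟨N + 2 ^ k, Quotient.sound ?_⟩
    rw [Nat.add_assoc, h2, h2]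
    exact EF.append (EF.refl _ _) (EF.aper w k _ _ (by omega) (by omega))
  · -- infinitely many factors: two of them at the same place of `w`
    have h1 : ∃ i : Fin (w.length + 1), ∃ᶠ n in Filter.atTop,
        par Z u (rep n w ++ w.take i) = [] := by
      by_contra hcon
      have h2 : ∀ i : Fin (w.length + 1), ∀ᶠ n in Filter.atTop,
          ¬ par Z u (rep n w ++ w.take i) = [] := by
        intro i
        exact Filter.not_frequently.1 fun h => hcon ⟨i, h⟩
      have h3 := Filter.eventually_all.2 h2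
      obtain ⟨N, hN⟩ := Filter.eventually_atTop.1 h3
      refine hfin ⟨N, fun n hn w1 w2 e _ h => ?_⟩
      refine hN n hn ⟨w1.length, ?_⟩ ?_
      · rw [e, List.length_append]
        omega
      · have : w.take w1.length = w1 := by rw [e]; simp
        rw [this]
        exact h
    obtain ⟨i, hi⟩ := h1
    obtain ⟨n, -, hn⟩ := (Filter.frequently_atTop.1 hi) 0
    obtain ⟨n', hnn, hn'⟩ := (Filter.frequently_atTop.1 hi) (n + 1)
    have e : w = w.take i ++ w.drop i := (List.take_append_drop _ _).symm
    refine ⟨n + 1, congrArg _ ?_⟩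
    have h4 := par_period (u := u) (w1 := w.take i) (w2 := w.drop i) hp he hpure
      (by omega : n < n') (by rw [← e]; exact hn) (by rw [← e]; exact hn')
    rw [← e] at h4
    exact h4

/-- **pure star-free prefix codes** -/
theorem pure_star [Finite A] {Z : Set (List A)} (h0 : Ht 0 Z)
    (hp : ∀ u ∈ Z, ∀ w, u ++ w ∈ Z → w = []) (he : [] ∉ Z)
    (hpure : ∀ w n, 1 ≤ n → rep n w ∈ star Z → w ∈ star Z) : HP Z := by
  intro C hCZ hC
  have hp' : ∀ u ∈ C, ∀ w, u ++ w ∈ C → w = [] := fun u hu w hw => hp u (hCZ hu) w (hCZ hw)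
  have he' : [] ∉ C := fun h => he (hCZ h)
  obtain ⟨k0, hk0⟩ := exists_sat hC
  have hk : Sat (k0 + 1) C := hk0.mono (by omega)
  have := ef_finite (A := A) (k0 + 1)
  have h1 := autom_starfree (qst hk) (qst_ap hk hp' he' (pure_sub hp he hpure hCZ))
    (Quotient.mk (efSetoid A (k0 + 1)) []) (Quotient.mk (efSetoid A (k0 + 1)) [])
  have h2 : star C = {w | List.foldl (qst hk) (Quotient.mk (efSetoid A (k0 + 1)) []) w =
      Quotient.mk (efSetoid A (k0 + 1)) []} := by
    ext w
    rw [Set.mem_ofPred_eq, qst_mk, par_star hp' he']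
    constructor
    · intro h
      rw [h]
    · intro h
      exact EF.nil (by omega) (Quotient.exact h)
  rw [h2]
  exact h1

end Pool.Agent.GSH.NP
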