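import Pool.Agent.GSH.NPChain
import Pool.Agent.GSH.NPPure

/-!
# The tree lemma
-/

set_option autoImplicit false

namespace Pool.Agent.GSH.NP

open Pool.Agent.GSH

variable {A : Type}

/-- the tree lemma -/
def TreeLemma (A : Type) : Prop := ∀ (L : Set (List A)), Ht 0 L →
  (∀ u ∈ L, ∀ w, u ++ w ∈ L → w = []) → [] ∉ L →
  ∀ P : ℕ → Set (List A) → Prop,
  (∀ a C, 1 ≤ a → C ⊆ FC.pw L a → Ht 0 C → HP C → P a C) →
  (∀ a C C', P a C → P a C' → P a (C ∪ C')) →
  (∀ a C C', Ht 0 C' → C' ⊆ C → P a C → P a C') →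
  (∀ a C, 1 ≤ a → Ht 0 C → C ⊆ FC.pw L a → P (a + 1) (cat C L) → P a C) →
  ∀ a C, 1 ≤ a → Ht 0 C → C ⊆ FC.pw L a → (∀ κ ∈ L, rep a κ ∉ C) → P a C

/-- product of the first `b` words -/
def wv (f : ℕ → List A) : ℕ → List A
  | 0 => []
  | b + 1 => wv f b ++ f b

theorem wv_congr {f g : ℕ → List A} {b : ℕ} (h : ∀ i < b, f i = g i) : wv f b = wv g b := by
  induction b with
  | zero => rfl
  | succ b ih =>
    show wv f b ++ f b = wv g b ++ g b
    rw [ih (fun i hi => h i (by omega)), h b (by omega)]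

theorem cat_assoc' (K L M : Set (List A)) : cat (cat K L) M = cat K (cat L M) := by
  ext w
  constructor
  · rintro ⟨_, ⟨u, hu, v, hv, rfl⟩, x, hx, rfl⟩
    exact ⟨u, hu, v ++ x, ⟨v, hv, x, hx, rfl⟩, by simp⟩
  · rintro ⟨u, hu, _, ⟨v, hv, x, hx, rfl⟩, rfl⟩
    exact ⟨u ++ v, ⟨u, hu, v, hv, rfl⟩, x, hx, by simp⟩

theorem pw_succ' (K : Set (List A)) (n : ℕ) : FC.pw K (n + 1) = cat (FC.pw K n) K := by
  induction n with
  | zero =>
    rw [FC.pw_succ, FC.pw_zero]
    ext w
    constructor
    · rintro ⟨u, hu, _, rfl, rfl⟩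
      exact ⟨[], rfl, u, hu, by simp⟩
    · rintro ⟨_, rfl, u, hu, rfl⟩
      exact ⟨u, hu, [], rfl, by simp⟩
  | succ n ih =>
    rw [FC.pw_succ, ih, ← cat_assoc', ← FC.pw_succ, ih]

theorem mem_pw_wv {L : Set (List A)} {b : ℕ} {w : List A} :
    w ∈ FC.pw L b ↔ ∃ f : ℕ → List A, (∀ i < b, f i ∈ L) ∧ wv f b = w := by
  induction b generalizing w with
  | zero =>
    rw [FC.pw_zero]
    constructor
    · rintro rfl
      exact ⟨fun _ => [], fun i hi => absurd hi (by omega), rfl⟩
    · rintro ⟨f, _, rfl⟩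
      rfl
  | succ b ih =>
    rw [pw_succ']
    constructor
    · rintro ⟨u, hu, v, hv, rfl⟩
      obtain ⟨f, h1, h2⟩ := ih.1 hu
      refine ⟨fun i => if i < b then f i else v, ?_, ?_⟩
      · intro i hi
        by_cases h3 : i < b
        · simp only [if_pos h3]; exact h1 i h3
        · simp only [if_neg h3]; exact hv
      · show wv _ b ++ _ = u ++ v
        rw [← h2, wv_congr (g := f) (fun i hi => by simp [hi])]
        simp
    · rintro ⟨f, h1, rfl⟩
      exact ⟨wv f b, ih.2 ⟨f, fun i hi => h1 i (by omega), rfl⟩, f b, h1 b (by omega), rfl⟩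

theorem pw_pfree {L : Set (List A)} (hp : PFree L) : ∀ b, PFree (FC.pw L b) := by
  intro b
  induction b with
  | zero =>
    rw [FC.pw_zero]
    rintro u rfl w h
    simpa using h
  | succ b ih =>
    rw [FC.pw_succ]
    rintro _ ⟨u, hu, v, hv, rfl⟩ w ⟨u', hu', v', hv', h⟩
    rw [List.append_assoc] at h
    have hz : u' = u := by
      rcases List.append_eq_append_iff.1 h with ⟨r, h1, h2⟩ | ⟨r, h1, h2⟩
      · have := hp u' hu' r (by rw [← h1]; exact hu)
        rw [h1, this, List.append_nil]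
      · have := hp u hu r (by rw [← h1]; exact hu')
        rw [h1, this, List.append_nil]
    subst hz
    have h3 := List.append_cancel_left h
    exact ih v hv w (by rw [← h3]; exact hv')

theorem pw_nil {L : Set (List A)} (he : [] ∉ L) {b : ℕ} (hb : 1 ≤ b) : [] ∉ FC.pw L b := by
  obtain ⟨b, rfl⟩ : ∃ j, b = j + 1 := ⟨b - 1, by omega⟩
  rw [FC.pw_succ]
  rintro ⟨u, hu, v, _, h⟩
  rw [(List.append_eq_nil_iff.1 h).1] at hu
  exact he hu

theorem pw_ht {L : Set (List A)} (h0 : Ht 0 L) : ∀ b, Ht 0 (FC.pw L b) := by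
  intro b
  induction b with
  | zero => rw [FC.pw_zero]; exact Ht.one 0
  | succ b ih => rw [FC.pw_succ]; exact h0.cat ih

theorem lim_wv [Finite A] (f : ℕ → ℕ → List A) (b : ℕ) :
    VV (fun i => lim (fun k => f k i)) b = lim (fun k => wv (f k) b) := by
  induction b with
  | zero =>
    symm
    apply lim_eq
    intro k
    exact Filter.Eventually.of_forall (fun _ => rfl)
  | succ b ih =>
    rw [VV_succ, ih, ← lim_append]
    rfl

theorem ht_at [Finite A] (j : ℕ) (x : W A) : Ht 0 {w : List A | qt j w = x.1 j} := by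
  have : {w : List A | qt j w = x.1 j} = cls j (x.w j) := by
    ext w
    rw [x.w_spec le_rfl]
    exact qt_eq
  rw [this]
  exact ht_cls j _

/-- **The tree lemma.** -/
theorem tree_lemma [Finite A] : TreeLemma A := by
  have hpure : ∀ Z : Set (List A), Ht 0 Z → (∀ u ∈ Z, ∀ w, u ++ w ∈ Z → w = []) → [] ∉ Z →
      (∀ (w : List A) (n : ℕ), 1 ≤ n → rep n w ∈ star Z → w ∈ star Z) → HP Z :=
    fun Z h0 hp he h => pure_star h0 hp he h
  intro L h0 hp he P H1 H2 H3 H4 a C ha hC hCL hpow
  by_contra hnP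
  have hp' : PFree L := hp
  obtain ⟨k0, hs⟩ := exists_sat h0
  have hempty : ∀ b, 1 ≤ b → P b ∅ := by
    intro b hb
    refine H1 b ∅ hb (Set.empty_subset _) (Ht.empty 0) ?_
    intro C' hC' _
    have : C' = ∅ := Set.subset_empty_iff.1 hC'
    rw [this]
    have h1 : star (∅ : Set (List A)) = {[]} := by
      ext w
      constructor
      · rintro ⟨l, hl, rfl⟩
        cases l with
        | nil => rfl
        | cons x l => exact absurd (hl x (by simp)) (by simp)
      · rintro rfl
        exact nil_mem_star _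
    rw [h1]
    exact Ht.one 0
  -- a class which is not killed
  have hclass : ∀ b D, 1 ≤ b → Ht 0 D → ¬ P b D → ∀ k, ∃ w ∈ D, ¬ P b (D ∩ cls k w) := by
    intro b D hb hD hnD k
    by_contra hno
    push Not at hno
    apply hnD
    have := ef_finite (A := A) k
    have := Fintype.ofFinite (Quotient (efSetoid A k))
    classical
    have key : ∀ s : Finset (Quotient (efSetoid A k)),
        P b {x | x ∈ D ∧ Quotient.mk (efSetoid A k) x ∈ s} := by
      intro s
      induction s using Finset.induction_on with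
      | empty => simpa using hempty b hb
      | insert q s _ ih =>
        have e1 : {x | x ∈ D ∧ Quotient.mk (efSetoid A k) x ∈ insert q s} =
            {x | x ∈ D ∧ Quotient.mk (efSetoid A k) x = q} ∪
              {x | x ∈ D ∧ Quotient.mk (efSetoid A k) x ∈ s} := by
          ext x
          simp only [Finset.mem_insert, Set.mem_ofPred_eq, Set.mem_union]
          tauto
        rw [e1]
        refine H2 _ _ _ ?_ ih
        by_cases hq : ∃ w ∈ D, Quotient.mk (efSetoid A k) w = q
        · obtain ⟨w, hw, e⟩ := hq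
          have e2 : {x | x ∈ D ∧ Quotient.mk (efSetoid A k) x = q} = D ∩ cls k w := by
            ext x
            rw [← e]
            exact ⟨fun h => ⟨h.1, Quotient.exact h.2⟩, fun h => ⟨h.1, Quotient.sound h.2⟩⟩
          rw [e2]
          exact hno w hw
        · have e2 : {x | x ∈ D ∧ Quotient.mk (efSetoid A k) x = q} = ∅ := by
            ext x
            simp only [Set.mem_ofPred_eq, Set.mem_empty_iff_false, iff_false]
            exact fun h => hq ⟨x, h.1, h.2⟩
          rw [e2]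
          exact hempty b hb
    have := key Finset.univ
    simpa using this
  -- unkilled points
  let unk : ℕ → W A → Prop := fun b x => ∀ k, ¬ P b (FC.pw L b ∩ {w | qt k w = x.1 k})
  -- the first point
  obtain ⟨κ1, hκ1, hκ2, hκ3⟩ : ∃ κ : ℕ → W A, (∀ i, i < a → κ i ∈ hat k0 L) ∧
      (∀ j, ∃ w ∈ C, qt j w = (VV κ a).1 j) ∧ unk a (VV κ a) := by
    choose w hwC hwP using hclass a C ha hC hnP
    have h1 : ∀ k, ∃ f : ℕ → List A, (∀ i < a, f i ∈ L) ∧ wv f a = w k :=
      fun k => mem_pw_wv.1 (hCL (hwC k))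
    choose f hf1 hf2 using h1
    have e1 : VV (fun i => lim (fun k => f k i)) a = lim w := by
      rw [lim_wv]
      congr 1
      funext k
      exact hf2 k
    refine ⟨fun i => lim (fun k => f k i), ?_, ?_, ?_⟩
    · intro i hi
      obtain ⟨k, hk⟩ := (lim_at (fun k => f k i) k0).exists
      exact ⟨f k i, hf1 k i hi, hk.symm⟩
    · intro j
      rw [e1]
      obtain ⟨k, hk⟩ := (lim_at w j).exists
      exact ⟨w k, hwC k, hk⟩
    · intro j
      rw [e1]
      obtain ⟨k, hk, hjk⟩ := ((lim_at w j).and (UU_ge j)).exists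
      intro hPj
      apply hwP k
      refine H3 _ _ _ (hC.inter (ht_cls k _)) ?_ hPj
      rintro x ⟨hx1, hx2⟩
      refine ⟨hCL hx1, ?_⟩
      show qt j x = _
      rw [← hk]
      exact qt_eq.2 (EF.mono hjk hx2)
  -- extension
  have hext : ∀ b x, 1 ≤ b → unk b x → ∃ κ, κ ∈ hat k0 L ∧ unk (b + 1) (x * κ) := by
    intro b x hb hx
    have hD : ∀ k, Ht 0 (FC.pw L b ∩ {w | qt k w = x.1 k}) :=
      fun k => (pw_ht h0 b).inter (ht_at k x)
    have h1 : ∀ k, ∃ w ∈ cat (FC.pw L b ∩ {w | qt k w = x.1 k}) L,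
        ¬ P (b + 1) (cat (FC.pw L b ∩ {w | qt k w = x.1 k}) L ∩ cls k w) := by
      intro k
      refine hclass (b + 1) _ (by omega) ((hD k).cat h0) ?_ k
      intro h
      exact hx k (H4 b _ hb (hD k) Set.inter_subset_left h)
    choose w hw1 hw2 using h1
    have h2 : ∀ k, ∃ u l, u ∈ FC.pw L b ∧ qt k u = x.1 k ∧ l ∈ L ∧ u ++ l = w k := by
      intro k
      obtain ⟨u, hu, l, hl, e⟩ := hw1 k
      exact ⟨u, l, hu.1, hu.2, hl, e⟩
    choose u l hu1 hu2 hl hul using h2
    refine ⟨lim l, ?_, ?_⟩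
    · obtain ⟨k, hk⟩ := (lim_at l k0).exists
      exact ⟨l k, hl k, hk.symm⟩
    · intro j hPj
      obtain ⟨k, hk, hjk⟩ := ((lim_at l j).and (UU_ge j)).exists
      apply hw2 k
      refine H3 _ _ _ (((hD k).cat h0).inter (ht_cls k _)) ?_ hPj
      rintro y ⟨⟨y1, hy1, y2, hy2, rfl⟩, hy3⟩
      refine ⟨?_, ?_⟩
      · rw [pw_succ']
        exact ⟨y1, hy1.1, y2, hy2, rfl⟩
      · show qt j (y1 ++ y2) = _
        have h3 : qt j (y1 ++ y2) = qt j (w k) := qt_eq.2 (EF.mono hjk hy3)
        rw [h3, ← hul k, qt_append, hk, W.mul_at]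
        congr 1
        have h4 := hu2 k
        rw [x.w_spec le_rfl] at h4
        rw [x.w_spec hjk]
        exact qt_eq.2 (EF.mono hjk (qt_eq.1 h4))
  -- the infinite word
  obtain ⟨κ, hκL, hκa, hκu⟩ : ∃ κ : ℕ → W A, (∀ i, κ i ∈ hat k0 L) ∧ VV κ a = VV κ1 a ∧
      ∀ b, a ≤ b → unk b (VV κ b) := by
    choose! g hg1 hg2 using hext
    let S : ℕ → W A := fun m => Nat.rec (VV κ1 a) (fun m x => x * g (a + m) x) m
    have hS : ∀ m, S (m + 1) = S m * g (a + m) (S m) := fun m => rfl
    have hSu : ∀ m, unk (a + m) (S m) := by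
      intro m
      induction m with
      | zero => exact hκ3
      | succ m ih => exact hg2 (a + m) (S m) (by omega) ih
    let κ : ℕ → W A := fun i => if i < a then κ1 i else g i (S (i - a))
    have e1 : ∀ q, q ≤ a → VV κ q = VV κ1 q := by
      intro q
      induction q with
      | zero => intro _; rfl
      | succ q ih =>
        intro hq
        rw [VV_succ, VV_succ, ih (by omega)]
        congr 1
        show (if q < a then κ1 q else g q (S (q - a))) = κ1 q
        rw [if_pos (by omega)]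
    have e2 : ∀ m, VV κ (a + m) = S m := by
      intro m
      induction m with
      | zero => exact e1 a le_rfl
      | succ m ih =>
        have : VV κ (a + (m + 1)) = VV κ (a + m) * κ (a + m) := rfl
        rw [this, ih, hS]
        congr 1
        show (if a + m < a then κ1 (a + m) else g (a + m) (S (a + m - a))) = _
        rw [if_neg (by omega), Nat.add_sub_cancel_left]
    refine ⟨κ, ?_, e1 a le_rfl, ?_⟩
    · intro i
      show (if i < a then κ1 i else g i (S (i - a))) ∈ hat k0 L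
      by_cases hi : i < a
      · rw [if_pos hi]; exact hκ1 i hi
      · rw [if_neg hi]
        have := hSu (i - a)
        rw [Nat.add_sub_cancel' (by omega)] at this
        exact hg1 i (S (i - a)) (by omega) this
    · intro b hb
      obtain ⟨m, rfl⟩ : ∃ m, b = a + m := ⟨b - a, by omega⟩
      rw [e2]
      exact hSu m
  have hcl := hat_cl hs hp' he
  -- all the initial products are proper powers
  have hbad : ∀ q, a ≤ q → ∃ (U : W A) (n : ℕ), Bad κ q U n := by
    intro b hb
    obtain ⟨kb, hsb⟩ := exists_sat (pw_ht h0 b)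
    have hVm : VV κ b ∈ hat kb (FC.pw L b) := by
      refine ⟨wv (fun i => (κ i).w (max k0 kb)) b, mem_pw_wv.2 ⟨_, fun i _ => ?_, rfl⟩, ?_⟩
      · exact hat_mem hs (hκL i) (le_max_left _ _)
      · have : ∀ c, (VV κ c).1 kb = qt kb (wv (fun i => (κ i).w (max k0 kb)) c) := by
          intro c
          induction c with
          | zero => rfl
          | succ c ih =>
            rw [VV_succ, W.mul_at, ih, (κ c).w_spec (le_max_right k0 kb)]
            rfl
        exact this b
    obtain ⟨R, m, hm, e⟩ := bad_of_not_pure hsb (pw_pfree hp' b) (pw_nil he (by omega)) hVm (by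
      intro k _ hpk
      refine hκu b hb k (H1 b _ (by omega) Set.inter_subset_left
        ((pw_ht h0 b).inter (ht_at k _)) ?_)
      refine hpure _ ((pw_ht h0 b).inter (ht_at k _)) ?_ ?_ hpk
      · exact fun u hu w hw => pw_pfree hp' b u hu.1 w hw.1
      · exact fun h => pw_nil he (by omega) h.1)
    obtain ⟨U, n, h1, h2, h3⟩ := exists_root (VV_sr hcl hκL b) (VV_ne hcl hκL (by omega)) e
    exact ⟨U, n, h1, by omega, h3⟩
  obtain ⟨q, hq1, hq2⟩ := core hcl hκL ha hbad
  have e3 : VV κ a = κ q ^ a := VV_const (fun i hi => hq2 i (by omega))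
  obtain ⟨kC, hsC⟩ := exists_sat hC
  obtain ⟨w, hwC, hwe⟩ := hκ2 (max k0 kC)
  rw [← hκa, e3, W.pow_at, (κ q).w_spec le_rfl, ← qt_rep] at hwe
  exact hpow _ (hat_mem hs (hκL q) (le_max_left k0 kC))
    (hsC _ _ ((qt_eq.1 hwe).mono (le_max_right _ _)) hwC)

end Pool.Agent.GSH.NP
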