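import Pool.Agent.GSH.NPAlign
import Pool.Agent.GSH.NPTree

/-!
# Killed sets and averaging: the induction over the degree
-/

set_option autoImplicit false

namespace Pool.Agent.GSH.NP

open Pool.Agent.GSH Pool.Agent.GSH.FC

variable {A B : Type}

/-- the statement of `pure_kill` -/
def PureKill (A : Type) : Prop := ∀ (j : ℕ), CJ A j → ∀ (B : Type) (c : B → List A), SFC c →
  ∀ (Θ : Type) [Finite Θ] (θ : B → Θ), Lab c θ → ∀ (Z : Set B),
  (∀ Z' ⊆ Z, Ht 0 (c '' Z') → Ht 0 (star (c '' Z'))) → Ht 0 (c '' Z) →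
  ∀ (M : ℕ) [NeZero M] (G : List Θ → ZMod M), Pol j G →
    ME c (SS (wt 1 (one Z) (0 : ZMod 1) (fun y => G (y.map θ))))

/-! ### Sums over suffixes -/

namespace Aver

section Sum

variable {R : Type} [AddCommGroup R]

theorem SS_tail {D D' : List B → R} (h0 : D' [] = 0) (h : ∀ b l, D' (b :: l) = D l)
    (l : List B) : SS D' l + D l = SS D l := by
  induction l with
  | nil => simp [SS, h0]
  | cons b l ih =>
    simp only [SS]
    rw [h, ← ih]
    abel

/-- the summand at the suffix of length `t` -/
theorem SS_at (t : ℕ) (f : List B → R) (l : List B) :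
    SS (fun x => if x.length = t then f x else 0) l =
      if t ≤ l.length then f (l.drop (l.length - t)) else 0 := by
  induction l with
  | nil =>
    by_cases ht : t = 0
    · subst ht; simp [SS]
    · have h1 : ¬ (0 = t) := fun h => ht h.symm
      simp [SS, h1, ht]
  | cons b l ih =>
    simp only [SS]
    rw [ih]
    by_cases h1 : t ≤ l.length
    · rw [if_neg (by simp; omega), if_pos h1, if_pos (by simp; omega), zero_add]
      have : (b :: l).length - t = (l.length - t) + 1 := by simp; omega
      rw [this, List.drop_succ_cons]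
    · rw [if_neg h1]
      by_cases h2 : t = l.length + 1
      · subst h2
        simp
      · rw [if_neg (by simp; omega), if_neg (by simp; omega), add_zero]

end Sum

section Code

variable {c : B → List A}

theorem H_diff (hc : SFC c) {m : ℕ} {S T : Set (List B)} (hS : H c m S) (hT : H c m T) :
    H c m (S \ T) := by
  unfold H
  rw [Set.image_sdiff hc.code]
  exact Ht.inter hS (Ht.compl hT)

theorem ME_at (hc : SFC c) {R : Type} [AddCommGroup R] (t : ℕ) (f : List B → R)
    (hf : ∀ x, H c 1 {l | l.length = t ∧ f l = x}) :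
    ME c (SS (fun x => if x.length = t then f x else 0)) := by
  intro x
  have : {l | SS (fun x => if x.length = t then f x else 0) l = x} =
      {l | 0 = x ∧ l ∈ {l : List B | l.length < t}} ∪
        cat Set.univ {l | l.length = t ∧ f l = x} := by
    ext l
    constructor
    · intro hl
      have hl' : SS (fun x => if x.length = t then f x else 0) l = x := hl
      rw [SS_at] at hl'
      by_cases h1 : t ≤ l.length
      · right
        rw [if_pos h1] at hl'
        refine ⟨l.take (l.length - t), trivial, l.drop (l.length - t), ⟨?_, hl'⟩,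
          List.take_append_drop _ _⟩
        rw [List.length_drop]; omega
      · left
        rw [if_neg h1] at hl'
        exact ⟨hl', not_le.1 h1⟩
    · rintro (⟨h1, h2⟩ | ⟨u, -, v, ⟨h3, h4⟩, rfl⟩)
      · have h2' : l.length < t := h2
        show SS _ l = x
        rw [SS_at, if_neg (by omega)]
        exact h1
      · show SS _ (u ++ v) = x
        rw [SS_at, if_pos (by rw [List.length_append]; omega)]
        have : (u ++ v).length - t = u.length := by rw [List.length_append]; omega
        rw [this, List.drop_left]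
        exact h4
  rw [this]
  exact (H.prop _ ((hc.len_lt t).mono (by omega))).union (hc.univ.cat (hf x))

theorem mem_cat_take {C T : Set (List B)} {n m : ℕ} (hC : ∀ u ∈ C, u.length = n)
    {l : List B} : l.take (n + m) ∈ cat C T ↔ l.take n ∈ C ∧ (l.drop n).take m ∈ T := by
  constructor
  · rintro ⟨u, hu, v, hv, h⟩
    have h1 : l.take n = u := by
      have := congrArg (List.take n) h
      rw [List.take_left' (hC u hu), List.take_take, min_eq_left (by omega)] at this
      exact this.symm
    have h2 : (l.drop n).take m = v := by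
      have := congrArg (List.drop n) h
      rw [List.drop_left' (hC u hu), List.drop_take, Nat.add_sub_cancel_left] at this
      exact this.symm
    rw [h1, h2]
    exact ⟨hu, hv⟩
  · rintro ⟨h1, h2⟩
    exact ⟨_, h1, _, h2, by rw [← List.take_add]⟩

variable {Θ : Type} {θ : B → Θ}

theorem wt_neg {R : Type} [AddCommGroup R] {n : ℕ} {C : Set (List B)} {q : ℕ} {s : ZMod q}
    {G : List B → R} {l : List B} (h : ¬ n ≤ l.length) : wt n C s G l = 0 := by
  unfold wt
  rw [if_neg (fun h' => h h'.1)]

theorem wt_pos {R : Type} [AddCommGroup R] {n : ℕ} {C : Set (List B)} {q : ℕ} {s : ZMod q}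
    {G : List B → R} {l : List B} (h1 : n ≤ l.length) (h2 : l.take n ∈ C)
    (h3 : ((l.length - n : ℕ) : ZMod q) = s) : wt n C s G l = G (l.drop n) :=
  if_pos ⟨h1, h2, h3⟩

theorem wt_none {R : Type} [AddCommGroup R] {n : ℕ} {C : Set (List B)} {q : ℕ} {s : ZMod q}
    {G : List B → R} {l : List B} (h : l.take n ∈ C → ((l.length - n : ℕ) : ZMod q) ≠ s) :
    wt n C s G l = 0 :=
  if_neg (fun h' => h h'.2.1 h'.2.2)

theorem wt_union {R : Type} [AddCommGroup R] {n : ℕ} {C C' : Set (List B)} (hd : Disjoint C C')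
    {q : ℕ} (s : ZMod q) (G : List B → R) (l : List B) :
    wt n (C ∪ C') s G l = wt n C s G l + wt n C' s G l := by
  by_cases h0 : n ≤ l.length ∧ ((l.length - n : ℕ) : ZMod q) = s
  · by_cases h1 : l.take n ∈ C
    · have h2 : l.take n ∉ C' := fun h => Set.disjoint_left.1 hd h1 h
      rw [wt_pos h0.1 (Or.inl h1) h0.2, wt_pos h0.1 h1 h0.2, wt_none (fun h => absurd h h2), add_zero]
    · rw [wt_none (C := C) (fun h => absurd h h1), zero_add]
      by_cases h2 : l.take n ∈ C'
      · rw [wt_pos h0.1 (Or.inr h2) h0.2, wt_pos h0.1 h2 h0.2]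
      · rw [wt_none (C := C') (fun h => absurd h h2),
          wt_none (fun h => absurd h (fun h' => h'.elim h1 h2))]
  · by_cases h1 : n ≤ l.length
    · have h2 : ((l.length - n : ℕ) : ZMod q) ≠ s := fun h => h0 ⟨h1, h⟩
      rw [wt_none (fun _ => h2), wt_none (fun _ => h2), wt_none (fun _ => h2), add_zero]
    · rw [wt_neg h1, wt_neg h1, wt_neg h1, add_zero]

theorem wt_sum {R : Type} [AddCommGroup R] (n : ℕ) (C : Set (List B)) {q : ℕ} [NeZero q]
    (G : List B → R) (l : List B) :
    ∑ s : ZMod q, wt n C s G l = wt n C (0 : ZMod 1) G l := by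
  classical
  unfold wt
  by_cases h1 : n ≤ l.length ∧ l.take n ∈ C
  · rw [if_pos ⟨h1.1, h1.2, Subsingleton.elim _ _⟩]
    rw [Finset.sum_eq_single ((l.length - n : ℕ) : ZMod q)]
    · rw [if_pos ⟨h1.1, h1.2, rfl⟩]
    · intro s _ hs
      rw [if_neg (fun h => hs h.2.2.symm)]
    · intro h
      exact absurd (Finset.mem_univ _) h
  · rw [if_neg (fun h => h1 ⟨h.1, h.2.1⟩)]
    exact Finset.sum_eq_zero (fun s _ => if_neg (fun h => h1 ⟨h.1, h.2.1⟩))

variable {M : ℕ}

/-- the value near the end of the word -/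
theorem H_end (hc : SFC c) [Finite Θ] (hθ : Lab c θ) {n : ℕ} {C : Set (List B)} (hC : H c 0 C)
    (hCn : ∀ l ∈ C, l.length = n) {q : ℕ} (s : ZMod q) (G : List Θ → ZMod M) (t : ℕ)
    (x : ZMod M) : H c 1 {l | l.length = t ∧ wt n C s (fun y => G (y.map θ)) l = x} := by
  classical
  refine H.mono (n := 0) (by omega) ?_
  by_cases hnt : n ≤ t
  · obtain ⟨k, rfl⟩ := Nat.exists_eq_add_of_le hnt
    have : {l | l.length = n + k ∧ wt n C s (fun y => G (y.map θ)) l = x} =
        {l | 0 = x ∧ l ∈ {l : List B | l.length = n + k} \ cat C {l | l.length = k}} ∪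
        ⋃ v : BL Θ k, {l | (if ((k : ℕ) : ZMod q) = s then G v.1 else 0) = x ∧
          l ∈ cat C {l : List B | l.map θ = v.1}} := by
      ext l
      constructor
      · rintro ⟨h1, h2⟩
        have h3 : l.take (n + k) = l := List.take_of_length_le (by omega)
        by_cases h4 : l.take n ∈ C
        · right
          refine Set.mem_iUnion.2 ⟨⟨(l.drop n).map θ, by rw [List.length_map, List.length_drop]; omega⟩,
            ?_, l.take n, h4, l.drop n, rfl, List.take_append_drop _ _⟩
          rw [← h2]
          unfold wt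
          have h5 : l.length - n = k := by omega
          by_cases h6 : ((k : ℕ) : ZMod q) = s
          · rw [if_pos h6, if_pos ⟨by omega, h4, by rw [h5]; exact h6⟩]
          · rw [if_neg h6, if_neg (fun h => h6 (by rw [← h5]; exact h.2.2))]
        · left
          refine ⟨?_, h1, ?_⟩
          · rw [← h2]
            unfold wt
            rw [if_neg (fun h => h4 h.2.1)]
          · rintro ⟨u, hu, v, hv, rfl⟩
            rw [List.take_left' (hCn u hu)] at h4
            exact h4 hu
      · rintro (⟨h1, h2, h3⟩ | h1)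
        · refine ⟨h2, ?_⟩
          have h2' : l.length = n + k := h2
          unfold wt
          rw [if_neg]
          · exact h1
          · rintro ⟨-, h4, -⟩
            exact h3 ⟨l.take n, h4, l.drop n, by show (l.drop n).length = k; rw [List.length_drop]; omega,
              List.take_append_drop _ _⟩
        · obtain ⟨v, h2, u, hu, w, hw, rfl⟩ := Set.mem_iUnion.1 h1
          have hw' : w.map θ = v.1 := hw
          have hwl : w.length = k := by rw [← v.2, ← hw', List.length_map]
          refine ⟨by show (u ++ w).length = n + k; rw [List.length_append, hCn u hu, hwl], ?_⟩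
          rw [← h2]
          unfold wt
          have h5 : (u ++ w).length - n = k := by rw [List.length_append, hCn u hu]; omega
          by_cases h6 : ((k : ℕ) : ZMod q) = s
          · rw [if_pos h6, if_pos ⟨by rw [List.length_append, hCn u hu]; omega,
              by rw [List.take_left' (hCn u hu)]; exact hu, by rw [h5]; exact h6⟩,
              List.drop_left' (hCn u hu)]
            beta_reduce
            rw [hw']
          · rw [if_neg h6, if_neg (fun h => h6 (by rw [← h5]; exact h.2.2))]
    rw [this]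
    refine (H.prop _ (H_diff hc (hc.len _) (hC.cat (hc.len k)))).union
      (H.iUnion (fun v => H.prop _ (hC.cat (hθ.word v.1))))
  · have : {l | l.length = t ∧ wt n C s (fun y => G (y.map θ)) l = x} =
        {l | 0 = x ∧ l ∈ {l : List B | l.length = t}} := by
      ext l
      constructor
      · rintro ⟨h1, h2⟩
        rw [wt_neg (by omega)] at h2
        exact ⟨h2, h1⟩
      · rintro ⟨h1, h2⟩
        have h2' : l.length = t := h2
        refine ⟨h2, ?_⟩
        rw [wt_neg (by omega)]
        exact h1
    rw [this]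
    exact H.prop _ (hc.len t)

variable [NeZero M]

theorem lower' {j : ℕ} (hj : CJ A j) (hc : SFC c) [Finite Θ] (hθ : Lab c θ) {n : ℕ}
    (hn : 1 ≤ n) {C : Set (List B)} (hC : H c 0 C) (hCn : ∀ l ∈ C, l.length = n) {q : ℕ}
    [NeZero q] (s : ZMod q) {G : List Θ → ZMod M} (hG : Pol j G) (v : List Θ) :
    ME c (SS (wt n C s (fun y => G (v ++ y.map θ) - G (y.map θ)))) := by
  cases j with
  | zero =>
    have h0 : ∀ l, G l = 0 := hG
    have : SS (wt n C s (fun y => G (v ++ y.map θ) - G (y.map θ))) = fun _ => (0 : ZMod M) := by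
      funext l
      have h1 : wt n C s (fun y => G (v ++ y.map θ) - G (y.map θ)) = fun _ => (0 : ZMod M) := by
        funext x
        unfold wt
        simp [h0]
      rw [h1, SS_zero (fun _ _ _ => rfl)]
    rw [this]
    exact hc.const 0
  | succ j =>
    exact lower hj hc hθ hn hC hCn s (G := fun y => G (v ++ y) - G y) (hG.diff_append v)

/-- multiplication by `K ^ m` on the right -/
theorem right_mul {j : ℕ} (hj : CJ A j) (hc : SFC c) [Finite Θ] (hθ : Lab c θ) {n : ℕ}
    (hn : 1 ≤ n) {C : Set (List B)} (hC : H c 0 C) (hCn : ∀ l ∈ C, l.length = n) (m : ℕ) {q : ℕ}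
    [NeZero q] (s : ZMod q) {G : List Θ → ZMod M} (hG : Pol j G) :
    ME c (fun l => SS (wt n C s (fun y => G (y.map θ))) l -
      SS (wt (n + m) (cat C {l | l.length = m}) (s - (m : ZMod q)) (fun y => G (y.map θ))) l) := by
  classical
  let _ : Fintype (BL Θ m) := Fintype.ofFinite _
  have key : ∀ l, wt n C s (fun y => G (y.map θ)) l =
      wt (n + m) (cat C {l | l.length = m}) (s - (m : ZMod q)) (fun y => G (y.map θ)) l +
        (∑ v : BL Θ m, wt (n + m) (cat C {l : List B | l.map θ = v.1}) (s - (m : ZMod q))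
          (fun y => G (v.1 ++ y.map θ) - G (y.map θ)) l +
        ∑ t ∈ Finset.range (n + m), if l.length = t then wt n C s (fun y => G (y.map θ)) l else 0) := by
    intro l
    by_cases hl : n + m ≤ l.length
    · have h1 : ∑ t ∈ Finset.range (n + m),
          (if l.length = t then wt n C s (fun y => G (y.map θ)) l else 0) = 0 := by
        refine Finset.sum_eq_zero (fun t ht => if_neg ?_)
        have := Finset.mem_range.1 ht
        omega
      rw [h1, add_zero]
      have hk : ((l.drop n).take m).length = m := by rw [List.length_take, List.length_drop]; omega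
      have hmem : l.take (n + m) ∈ cat C {l : List B | l.length = m} ↔ l.take n ∈ C := by
        rw [mem_cat_take hCn]
        exact and_iff_left hk
      have hs : ((l.length - (n + m) : ℕ) : ZMod q) = s - (m : ZMod q) ↔ ((l.length - n : ℕ) : ZMod q) = s := by
        have : ((l.length - n : ℕ) : ZMod q) = ((l.length - (n + m) : ℕ) : ZMod q) + m := by
          rw [← Nat.cast_add]
          congr 1
          omega
        rw [this, eq_sub_iff_add_eq]
      have hdr : l.drop n = (l.drop n).take m ++ l.drop (n + m) := by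
        rw [← List.drop_drop]
        exact (List.take_append_drop m (l.drop n)).symm
      rw [Finset.sum_eq_single (⟨((l.drop n).take m).map θ, by rw [List.length_map]; exact hk⟩ : BL Θ m)]
      · show _ = _ + wt (n + m) (cat C {x : List B | x.map θ = ((l.drop n).take m).map θ})
          (s - (m : ZMod q)) (fun y => G (((l.drop n).take m).map θ ++ y.map θ) - G (y.map θ)) l
        by_cases h2 : l.take n ∈ C ∧ ((l.length - n : ℕ) : ZMod q) = s
        · have hm2 : l.take (n + m) ∈ cat C {x : List B | x.map θ = ((l.drop n).take m).map θ} :=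
            (mem_cat_take hCn).2 ⟨h2.1, rfl⟩
          rw [wt_pos (by omega) h2.1 h2.2, wt_pos hl (hmem.2 h2.1) (hs.2 h2.2),
            wt_pos hl hm2 (hs.2 h2.2)]
          beta_reduce
          conv_lhs => rw [hdr, List.map_append]
          abel
        · rw [wt_none (fun h3 h4 => h2 ⟨h3, h4⟩), wt_none (fun h3 h4 => h2 ⟨hmem.1 h3, hs.1 h4⟩),
            wt_none (fun h3 h4 => h2 ⟨((mem_cat_take hCn).1 h3).1, hs.1 h4⟩), add_zero]
      · intro v _ hv
        refine wt_none (fun h3 _ => hv ?_)
        exact Subtype.ext ((mem_cat_take hCn).1 h3).2.symm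
      · intro h
        exact absurd (Finset.mem_univ _) h
    · rw [wt_neg hl, Finset.sum_eq_zero (fun v _ => wt_neg hl), zero_add, zero_add,
        Finset.sum_ite_eq, if_pos (Finset.mem_range.2 (by omega))]
  have h1 : ∀ l, SS (wt n C s (fun y => G (y.map θ))) l -
      SS (wt (n + m) (cat C {l | l.length = m}) (s - (m : ZMod q)) (fun y => G (y.map θ))) l =
        ∑ v : BL Θ m, SS (wt (n + m) (cat C {l : List B | l.map θ = v.1}) (s - (m : ZMod q))
          (fun y => G (v.1 ++ y.map θ) - G (y.map θ))) l +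
        ∑ t ∈ Finset.range (n + m), SS (fun l => if l.length = t then
          wt n C s (fun y => G (y.map θ)) l else 0) l := by
    intro l
    have h2 : SS (wt n C s (fun y => G (y.map θ))) l =
        SS (wt (n + m) (cat C {l | l.length = m}) (s - (m : ZMod q)) (fun y => G (y.map θ))) l +
          (∑ v : BL Θ m, SS (wt (n + m) (cat C {l : List B | l.map θ = v.1}) (s - (m : ZMod q))
            (fun y => G (v.1 ++ y.map θ) - G (y.map θ))) l +
          ∑ t ∈ Finset.range (n + m), SS (fun l => if l.length = t then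
            wt n C s (fun y => G (y.map θ)) l else 0) l) := by
      rw [← SS_sum, ← SS_sum, ← SS_add, ← SS_add]
      exact congrArg (fun D => SS D l) (funext key)
    rw [h2]
    abel
  rw [funext h1]
  refine hc.add (hc.sum _ (fun v _ => ?_)) (hc.sum _ (fun t _ => ?_))
  · refine lower' hj hc hθ (by omega) (hC.cat (hθ.word v.1)) ?_ _ hG v.1
    rintro _ ⟨u, hu, w, hw, rfl⟩
    have hw' : w.map θ = v.1 := hw
    rw [List.length_append, hCn u hu, ← v.2, ← hw', List.length_map]
  · exact ME_at hc t _ (fun x => H_end hc hθ hC hCn s G t x)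

/-- the first letters give a measurable function -/
theorem head_ME {j : ℕ} (hj : CJ A j) (hc : SFC c) [Finite Θ] (hθ : Lab c θ) {n : ℕ}
    {C : Set (List B)} (hC : H c 0 C) {q : ℕ} [NeZero q] (s : ZMod q) {G : List Θ → ZMod M}
    (hG : Pol j G) : ME c (wt n C s (fun y => G (y.map θ))) := by
  classical
  have h1 : ME c (fun y => (G (y.map θ), ((y.length : ℕ) : ZMod q))) :=
    (hj B c hc Θ θ hθ M G hG).prod hc.code (hc.length q)
  have h2 : ∀ p : Prop, H c 1 {l | l.length = n ∧ (l ∈ C) = p} := by
    intro p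
    refine H.mono (n := 0) (by omega) ?_
    by_cases hp : p
    · have : {l | l.length = n ∧ (l ∈ C) = p} = {l : List B | l.length = n} ∩ C := by
        ext l
        simp [hp]
      rw [this]
      exact (hc.len n).inter hc.code hC
    · have : {l | l.length = n ∧ (l ∈ C) = p} = {l : List B | l.length = n} \ C := by
        ext l
        simp [hp]
      rw [this]
      exact H_diff hc (hc.len n) hC
  have h3 := hc.window n (fun l => l ∈ C) h2 (fun y => (G (y.map θ), ((y.length : ℕ) : ZMod q))) h1
    (fun p x => if p ∧ x.2 = s then x.1 else 0) 0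
  have h4 : (fun l : List B => if n ≤ l.length then
      (if l.take n ∈ C ∧ (((l.drop n).length : ℕ) : ZMod q) = s then G ((l.drop n).map θ) else 0)
        else 0) = wt n C s (fun y => G (y.map θ)) := by
    funext l
    by_cases h5 : n ≤ l.length
    · rw [if_pos h5, List.length_drop]
      by_cases h6 : l.take n ∈ C ∧ ((l.length - n : ℕ) : ZMod q) = s
      · rw [if_pos h6, wt_pos h5 h6.1 h6.2]
      · rw [if_neg h6, wt_none (fun h7 h8 => h6 ⟨h7, h8⟩)]
    · rw [if_neg h5, wt_neg h5]
  rw [← h4]
  exact h3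

/-- multiplication by `K` on the left -/
theorem left_mul {j : ℕ} (hj : CJ A j) (hc : SFC c) [Finite Θ] (hθ : Lab c θ) {n : ℕ}
    {C : Set (List B)} (hC : H c 0 C) {q : ℕ} [NeZero q] (s : ZMod q) {G : List Θ → ZMod M}
    (hG : Pol j G) :
    ME c (fun l => SS (wt n C s (fun y => G (y.map θ))) l -
      SS (wt (n + 1) (cat {l | l.length = 1} C) s (fun y => G (y.map θ))) l) := by
  have h1 : ∀ l, SS (wt n C s (fun y => G (y.map θ))) l -
      SS (wt (n + 1) (cat {l | l.length = 1} C) s (fun y => G (y.map θ))) l =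
        wt n C s (fun y => G (y.map θ)) l := by
    intro l
    rw [← SS_tail (D := wt n C s (fun y => G (y.map θ)))
      (D' := wt (n + 1) (cat {l | l.length = 1} C) s (fun y => G (y.map θ))) ?_ ?_ l]
    · abel
    · exact wt_neg (by simp)
    · intro b l
      have hlen : (b :: l).length - (n + 1) = l.length - n := by rw [List.length_cons]; omega
      have hm : (b :: l).take (n + 1) ∈ cat {l | l.length = 1} C ↔ l.take n ∈ C := by
        rw [List.take_succ_cons]
        constructor
        · rintro ⟨u, hu, v, hv, h⟩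
          obtain ⟨b', rfl⟩ := List.length_eq_one_iff.1 (show u.length = 1 from hu)
          rw [List.singleton_append, List.cons.injEq] at h
          rw [← h.2]
          exact hv
        · intro h
          exact ⟨[b], rfl, _, h, rfl⟩
      by_cases h5 : n ≤ l.length
      · by_cases h6 : l.take n ∈ C ∧ ((l.length - n : ℕ) : ZMod q) = s
        · rw [wt_pos h5 h6.1 h6.2, wt_pos (by rw [List.length_cons]; omega) (hm.2 h6.1)
            (by rw [hlen]; exact h6.2), List.drop_succ_cons]
        · rw [wt_none (n := n) (fun h7 h8 => h6 ⟨h7, h8⟩),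
            wt_none (fun h7 h8 => h6 ⟨hm.1 h7, by rw [← hlen]; exact h8⟩)]
      · rw [wt_neg h5, wt_neg (by rw [List.length_cons]; omega)]
  rw [funext h1]
  exact head_ME hj hc hθ hC s hG

theorem ME_of_sub (hc : SFC c) {f g : List B → ZMod M} (h1 : ME c (fun l => f l - g l))
    (h2 : ME c g) : ME c f := by
  have := hc.add h1 h2
  simpa using this

/-! ### Killed sets -/

theorem img_pre {n : ℕ} {C : Set (List A)} (hC : C ⊆ E c '' {l | l.length = n}) :
    E c '' (E c ⁻¹' C) = C := by
  refine Set.image_preimage_eq_of_subset ?_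
  intro w hw
  obtain ⟨l, -, rfl⟩ := hC hw
  exact ⟨l, rfl⟩

theorem pre_len (hc : SFC c) {n : ℕ} {C : Set (List A)} (hC : C ⊆ E c '' {l | l.length = n}) :
    ∀ l ∈ E c ⁻¹' C, l.length = n := by
  intro l hl
  obtain ⟨l', h1, h2⟩ := hC hl
  rw [← hc.code h2]
  exact h1

theorem H_pre {n : ℕ} {C : Set (List A)} (h0 : Ht 0 C) (hC : C ⊆ E c '' {l | l.length = n}) :
    H c 0 (E c ⁻¹' C) := by
  unfold H
  rw [img_pre hC]
  exact h0

theorem pw_sub {q a : ℕ} {C : Set (List A)} (hC : C ⊆ pw (E c '' {l | l.length = q}) a) :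
    C ⊆ E c '' {l | l.length = q * a} := by
  intro w hw
  obtain ⟨ks, h1, h2, rfl⟩ := hC hw
  rw [← h1]
  clear h1 hw
  induction ks with
  | nil => exact ⟨[], rfl, rfl⟩
  | cons k ks ih =>
    obtain ⟨l, hl, h3⟩ := ih (fun x hx => h2 x (List.mem_cons_of_mem _ hx))
    obtain ⟨k', hk, h4⟩ := h2 k List.mem_cons_self
    have hl' : l.length = q * ks.length := hl
    have hk' : k'.length = q := hk
    refine ⟨k' ++ l, ?_, ?_⟩
    · show (k' ++ l).length = q * (k :: ks).length
      rw [List.length_append, hk', hl', List.length_cons]; ring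
    · rw [E_append, h3, h4, List.flatten_cons]

theorem sub_pw {q a : ℕ} : E c '' {l | l.length = q * a} ⊆ pw (E c '' {l | l.length = q}) a := by
  rintro _ ⟨l, hl, rfl⟩
  obtain ⟨bs, h1, rfl⟩ := exists_fl q a l hl
  refine ⟨bs.map (cp c q), by rw [List.length_map, h1], ?_, ?_⟩
  · intro k hk
    obtain ⟨b, -, rfl⟩ := List.mem_map.1 hk
    exact ⟨b.1, b.2, rfl⟩
  · rw [← E_cp]
    rfl

/-- killed sets -/
def Kill (c : B → List A) (θ : B → Θ) (M j q a : ℕ) (C : Set (List A)) : Prop :=
  Ht 0 C ∧ C ⊆ E c '' {l | l.length = q * a} ∧ ∀ C' ⊆ C, Ht 0 C' →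
    ∀ (s : ZMod q) (G : List Θ → ZMod M), Pol j G →
      ME c (SS (wt (q * a) (E c ⁻¹' C') s (fun y => G (y.map θ))))

theorem kill_pure (hK : PureKill A) {j : ℕ} (hj : CJ A j) (hc : SFC c) [Finite Θ] (hθ : Lab c θ) {q a : ℕ}
    (hq : 1 ≤ q) (ha : 1 ≤ a) {C : Set (List A)} (h0 : Ht 0 C)
    (hC : C ⊆ E c '' {l | l.length = q * a}) (hHP : HP C) (s : ZMod q) {G : List Θ → ZMod M}
    (hG : Pol j G) : ME c (SS (wt (q * a) (E c ⁻¹' C) s (fun y => G (y.map θ)))) := by
  classical
  obtain ⟨n, hn⟩ : ∃ n, n = q * a := ⟨_, rfl⟩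
  have hn1 : 1 ≤ n := by rw [hn]; exact Nat.mul_pos hq ha
  have hqn : ((n : ℕ) : ZMod q) = 0 := by
    rw [hn, Nat.cast_mul, ZMod.natCast_self, zero_mul]
  rw [← hn] at hC ⊢
  have h1 : ∀ l : List B, wt n (E c ⁻¹' C) s (fun y => G (y.map θ)) l =
      ∑ r ∈ (Finset.range n).filter (fun r : ℕ => (r : ZMod q) = s),
        if l.length % n = r then wt n (E c ⁻¹' C) (0 : ZMod 1) (fun y => G (y.map θ)) l else 0 := by
    intro l
    rw [Finset.sum_ite_eq]
    have h2 : (((l.length % n : ℕ)) : ZMod q) = ((l.length : ℕ) : ZMod q) := by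
      conv_rhs => rw [← Nat.div_add_mod l.length n]
      rw [Nat.cast_add, Nat.cast_mul, hqn, zero_mul, zero_add]
    by_cases h5 : n ≤ l.length
    · have h3 : (((l.length - n : ℕ)) : ZMod q) = ((l.length : ℕ) : ZMod q) := by
        rw [Nat.cast_sub h5, hqn, sub_zero]
      by_cases h6 : ((l.length : ℕ) : ZMod q) = s
      · rw [if_pos (Finset.mem_filter.2 ⟨Finset.mem_range.2 (Nat.mod_lt _ hn1), h2.trans h6⟩)]
        by_cases h7 : l.take n ∈ E c ⁻¹' C
        · rw [wt_pos h5 h7 (h3.trans h6), wt_pos h5 h7 (Subsingleton.elim _ _)]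
        · rw [wt_none (fun h => absurd h h7), wt_none (fun h => absurd h h7)]
      · have hm : l.length % n ∉ (Finset.range n).filter (fun r : ℕ => (r : ZMod q) = s) :=
          fun h => h6 (h2.symm.trans (Finset.mem_filter.1 h).2)
        rw [if_neg hm, wt_none (fun _ h => h6 (h3.symm.trans h))]
    · rw [wt_neg h5, wt_neg h5]
      simp
  rw [show SS (wt n (E c ⁻¹' C) s (fun y => G (y.map θ))) = fun l =>
      ∑ r ∈ (Finset.range n).filter (fun r : ℕ => (r : ZMod q) = s),
        SS (fun l => if l.length % n = r then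
          wt n (E c ⁻¹' C) (0 : ZMod 1) (fun y => G (y.map θ)) l else 0) l from ?_]
  swap
  · funext l
    rw [← SS_sum]
    exact congrArg (fun D => SS D l) (funext h1)
  refine hc.sum _ (fun r hr => ?_)
  have hr' : r < n := Finset.mem_range.1 (Finset.mem_filter.1 hr).1
  refine align hc hθ hn1 hr' _ (fun v => wt 1 (one {b : BL B n | b.1 ∈ E c ⁻¹' C}) (0 : ZMod 1)
    (fun ys => G (fl (ys.map (lb θ)) ++ v))) ?_ ?_
  · intro bs y hy
    cases bs with
    | nil => rw [wt_neg (by simp [fl_nil]; omega), wt_neg (by simp)]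
    | cons b bs =>
      have h2 : (fl (b :: bs) ++ y).take n = b.1 := by
        rw [fl_cons, List.append_assoc, List.take_left' b.2]
      have h3 : (fl (b :: bs) ++ y).drop n = fl bs ++ y := by
        rw [fl_cons, List.append_assoc, List.drop_left' b.2]
      have h4 : (b :: bs).take 1 ∈ one {b : BL B n | b.1 ∈ E c ⁻¹' C} ↔ b.1 ∈ E c ⁻¹' C :=
        take_one_mem
      by_cases hb : b.1 ∈ E c ⁻¹' C
      · rw [wt_pos _ (by rw [h2]; exact hb) (Subsingleton.elim _ _),
          wt_pos (by simp) (h4.2 hb) (Subsingleton.elim _ _), h3]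
        · show G ((fl bs ++ y).map θ) = G (fl (bs.map (lb θ)) ++ y.map θ)
          rw [List.map_append, fl_map]
        · rw [fl_cons, List.append_assoc, List.length_append, b.2]; omega
      · rw [wt_none (fun h => absurd (by rw [h2] at h; exact h) hb),
          wt_none (fun h => absurd (h4.1 h) hb)]
  · intro v _
    refine hK j hj _ _ (hc.pow hn1) _ _ (hθ.pow n) {b : BL B n | b.1 ∈ E c ⁻¹' C} ?_ ?_
      M (fun ys : List (BL Θ n) => G (fl ys ++ v)) (hG.fl v)
    · intro Z' hZ' h2
      refine hHP _ ?_ h2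
      rintro _ ⟨b, hb, rfl⟩
      exact hZ' hb
    · have : cp c n '' {b : BL B n | b.1 ∈ E c ⁻¹' C} = C := by
        ext w
        constructor
        · rintro ⟨b, hb, rfl⟩
          exact hb
        · intro hw
          obtain ⟨l, hl, rfl⟩ := hC hw
          exact ⟨⟨l, hl⟩, hw, rfl⟩
      rw [this]
      exact h0

theorem kill_tree (hK : PureKill A) (hT : TreeLemma A) {j : ℕ} (hj : CJ A j) (hc : SFC c) [Finite Θ]
    (hθ : Lab c θ) {q a : ℕ} (hq : 1 ≤ q) (ha : 1 ≤ a) {C : Set (List A)} (h0 : Ht 0 C)
    (hC : C ⊆ pw (E c '' {l | l.length = q}) a)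
    (hrep : ∀ κ ∈ E c '' {l | l.length = q}, rep a κ ∉ C) : Kill c θ M j q a C := by
  have : NeZero q := ⟨by omega⟩
  refine hT (E c '' {l | l.length = q}) (hc.len q) ?_ ?_ (Kill c θ M j q) ?_ ?_ ?_ ?_ a C ha h0 hC
    hrep
  · rintro _ ⟨u, hu, rfl⟩ w ⟨v, hv, h⟩
    obtain ⟨r, h1, h2⟩ := hc.comp' u v w h
    have h3 := congrArg List.length h1
    rw [List.length_append, show v.length = q from hv, show u.length = q from hu] at h3
    have h4 : r = [] := List.eq_nil_of_length_eq_zero (by omega)
    rw [h2, h4]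
    rfl
  · rintro ⟨l, hl, h⟩
    have h1 : l = [] := hc.code (h.trans (E_nil c).symm)
    have h2 : l.length = q := hl
    rw [h1] at h2
    simp at h2
    omega
  · intro a C ha hC h0 hHP
    refine ⟨h0, pw_sub hC, fun C' hC' h0' s G hG => ?_⟩
    exact kill_pure hK hj hc hθ hq ha h0' (hC'.trans (pw_sub hC))
      (fun C'' h1 h2 => hHP C'' (h1.trans hC') h2) s hG
  · rintro a C C' ⟨h1, h2, h3⟩ ⟨h1', h2', h3'⟩
    refine ⟨h1.union h1', Set.union_subset h2 h2', fun D hD hD0 s G hG => ?_⟩
    have h4 : E c ⁻¹' D = E c ⁻¹' (D ∩ C) ∪ E c ⁻¹' (D ∩ Cᶜ) := by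
      rw [← Set.preimage_union, ← Set.inter_union_distrib_left, Set.union_compl_self,
        Set.inter_univ]
    have h5 : Disjoint (E c ⁻¹' (D ∩ C)) (E c ⁻¹' (D ∩ Cᶜ)) :=
      Set.disjoint_left.2 (fun w hw hw' => hw'.2 hw.2)
    have h6 : SS (wt (q * a) (E c ⁻¹' D) s (fun y => G (y.map θ))) = fun l =>
        SS (wt (q * a) (E c ⁻¹' (D ∩ C)) s (fun y => G (y.map θ))) l +
        SS (wt (q * a) (E c ⁻¹' (D ∩ Cᶜ)) s (fun y => G (y.map θ))) l := by
      funext l
      rw [← SS_add, h4]
      exact congrArg (fun D => SS D l) (funext (fun l => wt_union h5 s _ l))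
    rw [h6]
    refine hc.add (h3 _ Set.inter_subset_right (hD0.inter h1) s G hG)
      (h3' _ ?_ (hD0.inter h1.compl) s G hG)
    rintro w ⟨hw, hw'⟩
    exact (hD hw).resolve_left hw'
  · rintro a C C' h0' hCC' ⟨h1, h2, h3⟩
    exact ⟨h0', hCC'.trans h2, fun D hD => h3 D (hD.trans hCC')⟩
  · rintro a C ha h0 hC ⟨h1, h2, h3⟩
    refine ⟨h0, pw_sub hC, fun D hD hD0 s G hG => ?_⟩
    have hD1 : D ⊆ E c '' {l | l.length = q * a} := hD.trans (pw_sub hC)
    have h4 := right_mul hj hc hθ (n := q * a) (Nat.mul_pos hq ha) (H_pre hD0 hD1)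
      (pre_len hc hD1) q s hG
    rw [ZMod.natCast_self, sub_zero] at h4
    refine ME_of_sub hc h4 ?_
    have h5 : cat (E c ⁻¹' D) {l | l.length = q} = E c ⁻¹' (cat D (E c '' {l | l.length = q})) := by
      ext w
      constructor
      · rintro ⟨u, hu, v, hv, rfl⟩
        exact ⟨E c u, hu, E c v, ⟨v, hv, rfl⟩, (E_append c u v).symm⟩
      · rintro ⟨u, hu, _, ⟨v, hv, rfl⟩, h⟩
        obtain ⟨u', hu', rfl⟩ := hD1 hu
        rw [← E_append] at h
        exact ⟨u', hu, v, hv, hc.code h⟩
    rw [h5]
    refine h3 _ ?_ (hD0.cat (hc.len q)) s G hG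
    rintro _ ⟨u, hu, v, hv, rfl⟩
    exact ⟨u, hD hu, v, hv, rfl⟩

theorem kill_set (hK : PureKill A) (hT : TreeLemma A) {j : ℕ} (hj : CJ A j) (hc : SFC c) [Finite Θ]
    (hθ : Lab c θ) {q a : ℕ} (hq : 1 ≤ q) (ha : 1 ≤ a) {S : Set (List B)} (hS : H c 0 S)
    (hSn : ∀ l ∈ S, l.length = q * a) (hrep : ∀ k : List B, k.length = q → rep a k ∉ S)
    (s : ZMod q) {G : List Θ → ZMod M} (hG : Pol j G) :
    ME c (SS (wt (q * a) S s (fun y => G (y.map θ)))) := by
  have h1 : E c '' S ⊆ pw (E c '' {l | l.length = q}) a :=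
    (Set.image_mono hSn).trans sub_pw
  have h2 := (kill_tree (M := M) hK hT hj hc hθ hq ha hS h1 ?_).2.2 (E c '' S) subset_rfl hS s G hG
  · rwa [Set.preimage_image_eq _ hc.code] at h2
  · rintro _ ⟨k, hk, rfl⟩ h
    rw [← E_rep] at h
    obtain ⟨l, hl, h3⟩ := h
    rw [hc.code h3] at hl
    exact hrep k hk hl

/-! ### Averaging -/

/-- words with the labels `i, …, i` -/
def Kn (θ : B → Θ) (n : ℕ) (i : Θ) : Set (List B) := {l | l.map θ = List.replicate n i}

/-- words with the labels `i, …, i, i'`, `i' ≠ i` -/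
def Xn (θ : B → Θ) (n : ℕ) (i : Θ) : Set (List B) :=
  {l | ∃ i', i' ≠ i ∧ l.map θ = List.replicate n i ++ [i']}

/-- words with the labels `i', i, …, i`, `i' ≠ i` -/
def Yn (θ : B → Θ) (n : ℕ) (i : Θ) : Set (List B) :=
  {l | ∃ i', i' ≠ i ∧ l.map θ = i' :: List.replicate n i}

theorem Kn_len {n : ℕ} {i : Θ} : ∀ l ∈ Kn θ n i, l.length = n := by
  intro l hl
  have := congrArg List.length (show l.map θ = _ from hl)
  simpa using this

theorem Xn_len {n : ℕ} {i : Θ} : ∀ l ∈ Xn θ n i, l.length = n + 1 := by
  rintro l ⟨i', -, hl⟩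
  have := congrArg List.length hl
  simpa using this

theorem Yn_len {n : ℕ} {i : Θ} : ∀ l ∈ Yn θ n i, l.length = n + 1 := by
  rintro l ⟨i', -, hl⟩
  have := congrArg List.length hl
  simpa using this

theorem H_Xn [Finite Θ] (hθ : Lab c θ) (n : ℕ) (i : Θ) : H c 0 (Xn θ n i) := by
  have : Xn θ n i = ⋃ i' : Θ, {l : List B | i' ≠ i ∧ l ∈ {l : List B | l.map θ =
      List.replicate n i ++ [i']}} := by
    ext l
    simp [Xn]
  rw [this]
  exact H.iUnion (fun i' => H.prop _ (hθ.word _))

theorem H_Yn [Finite Θ] (hθ : Lab c θ) (n : ℕ) (i : Θ) : H c 0 (Yn θ n i) := by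
  have : Yn θ n i = ⋃ i' : Θ, {l : List B | i' ≠ i ∧ l ∈ {l : List B | l.map θ =
      i' :: List.replicate n i}} := by
    ext l
    simp [Yn]
  rw [this]
  exact H.iUnion (fun i' => H.prop _ (hθ.word _))

theorem Kn_right (n : ℕ) (i : Θ) :
    cat (Kn θ n i) {l : List B | l.length = 1} = Kn θ (n + 1) i ∪ Xn θ n i := by
  ext w
  constructor
  · rintro ⟨u, hu, v, hv, rfl⟩
    obtain ⟨b, rfl⟩ := List.length_eq_one_iff.1 (show v.length = 1 from hv)
    have hu' : u.map θ = List.replicate n i := hu
    by_cases h : θ b = i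
    · left
      show (u ++ [b]).map θ = List.replicate (n + 1) i
      rw [List.map_append, hu', List.replicate_succ', List.map_singleton, h]
    · right
      exact ⟨θ b, h, by rw [List.map_append, hu', List.map_singleton]⟩
  · have key : ∀ i', w.map θ = List.replicate n i ++ [i'] →
        w ∈ cat (Kn θ n i) {l : List B | l.length = 1} := by
      intro i' h
      have hl := congrArg List.length h
      rw [List.length_map, List.length_append, List.length_replicate, List.length_singleton] at hl
      refine ⟨w.take n, ?_, w.drop n, ?_, List.take_append_drop _ _⟩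
      · show (w.take n).map θ = List.replicate n i
        rw [List.map_take, h, List.take_left' (by simp)]
      · show (w.drop n).length = 1
        rw [List.length_drop]; omega
    rintro (h | ⟨i', -, h⟩)
    · have h' : w.map θ = List.replicate (n + 1) i := h
      rw [List.replicate_succ'] at h'
      exact key i h'
    · exact key i' h

theorem Kn_left (n : ℕ) (i : Θ) :
    cat {l : List B | l.length = 1} (Kn θ n i) = Kn θ (n + 1) i ∪ Yn θ n i := by
  ext w
  constructor
  · rintro ⟨u, hu, v, hv, rfl⟩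
    obtain ⟨b, rfl⟩ := List.length_eq_one_iff.1 (show u.length = 1 from hu)
    have hv' : v.map θ = List.replicate n i := hv
    by_cases h : θ b = i
    · left
      show ([b] ++ v).map θ = List.replicate (n + 1) i
      rw [List.map_append, hv', List.replicate_succ, List.map_singleton, h]
      rfl
    · right
      exact ⟨θ b, h, by rw [List.map_append, hv', List.map_singleton]; rfl⟩
  · have key : ∀ i', w.map θ = i' :: List.replicate n i →
        w ∈ cat {l : List B | l.length = 1} (Kn θ n i) := by
      intro i' h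
      cases w with
      | nil => simp at h
      | cons b w =>
        rw [List.map_cons, List.cons.injEq] at h
        exact ⟨[b], rfl, w, h.2, rfl⟩
    rintro (h | ⟨i', -, h⟩)
    · have h' : w.map θ = List.replicate (n + 1) i := h
      rw [List.replicate_succ] at h'
      exact key i h'
    · exact key i' h

theorem Kn_Xn (n : ℕ) (i : Θ) : Disjoint (Kn θ (n + 1) i) (Xn θ n i) := by
  refine Set.disjoint_left.2 ?_
  rintro w hw ⟨i', h1, h2⟩
  have hw' : w.map θ = List.replicate (n + 1) i := hw
  rw [List.replicate_succ', h2] at hw'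
  have := List.append_cancel_left hw'
  simp at this
  exact h1 this

theorem Kn_Yn (n : ℕ) (i : Θ) : Disjoint (Kn θ (n + 1) i) (Yn θ n i) := by
  refine Set.disjoint_left.2 ?_
  rintro w hw ⟨i', h1, h2⟩
  have hw' : w.map θ = List.replicate (n + 1) i := hw
  rw [List.replicate_succ, h2, List.cons.injEq] at hw'
  exact h1 hw'.1

theorem chain_right {j : ℕ} (hj : CJ A j) (hc : SFC c) [Finite Θ] (hθ : Lab c θ) {n : ℕ}
    (hn : 1 ≤ n) (i : Θ) {q : ℕ} [NeZero q] (s : ZMod q) {G : List Θ → ZMod M} (hG : Pol j G)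
    (hX : ME c (SS (wt (n + 1) (Xn θ n i) (s - 1) (fun y => G (y.map θ))))) :
    ME c (fun l => SS (wt n (Kn θ n i) s (fun y => G (y.map θ))) l -
      SS (wt (n + 1) (Kn θ (n + 1) i) (s - 1) (fun y => G (y.map θ))) l) := by
  have h1 := right_mul hj hc hθ hn (hθ.word (List.replicate n i)) Kn_len 1 s hG
  rw [Nat.cast_one] at h1
  have h2 := hc.add h1 hX
  have h3 : ∀ l, SS (wt (n + 1) (cat (Kn θ n i) {l : List B | l.length = 1}) (s - 1)
      (fun y => G (y.map θ))) l = SS (wt (n + 1) (Kn θ (n + 1) i) (s - 1)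
        (fun y => G (y.map θ))) l + SS (wt (n + 1) (Xn θ n i) (s - 1) (fun y => G (y.map θ))) l := by
    intro l
    rw [← SS_add, Kn_right]
    exact congrArg (fun D => SS D l) (funext (fun l => wt_union (Kn_Xn n i) _ _ l))
  have h4 : (fun l => SS (wt n (Kn θ n i) s (fun y => G (y.map θ))) l -
      SS (wt (n + 1) (Kn θ (n + 1) i) (s - 1) (fun y => G (y.map θ))) l) =
      fun l => (SS (wt n (Kn θ n i) s (fun y => G (y.map θ))) l -
        SS (wt (n + 1) (cat (Kn θ n i) {l : List B | l.length = 1}) (s - 1)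
          (fun y => G (y.map θ))) l) +
        SS (wt (n + 1) (Xn θ n i) (s - 1) (fun y => G (y.map θ))) l := by
    funext l
    rw [h3]
    abel
  rw [h4]
  exact h2

theorem chain_left {j : ℕ} (hj : CJ A j) (hc : SFC c) [Finite Θ] (hθ : Lab c θ) {n : ℕ}
    (i : Θ) {q : ℕ} [NeZero q] (s : ZMod q) {G : List Θ → ZMod M} (hG : Pol j G)
    (hY : ME c (SS (wt (n + 1) (Yn θ n i) s (fun y => G (y.map θ))))) :
    ME c (fun l => SS (wt n (Kn θ n i) s (fun y => G (y.map θ))) l -
      SS (wt (n + 1) (Kn θ (n + 1) i) s (fun y => G (y.map θ))) l) := by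
  have h1 := left_mul hj hc hθ (n := n) (hθ.word (List.replicate n i)) s hG
  have h2 := hc.add h1 hY
  have h3 : ∀ l, SS (wt (n + 1) (cat {l : List B | l.length = 1} (Kn θ n i)) s
      (fun y => G (y.map θ))) l = SS (wt (n + 1) (Kn θ (n + 1) i) s
        (fun y => G (y.map θ))) l + SS (wt (n + 1) (Yn θ n i) s (fun y => G (y.map θ))) l := by
    intro l
    rw [← SS_add, Kn_left]
    exact congrArg (fun D => SS D l) (funext (fun l => wt_union (Kn_Yn n i) _ _ l))
  have h4 : (fun l => SS (wt n (Kn θ n i) s (fun y => G (y.map θ))) l -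
      SS (wt (n + 1) (Kn θ (n + 1) i) s (fun y => G (y.map θ))) l) =
      fun l => (SS (wt n (Kn θ n i) s (fun y => G (y.map θ))) l -
        SS (wt (n + 1) (cat {l : List B | l.length = 1} (Kn θ n i)) s
          (fun y => G (y.map θ))) l) +
        SS (wt (n + 1) (Yn θ n i) s (fun y => G (y.map θ))) l := by
    funext l
    rw [h3]
    abel
  rw [h4]
  exact h2

theorem rep_two' (k : List B) : rep 2 k = k ++ k := by simp [rep, List.replicate_succ]

theorem rep_single (n : ℕ) (b : B) : rep n [b] = List.replicate n b := by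
  induction n with
  | zero => rfl
  | succ n ih => rw [rep_succ, ih, List.replicate_succ]; rfl

/-- the sum over the occurrences of a label is measurable -/
theorem label_ME (hK : PureKill A) (hT : TreeLemma A) {j : ℕ} (hj : CJ A j) (hc : SFC c) [Finite Θ]
    (hθ : Lab c θ) (i : Θ) {G : List Θ → ZMod M} (hG : Pol j G) :
    ME c (SS (wt 1 (Kn θ 1 i) (0 : ZMod 1) (fun y => G (y.map θ)))) := by
  have hM : 1 ≤ M := Nat.one_le_iff_ne_zero.2 (NeZero.ne M)
  -- the chain without clock
  have h1 : ∀ n, ME c (fun l => SS (wt 1 (Kn θ 1 i) (0 : ZMod 1) (fun y => G (y.map θ))) l -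
      SS (wt (n + 1) (Kn θ (n + 1) i) (0 : ZMod 1) (fun y => G (y.map θ))) l) := by
    intro n
    induction n with
    | zero =>
      have : (fun l => SS (wt 1 (Kn θ 1 i) (0 : ZMod 1) (fun y => G (y.map θ))) l -
          SS (wt (0 + 1) (Kn θ (0 + 1) i) (0 : ZMod 1) (fun y => G (y.map θ))) l) =
          fun _ => (0 : ZMod M) := by
        funext l
        exact sub_self _
      rw [this]
      exact hc.const 0
    | succ n ih =>
      have h2 := chain_right hj hc hθ (n := n + 1) (by omega) i (0 : ZMod 1) hG ?_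
      · have h3 := hc.add ih h2
        simp only [sub_add_sub_cancel] at h3
        rwa [Subsingleton.elim ((0 : ZMod 1) - 1) 0] at h3
      · have h4 := kill_set hK hT hj hc hθ (q := 1) (a := n + 1 + 1) le_rfl (by omega)
          (H_Xn hθ (n + 1) i) (fun l hl => by rw [Xn_len l hl, one_mul]) ?_ ((0 : ZMod 1) - 1) hG
        · rwa [one_mul] at h4
        · rintro k hk ⟨i', h5, h6⟩
          obtain ⟨b, rfl⟩ := List.length_eq_one_iff.1 hk
          rw [rep_single, List.map_replicate, List.replicate_succ'] at h6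
          have h7 := List.append_inj h6 (by simp)
          have h8 : θ b = i' := by simpa using h7.2
          have h9 : θ b = i := by
            have := h7.1
            rw [List.replicate_succ, List.replicate_succ, List.cons.injEq] at this
            exact this.1
          exact h5 (h8.symm.trans h9)
  obtain ⟨N, hN⟩ : ∃ N, N + 1 = M * 2 := ⟨M * 2 - 1, by omega⟩
  have hN1 : 1 ≤ N := by omega
  -- the chain with clock
  have hX : ∀ s : ZMod M, ME c (SS (wt (N + 1) (Xn θ N i) s (fun y => G (y.map θ)))) := by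
    intro s
    rw [hN]
    refine kill_set hK hT hj hc hθ hM (by omega) (H_Xn hθ N i) (fun l hl => by rw [Xn_len l hl, hN]) ?_ s hG
    rintro k hk ⟨i', h5, h6⟩
    rw [rep_two'] at h6
    have hk0 : k ≠ [] := by
      rintro rfl
      simp at hk
      omega
    obtain ⟨k', x, rfl⟩ : ∃ k' x, k = k' ++ [x] :=
      ⟨k.dropLast, k.getLast hk0, (List.dropLast_append_getLast hk0).symm⟩
    rw [← List.append_assoc, List.map_append] at h6
    have h7 := List.append_inj' h6 (by simp)
    have h8 : θ x = i' := by simpa using h7.2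
    have h9 : θ x ∈ List.replicate N i := by
      rw [← h7.1]
      simp
    exact h5 (h8.symm.trans (List.eq_of_mem_replicate h9))
  have hY : ∀ s : ZMod M, ME c (SS (wt (N + 1) (Yn θ N i) s (fun y => G (y.map θ)))) := by
    intro s
    rw [hN]
    refine kill_set hK hT hj hc hθ hM (by omega) (H_Yn hθ N i) (fun l hl => by rw [Yn_len l hl, hN]) ?_ s hG
    rintro k hk ⟨i', h5, h6⟩
    rw [rep_two'] at h6
    cases k with
    | nil =>
      simp at hk
      omega
    | cons x k =>
      rw [List.cons_append, List.map_cons, List.cons.injEq] at h6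
      have h9 : θ x ∈ List.replicate N i := by
        rw [← h6.2]
        simp
      exact h5 (h6.1.symm.trans (List.eq_of_mem_replicate h9))
  have h2 : ∀ s : ZMod M, ME c (fun l =>
      SS (wt (N + 1) (Kn θ (N + 1) i) s (fun y => G (y.map θ))) l -
      SS (wt (N + 1) (Kn θ (N + 1) i) (s - 1) (fun y => G (y.map θ))) l) := by
    intro s
    have h3 := chain_right hj hc hθ hN1 i s hG (hX _)
    have h4 := chain_left hj hc hθ i s hG (hY s)
    have h5 := hc.sub h3 h4
    have h6 : (fun l => SS (wt (N + 1) (Kn θ (N + 1) i) s (fun y => G (y.map θ))) l -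
      SS (wt (N + 1) (Kn θ (N + 1) i) (s - 1) (fun y => G (y.map θ))) l) = fun l =>
        (SS (wt N (Kn θ N i) s (fun y => G (y.map θ))) l -
          SS (wt (N + 1) (Kn θ (N + 1) i) (s - 1) (fun y => G (y.map θ))) l) -
        (SS (wt N (Kn θ N i) s (fun y => G (y.map θ))) l -
          SS (wt (N + 1) (Kn θ (N + 1) i) s (fun y => G (y.map θ))) l) := by
      funext l
      abel
    rw [h6]
    exact h5
  have h3 : ∀ t : ℕ, ME c (fun l =>
      SS (wt (N + 1) (Kn θ (N + 1) i) (t : ZMod M) (fun y => G (y.map θ))) l -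
      SS (wt (N + 1) (Kn θ (N + 1) i) (0 : ZMod M) (fun y => G (y.map θ))) l) := by
    intro t
    induction t with
    | zero =>
      have : (fun l => SS (wt (N + 1) (Kn θ (N + 1) i) ((0 : ℕ) : ZMod M) (fun y => G (y.map θ))) l -
          SS (wt (N + 1) (Kn θ (N + 1) i) (0 : ZMod M) (fun y => G (y.map θ))) l) =
          fun _ => (0 : ZMod M) := by
        funext l
        rw [Nat.cast_zero, sub_self]
      rw [this]
      exact hc.const 0
    | succ t ih =>
      have h4 := h2 ((t + 1 : ℕ) : ZMod M)
      rw [Nat.cast_add, Nat.cast_one, add_sub_cancel_right] at h4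
      have h5 := hc.add h4 ih
      simp only [sub_add_sub_cancel] at h5
      rw [Nat.cast_add, Nat.cast_one]
      exact h5
  have h4 : ∀ s : ZMod M, ME c (fun l =>
      SS (wt (N + 1) (Kn θ (N + 1) i) s (fun y => G (y.map θ))) l -
      SS (wt (N + 1) (Kn θ (N + 1) i) (0 : ZMod M) (fun y => G (y.map θ))) l) := by
    intro s
    have := h3 s.val
    rwa [ZMod.natCast_zmod_val] at this
  have h5 : ME c (SS (wt (N + 1) (Kn θ (N + 1) i) (0 : ZMod 1) (fun y => G (y.map θ)))) := by
    have h6 := hc.sum Finset.univ (fun (s : ZMod M) _ => h4 s)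
    have h7 : SS (wt (N + 1) (Kn θ (N + 1) i) (0 : ZMod 1) (fun y => G (y.map θ))) = fun l =>
        ∑ s : ZMod M, (SS (wt (N + 1) (Kn θ (N + 1) i) s (fun y => G (y.map θ))) l -
          SS (wt (N + 1) (Kn θ (N + 1) i) (0 : ZMod M) (fun y => G (y.map θ))) l) := by
      funext l
      rw [Finset.sum_sub_distrib, Finset.sum_const, Finset.card_univ, ZMod.card, nsmul_eq_mul,
        ZMod.natCast_self, zero_mul, sub_zero, ← SS_sum]
      exact congrArg (fun D => SS D l) (funext (fun l => (wt_sum _ _ _ l).symm))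
    rw [h7]
    exact h6
  exact ME_of_sub hc (h1 N) h5

end Code

end Aver

open Aver in
/-- **all functions of bounded degree are measurable** -/
theorem main_code (hK : PureKill A) (hT : TreeLemma A) (j : ℕ) : CJ A j := by
  induction j with
  | zero =>
    intro B c hc Θ _ θ hθ M _ F hF
    have h0 : ∀ l, F l = 0 := hF
    have : (fun l : List B => F (l.map θ)) = fun _ => (0 : ZMod M) := funext (fun l => h0 _)
    rw [this]
    exact hc.const 0
  | succ j ih =>
    intro B c hc Θ _ θ hθ M _ F hF
    classical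
    let _ : Fintype Θ := Fintype.ofFinite _
    have h1 : ∀ l : List B, F (l.map θ) = F [] + ∑ i : Θ,
        SS (wt 1 (Kn θ 1 i) (0 : ZMod 1) (fun y => F (i :: y.map θ) - F (y.map θ))) l := by
      intro l
      induction l with
      | nil =>
        have : ∀ i : Θ, SS (wt 1 (Kn θ 1 i) (0 : ZMod 1)
            (fun y => F (i :: y.map θ) - F (y.map θ))) [] = 0 := fun i => wt_neg (by simp)
        simp [this]
      | cons b l ihl =>
        have h2 : ∀ i : Θ, SS (wt 1 (Kn θ 1 i) (0 : ZMod 1)
            (fun y => F (i :: y.map θ) - F (y.map θ))) (b :: l) =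
            (if θ b = i then F (i :: l.map θ) - F (l.map θ) else 0) +
            SS (wt 1 (Kn θ 1 i) (0 : ZMod 1) (fun y => F (i :: y.map θ) - F (y.map θ))) l := by
          intro i
          rw [SS_cons]
          congr 1
          by_cases h : θ b = i
          · rw [if_pos h, wt_pos (by simp) (by simp [Kn, h]) (Subsingleton.elim _ _)]
            rfl
          · rw [if_neg h]
            refine wt_none (fun h' => absurd ?_ h)
            have h3 : ((b :: l).take 1).map θ = List.replicate 1 i := h'
            simpa using h3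
        rw [Finset.sum_congr rfl (fun i _ => h2 i), Finset.sum_add_distrib, Finset.sum_ite_eq,
          if_pos (Finset.mem_univ _), List.map_cons]
        have := ihl
        rw [add_left_comm, ← this]
        abel
    rw [funext h1]
    refine hc.add (hc.const _) (hc.sum _ (fun i _ => ?_))
    exact label_ME hK hT ih hc hθ i (G := fun y => F (i :: y) - F y) (hF i)

end Pool.Agent.GSH.NP
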