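import Pool.Agent.GSH.FCMeas

/-!
# Star-free prefix codes, labellings, measurable functions
-/

set_option autoImplicit false

namespace Pool.Agent.GSH.NP

open Pool.Agent.GSH Pool.Agent.GSH.FC

variable {A B : Type}

/-- `c` enumerates a star-free code such that no code word is a proper initial part of another
one. -/
structure SFC (c : B → List A) : Prop where
  pre : ∀ (b b' : B) (w : List A), c b' = c b ++ w → b' = b
  ne : ∀ b, c b ≠ []
  sf : Ht 0 (Set.range c)

/-- the fibres of `θ` are star-free -/
def Lab {Θ : Type} (c : B → List A) (θ : B → Θ) : Prop := ∀ i, Ht 0 (c '' (θ ⁻¹' {i}))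

/-- functions of bounded degree: `Pol 0` contains only `0`, `Pol (j+1)` contains the functions
all of whose differences are in `Pol j`. -/
def Pol {Θ : Type} {R : Type} [AddCommGroup R] : ℕ → (List Θ → R) → Prop
  | 0, F => ∀ l, F l = 0
  | j + 1, F => ∀ b, Pol j (fun l => F (b :: l) - F l)

/-- sum of `D` over all suffixes -/
def SS {R : Type} [AddCommGroup R] (D : List B → R) : List B → R
  | [] => D []
  | b :: l => D (b :: l) + SS D l

section Code

variable {c : B → List A}

theorem SFC.comp' (hc : SFC c) : ∀ (l m : List B) (w : List A), E c m = E c l ++ w →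
    ∃ r, m = l ++ r ∧ w = E c r := by
  intro l
  induction l with
  | nil =>
    intro m w h
    exact ⟨m, rfl, by rw [h, E_nil, List.nil_append]⟩
  | cons b l ih =>
    intro m w h
    cases m with
    | nil =>
      rw [E_nil, E_cons, List.append_assoc] at h
      exact absurd (List.append_eq_nil_iff.1 h.symm).1 (hc.ne b)
    | cons b' m =>
      rw [E_cons, E_cons, List.append_assoc] at h
      have hb : b' = b := by
        rcases List.append_eq_append_iff.1 h with ⟨a', h1, h2⟩ | ⟨c', h1, h2⟩
        · exact (hc.pre b' b a' h1).symm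
        · exact hc.pre b b' c' h1
      subst hb
      obtain ⟨r, h1, h2⟩ := ih m w (List.append_cancel_left h)
      exact ⟨r, by rw [h1]; rfl, h2⟩

theorem SFC.code (hc : SFC c) : Code c := by
  intro l m h
  obtain ⟨r, h1, h2⟩ := hc.comp' l m [] (by rw [List.append_nil]; exact h.symm)
  cases r with
  | nil => simpa using h1.symm
  | cons b r =>
    rw [E_cons] at h2
    exact absurd (List.append_eq_nil_iff.1 h2.symm).1 (hc.ne b)

/-- a set of code words, as a set of one-letter words -/
def one (S : Set B) : Set (List B) := {l | ∃ b ∈ S, l = [b]}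

theorem H_one {n : ℕ} {S : Set B} : H c n (one S) ↔ Ht n (c '' S) := by
  unfold H
  have : E c '' (one S) = c '' S := by
    ext w
    constructor
    · rintro ⟨_, ⟨b, hb, rfl⟩, rfl⟩
      exact ⟨b, hb, (E_single c b).symm⟩
    · rintro ⟨b, hb, rfl⟩
      exact ⟨[b], ⟨b, hb, rfl⟩, E_single c b⟩
  rw [this]

theorem SFC.len (hc : SFC c) (n : ℕ) : H c 0 {l : List B | l.length = n} := by
  induction n with
  | zero =>
    have : {l : List B | l.length = 0} = {[]} := by ext l; simp
    rw [this]
    exact H.finite (Set.finite_singleton _)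
  | succ n ih =>
    have h1 : H c 0 (one (Set.univ : Set B)) := by
      rw [H_one, Set.image_univ]; exact hc.sf
    have : {l : List B | l.length = n + 1} = cat (one Set.univ) {l | l.length = n} := by
      ext l
      constructor
      · intro hl
        cases l with
        | nil => exact absurd hl (by simp)
        | cons b l => exact ⟨[b], ⟨b, trivial, rfl⟩, l, by simpa using hl, rfl⟩
      · rintro ⟨_, ⟨b, _, rfl⟩, v, hv, rfl⟩
        have hv' : v.length = n := hv
        show ([b] ++ v).length = n + 1
        simp [hv']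
    rw [this]
    exact h1.cat ih

theorem SFC.len_lt (hc : SFC c) (n : ℕ) : H c 0 {l : List B | l.length < n} := by
  have : {l : List B | l.length < n} = ⋃ i : Fin n, {l : List B | l.length = i.val} := by
    ext l
    simp only [Set.mem_setOf_eq, Set.mem_iUnion]
    exact ⟨fun h => ⟨⟨l.length, h⟩, rfl⟩, fun ⟨i, hi⟩ => by rw [hi]; exact i.2⟩
  rw [this]
  exact H.iUnion (fun i => hc.len i)

theorem SFC.univ (hc : SFC c) : H c 1 (Set.univ : Set (List B)) := by
  rw [← star_length_one]
  exact H.star (hc.len 1)

theorem SFC.univ' (hc : SFC c) {n : ℕ} (hn : 1 ≤ n) : H c n (Set.univ : Set (List B)) :=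
  hc.univ.mono hn

theorem SFC.compl (hc : SFC c) {S : Set (List B)} (hS : H c 1 S) : H c 1 Sᶜ := by
  unfold H
  have : E c '' Sᶜ = E c '' Set.univ ∩ (E c '' S)ᶜ := by
    rw [Set.compl_eq_univ_sdiff, Set.image_sdiff hc.code]
    rfl
  rw [this]
  exact Ht.inter hc.univ (Ht.compl hS)

theorem SFC.iInter (hc : SFC c) {ι : Type*} [Finite ι] {S : ι → Set (List B)}
    (h : ∀ i, H c 1 (S i)) : H c 1 (⋂ i, S i) := by
  have : (⋂ i, S i) = (⋃ i, (S i)ᶜ)ᶜ := by
    rw [Set.compl_iUnion]; simp
  rw [this]
  exact hc.compl (H.iUnion (fun i => hc.compl (h i)))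

theorem H.empty (c : B → List A) (n : ℕ) : H c n (∅ : Set (List B)) := H.finite Set.finite_empty

variable {X Y Z : Type*}

theorem SFC.const (hc : SFC c) (x : X) : ME c (fun _ : List B => x) := by
  intro y
  by_cases h : x = y
  · simpa [h] using hc.univ
  · simpa [h] using H.empty c 1

theorem SFC.pi (hc : SFC c) {ι : Type*} [Finite ι] {X : ι → Type*}
    {f : ∀ i, List B → X i} (hf : ∀ i, ME c (f i)) : ME c (fun w i => f i w) := by
  intro x
  have : {w : List B | (fun i => f i w) = x} = ⋂ i, {w | f i w = x i} := by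
    ext w; simp [funext_iff]
  rw [this]
  exact hc.iInter (fun i => hf i (x i))

theorem SFC.comp₂ (hc : SFC c) [Finite X] [Finite Y] {f : List B → X} {g : List B → Y}
    (hf : ME c f) (hg : ME c g) (h : X → Y → Z) : ME c (fun w => h (f w) (g w)) :=
  hf.comp₂ hc.code hg h

theorem SFC.add (hc : SFC c) {R : Type} [AddCommGroup R] [Finite R] {f g : List B → R}
    (hf : ME c f) (hg : ME c g) : ME c (fun w => f w + g w) :=
  hc.comp₂ hf hg (fun x y => x + y)

theorem SFC.sub (hc : SFC c) {R : Type} [AddCommGroup R] [Finite R] {f g : List B → R}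
    (hf : ME c f) (hg : ME c g) : ME c (fun w => f w - g w) :=
  hc.comp₂ hf hg (fun x y => x - y)

theorem SFC.sum (hc : SFC c) {ι R : Type*} [AddCommMonoid R] [Finite R]
    {f : ι → List B → R} (s : Finset ι) (hf : ∀ i ∈ s, ME c (f i)) :
    ME c (fun w => ∑ i ∈ s, f i w) := by
  classical
  induction s using Finset.induction_on with
  | empty => simpa using hc.const (0 : R)
  | insert a s ha ih =>
    have h1 := ih (fun i hi => hf i (Finset.mem_insert_of_mem hi))
    have h2 := hf a (Finset.mem_insert_self a s)
    have := hc.comp₂ h2 h1 (fun x y => x + y)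
    simpa [Finset.sum_insert ha] using this

/-- indicator functions -/
theorem SFC.ind (hc : SFC c) {S : Set (List B)} (hS : H c 1 S) (a b : X)
    [DecidablePred (· ∈ S)] : ME c (fun l => if l ∈ S then a else b) := by
  intro x
  have : {l : List B | (if l ∈ S then a else b) = x} =
      {l | a = x ∧ l ∈ S} ∪ {l | b = x ∧ l ∈ Sᶜ} := by
    ext l
    by_cases h : l ∈ S <;> simp [h]
  rw [this]
  exact (H.prop _ hS).union (H.prop _ (hc.compl hS))

/-- the length modulo `M` -/
theorem SFC.length (hc : SFC c) (M : ℕ) [NeZero M] :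
    ME c (fun l => ((l.length : ℕ) : ZMod M)) := by
  refine tick (K := {l | l.length = 1}) (R := {[]}) (hc.len 1)
    (H.finite (Set.finite_singleton _)) _ ?_ ?_
  · intro l
    induction l with
    | nil => exact ⟨[], [], by simp, rfl, rfl⟩
    | cons b l ih =>
      obtain ⟨ks, r, h1, h2, h3⟩ := ih
      refine ⟨[b] :: ks, r, ?_, h2, by rw [h3]; simp⟩
      intro k hk
      rcases List.mem_cons.1 hk with rfl | hk
      · rfl
      · exact h1 k hk
  · rintro ks r h1 rfl
    congr 1
    rw [List.append_nil]
    induction ks with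
    | nil => rfl
    | cons k ks ih =>
      rw [List.flatten_cons, List.length_append, List.length_cons,
        ih (fun x hx => h1 x (by simp [hx])), show k.length = 1 from h1 k (by simp)]
      omega

/-- functions of the first `n` letters (`f`, star-free level sets on the words of length `n`)
and of the rest (`g`) -/
theorem SFC.window (hc : SFC c) [Finite X] [Finite Y] (n : ℕ) (f : List B → X)
    (hf : ∀ x, H c 1 {l | l.length = n ∧ f l = x}) (g : List B → Y) (hg : ME c g)
    (h : X → Y → Z) (z : Z) :
    ME c (fun l => if n ≤ l.length then h (f (l.take n)) (g (l.drop n)) else z) := by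
  intro t
  have : {l : List B | (if n ≤ l.length then h (f (l.take n)) (g (l.drop n)) else z) = t} =
      {l | z = t ∧ l ∈ {l : List B | l.length < n}} ∪ ⋃ p : X × Y, {l | h p.1 p.2 = t ∧
        l ∈ cat {l | l.length = n ∧ f l = p.1} {l | g l = p.2}} := by
    ext l
    constructor
    · intro hl
      have hl' : (if n ≤ l.length then h (f (l.take n)) (g (l.drop n)) else z) = t := hl
      by_cases h1 : n ≤ l.length
      · right
        rw [if_pos h1] at hl'
        refine Set.mem_iUnion.2 ⟨(f (l.take n), g (l.drop n)), hl', l.take n, ⟨?_, rfl⟩,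
          l.drop n, rfl, List.take_append_drop n l⟩
        rw [List.length_take]; omega
      · left
        rw [if_neg h1] at hl'
        exact ⟨hl', not_le.1 h1⟩
    · rintro (⟨h1, h2⟩ | h1)
      · have h2' : l.length < n := h2
        show (if n ≤ l.length then h (f (l.take n)) (g (l.drop n)) else z) = t
        rw [if_neg (by omega)]; exact h1
      · obtain ⟨p, h2, u, ⟨h3, h4⟩, v, h5, rfl⟩ := Set.mem_iUnion.1 h1
        show (if n ≤ (u ++ v).length then
          h (f ((u ++ v).take n)) (g ((u ++ v).drop n)) else z) = t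
        have h5' : g v = p.2 := h5
        rw [if_pos (by rw [List.length_append]; omega), List.take_left' h3, List.drop_left' h3,
          h4, h5']
        exact h2
  rw [this]
  refine (H.prop _ ((hc.len_lt n).mono (by omega))).union (H.iUnion (fun p => H.prop _ ?_))
  exact (hf p.1).cat (hg p.2)

end Code

/-! ### Powers of a code -/

/-- words of length `q` in the letters `B` -/
abbrev BL (B : Type) (q : ℕ) : Type := {l : List B // l.length = q}

instance {Θ : Type} [Finite Θ] (q : ℕ) : Finite (BL Θ q) := (List.finite_length_eq Θ q).to_subtype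

/-- the power code -/
def cp (c : B → List A) (q : ℕ) : BL B q → List A := fun l => E c l.1

/-- the word over `B` of a word of blocks -/
def fl {q : ℕ} (bs : List (BL B q)) : List B := (bs.map Subtype.val).flatten

/-- labels of blocks -/
def lb {Θ : Type} (θ : B → Θ) {q : ℕ} (b : BL B q) : BL Θ q :=
  ⟨b.1.map θ, by rw [List.length_map]; exact b.2⟩

theorem fl_nil {q : ℕ} : fl ([] : List (BL B q)) = [] := rfl

theorem fl_cons {q : ℕ} (b : BL B q) (bs : List (BL B q)) : fl (b :: bs) = b.1 ++ fl bs := by
  simp [fl]

theorem fl_append {q : ℕ} (bs bs' : List (BL B q)) : fl (bs ++ bs') = fl bs ++ fl bs' := by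
  simp [fl]

theorem length_fl {q : ℕ} (bs : List (BL B q)) : (fl bs).length = q * bs.length := by
  induction bs with
  | nil => simp [fl]
  | cons b bs ih => rw [fl_cons, List.length_append, ih, b.2, List.length_cons]; ring

theorem E_cp (c : B → List A) {q : ℕ} (bs : List (BL B q)) : E (cp c q) bs = E c (fl bs) := by
  induction bs with
  | nil => rfl
  | cons b bs ih => rw [E_cons, fl_cons, E_append, ih]; rfl

theorem fl_map {Θ : Type} (θ : B → Θ) {q : ℕ} (bs : List (BL B q)) :
    (fl bs).map θ = fl (bs.map (lb θ)) := by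
  induction bs with
  | nil => rfl
  | cons b bs ih => rw [fl_cons, List.map_append, ih, List.map_cons, fl_cons]; rfl

/-- Every word of length `q t` is a word of blocks -/
theorem exists_fl (q : ℕ) : ∀ (t : ℕ) (l : List B), l.length = q * t →
    ∃ bs : List (BL B q), bs.length = t ∧ fl bs = l := by
  intro t
  induction t with
  | zero =>
    intro l hl
    exact ⟨[], rfl, by rw [fl_nil]; exact (List.eq_nil_of_length_eq_zero (by simpa using hl)).symm⟩
  | succ t ih =>
    intro l hl
    have h1 : q ≤ l.length := by rw [hl, Nat.mul_succ]; omega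
    obtain ⟨bs, h2, h3⟩ := ih (l.drop q) (by rw [List.length_drop, hl, Nat.mul_succ]; omega)
    refine ⟨⟨l.take q, by rw [List.length_take]; omega⟩ :: bs, by simp [h2], ?_⟩
    rw [fl_cons, h3]
    exact List.take_append_drop q l

theorem H_cp {c : B → List A} {q n : ℕ} {S : Set (List (BL B q))} :
    H (cp c q) n S ↔ H c n (fl '' S) := by
  unfold H
  have : E (cp c q) '' S = E c '' (fl '' S) := by
    rw [Set.image_image]
    exact Set.image_congr (fun bs _ => E_cp c bs)
  rw [this]

theorem SFC.pow {c : B → List A} (hc : SFC c) {q : ℕ} (hq : 1 ≤ q) : SFC (cp c q) := by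
  refine ⟨?_, ?_, ?_⟩
  · intro b b' w h
    obtain ⟨r, h1, h2⟩ := hc.comp' b.1 b'.1 w h
    have h3 := congrArg List.length h1
    rw [List.length_append, b.2, b'.2] at h3
    have h4 : r = [] := List.eq_nil_of_length_eq_zero (by omega)
    rw [h4, List.append_nil] at h1
    exact Subtype.ext h1
  · intro b h
    have h1 : E c b.1 = E c [] := h
    have h2 := hc.code h1
    have h3 := b.2
    rw [h2] at h3
    simp at h3
    omega
  · have : Set.range (cp c q) = E c '' {l | l.length = q} := by
      ext w
      constructor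
      · rintro ⟨b, rfl⟩; exact ⟨b.1, b.2, rfl⟩
      · rintro ⟨l, hl, rfl⟩; exact ⟨⟨l, hl⟩, rfl⟩
    rw [this]
    exact hc.len q

theorem Lab.word {Θ : Type} {c : B → List A} {θ : B → Θ} (hθ : Lab c θ) (v : List Θ) :
    H c 0 {l : List B | l.map θ = v} := by
  induction v with
  | nil =>
    have : {l : List B | l.map θ = []} = {[]} := by ext l; simp
    rw [this]
    exact H.finite (Set.finite_singleton _)
  | cons i v ih =>
    have : {l : List B | l.map θ = i :: v} = cat (one (θ ⁻¹' {i})) {l | l.map θ = v} := by
      ext l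
      constructor
      · intro hl
        cases l with
        | nil => exact absurd hl (by simp)
        | cons b l =>
          have hl' : θ b :: l.map θ = i :: v := hl
          rw [List.cons.injEq] at hl'
          exact ⟨[b], ⟨b, hl'.1, rfl⟩, l, hl'.2, rfl⟩
      · rintro ⟨_, ⟨b, hb, rfl⟩, v', hv', rfl⟩
        have hb' : θ b = i := hb
        have hv'' : v'.map θ = v := hv'
        show ([b] ++ v').map θ = i :: v
        simp [hb', hv'']
    rw [this]
    exact (H_one.2 (hθ i)).cat ih

theorem Lab.pow {Θ : Type} {c : B → List A} {θ : B → Θ} (hθ : Lab c θ) (q : ℕ) :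
    Lab (cp c q) (lb θ (q := q)) := by
  intro v
  have : cp c q '' (lb θ ⁻¹' {v}) = E c '' {l : List B | l.map θ = v.1} := by
    ext w
    constructor
    · rintro ⟨b, hb, rfl⟩
      have hb' : lb θ b = v := hb
      exact ⟨b.1, by rw [← hb']; rfl, rfl⟩
    · rintro ⟨l, hl, rfl⟩
      have hl' : l.map θ = v.1 := hl
      refine ⟨⟨l, by rw [← v.2, ← hl', List.length_map]⟩, Subtype.ext hl', rfl⟩
  rw [this]
  exact hθ.word v.1

theorem Lab.prod {Θ Θ' : Type} {c : B → List A} (hc : SFC c) {θ : B → Θ} {θ' : B → Θ'}
    (hθ : Lab c θ) (hθ' : Lab c θ') : Lab c (fun b => (θ b, θ' b)) := by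
  rintro ⟨i, i'⟩
  have : (fun b => (θ b, θ' b)) ⁻¹' {(i, i')} = (θ ⁻¹' {i}) ∩ (θ' ⁻¹' {i'}) := by
    ext b; simp
  have hinj : Function.Injective c := by
    intro b b' h
    exact (hc.pre b b' [] (by rw [h, List.append_nil])).symm
  rw [this, Set.image_inter hinj]
  exact (hθ i).inter (hθ' i')

/-- the code `Z* (L - Z)`: its letters are pairs `(z₁ ⋯ zₑ, b)`. -/
abbrev ZB (Z : Set B) : Type := {p : List B × B // (∀ z ∈ p.1, z ∈ Z) ∧ p.2 ∉ Z}

/-- the code `Z* (L - Z)` -/
def cz (c : B → List A) (Z : Set B) : ZB Z → List A := fun p => E c (p.1.1 ++ [p.1.2])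

end Pool.Agent.GSH.NP
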