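import Pool.Agent.GSH.NPCore2

/-!
# Non-pure sets give interleaved factorisations
-/

set_option autoImplicit false

namespace Pool.Agent.GSH.NP

open Pool.Agent.GSH

variable {A : Type}

/-- no element of `Z` is a proper initial part of another one -/
def PFree (Z : Set (List A)) : Prop := ∀ u ∈ Z, ∀ w, u ++ w ∈ Z → w = []

/-- `Z` is pure -/
def PureSet (Z : Set (List A)) : Prop := ∀ (w : List A) (n : ℕ), 1 ≤ n → rep n w ∈ star Z →
  w ∈ star Z

theorem star_cancel {Z : Set (List A)} (hp : PFree Z) (he : [] ∉ Z) {u v : List A}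
    (hu : u ∈ star Z) (huv : u ++ v ∈ star Z) : v ∈ star Z := by
  obtain ⟨l, hl, rfl⟩ := hu
  obtain ⟨m, hm, h⟩ := huv
  induction l generalizing m with
  | nil =>
    rw [List.flatten_nil, List.nil_append] at h
    exact ⟨m, hm, h⟩
  | cons z l ih =>
    cases m with
    | nil =>
      rw [List.flatten_nil, List.flatten_cons, List.append_assoc] at h
      have := (List.append_eq_nil_iff.1 h.symm).1
      subst this
      exact absurd (hl [] (by simp)) he
    | cons z' m =>
      rw [List.flatten_cons, List.flatten_cons, List.append_assoc] at h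
      have hz : z = z' := by
        rcases List.append_eq_append_iff.1 h with ⟨r, h1, h2⟩ | ⟨r, h1, h2⟩
        · have := hp z' (hm z' (by simp)) r (by rw [← h1]; exact hl z (by simp))
          rw [h1, this, List.append_nil]
        · have := hp z (hl z (by simp)) r (by rw [← h1]; exact hm z' (by simp))
          rw [h1, this, List.append_nil]
      subst hz
      exact ih (fun x hx => hl x (by simp [hx])) m (fun x hx => hm x (by simp [hx]))
        (List.append_cancel_left h)

theorem star_first {Z : Set (List A)} (he : [] ∉ Z) {u : List A} (hu : u ∈ star Z)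
    (h0 : u ≠ []) : ∃ z v, z ∈ Z ∧ z ≠ [] ∧ u = z ++ v ∧ v ∈ star Z := by
  obtain ⟨l, hl, rfl⟩ := hu
  cases l with
  | nil => exact absurd rfl h0
  | cons z l =>
    refine ⟨z, l.flatten, hl z (by simp), ?_, by simp, l, fun x hx => hl x (by simp [hx]), rfl⟩
    rintro rfl
    exact he (hl [] (by simp))

theorem star_rep {Z : Set (List A)} {u : List A} (hu : u ∈ star Z) (n : ℕ) :
    rep n u ∈ star Z := by
  induction n with
  | zero => rw [rep_zero]; exact nil_mem_star Z
  | succ n ih => rw [rep_succ]; exact star_append hu ih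

/-- segments of an infinite word -/
def seg (τ : ℕ → A) (a b : ℕ) : List A := (List.range' a (b - a)).map τ

theorem seg_length (τ : ℕ → A) (a b : ℕ) : (seg τ a b).length = b - a := by simp [seg]

theorem seg_append (τ : ℕ → A) {a b c : ℕ} (h1 : a ≤ b) (h2 : b ≤ c) :
    seg τ a b ++ seg τ b c = seg τ a c := by
  unfold seg
  rw [← List.map_append]
  congr 1
  have h3 : b = a + 1 * (b - a) := by omega
  conv_lhs => arg 2; rw [h3]
  rw [← h3]
  have h4 : c - a = (b - a) + (c - b) := by omega
  rw [h4, ← List.range'_append]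
  congr 2

theorem seg_shift {τ : ℕ → A} {d : ℕ} (hτ : ∀ n, τ (n + d) = τ n) (a b : ℕ) :
    seg τ (a + d) (b + d) = seg τ a b := by
  unfold seg
  have h1 : b + d - (a + d) = b - a := by omega
  rw [h1]
  apply List.ext_getElem
  · simp
  · intro i _ _
    simp only [List.getElem_map, List.getElem_range', Nat.one_mul]
    rw [Nat.add_right_comm, hτ]

theorem seg_rep {τ : ℕ → A} {t : List A} (hτ : ∀ n, τ (n + t.length) = τ n)
    (h0 : seg τ 0 t.length = t) (m : ℕ) : seg τ 0 (t.length * m) = rep m t := by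
  induction m with
  | zero => rw [Nat.mul_zero, rep_zero]; rfl
  | succ m ih =>
    rw [rep_succ, ← seg_append τ (b := t.length) (by omega) (by rw [Nat.mul_succ]; omega), h0,
      ← ih, Nat.mul_succ]
    congr 1
    have := seg_shift hτ 0 (t.length * m)
    rw [Nat.zero_add] at this
    exact this

theorem chain_of_not_pure {Z : Set (List A)} (hp : PFree Z) (he : [] ∉ Z)
    (hnest : ∀ x z y, z ∈ Z → x ≠ [] → y ≠ [] → x ++ (z ++ y) ∉ Z) (hnp : ¬ PureSet Z) :
    ∃ o : ℕ → List A, ∀ i, o i ≠ [] ∧ o i ++ o (i + 1) ∈ Z := by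
  unfold PureSet at hnp
  push Not at hnp
  obtain ⟨t, N, hN, ht1, ht2⟩ := hnp
  have ht0 : t ≠ [] := by rintro rfl; exact ht2 (nil_mem_star Z)
  have htl : 0 < t.length := List.length_pos_iff.2 ht0
  set d := t.length with hd
  -- the infinite word
  let τ : ℕ → A := fun n => t[n % t.length]'(Nat.mod_lt _ htl)
  have hτ : ∀ n, τ (n + t.length) = τ n := by
    intro n
    show t[(n + t.length) % t.length]'_ = t[n % t.length]'_
    congr 1
    exact Nat.add_mod_right n _
  have hseg0 : seg τ 0 t.length = t := by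
    apply List.ext_getElem
    · rw [seg_length]; omega
    · intro i h1 h2
      simp only [seg, List.getElem_map, List.getElem_range', Nat.one_mul, Nat.zero_add]
      show t[i % t.length]'_ = t[i]
      congr 1
      exact Nat.mod_eq_of_lt h2
  have hpw := seg_rep hτ hseg0
  -- cuts
  let R : Bool → ℕ → Prop := fun i n => if i then seg τ 0 n ∈ star Z else
    (d ≤ n ∧ seg τ d n ∈ star Z)
  have hbig : ∀ n, ∃ m, n < m ∧ seg τ 0 m ∈ star Z ∧ ∃ j, m = d * (j + 1) := by
    intro n
    refine ⟨d * (N * (n + 1)), ?_, ?_, N * (n + 1) - 1, ?_⟩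
    · have h1 : n + 1 ≤ N * (n + 1) := Nat.le_mul_of_pos_left _ hN
      have h2 : N * (n + 1) ≤ d * (N * (n + 1)) := Nat.le_mul_of_pos_left _ htl
      omega
    · rw [hpw]
      have h3 : rep (N * (n + 1)) t = rep (n + 1) (rep N t) := by
        rw [FC.rep_rep]
        congr 1
        try ring
      rw [h3]
      exact star_rep ht1 _
    · rw [Nat.sub_add_cancel (Nat.mul_pos hN (Nat.succ_pos n))]
  have hnextT : ∀ n, R true n → ∃ m, n < m ∧ R true m ∧ seg τ n m ∈ Z := by
    intro n hn
    have hn' : seg τ 0 n ∈ star Z := hn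
    obtain ⟨m, h1, h2, _⟩ := hbig n
    rw [← seg_append τ (b := n) (by omega) (by omega)] at h2
    have h3 := star_cancel hp he hn' h2
    obtain ⟨z, v, h4, h5, h6, _⟩ := star_first he h3 (by
      intro h0
      have := congrArg List.length h0
      rw [seg_length, List.length_nil] at this
      omega)
    have h7 : z.length ≤ m - n := by
      have := congrArg List.length h6
      rw [seg_length, List.length_append] at this
      omega
    have h8 : seg τ n (n + z.length) = z := by
      rw [← seg_append τ (b := n + z.length) (by omega) (by omega)] at h6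
      exact (List.append_inj h6 (by rw [seg_length]; omega)).1
    have h9 : 0 < z.length := List.length_pos_iff.2 h5
    refine ⟨n + z.length, by omega, ?_, by rw [h8]; exact h4⟩
    show seg τ 0 (n + z.length) ∈ star Z
    rw [← seg_append τ (b := n) (by omega) (by omega), h8]
    exact star_append hn' (mem_star_of_mem h4)
  have hsh : ∀ a b, seg τ (a + d) (b + d) = seg τ a b := fun a b => seg_shift hτ a b
  have hnext : ∀ i n, R i n → ∃ m, n < m ∧ R i m ∧ seg τ n m ∈ Z := by
    intro i n hn
    cases i with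
    | true => exact hnextT n hn
    | false =>
      have hn' : d ≤ n ∧ seg τ d n ∈ star Z := hn
      obtain ⟨k, rfl⟩ : ∃ k, n = k + d := ⟨n - d, by omega⟩
      have h1 : seg τ 0 k ∈ star Z := by
        have := hsh 0 k
        rw [Nat.zero_add] at this
        rw [← this]
        exact hn'.2
      obtain ⟨m, h2, h3, h4⟩ := hnextT k h1
      refine ⟨m + d, by omega, ?_, by rw [hsh]; exact h4⟩
      refine ⟨by omega, ?_⟩
      have := hsh 0 m
      rw [Nat.zero_add] at this
      rw [this]
      exact h3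
  have hdisj : ∀ n, R true n → R false n → False := by
    intro n h1 h2
    have h1' : seg τ 0 n ∈ star Z := h1
    have h2' : d ≤ n ∧ seg τ d n ∈ star Z := h2
    obtain ⟨m, h3, h4, j, h5⟩ := hbig n
    rw [← seg_append τ (b := n) (by omega) (by omega)] at h4
    have h6 := star_cancel hp he h1' h4
    have h7 := star_append h2'.2 h6
    rw [seg_append τ h2'.1 (by omega)] at h7
    have h8 : m = d * j + d := by rw [h5, Nat.mul_succ]
    have h9 := hsh 0 (d * j)
    rw [Nat.zero_add] at h9
    rw [h8, h9, hpw] at h7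
    have h10 : rep j t ++ t ∈ star Z := by
      rw [← rep_succ', ← hpw, ← h5, ← seg_append τ (b := n) (by omega) (by omega)]
      exact h4
    exact ht2 (star_cancel hp he h7 h10)
  -- the states
  let St : Type := {s : Bool × ℕ × ℕ × ℕ // s.2.1 < s.2.2.1 ∧ s.2.2.1 < s.2.2.2 ∧
    seg τ s.2.1 s.2.2.2 ∈ Z ∧ R (!s.1) s.2.2.1 ∧ R s.1 s.2.2.2}
  have hstep : ∀ s : St, ∃ s' : St, s'.1.2.1 = s.1.2.2.1 ∧ s'.1.2.2.1 = s.1.2.2.2 := by
    rintro ⟨⟨i, a, b, c⟩, h1, h2, h3, h4, h5⟩
    obtain ⟨m, g1, g2, g3⟩ := hnext (!i) b h4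
    have hcm : c < m := by
      by_contra h0
      rcases Nat.lt_or_ge m c with h6 | h6
      · apply hnest (seg τ a b) (seg τ b m) (seg τ m c) g3
        · intro e
          have := congrArg List.length e
          rw [seg_length, List.length_nil] at this
          have h1' : a < b := h1
          omega
        · intro e
          have := congrArg List.length e
          rw [seg_length, List.length_nil] at this
          omega
        · have h1' : a < b := h1
          rw [seg_append τ (by omega) (by omega), seg_append τ (by omega) (by omega)]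
          exact h3
      · have h7 : m = c := by omega
        subst h7
        cases i with
        | true => exact hdisj m h5 g2
        | false => exact hdisj m g2 h5
    refine ⟨⟨(!i, b, c, m), h2, hcm, g3, ?_, g2⟩, rfl, rfl⟩
    show R (!!i) c
    rw [Bool.not_not]
    exact h5
  have hinit : Nonempty St := by
    obtain ⟨m, h1, h2, j, h3⟩ := hbig d
    rw [← seg_append τ (b := d) (by omega) (by omega), hseg0] at h2
    rcases star_split h2 with ⟨h4, _⟩ | ⟨p1, p2, q1, q2, g1, g2, g3, g4, g5⟩
    · exact absurd h4 ht2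
    · have hp2 : p2 ≠ [] := by
        rintro rfl
        rw [List.append_nil] at g1
        exact ht2 (by rw [g1]; exact g3)
      have hq1 : q1 ≠ [] := by
        rintro rfl
        rw [List.append_nil] at g4
        exact ht2 (by rw [g1]; exact star_append g3 (mem_star_of_mem g4))
      have hl1 : d = p1.length + p2.length := by rw [hd, g1, List.length_append]
      have hl2 := List.length_pos_iff.2 hp2
      have hl3 := List.length_pos_iff.2 hq1
      have hl4 : m - d = q1.length + q2.length := by
        have := congrArg List.length g2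
        rw [seg_length, List.length_append] at this
        exact this
      have e1 : seg τ 0 p1.length = p1 ∧ seg τ p1.length d = p2 := by
        have : seg τ 0 p1.length ++ seg τ p1.length d = p1 ++ p2 := by
          rw [seg_append τ (by omega) (by omega), ← g1]
          exact hseg0
        exact List.append_inj this (by rw [seg_length]; omega)
      have e2 : seg τ d (d + q1.length) = q1 := by
        have : seg τ d (d + q1.length) ++ seg τ (d + q1.length) m = q1 ++ q2 := by
          rw [seg_append τ (by omega) (by omega), g2]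
        exact (List.append_inj this (by rw [seg_length]; omega)).1
      refine ⟨⟨(true, p1.length, d, d + q1.length), ?_, ?_, ?_, ?_, ?_⟩⟩
      · show p1.length < d
        omega
      · show d < d + q1.length
        omega
      · show seg τ p1.length (d + q1.length) ∈ Z
        rw [← seg_append τ (b := d) (by omega) (by omega), e1.2, e2]
        exact g4
      · refine ⟨le_rfl, ?_⟩
        have : seg τ d d = [] := by unfold seg; rw [Nat.sub_self]; rfl
        rw [this]
        exact nil_mem_star Z
      · show seg τ 0 (d + q1.length) ∈ star Z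
        rw [← seg_append τ (b := p1.length) (by omega) (by omega), e1.1,
          ← seg_append τ (b := d) (by omega) (by omega), e1.2, e2]
        exact star_append g3 (mem_star_of_mem g4)
  obtain ⟨s0⟩ := hinit
  choose nx hnx1 hnx2 using hstep
  let st : ℕ → St := fun k => Nat.rec s0 (fun _ s => nx s) k
  have hst : ∀ k, st (k + 1) = nx (st k) := fun k => rfl
  refine ⟨fun k => seg τ (st k).1.2.1 (st k).1.2.2.1, fun k => ⟨?_, ?_⟩⟩
  · intro e
    have := congrArg List.length e
    rw [seg_length, List.length_nil] at this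
    have h1 := (st k).2.1
    omega
  · show seg τ (st k).1.2.1 (st k).1.2.2.1 ++ seg τ (st (k + 1)).1.2.1 (st (k + 1)).1.2.2.1 ∈ Z
    rw [hst, hnx1, hnx2, seg_append τ (st k).2.1.le (st k).2.2.1.le]
    exact (st k).2.2.2.1

theorem absorb_at {k : ℕ} {x a b : (efCon A k).Quotient} (h : x = a * x * b) : x = x * b := by
  have h1 : ∀ n : ℕ, x = a ^ n * x * b ^ n := by
    intro n
    induction n with
    | zero => simp
    | succ n ih =>
      have h1 : a ^ (n + 1) * x * b ^ (n + 1) = a ^ n * (a * x * b) * b ^ n := by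
        rw [pow_succ a, pow_succ' b]
        simp only [mul_assoc]
      rw [h1, ← h]
      exact ih
  obtain ⟨w, rfl⟩ := qt_surj k b
  have h2 : qt k w ^ (2 ^ k) = qt k w ^ (2 ^ k + 1) := by
    rw [← qt_rep, ← qt_rep]
    exact qt_eq.2 (EF.aper _ _ _ _ (by omega) (by omega))
  have h3 := h1 (2 ^ k)
  have h4 : a ^ 2 ^ k * x * qt k w ^ 2 ^ k = a ^ 2 ^ k * x * qt k w ^ (2 ^ k + 1) := by rw [h2]
  rw [← h3, pow_succ, ← mul_assoc, ← h3] at h4
  exact h4

/-- the closure of a saturated set -/
def hat (k0 : ℕ) (L : Set (List A)) : Set (W A) := {x | ∃ w ∈ L, x.1 k0 = qt k0 w}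

theorem hat_mem {k0 : ℕ} {L : Set (List A)} (hs : Sat k0 L) {x : W A} (hx : x ∈ hat k0 L) {k : ℕ}
    (hk : k0 ≤ k) : x.w k ∈ L := by
  obtain ⟨w, hw, e⟩ := hx
  rw [x.w_spec hk] at e
  exact hs _ _ (qt_eq.1 e).symm hw

theorem hat_cl {k0 : ℕ} {L : Set (List A)} (hs : Sat k0 L) (hp : PFree L) (he : [] ∉ L) :
    Cl k0 (hat k0 L) := by
  refine ⟨?_, ?_, ?_⟩
  · intro κ hκ b hb
    have h1 := hat_mem hs hκ (Nat.le_succ k0)
    obtain ⟨w, hw, e⟩ := hb
    have h2 : κ.w (k0 + 1) ++ b.w (k0 + 1) ∈ L := by
      apply hs _ _ _ hw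
      apply qt_eq.1
      rw [← e, qt_append, ← κ.w_spec (Nat.le_succ k0), ← b.w_spec (Nat.le_succ k0)]
      rfl
    have h3 := hp _ h1 _ h2
    apply W.eq_one_of_at (k := k0 + 1) (by omega)
    rw [b.w_spec le_rfl, h3]
    rfl
  · rintro κ ⟨w, hw, e⟩ κ' h
    exact ⟨w, hw, by rw [h, e]⟩
  · rintro ⟨w, hw, e⟩
    exact he (hs _ _ (qt_eq.1 (e.symm : qt k0 w = qt k0 [])) hw)

/-- points at which `L` is not pure at any depth are proper powers -/
theorem bad_of_not_pure [Finite A] {k0 : ℕ} {L : Set (List A)} (hs : Sat k0 L) (hp : PFree L)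
    (he : [] ∉ L) {V : W A} (hV : V ∈ hat k0 L)
    (hnp : ∀ k, k0 ≤ k → ¬ PureSet {z | z ∈ L ∧ qt k z = V.1 k}) :
    ∃ (R : W A) (m : ℕ), 2 ≤ m ∧ V = R ^ m := by
  have hcl := hat_cl hs hp he
  have hVS : SR V := ⟨k0, hcl.srk' hV⟩
  have h1 : ∀ k, k0 ≤ k → ∃ o : ℕ → List A, ∀ i, o i ≠ [] ∧ (o i ++ o (i + 1) ∈ L ∧
      qt k (o i ++ o (i + 1)) = V.1 k) := by
    intro k hk
    refine chain_of_not_pure (Z := {z | z ∈ L ∧ qt k z = V.1 k}) ?_ ?_ ?_ (hnp k hk)
    · exact fun u hu w hw => hp u hu.1 w hw.1
    · exact fun h => he h.1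
    · rintro x z y ⟨hz1, hz2⟩ _ hy ⟨hw1, hw2⟩
      have h3 : qt k z = qt k x * qt k z * qt k y := by
        rw [qt_append, qt_append, ← mul_assoc] at hw2
        rw [hw2, hz2]
      have h4 := absorb_at h3
      rw [← qt_append] at h4
      have h5 : z ++ y ∈ L := (hs.mono hk) _ _ (qt_eq.1 h4) hz1
      exact hy (hp z hz1 y h5)
  choose! o ho using h1
  let O : ℤ → W A := fun i => lim (fun k => o k (i + 2 * (k : ℤ)).toNat)
  have hO1 : ∀ i, O i ≠ 1 := by
    intro i
    apply lim_ne_one
    filter_upwards [UU_ge k0] with k hk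
    exact (ho k hk _).1
  have hO2 : ∀ i, O i * O (i + 1) = V := by
    intro i
    show lim _ * lim _ = V
    rw [← lim_append]
    apply lim_eq
    intro j
    filter_upwards [UU_ge (max k0 (max j i.natAbs))] with k hk
    have h2 : (i + 1 + 2 * (k : ℤ)).toNat = (i + 2 * (k : ℤ)).toNat + 1 := by omega
    rw [h2]
    have h3 := (ho k (by omega) (i + 2 * (k : ℤ)).toNat).2.2
    rw [V.w_spec le_rfl] at h3
    rw [V.w_spec (k := k) (by omega)]
    exact qt_eq.2 ((qt_eq.1 h3).mono (by omega))
  have hOS : ∀ i, SRk k0 (O i) := by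
    intro i
    apply hcl.srk (x := O (i - 1))
    have := hO2 (i - 1)
    rw [sub_add_cancel] at this
    rw [this]
    exact hV
  have hOR : ∀ i, SR (O i) := fun i => ⟨k0, hOS i⟩
  -- a minimal element
  obtain ⟨i, hi⟩ : ∃ i, ∀ j, (pcl k0 (O i)).ncard ≤ (pcl k0 (O j)).ncard := by
    classical
    have hex : ∃ m, ∃ i, (pcl k0 (O i)).ncard = m := ⟨_, 0, rfl⟩
    obtain ⟨i, hi⟩ := Nat.find_spec hex
    exact ⟨i, fun j => by rw [hi]; exact Nat.find_min' hex ⟨j, rfl⟩⟩
  have hdiv : ∀ j, ∃ w, O j = O i * w := by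
    intro j
    have e : O i * O (i + 1) = O j * O (j + 1) := by rw [hO2, hO2]
    obtain ⟨w, (⟨f1, _⟩ | ⟨f1, _⟩)⟩ := W.equi e
    · exact ⟨w, f1⟩
    · by_cases hw : w = 1
      · exact ⟨1, by rw [f1, hw, mul_one, mul_one]⟩
      · have := pcl_lt (hOS j) f1 hw
        have := hi j
        omega
  obtain ⟨w, hw⟩ := hdiv (i - 2)
  obtain ⟨w', hw'⟩ := hdiv (i + 2)
  have e1 : O (i + 1) = w * O (i - 1) := by
    apply (hOR i).cancel
    rw [← mul_assoc, ← hw, hO2]
    have := hO2 (i - 2)
    rw [show i - 2 + 1 = i - 1 by ring] at this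
    exact this.symm
  have e2 : O (i - 1) * O i = O (i + 1) * O (i + 2) := by
    have h2 := hO2 (i - 1)
    rw [sub_add_cancel] at h2
    have h3 := hO2 (i + 1)
    rw [show i + 1 + 1 = i + 2 by ring] at h3
    rw [h2, h3]
  have e3 : ∃ u, O i = u * O (i + 2) := by
    obtain ⟨u, (⟨f1, f2⟩ | ⟨f1, f2⟩)⟩ := W.equi e2
    · exact ⟨u, f2⟩
    · have h2 : O (i + 1) = w * O (i + 1) * u := by
        conv_lhs => rw [e1, f1, ← mul_assoc]
      have h3 := (hOR (i + 1)).rc (W.absorb h2).symm
      rw [h3, one_mul] at f2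
      exact ⟨1, by rw [one_mul, f2]⟩
  obtain ⟨u, hu⟩ := e3
  have e4 : O i = u * O i * w' := by
    conv_lhs => rw [hu, hw', ← mul_assoc]
  have e5 := (hOR i).rc (W.absorb e4).symm
  rw [e5, mul_one] at hw'
  have e6 := hO2 (i + 1)
  rw [show i + 1 + 1 = i + 2 by ring, hw'] at e6
  exact pow_of_comm hVS (hO1 i) (hO1 (i + 1)) (hO2 i).symm e6.symm

end Pool.Agent.GSH.NP
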