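import Pool.Agent.GSH.NPEC

/-!
# The core theorem: infinite words all of whose initial products are proper powers
-/

set_option autoImplicit false

namespace Pool.Agent.GSH.NP

open Pool.Agent.GSH

variable {A : Type}

/-- the closure of a star-free prefix code in the limit monoid -/
structure Cl (k0 : ℕ) (K : Set (W A)) : Prop where
  pf : ∀ κ ∈ K, ∀ b, κ * b ∈ K → b = 1
  sat : ∀ κ ∈ K, ∀ κ' : W A, κ'.1 k0 = κ.1 k0 → κ' ∈ K
  one : 1 ∉ K

section

variable {k0 : ℕ} {K : Set (W A)}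

theorem Cl.srk (hK : Cl k0 K) {x y : W A} (h : x * y ∈ K) : SRk k0 y := by
  intro b hb
  apply hK.pf _ h
  apply hK.sat _ h
  rw [mul_assoc, W.mul_at, hb, W.mul_at]

theorem Cl.srk' (hK : Cl k0 K) {y : W A} (h : y ∈ K) : SRk k0 y :=
  hK.srk (x := 1) (by rw [one_mul]; exact h)

theorem Cl.ne (hK : Cl k0 K) {y : W A} (h : y ∈ K) : y ≠ 1 := fun e => hK.one (e ▸ h)

variable [Finite A]

theorem Cl.head (hK : Cl k0 K) {x x' r r' : W A} (hx : x ∈ K) (hx' : x' ∈ K)
    (h : x * r = x' * r') : x = x' ∧ r = r' := by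
  obtain ⟨w, (⟨h1, h2⟩ | ⟨h1, h2⟩)⟩ := W.equi h
  · have h3 : w = 1 := hK.pf x hx w (by rw [← h1]; exact hx')
    rw [h3] at h1 h2
    rw [mul_one] at h1
    rw [one_mul] at h2
    exact ⟨h1.symm, h2⟩
  · have h3 : w = 1 := hK.pf x' hx' w (by rw [← h1]; exact hx)
    rw [h3] at h1 h2
    rw [mul_one] at h1
    rw [one_mul] at h2
    exact ⟨h1, h2.symm⟩

/-- initial products -/
def VV (κ : ℕ → W A) : ℕ → W A
  | 0 => 1
  | q + 1 => VV κ q * κ q

omit [Finite A] in
theorem VV_succ (κ : ℕ → W A) (q : ℕ) : VV κ (q + 1) = VV κ q * κ q := rfl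

omit [Finite A] in
theorem VV_sr (hK : Cl k0 K) {κ : ℕ → W A} (hκ : ∀ i, κ i ∈ K) (q : ℕ) : SR (VV κ q) := by
  induction q with
  | zero => exact SR.one
  | succ q ih => exact ih.mul ⟨k0, hK.srk' (hκ q)⟩

omit [Finite A] in
theorem VV_ne (hK : Cl k0 K) {κ : ℕ → W A} (hκ : ∀ i, κ i ∈ K) {q : ℕ} (hq : 1 ≤ q) :
    VV κ q ≠ 1 := by
  obtain ⟨q, rfl⟩ : ∃ j, q = j + 1 := ⟨q - 1, by omega⟩
  exact mul_ne_one_right (hK.ne (hκ q))

omit [Finite A] in
theorem VV_first (κ : ℕ → W A) (q : ℕ) : ∃ r, VV κ (q + 1) = κ 0 * r := by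
  induction q with
  | zero => exact ⟨1, by rw [VV_succ, mul_one]; exact one_mul _⟩
  | succ q ih =>
    obtain ⟨r, hr⟩ := ih
    exact ⟨r * κ (q + 1), by rw [VV_succ, hr, mul_assoc]⟩

omit [Finite A] in
theorem VV_le (κ : ℕ → W A) {p q : ℕ} (h : p ≤ q) : ∃ r, VV κ q = VV κ p * r := by
  induction h with
  | refl => exact ⟨1, (mul_one _).symm⟩
  | @step q _ ih =>
    obtain ⟨r, hr⟩ := ih
    exact ⟨r * κ q, by rw [VV_succ, hr, mul_assoc]⟩

omit [Finite A] in
theorem VV_const {κ : ℕ → W A} {x : W A} {q : ℕ} (h : ∀ i < q, κ i = x) : VV κ q = x ^ q := by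
  induction q with
  | zero => rw [pow_zero]; rfl
  | succ q ih => rw [VV_succ, ih (fun i hi => h i (by omega)), h q (by omega), pow_succ]

theorem rep_of_init (hK : Cl k0 K) {κ : ℕ → W A} (hκ : ∀ i, κ i ∈ K) {x : W A} (hx : x ∈ K)
    {N : ℕ} {s : W A} : ∀ (q : ℕ) (r : W A), VV κ q * r = x ^ N * s → q ≤ N →
    ∀ i < q, κ i = x := by
  intro q
  induction q with
  | zero => intro r _ _ i hi; exact absurd hi (by omega)
  | succ q ih =>
    intro r h hqN
    rw [VV_succ, mul_assoc] at h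
    have h1 := ih _ h (by omega)
    have h2 : VV κ q = x ^ q := VV_const h1
    have h3 : x ^ N = x ^ q * (x * x ^ (N - q - 1)) := by
      rw [← pow_succ', ← pow_add]
      congr 1
      omega
    rw [h2, h3, mul_assoc, mul_assoc] at h
    have hxS : SR x := ⟨k0, hK.srk' hx⟩
    have h4 := ((hxS.pow q).cancel h)
    have h5 := (hK.head (hκ q) hx h4).1
    intro i hi
    rcases Nat.lt_or_ge i q with h6 | h6
    · exact h1 i h6
    · have : i = q := by omega
      rw [this]; exact h5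

omit [Finite A] in
theorem SR.root {U : W A} {n : ℕ} (hn : 1 ≤ n) (h : SR (U ^ n)) : SR U := by
  obtain ⟨n, rfl⟩ : ∃ j, n = j + 1 := ⟨n - 1, by omega⟩
  rw [pow_succ] at h
  exact h.suffix

/-- the data at an index -/
structure Bad (κ : ℕ → W A) (q : ℕ) (U : W A) (n : ℕ) : Prop where
  prim : Prim U
  two : 2 ≤ n
  eq : VV κ q = U ^ n

omit [Finite A] in
theorem Bad.sr (hK : Cl k0 K) {κ : ℕ → W A} (hκ : ∀ i, κ i ∈ K) {q n : ℕ} {U : W A}
    (h : Bad κ q U n) : SR U := by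
  have h1 := VV_sr hK hκ q
  rw [h.eq] at h1
  exact SR.root (by have := h.two; omega) h1

omit [Finite A] in
theorem Prim.pow_one {U R : W A} (h : Prim U) {i : ℕ} (e : U = R ^ i) : i = 1 ∧ U = R := by
  have h1 := h.2 R i e
  subst h1
  exact ⟨rfl, by rw [e]; exact _root_.pow_one R⟩

/-- equal roots -/
theorem eq_root (hK : Cl k0 K) {κ : ℕ → W A} (hκ : ∀ i, κ i ∈ K) {q n n' : ℕ} {U : W A}
    (hq : 1 ≤ q) (h : Bad κ q U n) (h' : Bad κ (q + 1) U n') : ∀ i < q, κ i = κ q := by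
  have hU := h.sr hK hκ
  have e1 : U ^ n * κ q = U ^ n' := by rw [← h.eq, ← h'.eq]; rfl
  have hlt : n < n' := by
    by_contra h0
    have e2 : U ^ n' * (U ^ (n - n') * κ q) = U ^ n' := by
      rw [← mul_assoc, ← pow_add, Nat.add_sub_cancel' (by omega)]
      exact e1
    exact mul_ne_one_right (hK.ne (hκ q)) ((hU.pow n').rc e2)
  obtain ⟨d, rfl⟩ : ∃ d, n' = n + d := ⟨n' - n, by omega⟩
  rw [pow_add] at e1
  have e2 : κ q = U ^ d := (hU.pow n).cancel e1
  have hd : 1 ≤ d := by omega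
  have e3 : VV κ q * (VV κ q) ^ (d * q - 1) = (κ q) ^ (n * q) * 1 := by
    rw [← pow_succ', mul_one, h.eq, e2, ← pow_mul, ← pow_mul]
    congr 1
    have : d * q - 1 + 1 = d * q := Nat.sub_add_cancel (Nat.mul_pos (by omega) (by omega))
    rw [this]
    ring
  refine rep_of_init hK hκ (hκ q) q _ e3 ?_
  exact Nat.le_mul_of_pos_left q (by have := h.two; omega)

omit [Finite A] in
theorem pow_mul_c {p c : W A} (hcp : c * p = p) {e m : ℕ} (he : 1 ≤ e) (hm : 1 ≤ m) :
    (p ^ e * c) ^ m = p ^ (e * m) * c := by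
  obtain ⟨m, rfl⟩ : ∃ j, m = j + 1 := ⟨m - 1, by omega⟩
  clear hm
  induction m with
  | zero => simp
  | succ m ih =>
    rw [pow_succ' _ (m + 1), ih, mul_assoc, ← mul_assoc c,
      absorb_pow' hcp (Nat.mul_pos (by omega) (by omega)), ← mul_assoc, ← pow_add]
    congr 2
    ring

omit [Finite A] in
theorem absorb_c_pow {p c : W A} (h : c * p = p) (m : ℕ) : c ^ m * p = p := by
  induction m with
  | zero => simp
  | succ m ih => rw [pow_succ, mul_assoc, h, ih]

/-- exceptional case 1 -/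
theorem exc1 (hK : Cl k0 K) {κ : ℕ → W A} (hκ : ∀ i, κ i ∈ K) {q n n' : ℕ} {U U' c : W A}
    (hq : 1 ≤ q) (h : Bad κ q U n) (h' : Bad κ (q + 1) U' n') (hc : c ≠ 1) (hcU : c * U = U)
    {e : ℕ} (hU' : U' = U ^ e * c) : False := by
  have hU := h.sr hK hκ
  have hn := h.two
  have hn' := h'.two
  have e1 : U ^ n * κ q = U' ^ n' := by rw [← h.eq, ← h'.eq]; rfl
  have hU1 := h.prim.1
  have fin : ∀ {m : ℕ} {z : W A}, z ≠ 1 → U ^ (m + 1) * z * U = U → False := by
    intro m z hz e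
    have : U * (U ^ m * z * U) = U := by
      rw [← mul_assoc, ← mul_assoc, ← pow_succ']; exact e
    exact mul_ne_one_left (mul_ne_one_right hz) (hU.rc this)
  have fin' : ∀ {m : ℕ}, 1 ≤ m → U ^ m * U = U → False := by
    intro m hm e
    have : U * U ^ m = U := by rw [← pow_succ', pow_succ]; exact e
    exact pow_ne_one hU1 hm (hU.rc this)
  rcases Nat.eq_zero_or_pos e with he | he
  · rw [he, pow_zero, one_mul] at hU'
    have e2 : U' ^ n' * U = U := by rw [hU']; exact absorb_c_pow hcU n'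
    rw [← e1] at e2
    obtain ⟨m, rfl⟩ : ∃ m, n = m + 1 := ⟨n - 1, by omega⟩
    exact fin (hK.ne (hκ q)) e2
  · rw [hU', pow_mul_c hcU he (by omega)] at e1
    rcases Nat.lt_or_ge (e * n') n with h1 | h1
    · obtain ⟨m, rfl⟩ : ∃ m, n = e * n' + (m + 1) := ⟨n - e * n' - 1, by omega⟩
      rw [pow_add, mul_assoc] at e1
      have e2 := (hU.pow _).cancel e1
      rw [← e2] at hcU
      exact fin (hK.ne (hκ q)) hcU
    · obtain ⟨f, hf⟩ : ∃ f, e * n' = n + f := ⟨e * n' - n, by omega⟩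
      rw [hf, pow_add, mul_assoc] at e1
      have e2 : κ q = U ^ f * c := (hU.pow _).cancel e1
      have e3 : ∀ j, κ q ^ j * U = U ^ (f * j + 1) := by
        intro j
        rw [e2]
        have := absorb_pow_pow hcU f j (i := 1) le_rfl
        rw [pow_one] at this
        exact this
      have e4 : VV κ q * (VV κ q) ^ (f * q + 1) = κ q ^ q *
          (U * U ^ (n * (f * q + 1 + 1) - (f * q + 1))) := by
        rw [← pow_succ', h.eq, ← pow_mul, ← mul_assoc, e3, ← pow_add]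
        congr 1
        have : f * q + 1 + 1 ≤ n * (f * q + 1 + 1) := Nat.le_mul_of_pos_left _ (by omega)
        omega
      have e5 := rep_of_init hK hκ (hκ q) q _ e4 le_rfl
      have e6 : VV κ q = κ q ^ q := VV_const e5
      rw [h.eq] at e6
      rcases Nat.eq_zero_or_pos f with hf0 | hf0
      · rw [hf0, pow_zero, one_mul] at e2
        apply fin' (m := n) (by omega)
        rw [e6, e2]
        exact absorb_c_pow hcU q
      · rw [e2, pow_mul_c hcU hf0 hq] at e6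
        rcases Nat.lt_or_ge (f * q) n with h2 | h2
        · obtain ⟨m, rfl⟩ : ∃ m, n = f * q + (m + 1) := ⟨n - f * q - 1, by omega⟩
          rw [pow_add] at e6
          have e7 := (hU.pow _).cancel e6
          rw [← e7] at hcU
          exact fin' (by omega) hcU
        · obtain ⟨m, hm⟩ : ∃ m, f * q = n + m := ⟨f * q - n, by omega⟩
          have e7 : U ^ n * (U ^ m * c) = U ^ n := by
            rw [← mul_assoc, ← pow_add, ← hm]; exact e6.symm
          exact mul_ne_one_right hc ((hU.pow n).rc e7)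

/-- exceptional case 2 -/
theorem exc2 (hK : Cl k0 K) {κ : ℕ → W A} (hκ : ∀ i, κ i ∈ K) {q n n' : ℕ} {U U' c : W A}
    (hq : 1 ≤ q) (h : Bad κ q U n) (h' : Bad κ (q + 1) U' n') (hc : c ≠ 1) (hcU : c * U' = U')
    {e : ℕ} (hU' : U = U' ^ e * c) : False := by
  have hU := h.sr hK hκ
  have hU'S := h'.sr hK hκ
  have hn := h.two
  have hn' := h'.two
  have hV := VV_sr hK hκ q
  have e1 : U ^ n * κ q = U' ^ n' := by rw [← h.eq, ← h'.eq]; rfl
  have hU1 := h'.prim.1
  have fin' : ∀ {m : ℕ}, 1 ≤ m → U' ^ m * U' = U' → False := by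
    intro m hm e
    have : U' * U' ^ m = U' := by rw [← pow_succ', pow_succ]; exact e
    exact pow_ne_one hU1 hm (hU'S.rc this)
  have hcS : SR c := by rw [hU'] at hU; exact hU.suffix
  rcases Nat.eq_zero_or_pos e with he | he
  · rw [he, pow_zero, one_mul] at hU'
    have e2 : VV κ q * U' = U' := by rw [h.eq, hU']; exact absorb_c_pow hcU n
    have e3 : VV κ q * (U' ^ n') = VV κ q * κ q := by
      rw [h.eq, e1, ← h.eq]
      obtain ⟨m, rfl⟩ : ∃ m, n' = m + 1 := ⟨n' - 1, by omega⟩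
      rw [pow_succ', ← mul_assoc, e2]
    have e4 := hV.cancel e3
    rw [← e1, ← h.eq] at e4
    obtain ⟨j, rfl⟩ : ∃ j, q = j + 1 := ⟨q - 1, by omega⟩
    obtain ⟨r, hr⟩ := VV_first κ j
    rw [hr, mul_assoc] at e4
    have e5 := (hK.head (hκ 0) (hκ (j + 1)) (r' := 1) (by rw [e4, mul_one])).2
    exact mul_ne_one_right (hK.ne (hκ _)) e5
  · have e2 : U ^ n = U' ^ (e * n) * c := by rw [hU', pow_mul_c hcU he (by omega)]
    rw [e2, mul_assoc] at e1
    have hlt : e * n < n' := by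
      by_contra h0
      obtain ⟨m, hm⟩ : ∃ m, e * n = n' + m := ⟨e * n - n', by omega⟩
      rw [hm, pow_add, mul_assoc] at e1
      exact mul_ne_one_right (mul_ne_one_right (hK.ne (hκ q))) ((hU'S.pow n').rc e1)
    obtain ⟨d, rfl⟩ : ∃ d, n' = e * n + d := ⟨n' - e * n, by omega⟩
    have hd : 1 ≤ d := by omega
    rw [pow_add] at e1
    have e3 : c * κ q = U' ^ d := (hU'S.pow _).cancel e1
    have e4 : c * (c * κ q) = c * κ q := by rw [e3]; exact absorb_pow' hcU hd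
    have e5 : κ q = U' ^ d := by rw [← e3]; exact (hcS.cancel e4).symm
    have e6 : VV κ (q + 1) * (VV κ (q + 1)) ^ (d * (q + 1) - 1) =
        (κ q) ^ ((e * n + d) * (q + 1)) * 1 := by
      rw [← pow_succ', mul_one, h'.eq, e5, ← pow_mul, ← pow_mul]
      congr 1
      have : d * (q + 1) - 1 + 1 = d * (q + 1) :=
        Nat.sub_add_cancel (Nat.mul_pos (by omega) (by omega))
      rw [this]
      ring
    have e7 := rep_of_init hK hκ (hκ q) (q + 1) _ e6
      (Nat.le_mul_of_pos_left _ (by omega))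
    have e8 : VV κ q = κ q ^ q := VV_const (fun i hi => e7 i (by omega))
    rw [h.eq, e2, e5, ← pow_mul] at e8
    rcases Nat.lt_or_ge (e * n) (d * q) with h2 | h2
    · obtain ⟨m, hm⟩ : ∃ m, d * q = e * n + (m + 1) := ⟨d * q - e * n - 1, by omega⟩
      rw [hm, pow_add] at e8
      have e9 := (hU'S.pow _).cancel e8
      rw [e9] at hcU
      exact fin' (by omega) hcU
    · obtain ⟨m, hm⟩ : ∃ m, e * n = d * q + m := ⟨e * n - d * q, by omega⟩
      rw [hm, pow_add, mul_assoc] at e8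
      exact mul_ne_one_right hc ((hU'S.pow _).rc e8)

/-- the room case -/
theorem room (hK : Cl k0 K) {κ : ℕ → W A} (hκ : ∀ i, κ i ∈ K) {q n n' : ℕ} {U U' : W A}
    (hq : 1 ≤ q) (h : Bad κ q U n) (h' : Bad κ (q + 1) U' n') {r r' : W A}
    (h1 : U ^ (n - 1) = U' * r) (h2 : U' ^ (n' - 1) = U * r') : ∀ i < q, κ i = κ q := by
  have hU := h.sr hK hκ
  have hU' := h'.sr hK hκ
  have hn := h.two
  have hn' := h'.two
  have e1 : U ^ n * κ q = U' ^ n' := by rw [← h.eq, ← h'.eq]; rfl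
  have e2 : U * U' * (r * κ q) = U' * U * r' := by
    have a1 : U ^ n = U * U ^ (n - 1) := by rw [← pow_succ']; congr 1; omega
    have a2 : U' ^ n' = U' * U' ^ (n' - 1) := by rw [← pow_succ']; congr 1; omega
    rw [a1, a2, h1, h2] at e1
    rw [mul_assoc U' U r', ← e1]
    simp only [mul_assoc]
  obtain ⟨w, (⟨g1, _⟩ | ⟨g1, _⟩)⟩ := W.equi e2
  · -- `U' U = U U' w`
    rcases EC' hU' hU h'.prim.1 h.prim.1 g1 with
      ⟨R, i, j, hi, hj, f1, f2⟩ | ⟨p, c, i, e, hc, hcp, hi, f1, f2⟩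
    · have : U' = U := by rw [(h'.prim.pow_one f1).2, (h.prim.pow_one f2).2]
      subst this
      exact eq_root hK hκ hq h h'
    · have f3 := (h'.prim.pow_one f1).2
      rw [← f3] at hcp f2
      exact (exc2 hK hκ hq h h' hc hcp f2).elim
  · rcases EC' hU hU' h.prim.1 h'.prim.1 g1 with
      ⟨R, i, j, hi, hj, f1, f2⟩ | ⟨p, c, i, e, hc, hcp, hi, f1, f2⟩
    · have : U' = U := by rw [(h.prim.pow_one f1).2, (h'.prim.pow_one f2).2]
      subst this
      exact eq_root hK hκ hq h h'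
    · have f3 := (h.prim.pow_one f1).2
      rw [← f3] at hcp f2
      exact (exc1 hK hκ hq h h' hc hcp f2).elim

/-- the non-room case -/
theorem step1 (hK : Cl k0 K) {κ : ℕ → W A} (hκ : ∀ i, κ i ∈ K) {q n n' : ℕ} {U U' : W A}
    (hq : 1 ≤ q) (h : Bad κ q U n) (h' : Bad κ (q + 1) U' n') (hnc : ¬ ∀ i < q, κ i = κ q) :
    ∃ y, y ≠ 1 ∧ U' = U ^ (n - 1) * y ∧ U * κ q = y * U' ^ (n' - 1) := by
  have hU := h.sr hK hκ
  have hU' := h'.sr hK hκ
  have hn := h.two
  have hn' := h'.two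
  have e1 : U ^ n * κ q = U' ^ n' := by rw [← h.eq, ← h'.eq]; rfl
  have a1 : U ^ n = U * U ^ (n - 1) := by rw [← pow_succ']; congr 1; omega
  have a2 : U' ^ n' = U' ^ (n' - 1) * U' := by rw [← pow_succ]; congr 1; omega
  -- `U` is an initial part of `U' ^ (n' - 1)`
  have r2 : ∃ r', U' ^ (n' - 1) = U * r' := by
    have e2 : U * (U ^ (n - 1) * κ q) = U' ^ (n' - 1) * U' := by
      rw [← a2, ← e1, a1, mul_assoc]
    obtain ⟨w, (⟨g1, _⟩ | ⟨g1, g2⟩)⟩ := W.equi e2
    · exact ⟨w, g1⟩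
    · exfalso
      obtain ⟨m, rfl⟩ : ∃ m, n = m + 2 := ⟨n - 2, by omega⟩
      obtain ⟨m', rfl⟩ : ∃ m', n' = m' + 2 := ⟨n' - 2, by omega⟩
      have g3 : U' = w * U' * (U' ^ m' * w * U ^ m * κ q) := by
        conv_lhs => rw [g2]
        have b1 : U ^ (m + 2 - 1) = U * U ^ m := by rw [← pow_succ']; congr 1
        have b2 : U' ^ (m' + 2 - 1) = U' * U' ^ m' := by rw [← pow_succ']; congr 1
        rw [b1]
        conv_lhs => arg 2; arg 1; arg 1; rw [g1, b2]
        simp only [mul_assoc]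
      have g4 := hU'.rc (W.absorb g3).symm
      exact mul_ne_one_right (hK.ne (hκ q)) g4
  obtain ⟨r', hr'⟩ := r2
  have e3 : U ^ (n - 1) * (U * κ q) = U' * U' ^ (n' - 1) := by
    rw [← mul_assoc, ← pow_succ, Nat.sub_add_cancel (by omega), e1, ← pow_succ',
      Nat.sub_add_cancel (by omega)]
  obtain ⟨w, (⟨g1, g2⟩ | ⟨g1, _⟩)⟩ := W.equi e3
  · refine ⟨w, ?_, g1, g2⟩
    rintro rfl
    rw [mul_one] at g1
    exact hnc (room hK hκ hq h h' (r := 1) (by rw [mul_one, g1]) hr')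
  · exact (hnc (room hK hκ hq h h' g1 hr')).elim

/-- the two shapes of the non-room case -/
theorem step2 (hK : Cl k0 K) {κ : ℕ → W A} (hκ : ∀ i, κ i ∈ K) {q n n' : ℕ} {U U' y : W A}
    (h : Bad κ q U n) (h' : Bad κ (q + 1) U' n') (hy : y ≠ 1)
    (g1 : U' = U ^ (n - 1) * y) (g2 : U * κ q = y * U' ^ (n' - 1)) :
    (∃ y', κ q = y' * U' ^ (n' - 1) ∧ U' = VV κ q * y') ∨
    (∃ u s, u ≠ 1 ∧ U = y * u ∧ U' = u * s ∧ κ q = s * U' ^ (n' - 2)) := by
  have hU := h.sr hK hκ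
  have hn := h.two
  have hn' := h'.two
  have hpr : U' ≠ U ^ n := by
    intro e
    have := (h'.prim.pow_one e).1
    omega
  obtain ⟨w, (⟨f1, f2⟩ | ⟨f1, f2⟩)⟩ := W.equi g2
  · left
    refine ⟨w, f2, ?_⟩
    rw [g1, f1, h.eq, ← mul_assoc, ← pow_succ, Nat.sub_add_cancel (by omega)]
  · right
    have hw : w ≠ 1 := by
      rintro rfl
      rw [mul_one] at f1
      apply hpr
      rw [g1, ← f1, ← pow_succ, Nat.sub_add_cancel (by omega)]
    obtain ⟨m, rfl⟩ : ∃ m, n = m + 2 := ⟨n - 2, by omega⟩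
    obtain ⟨m', rfl⟩ : ∃ m', n' = m' + 2 := ⟨n' - 2, by omega⟩
    have f3 : w * κ q = U' * U' ^ m' := by rw [← f2, ← pow_succ']; congr 1
    obtain ⟨t, (⟨d1, d2⟩ | ⟨d1, _⟩)⟩ := W.equi f3
    · exact ⟨w, t, hw, f1, d1, d2⟩
    · exfalso
      have d3 : U = y * U * (U ^ m * y * t) := by
        conv_lhs => rw [f1, d1, g1]
        have b1 : U ^ (m + 2 - 1) = U * U ^ m := by rw [← pow_succ']; congr 1
        rw [b1]
        simp only [mul_assoc]
      have d4 := hU.rc (W.absorb d3).symm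
      exact mul_ne_one_left (mul_ne_one_right hy) d4

end

end Pool.Agent.GSH.NP
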