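import Pool.Agent.GSH.NPCore

/-!
# The core theorem, second half
-/

set_option autoImplicit false

namespace Pool.Agent.GSH.NP

open Pool.Agent.GSH

variable {A : Type}

theorem fin_often {X Y : Type*} [Finite X] {P : ℕ → Y → Prop} (f : Y → X)
    (h : ∀ q1 q2 y1 y2, q1 < q2 → P q1 y1 → P q2 y2 → f y1 ≠ f y2) :
    ∃ N, ∀ q, N ≤ q → ∀ y, ¬ P q y := by
  classical
  have hfin : {q | ∃ y, P q y}.Finite := by
    let g : ℕ → Option X := fun q => if h : ∃ y, P q y then some (f h.choose) else none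
    refine Set.Finite.of_injOn (f := g) (t := Set.univ) (fun _ _ => trivial) ?_ (Set.toFinite _)
    intro q1 h1 q2 h2 e
    have h1' : ∃ y, P q1 y := h1
    have h2' : ∃ y, P q2 y := h2
    have e' : (if h : ∃ y, P q1 y then some (f h.choose) else none) =
      (if h : ∃ y, P q2 y then some (f h.choose) else none) := e
    rw [dif_pos h1', dif_pos h2', Option.some.injEq] at e'
    rcases Nat.lt_trichotomy q1 q2 with h3 | h3 | h3
    · exact absurd e' (h q1 q2 _ _ h3 h1'.choose_spec h2'.choose_spec)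
    · exact h3
    · exact absurd e'.symm (h q2 q1 _ _ h3 h2'.choose_spec h1'.choose_spec)
  obtain ⟨N, hN⟩ := hfin.bddAbove
  refine ⟨N + 1, fun q hq y hy => ?_⟩
  have := hN (show q ∈ {q | ∃ y, P q y} from ⟨y, hy⟩)
  omega

theorem exists_max_nat (f : ℕ → ℕ) (N B : ℕ) (hB : ∀ q, f q ≤ B) :
    ∃ q, N ≤ q ∧ ∀ j, N ≤ j → f j ≤ f q := by
  classical
  let P : ℕ → Prop := fun m => ∃ q, N ≤ q ∧ f q = m
  have h0 : P (f N) := ⟨N, le_rfl, rfl⟩
  obtain ⟨q, hq, e⟩ : P (Nat.findGreatest P B) := Nat.findGreatest_spec (hB N) h0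
  refine ⟨q, hq, fun j hj => ?_⟩
  rw [e]
  exact Nat.le_findGreatest (hB j) ⟨j, hj, rfl⟩

section

variable {k0 : ℕ} {K : Set (W A)}

/-- the data in the tail -/
structure TD (k0 : ℕ) (U y u x U' : W A) : Prop where
  prim : Prim U
  sU : SR U
  yu : U = y * u
  ux : U = u * x
  nx : U' = U * y
  y1 : y ≠ 1
  u1 : u ≠ 1
  ny : SRk k0 y
  nr : ∀ r, u ≠ U * r

variable [Finite A]

theorem tail_step (hK : Cl k0 K) {κ : ℕ → W A} (hκ : ∀ i, κ i ∈ K) {q : ℕ} {U U' y u s : W A}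
    (hq : 1 ≤ q) (h : Bad κ q U 2) (hy : y ≠ 1) (hu : u ≠ 1) (g1 : U' = U * y) (g2 : U = y * u)
    (g3 : U' = u * s) (g4 : κ q = s) : ∃ x, TD k0 U y u x U' ∧ κ q = x * y := by
  have hU := h.sr hK hκ
  have hnr : ∀ r, u ≠ U * r := by
    intro r e
    have e1 : U = y * U * r := by conv_lhs => rw [g2, e, ← mul_assoc]
    have e2 : r = 1 := hU.rc (W.absorb e1).symm
    rw [e2, mul_one] at e
    have e3 : U * s = U * y := by rw [← g1, g3, e]
    have e4 : s = y := hU.cancel e3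
    rw [e4] at g4
    have e5 : U = κ q * U := by rw [g4]; conv_lhs => rw [g2, e]
    have e6 : ∀ j, VV κ q = κ q ^ j * VV κ q := by
      intro j
      induction j with
      | zero => simp
      | succ j ih =>
        have e7 : VV κ q = κ q * VV κ q := by
          rw [h.eq, pow_succ, pow_one, ← mul_assoc, ← e5]
        rw [pow_succ, mul_assoc, ← e7]
        exact ih
    have e8 : VV κ q * 1 = κ q ^ q * VV κ q := by rw [mul_one]; exact e6 q
    have e9 := rep_of_init hK hκ (hκ q) q _ e8 le_rfl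
    have e10 : VV κ q = κ q ^ q := VV_const e9
    have e11 : κ q ^ q * VV κ q = κ q ^ q := by rw [← e6 q]; exact e10
    have hκS : SR (κ q) := ⟨k0, hK.srk' (hκ q)⟩
    exact VV_ne hK hκ hq ((hκS.pow q).rc e11)
  have e : u * s = U * y := by rw [← g3, g1]
  obtain ⟨w, (⟨f1, f2⟩ | ⟨f1, _⟩)⟩ := W.equi e
  · refine ⟨w, ⟨h.prim, hU, g2, f1, g1, hy, hu, ?_, hnr⟩, by rw [g4, f2]⟩
    apply hK.srk (x := w)
    rw [← f2, ← g4]
    exact hκ q
  · exact (hnr w f1).elim

theorem no_room {U y u x U' y' u' x' U'' : W A} (h : TD k0 U y u x U')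
    (h' : TD k0 U' y' u' x' U'') {r : W A} (e : U = y * y' * r) : False := by
  have sy : SR y := ⟨k0, h.ny⟩
  have sy' : SR y' := ⟨k0, h'.ny⟩
  have su' : SR u' := by have := h'.sU; rw [h'.yu] at this; exact this.suffix
  have sU := h.sU
  have hUU : U' = U * y := h.nx
  -- (i)
  have c1 : ∃ w, u' = y * w := by
    have e1 : u' * x' = y * (u * y) := by rw [← h'.ux, hUU, ← mul_assoc, ← h.yu]
    obtain ⟨w, (⟨f1, _⟩ | ⟨f1, _⟩)⟩ := W.equi e1
    · have hw : w = 1 := by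
        have e2 : (y * y' * r) * (u' * w) = y' * u' := by
          rw [← h'.yu, hUU, ← f1]
          conv_rhs => rw [e]
        obtain ⟨t, (⟨d1, d2⟩ | ⟨d1, d2⟩)⟩ := W.equi e2
        · have d3 : y' = y * y' * (r * t) := by
            conv_lhs => rw [d1]
            simp only [mul_assoc]
          have d4 := sy'.rc (W.absorb d3).symm
          rw [(W.mul_eq_one d4).2, one_mul] at d2
          exact su'.rc d2
        · rw [← mul_assoc] at d2
          exact su'.rc (W.absorb d2).symm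
      rw [hw, mul_one] at f1
      exact ⟨1, by rw [mul_one, f1]⟩
    · exact ⟨w, f1⟩
  obtain ⟨w, hw⟩ := c1
  -- (ii)
  have e3 : y' * y * w = y * y' * (r * y) := by
    rw [mul_assoc, ← hw, ← h'.yu, hUU]
    conv_lhs => rw [e]
    simp only [mul_assoc]
  have hyc : ∀ {c p : W A} {i : ℕ}, c * p = p → 1 ≤ i → y = p ^ i → c * U = U := by
    intro c p i hcp hi hy
    conv_lhs => rw [h.yu, hy, ← mul_assoc, absorb_pow' hcp hi, ← hy, ← h.yu]
  have nr1 : y * U ≠ U := by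
    intro e4
    have e5 : y * U = y * u := by rw [e4, ← h.yu]
    exact h.nr 1 (by rw [mul_one]; exact (sy.cancel e5).symm)
  have nr2 : y' * U' ≠ U' := by
    intro e4
    have e5 : y' * U' = y' * u' := by rw [e4, ← h'.yu]
    exact h'.nr 1 (by rw [mul_one]; exact (sy'.cancel e5).symm)
  have c2 : ∃ (p : W A) (α β : ℕ), 1 ≤ α ∧ 1 ≤ β ∧ y * U = p ^ α * U ∧ y' * U' = p ^ β * U' := by
    obtain ⟨b, (⟨f1, _⟩ | ⟨f1, _⟩)⟩ := W.equi e3
    · -- `y y' = y' y b`
      rcases EC' sy sy' h.y1 h'.y1 f1 with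
        ⟨R, i, j, hi, hj, d1, d2⟩ | ⟨p, c, i, ee, hc, hcp, hi, d1, d2⟩
      · exact ⟨R, i, j, hi, hj, by rw [d1], by rw [d2]⟩
      · have hcU := hyc hcp hi d1
        have hcU' : c * U' = U' := by rw [hUU, ← mul_assoc, hcU]
        rcases Nat.eq_zero_or_pos ee with h0 | h0
        · exfalso
          apply nr2
          rw [d2, h0, pow_zero, one_mul, hcU']
        · exact ⟨p, i, ee, hi, h0, by rw [d1], by rw [d2, mul_assoc, hcU']⟩
    · -- `y' y = y y' b`
      rcases EC' sy' sy h'.y1 h.y1 f1 with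
        ⟨R, i, j, hi, hj, d1, d2⟩ | ⟨p, c, i, ee, hc, hcp, hi, d1, d2⟩
      · exact ⟨R, j, i, hj, hi, by rw [d2], by rw [d1]⟩
      · have d3 : U = p ^ ee * (p ^ i * r) := by
          rw [e, d1, d2]
          simp only [mul_assoc]
          rw [← mul_assoc c, absorb_pow' hcp hi]
        have hcU : c * U = U := by
          conv_lhs => rw [d3, ← mul_assoc (p ^ ee), ← pow_add, ← mul_assoc,
            absorb_pow' hcp (by omega), pow_add, mul_assoc, ← d3]
        rcases Nat.eq_zero_or_pos ee with h0 | h0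
        · exfalso
          apply nr1
          rw [d2, h0, pow_zero, one_mul, hcU]
        · exact ⟨p, ee, i, h0, hi, by rw [d2, mul_assoc, hcU], by rw [d1]⟩
  obtain ⟨p, α, β, hα, hβ, k1, k2⟩ := c2
  have k3 : p ^ α * U = U * x := by rw [← k1]; conv_lhs => rw [h.ux, ← mul_assoc, ← h.yu]
  have k4 : p ^ β * U' = U' * x' := by rw [← k2]; conv_lhs => rw [h'.ux, ← mul_assoc, ← h'.yu]
  have k5 : ∀ m : ℕ, (p ^ α) ^ m * U = U * x ^ m := by
    intro m
    induction m with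
    | zero => simp
    | succ m ih => rw [pow_succ (p ^ α), mul_assoc, k3, ← mul_assoc, ih, mul_assoc, ← pow_succ]
  have k6 : ∀ m : ℕ, (p ^ β) ^ m * U' = U' * x' ^ m := by
    intro m
    induction m with
    | zero => simp
    | succ m ih => rw [pow_succ (p ^ β), mul_assoc, k4, ← mul_assoc, ih, mul_assoc, ← pow_succ]
  have k7 : (y * U) * (x ^ (β - 1) * y) = (U * y) * x' ^ α := by
    rw [← hUU, ← k6 α, hUU, k1, ← pow_mul]
    have a1 : p ^ (β * α) = p ^ α * (p ^ α) ^ (β - 1) := by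
      rw [← pow_succ', Nat.sub_add_cancel hβ, ← pow_mul, Nat.mul_comm]
    rw [a1]
    have a2 : p ^ α * (p ^ α) ^ (β - 1) * (U * y) = p ^ α * ((p ^ α) ^ (β - 1) * U) * y := by
      simp only [mul_assoc]
    rw [a2, k5]
    simp only [mul_assoc]
  -- (v)
  have fin1 : ∀ {j : ℕ} {z : W A}, 1 ≤ j → y = U ^ j * z → False := by
    intro j z hj hy
    have e5 : U = U * (U ^ (j - 1) * z * u) := by
      conv_lhs => rw [h.yu, hy]
      have : U ^ j = U * U ^ (j - 1) := by rw [← pow_succ', Nat.sub_add_cancel hj]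
      rw [this]
      simp only [mul_assoc]
    exact mul_ne_one_right h.u1 (sU.rc e5.symm)
  obtain ⟨b, (⟨f1, _⟩ | ⟨f1, _⟩)⟩ := W.equi k7
  · -- `U y = y U b`
    rcases EC' sU sy h.prim.1 h.y1 f1 with
      ⟨R, i, j, hi, hj, d1, d2⟩ | ⟨p', c, i, ee, hc, hcp, hi, d1, d2⟩
    · rw [← (h.prim.pow_one d1).2] at d2
      exact fin1 (z := 1) hj (by rw [mul_one]; exact d2)
    · rw [← (h.prim.pow_one d1).2] at d2 hcp
      rcases Nat.eq_zero_or_pos ee with h0 | h0
      · apply nr1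
        rw [d2, h0, pow_zero, one_mul, hcp]
      · exact fin1 h0 d2
  · -- `y U = U y b`
    rcases EC' sy sU h.y1 h.prim.1 f1 with
      ⟨R, i, j, hi, hj, d1, d2⟩ | ⟨p', c, i, ee, hc, hcp, hi, d1, d2⟩
    · rw [← (h.prim.pow_one d2).2] at d1
      exact fin1 (z := 1) hi (by rw [mul_one]; exact d1)
    · have e5 : U' = p' ^ (ee + i) := by
        rw [hUU, d1, d2, mul_assoc, absorb_pow' hcp hi, pow_add]
      have e6 := (h'.prim.pow_one e5).1
      have e7 : i = 1 := by omega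
      have e8 : ee = 0 := by omega
      rw [e7, pow_one] at d1
      rw [e8, pow_zero, one_mul] at d2
      have e9 : U' = y := by rw [hUU, d2, d1, hcp]
      have e10 : U = U * (y * u) := by
        conv_lhs => rw [h.yu, ← e9, hUU, mul_assoc]
      exact mul_ne_one_right h.u1 (sU.rc e10.symm)

/-- The core theorem. -/
theorem core (hK : Cl k0 K) {κ : ℕ → W A} (hκ : ∀ i, κ i ∈ K) {a : ℕ} (ha : 1 ≤ a)
    (hbad : ∀ q, a ≤ q → ∃ (U : W A) (n : ℕ), Bad κ q U n) :
    ∃ q, a ≤ q ∧ ∀ i < q, κ i = κ q := by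
  by_contra hno
  push Not at hno
  have hno' : ∀ q, a ≤ q → ¬ ∀ i < q, κ i = κ q := by
    intro q hq h
    obtain ⟨i, h1, h2⟩ := hno q hq
    exact h2 (h i h1)
  choose! U n hB using hbad
  have hs1 : ∀ q, a ≤ q → ∃ y, y ≠ 1 ∧ U (q + 1) = U q ^ (n q - 1) * y ∧
      U q * κ q = y * U (q + 1) ^ (n (q + 1) - 1) := fun q hq =>
    step1 hK hκ (by omega) (hB q hq) (hB (q + 1) (by omega)) (hno' q hq)
  choose! y hy1 hy2 hy3 using hs1
  have hs2 := fun q hq => step2 hK hκ (hB q hq) (hB (q + 1) (Nat.le_succ_of_le hq)) (hy1 q hq)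
    (hy2 q hq) (hy3 q hq)
  have hn2 : ∀ q, a ≤ q → 2 ≤ n q := fun q hq => (hB q hq).two
  have hchain : ∀ {p q : ℕ}, a ≤ p → p ≤ q → ∃ z, U q = U p * z := by
    intro p q hp hpq
    induction hpq with
    | refl => exact ⟨1, (mul_one _).symm⟩
    | @step q hq ih =>
      obtain ⟨z, hz⟩ := ih
      have hq' : a ≤ q := le_trans hp hq
      obtain ⟨m, hm⟩ : ∃ m, n q = m + 2 := ⟨n q - 2, by have := hn2 q hq'; omega⟩
      refine ⟨z * (U q ^ m * y q), ?_⟩
      have h1 := hy2 q hq'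
      rw [hm] at h1
      have h2 : U q ^ (m + 2 - 1) = U q * U q ^ m := by rw [← pow_succ']; congr 1
      rw [h1, h2, ← mul_assoc, ← hz, mul_assoc]
  -- the case `α` occurs finitely often
  obtain ⟨N1, hN1⟩ := fin_often (P := fun q (y' : W A) => a ≤ q ∧
      κ q = y' * U (q + 1) ^ (n (q + 1) - 1) ∧ U (q + 1) = VV κ q * y') (fun y' => y'.1 k0) (by
    rintro q1 q2 z1 z2 hlt ⟨p1, p2, p3⟩ ⟨r1, r2, r3⟩ e
    have e' : z1.1 k0 = z2.1 k0 := e
    have h1 := (hB (q1 + 1) (by omega))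
    have h2 := hn2 (q2 + 1) (by omega)
    obtain ⟨m, hm⟩ : ∃ m, n (q1 + 1) = m + 1 := ⟨n (q1 + 1) - 1, by have := h1.two; omega⟩
    obtain ⟨m2, hm2⟩ : ∃ m, n (q2 + 1) = m + 2 := ⟨n (q2 + 1) - 2, by omega⟩
    obtain ⟨v, hv⟩ := VV_le κ (p := q1 + 1) (q := q2) (by omega)
    have h3 : z2 * U (q1 + 1) ^ m ∈ K := by
      apply hK.sat _ (hκ q1)
      rw [p2, W.mul_at, W.mul_at, hm, e']
      congr 1
    have h4 : κ q2 = z2 * U (q1 + 1) ^ m * (U (q1 + 1) * (v * z2 * U (q2 + 1) ^ m2)) := by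
      rw [r2, hm2]
      have : U (q2 + 1) ^ (m2 + 2 - 1) = U (q2 + 1) * U (q2 + 1) ^ m2 := by
        rw [← pow_succ']; congr 1
      rw [this]
      conv_lhs => arg 2; arg 1; rw [r3, hv, h1.eq, hm, pow_succ]
      simp only [mul_assoc]
    have h5 := hK.pf _ h3 _ (by rw [← h4]; exact hκ q2)
    exact mul_ne_one_left h1.prim.1 h5)
  -- the case `β`, `n' ≥ 3` occurs finitely often
  obtain ⟨N2, hN2⟩ := fin_often (P := fun q (s : W A) => a ≤ q ∧ 3 ≤ n (q + 1) ∧
      κ q = s * U (q + 1) ^ (n (q + 1) - 2)) (fun s => s.1 k0) (by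
    rintro q1 q2 z1 z2 hlt ⟨p1, p2, p3⟩ ⟨r1, r2, r3⟩ e
    have e' : z1.1 k0 = z2.1 k0 := e
    have h1 := (hB (q1 + 1) (by omega))
    obtain ⟨m, hm⟩ : ∃ m, n (q1 + 1) = m + 2 := ⟨n (q1 + 1) - 2, by have := h1.two; omega⟩
    obtain ⟨m2, hm2⟩ : ∃ m, n (q2 + 1) = m + 3 := ⟨n (q2 + 1) - 3, by omega⟩
    obtain ⟨v, hv⟩ := hchain (p := q1 + 1 + 1) (q := q2 + 1) (by omega) (by omega)
    have h3 : z2 * U (q1 + 1) ^ m ∈ K := by
      apply hK.sat _ (hκ q1)
      rw [p3, W.mul_at, W.mul_at, hm, e']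
      congr 1
    have h4 : κ q2 = z2 * U (q1 + 1) ^ m *
        (U (q1 + 1) * (y (q1 + 1) * v * U (q2 + 1) ^ m2)) := by
      rw [r3, hm2]
      have : U (q2 + 1) ^ (m2 + 3 - 2) = U (q2 + 1) * U (q2 + 1) ^ m2 := by
        rw [← pow_succ']; congr 1
      rw [this]
      have h6 : n (q1 + 1) - 1 = m + 1 := by omega
      conv_lhs => arg 2; arg 1; rw [hv, hy2 (q1 + 1) (by omega), h6, pow_succ]
      simp only [mul_assoc]
    have h5 := hK.pf _ h3 _ (by rw [← h4]; exact hκ q2)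
    exact mul_ne_one_left h1.prim.1 h5)
  -- the tail
  obtain ⟨N, hNa, hN1', hN2'⟩ : ∃ N, a ≤ N ∧ N1 ≤ N ∧ N2 ≤ N :=
    ⟨max a (max N1 N2), by omega, by omega, by omega⟩
  have htail : ∀ q, N ≤ q → n (q + 1) = 2 ∧ ∃ u s, u ≠ 1 ∧ U q = y q * u ∧ U (q + 1) = u * s ∧
      κ q = s := by
    intro q hq
    rcases hs2 q (by omega) with ⟨y', p1, p2⟩ | ⟨u, s, p1, p2, p3, p4⟩
    · exact absurd ⟨by omega, p1, p2⟩ (hN1 q (by omega) y')
    · have h1 : n (q + 1) = 2 := by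
        by_contra h0
        have := hn2 (q + 1) (by omega)
        exact hN2 q (by omega) s ⟨by omega, by omega, p4⟩
      refine ⟨h1, u, s, p1, p2, p3, ?_⟩
      rw [h1, Nat.sub_self, pow_zero, mul_one] at p4
      exact p4
  have htd : ∀ q, N + 1 ≤ q → ∃ u x, TD k0 (U q) (y q) u x (U (q + 1)) ∧ κ q = x * y q := by
    intro q hq
    obtain ⟨_, u, s, h2, h3, h4, h5⟩ := htail q (by omega)
    have h1 : n q = 2 := by
      obtain ⟨j, rfl⟩ : ∃ j, q = j + 1 := ⟨q - 1, by omega⟩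
      exact (htail j (by omega)).1
    have hb := hB q (by omega)
    rw [h1] at hb
    have h6 := hy2 q (by omega)
    rw [h1] at h6
    have h7 : U (q + 1) = U q * y q := by rw [h6]; congr 1; exact pow_one _
    obtain ⟨x, hx1, hx2⟩ := tail_step hK hκ (by omega) hb (hy1 q (by omega)) h2 h7 h3 h4 h5
    exact ⟨u, x, hx1, hx2⟩
  choose! u x hT hκx using htd
  -- a maximal `y`
  obtain ⟨i, hi, himax⟩ := exists_max_nat (fun q => (pcl k0 (y q)).ncard) (N + 1)
    (Nat.card (efCon A k0).Quotient) (fun q => by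
      exact (Set.ncard_le_ncard (Set.subset_univ _) (Set.toFinite _)).trans
        (by rw [Set.ncard_univ]))
  have hdiv : ∀ j, N + 1 ≤ j → ∃ z, y i = y j * z := by
    intro j hj
    obtain ⟨v1, hv1⟩ := hchain (p := i) (q := max i j) (by omega) (by omega)
    obtain ⟨v2, hv2⟩ := hchain (p := j) (q := max i j) (by omega) (by omega)
    have e1 : y i * (u i * v1) = y j * (u j * v2) := by
      rw [← mul_assoc, ← mul_assoc, ← (hT i hi).yu, ← (hT j hj).yu, ← hv1, ← hv2]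
    obtain ⟨w, (⟨f1, _⟩ | ⟨f1, _⟩)⟩ := W.equi e1
    · by_cases hw : w = 1
      · exact ⟨1, by rw [f1, hw, mul_one, mul_one]⟩
      · have h1 := pcl_lt (hT i hi).ny f1 hw
        have h2 := himax j hj
        have h2' : (pcl k0 (y j)).ncard ≤ (pcl k0 (y i)).ncard := h2
        omega
    · exact ⟨w, f1⟩
  obtain ⟨g, hg⟩ := hdiv (i + 1) (by omega)
  obtain ⟨g', hg'⟩ := hdiv (i + 1 + 1) (by omega)
  have T0 := hT i hi
  have T1 := hT (i + 1) (by omega)
  have T2 := hT (i + 1 + 1) (by omega)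
  have sy1 : SR (y (i + 1)) := ⟨k0, T1.ny⟩
  have sy0 : SR (y i) := ⟨k0, T0.ny⟩
  -- `y (i+1) = u i * h`
  have c1 : ∃ h, y (i + 1) = u i * h := by
    have e1 : y (i + 1) * (g * u i) = u i * x i := by
      rw [← mul_assoc, ← hg, ← T0.yu, ← T0.ux]
    obtain ⟨w, (⟨f1, _⟩ | ⟨f1, _⟩)⟩ := W.equi e1
    · exfalso
      exact no_room T0 T1 (r := w) (by conv_lhs => rw [T0.yu, f1, ← mul_assoc])
    · exact ⟨w, f1⟩
  obtain ⟨h, hh⟩ := c1
  have c2 : u (i + 1) = g * u i * y i := by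
    apply sy1.cancel
    calc y (i + 1) * u (i + 1) = U (i + 1) := T1.yu.symm
      _ = U i * y i := T0.nx
      _ = (y i * u i) * y i := by rw [← T0.yu]
      _ = (y (i + 1) * g * u i) * y i := by rw [← hg]
      _ = y (i + 1) * (g * u i * y i) := by simp only [mul_assoc]
  have c3 : ∃ h', h' ≠ 1 ∧ y (i + 1 + 1) = u (i + 1) * h' := by
    have e1 : y (i + 1 + 1) * (g' * (u i * y i)) = u (i + 1) * x (i + 1) := by
      rw [← T1.ux, T0.nx, ← mul_assoc, ← hg', ← mul_assoc, ← T0.yu]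
    obtain ⟨w, (⟨f1, _⟩ | ⟨f1, _⟩)⟩ := W.equi e1
    · exfalso
      exact no_room T1 T2 (r := w) (by conv_lhs => rw [T1.yu, f1, ← mul_assoc])
    · refine ⟨w, ?_, f1⟩
      rintro rfl
      rw [mul_one] at f1
      exact no_room T1 T2 (r := 1) (by rw [mul_one]; conv_lhs => rw [T1.yu, ← f1])
  obtain ⟨h', hh1, hh2⟩ := c3
  have c4 : y i = g * u i * y i * (h' * g') := by
    conv_lhs => rw [hg', hh2, c2, mul_assoc]
  exact mul_ne_one_left hh1 (sy0.rc (W.absorb c4).symm)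

end

end Pool.Agent.GSH.NP
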