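import Pool.Agent.GSH.NPW

/-!
# Commutation up to extension
-/

set_option autoImplicit false

namespace Pool.Agent.GSH.NP

open Pool.Agent.GSH

variable {A : Type}

theorem absorb_pow' {p c : W A} (h : c * p = p) {m : ℕ} (hm : 1 ≤ m) : c * p ^ m = p ^ m := by
  obtain ⟨m, rfl⟩ : ∃ j, m = j + 1 := ⟨m - 1, by omega⟩
  rw [pow_succ', ← mul_assoc, h]

theorem absorb_pow_pow {p c : W A} (h : c * p = p) (n j : ℕ) {i : ℕ} (hi : 1 ≤ i) :
    (p ^ n * c) ^ j * p ^ i = p ^ (n * j + i) := by
  induction j with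
  | zero => simp
  | succ j ih =>
    rw [pow_succ', mul_assoc, ih, mul_assoc, absorb_pow' h (by omega), ← pow_add]
    congr 1
    ring

/-- the classes of the proper initial parts -/
def pcl (k : ℕ) (y : W A) : Set (efCon A k).Quotient :=
  {q | ∃ z t : W A, t ≠ 1 ∧ y = z * t ∧ z.1 k = q}

theorem mul_ne_one_left {x y : W A} (h : x ≠ 1) : x * y ≠ 1 := fun e => h (W.mul_eq_one e).1

theorem mul_ne_one_right {x y : W A} (h : y ≠ 1) : x * y ≠ 1 := fun e => h (W.mul_eq_one e).2

theorem pow_ne_one {x : W A} (h : x ≠ 1) {n : ℕ} (hn : 1 ≤ n) : x ^ n ≠ 1 := by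
  obtain ⟨n, rfl⟩ : ∃ j, n = j + 1 := ⟨n - 1, by omega⟩
  rw [pow_succ]
  exact mul_ne_one_right h

theorem pcl_lt [Finite A] {k : ℕ} {y w z : W A} (hw : SRk k w) (h : y = w * z) (hz : z ≠ 1) :
    (pcl k w).ncard < (pcl k y).ncard := by
  apply Set.ncard_lt_ncard
  · refine ⟨?_, fun hsub => ?_⟩
    · rintro q ⟨u, t, ht, h1, h2⟩
      exact ⟨u, t * z, mul_ne_one_left ht, by rw [h, h1, mul_assoc], h2⟩
    · obtain ⟨u, t, ht, h1, h2⟩ := hsub ⟨w, z, hz, h, rfl⟩
      apply ht
      apply hw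
      conv_rhs => rw [h1]
      rw [W.mul_at, W.mul_at, h2]
  · exact Set.toFinite _

theorem EC [Finite A] {k : ℕ} : ∀ (n : ℕ) {x y b : W A}, (pcl k y).ncard ≤ n → SR x → SRk k y →
    x ≠ 1 → y ≠ 1 → x * y = y * x * b →
    (∃ (R : W A) (i j : ℕ), 1 ≤ i ∧ 1 ≤ j ∧ x = R ^ i ∧ y = R ^ j) ∨
    (∃ (p c : W A) (i e : ℕ), c ≠ 1 ∧ c * p = p ∧ 1 ≤ i ∧ x = p ^ i ∧ y = p ^ e * c) := by
  intro n
  induction n with
  | zero =>
    intro x y b hn _ hy _ hy1 _
    exfalso
    have h1 : (pcl k y).ncard = 0 := by omega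
    rw [Set.ncard_eq_zero (Set.toFinite _)] at h1
    have h2 : (1 : W A).1 k ∈ pcl k y := ⟨1, y, hy1, (one_mul y).symm, rfl⟩
    rw [h1] at h2
    exact h2
  | succ n ih =>
    intro x y b hn hx hy hx1 hy1 h
    by_cases hall : ∀ j : ℕ, ∃ z, x = y ^ j * z
    · right
      refine ⟨x, y, 1, 0, hy1, ?_, le_rfl, (pow_one x).symm, by rw [pow_zero, one_mul]⟩
      apply W.ext'
      intro m
      obtain ⟨z, hz⟩ := hall (2 ^ m)
      have h1 : (y * x).1 m = (y ^ (2 ^ m + 1) * z).1 m := by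
        conv_lhs => rw [hz]
        rw [← mul_assoc, ← pow_succ']
      rw [h1]
      conv_rhs => rw [hz]
      rw [W.mul_at, W.mul_at, W.aper y (k := m) (m := 2 ^ m + 1) (n := 2 ^ m) (by omega) (by omega)]
    · push Not at hall
      classical
      -- the maximal power of `y`
      have hex : ∃ j x1, x = y ^ j * x1 ∧ ∀ w, x1 ≠ y * w := by
        have h0 : Nat.find hall ≠ 0 := by
          intro h0
          have := Nat.find_spec hall x
          rw [h0, pow_zero, one_mul] at this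
          exact this rfl
        obtain ⟨j, hj⟩ : ∃ j, Nat.find hall = j + 1 := ⟨Nat.find hall - 1, by omega⟩
        have h1 := Nat.find_min hall (m := j) (by omega)
        push Not at h1
        obtain ⟨x1, hx1⟩ := h1
        refine ⟨j, x1, hx1, fun w hw => ?_⟩
        have h2 := Nat.find_spec hall w
        rw [hj] at h2
        apply h2
        rw [hx1, hw, pow_succ, mul_assoc]
      obtain ⟨j, x1, hxj, hmax⟩ := hex
      have hySR : SR y := ⟨k, hy⟩
      have h1 : x1 * y = y * (x1 * b) := by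
        apply (hySR.pow j).cancel
        rw [← mul_assoc, ← hxj, h]
        conv_lhs => rw [hxj]
        rw [← mul_assoc (y ^ j) y, ← pow_succ, pow_succ']
        simp only [mul_assoc]
      by_cases hx11 : x1 = 1
      · left
        rw [hx11, mul_one] at hxj
        refine ⟨y, j, 1, ?_, le_rfl, hxj, (pow_one y).symm⟩
        by_contra h0
        have : j = 0 := by omega
        rw [this, pow_zero] at hxj
        exact hx1 hxj
      · obtain ⟨w, (⟨g1, g2⟩ | ⟨g1, g2⟩)⟩ := W.equi h1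
        · have hwk : SRk k w := by
            rw [g1] at hy
            exact hy.suffix
          have hw1 : w ≠ 1 := by
            rintro rfl
            apply hmax 1
            rw [mul_one, g1, mul_one]
          have hx1SR : SR x1 := by
            rw [hxj] at hx
            exact hx.suffix
          have hlt := pcl_lt hwk g2 (mul_ne_one_left hx11)
          have h2 : x1 * w = w * x1 * b := by rw [← g1, mul_assoc]; exact g2
          rcases ih (by omega) hx1SR hwk hx11 hw1 h2 with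
            ⟨R, i, j', hi, hj', e1, e2⟩ | ⟨p, c, i, e, hc, hcp, hi, e1, e2⟩
          · left
            have hy' : y = R ^ (i + j') := by rw [g1, e1, e2, pow_add]
            refine ⟨R, (i + j') * j + i, i + j', by omega, by omega, ?_, hy'⟩
            rw [hxj, hy', e1, ← pow_mul, ← pow_add]
          · right
            have hy' : y = p ^ (i + e) * c := by rw [g1, e1, e2, pow_add, mul_assoc]
            refine ⟨p, c, (i + e) * j + i, i + e, hc, hcp, by omega, ?_, hy'⟩
            rw [hxj, hy', e1, absorb_pow_pow hcp _ _ hi]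
        · exact absurd g1 (hmax w)

theorem EC' [Finite A] {x y b : W A} (hx : SR x) (hy : SR y) (hx1 : x ≠ 1) (hy1 : y ≠ 1)
    (h : x * y = y * x * b) :
    (∃ (R : W A) (i j : ℕ), 1 ≤ i ∧ 1 ≤ j ∧ x = R ^ i ∧ y = R ^ j) ∨
    (∃ (p c : W A) (i e : ℕ), c ≠ 1 ∧ c * p = p ∧ 1 ≤ i ∧ x = p ^ i ∧ y = p ^ e * c) := by
  obtain ⟨k, hk⟩ := hy
  exact EC _ le_rfl hx hk hx1 hy1 h

/-- a rigid element which is a product in both orders is a proper power -/
theorem pow_of_comm [Finite A] {V a x : W A} (hV : SR V) (ha : a ≠ 1) (hx : x ≠ 1)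
    (h1 : V = a * x) (h2 : V = x * a) : ∃ (R : W A) (m : ℕ), 2 ≤ m ∧ V = R ^ m := by
  have hxS : SR x := by rw [h1] at hV; exact hV.suffix
  have haS : SR a := by rw [h2] at hV; exact hV.suffix
  rcases EC' haS hxS ha hx (b := 1) (by rw [mul_one, ← h1, ← h2]) with
    ⟨R, i, j, hi, hj, e1, e2⟩ | ⟨p, c, i, e, hc, hcp, hi, e1, e2⟩
  · exact ⟨R, i + j, by omega, by rw [h1, e1, e2, pow_add]⟩
  · exfalso
    apply hc
    apply hV.rc
    have h3 : V = p ^ (e + i) := by
      rw [h2, e1, e2, mul_assoc, absorb_pow' hcp hi, ← pow_add]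
    have h4 : V = p ^ (e + i) * c := by
      rw [h1, e1, e2, ← mul_assoc, ← pow_add, Nat.add_comm]
    rw [← h3] at h4
    exact h4.symm

end Pool.Agent.GSH.NP
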