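import Pool.Agent.GSH.NPBase

/-!
# The Ehrenfeucht-Fraisse congruences on words
-/

set_option autoImplicit false

namespace Pool.Agent.GSH.NP

open Pool.Agent.GSH

variable {A : Type}

/-- the back-and-forth equivalence of depth `k` -/
def EF : ℕ → List A → List A → Prop
  | 0, _, _ => True
  | k + 1, w, w' =>
    (∀ u a v, w = u ++ a :: v → ∃ u' v', w' = u' ++ a :: v' ∧ EF k u u' ∧ EF k v v') ∧
    (∀ u' a v', w' = u' ++ a :: v' → ∃ u v, w = u ++ a :: v ∧ EF k u u' ∧ EF k v v')

theorem EF.refl : ∀ (k : ℕ) (w : List A), EF k w w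
  | 0, _ => trivial
  | k + 1, _ => ⟨fun u _ v h => ⟨u, v, h, EF.refl k u, EF.refl k v⟩,
      fun u _ v h => ⟨u, v, h, EF.refl k u, EF.refl k v⟩⟩

theorem EF.symm : ∀ {k : ℕ} {w w' : List A}, EF k w w' → EF k w' w
  | 0, _, _, _ => trivial
  | k + 1, w, w', h => by
    refine ⟨fun u a v e => ?_, fun u a v e => ?_⟩
    · obtain ⟨u', v', h1, h2, h3⟩ := h.2 u a v e
      exact ⟨u', v', h1, h2.symm, h3.symm⟩
    · obtain ⟨u', v', h1, h2, h3⟩ := h.1 u a v e
      exact ⟨u', v', h1, h2.symm, h3.symm⟩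

theorem EF.trans : ∀ {k : ℕ} {w w' w'' : List A}, EF k w w' → EF k w' w'' → EF k w w''
  | 0, _, _, _, _, _ => trivial
  | k + 1, w, w', w'', h, h' => by
    refine ⟨fun u a v e => ?_, fun u a v e => ?_⟩
    · obtain ⟨u', v', h1, h2, h3⟩ := h.1 u a v e
      obtain ⟨u'', v'', g1, g2, g3⟩ := h'.1 u' a v' h1
      exact ⟨u'', v'', g1, h2.trans g2, h3.trans g3⟩
    · obtain ⟨u', v', h1, h2, h3⟩ := h'.2 u a v e
      obtain ⟨u'', v'', g1, g2, g3⟩ := h.2 u' a v' h1
      exact ⟨u'', v'', g1, g2.trans h2, g3.trans h3⟩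

theorem EF.pred : ∀ {k : ℕ} {w w' : List A}, EF (k + 1) w w' → EF k w w'
  | 0, _, _, _ => trivial
  | k + 1, w, w', h => by
    refine ⟨fun u a v e => ?_, fun u a v e => ?_⟩
    · obtain ⟨u', v', h1, h2, h3⟩ := h.1 u a v e
      exact ⟨u', v', h1, h2.pred, h3.pred⟩
    · obtain ⟨u', v', h1, h2, h3⟩ := h.2 u a v e
      exact ⟨u', v', h1, h2.pred, h3.pred⟩

theorem EF.mono {j k : ℕ} (hjk : j ≤ k) {w w' : List A} (h : EF k w w') : EF j w w' := by
  induction hjk with
  | refl => exact h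
  | step _ ih => exact ih h.pred

theorem cut_append {u v x y : List A} {a : A} (h : u ++ v = x ++ a :: y) :
    (∃ r, u = x ++ a :: r ∧ y = r ++ v) ∨ (∃ r, v = r ++ a :: y ∧ x = u ++ r) := by
  rcases List.append_eq_append_iff.1 h with ⟨r, h1, h2⟩ | ⟨r, h1, h2⟩
  · exact Or.inr ⟨r, h2, h1⟩
  · cases r with
    | nil =>
      rw [List.append_nil] at h1
      refine Or.inr ⟨[], ?_, by rw [h1, List.append_nil]⟩
      simpa using h2.symm
    | cons b r =>
      rw [List.cons_append, List.cons.injEq] at h2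
      exact Or.inl ⟨r, by rw [h1, h2.1], h2.2⟩

theorem EF.append : ∀ {k : ℕ} {u u' v v' : List A}, EF k u u' → EF k v v' →
    EF k (u ++ v) (u' ++ v')
  | 0, _, _, _, _, _, _ => trivial
  | k + 1, u, u', v, v', h, h' => by
    refine ⟨fun x a y e => ?_, fun x a y e => ?_⟩
    · rcases cut_append e with ⟨r, h1, h2⟩ | ⟨r, h1, h2⟩
      · obtain ⟨x', r', g1, g2, g3⟩ := h.1 x a r h1
        exact ⟨x', r' ++ v', by rw [g1]; simp, g2, by rw [h2]; exact g3.append h'.pred⟩
      · obtain ⟨r', y', g1, g2, g3⟩ := h'.1 r a y h1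
        exact ⟨u' ++ r', y', by rw [g1]; simp, by rw [h2]; exact h.pred.append g2, g3⟩
    · rcases cut_append e with ⟨r, h1, h2⟩ | ⟨r, h1, h2⟩
      · obtain ⟨x', r', g1, g2, g3⟩ := h.2 x a r h1
        exact ⟨x', r' ++ v, by rw [g1]; simp, g2, by rw [h2]; exact g3.append h'.pred⟩
      · obtain ⟨r', y', g1, g2, g3⟩ := h'.2 r a y h1
        exact ⟨u ++ r', y', by rw [g1]; simp, by rw [h2]; exact h.pred.append g2, g3⟩

theorem EF.split {k : ℕ} {w u v : List A} (h : EF (k + 1) w (u ++ v)) :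
    ∃ u' v', w = u' ++ v' ∧ EF k u' u ∧ EF k v' v := by
  cases v with
  | nil =>
    rw [List.append_nil] at h
    exact ⟨w, [], by simp, h.pred, EF.refl _ _⟩
  | cons a v =>
    obtain ⟨u', v', h1, h2, h3⟩ := h.2 u a v rfl
    exact ⟨u', a :: v', h1, h2, EF.append (u := [a]) (u' := [a]) (EF.refl _ _) h3⟩

theorem EF.nil {k : ℕ} {w : List A} (hk : 1 ≤ k) (h : EF k w []) : w = [] := by
  obtain ⟨k, rfl⟩ : ∃ j, k = j + 1 := ⟨k - 1, by omega⟩
  cases w with
  | nil => rfl
  | cons a w =>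
    obtain ⟨u', v', h1, _⟩ := h.1 [] a w rfl
    exact absurd h1 (by simp)

theorem EF.rep {k : ℕ} {x y : List A} (h : EF k x y) (n : ℕ) : EF k (rep n x) (rep n y) := by
  induction n with
  | zero => rw [rep_zero, rep_zero]; exact EF.refl _ _
  | succ n ih => rw [rep_succ, rep_succ]; exact h.append ih

/-- cutting a power at a letter -/
theorem rep_cut_letter {x u v : List A} {a : A} : ∀ {m : ℕ}, rep m x = u ++ a :: v →
    ∃ i x1 x2, i < m ∧ x = x1 ++ a :: x2 ∧ u = rep i x ++ x1 ∧ v = x2 ++ rep (m - 1 - i) x := by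
  intro m
  induction m generalizing u with
  | zero =>
    intro h
    rw [rep_zero] at h
    exact absurd h.symm (by simp)
  | succ m ih =>
    intro h
    rw [rep_succ] at h
    rcases cut_append h with ⟨r, h1, h2⟩ | ⟨r, h1, h2⟩
    · exact ⟨0, u, r, by omega, h1, by rw [rep_zero]; rfl, by rw [h2]; simp⟩
    · obtain ⟨i, x1, x2, g1, g2, g3, g4⟩ := ih h1
      refine ⟨i + 1, x1, x2, by omega, g2, by rw [h2, g3, rep_succ, List.append_assoc], ?_⟩
      rw [g4]
      congr 2
      omega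

theorem EF.aper (x : List A) : ∀ (k m n : ℕ), 2 ^ k ≤ m + 1 → 2 ^ k ≤ n + 1 →
    EF k (GSH.rep m x) (GSH.rep n x) := by
  intro k
  induction k with
  | zero => intro m n _ _; trivial
  | succ k ih =>
    have key : ∀ m n, 2 ^ (k + 1) ≤ m + 1 → 2 ^ (k + 1) ≤ n + 1 → ∀ i, i < m →
        ∃ j, j < n ∧ EF k (GSH.rep i x) (GSH.rep j x) ∧
          EF k (GSH.rep (m - 1 - i) x) (GSH.rep (n - 1 - j) x) := by
      intro m n hm hn i hi
      have h2 : 2 ^ (k + 1) = 2 ^ k + 2 ^ k := by rw [pow_succ]; ring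
      have h3 : 1 ≤ 2 ^ k := Nat.one_le_two_pow
      rcases Nat.lt_or_ge (i + 1) (2 ^ k) with h4 | h4
      · refine ⟨i, by omega, EF.refl _ _, ih _ _ (by omega) (by omega)⟩
      · rcases Nat.lt_or_ge (m - 1 - i + 1) (2 ^ k) with h5 | h5
        · refine ⟨n - 1 - (m - 1 - i), by omega, ih _ _ (by omega) (by omega), ?_⟩
          have : n - 1 - (n - 1 - (m - 1 - i)) = m - 1 - i := by omega
          rw [this]
          exact EF.refl _ _
        · exact ⟨2 ^ k - 1, by omega, ih _ _ (by omega) (by omega), ih _ _ (by omega) (by omega)⟩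
    intro m n hm hn
    refine ⟨fun u a v e => ?_, fun u a v e => ?_⟩
    · obtain ⟨i, x1, x2, g1, g2, g3, g4⟩ := rep_cut_letter e
      obtain ⟨j, g5, g6, g7⟩ := key m n hm hn i g1
      refine ⟨GSH.rep j x ++ x1, x2 ++ GSH.rep (n - 1 - j) x, ?_, ?_, ?_⟩
      · have : n = j + (1 + (n - 1 - j)) := by omega
        conv_lhs => rw [this, rep_add, rep_add, rep_one]
        conv_lhs => arg 2; arg 1; rw [g2]
        simp
      · rw [g3]; exact g6.append (EF.refl _ _)
      · rw [g4]; exact (EF.refl _ _).append g7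
    · obtain ⟨i, x1, x2, g1, g2, g3, g4⟩ := rep_cut_letter e
      obtain ⟨j, g5, g6, g7⟩ := key n m hn hm i g1
      refine ⟨GSH.rep j x ++ x1, x2 ++ GSH.rep (m - 1 - j) x, ?_, ?_, ?_⟩
      · have : m = j + (1 + (m - 1 - j)) := by omega
        conv_lhs => rw [this, rep_add, rep_add, rep_one]
        conv_lhs => arg 2; arg 1; rw [g2]
        simp
      · rw [g3]; exact (g6.append (EF.refl _ _)).symm
      · rw [g4]; exact ((EF.refl _ _).append g7).symm

/-! ### Finite index -/

/-- the congruence of depth `k` -/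
def efSetoid (A : Type) (k : ℕ) : Setoid (List A) :=
  ⟨EF k, ⟨EF.refl k, EF.symm, EF.trans⟩⟩

/-- the triples of a word -/
def tri (k : ℕ) (w : List A) : Set (Quotient (efSetoid A k) × A × Quotient (efSetoid A k)) :=
  {t | ∃ u v, w = u ++ t.2.1 :: v ∧ t.1 = Quotient.mk _ u ∧ t.2.2 = Quotient.mk _ v}

theorem EF_iff_tri (k : ℕ) (w w' : List A) : EF (k + 1) w w' ↔ tri k w = tri k w' := by
  constructor
  · intro h
    ext ⟨p, a, q⟩
    constructor
    · rintro ⟨u, v, h1, h2, h3⟩
      obtain ⟨u', v', g1, g2, g3⟩ := h.1 u a v h1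
      exact ⟨u', v', g1, h2.trans (Quotient.sound g2), h3.trans (Quotient.sound g3)⟩
    · rintro ⟨u, v, h1, h2, h3⟩
      obtain ⟨u', v', g1, g2, g3⟩ := h.2 u a v h1
      exact ⟨u', v', g1, h2.trans (Quotient.sound g2).symm, h3.trans (Quotient.sound g3).symm⟩
  · intro h
    refine ⟨fun u a v e => ?_, fun u a v e => ?_⟩
    · have h1 : ((Quotient.mk _ u, a, Quotient.mk _ v) : _ × _ × _) ∈ tri k w :=
        ⟨u, v, e, rfl, rfl⟩
      rw [h] at h1
      obtain ⟨u', v', g1, g2, g3⟩ := h1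
      exact ⟨u', v', g1, Quotient.exact g2, Quotient.exact g3⟩
    · have h1 : ((Quotient.mk _ u, a, Quotient.mk _ v) : _ × _ × _) ∈ tri k w' :=
        ⟨u, v, e, rfl, rfl⟩
      rw [← h] at h1
      obtain ⟨u', v', g1, g2, g3⟩ := h1
      exact ⟨u', v', g1, (Quotient.exact g2 : EF k _ _).symm, (Quotient.exact g3 : EF k _ _).symm⟩

theorem ef_finite [Finite A] : ∀ k : ℕ, Finite (Quotient (efSetoid A k)) := by
  intro k
  induction k with
  | zero =>
    have : Subsingleton (Quotient (efSetoid A 0)) := by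
      refine ⟨fun x y => ?_⟩
      induction x using Quotient.ind
      induction y using Quotient.ind
      exact Quotient.sound trivial
    infer_instance
  | succ k ih =>
    have hf : Function.Injective (fun x : Quotient (efSetoid A (k + 1)) =>
        Quotient.lift (s := efSetoid A (k + 1)) (fun w => tri k w)
          (fun w w' h => (EF_iff_tri k w w').1 h) x) := by
      intro x y h
      induction x using Quotient.ind
      induction y using Quotient.ind
      exact Quotient.sound ((EF_iff_tri k _ _).2 h)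
    exact Finite.of_injective _ hf

/-- the class of `w` -/
def cls (k : ℕ) (w : List A) : Set (List A) := {w' | EF k w' w}

theorem cls_eq {k : ℕ} {w w' : List A} (h : EF k w w') : cls k w = cls k w' := by
  ext x
  exact ⟨fun hx => EF.trans hx h, fun hx => EF.trans hx h.symm⟩

theorem ht_cls [Finite A] : ∀ (k : ℕ) (w : List A), Ht 0 (cls k w) := by
  intro k
  induction k with
  | zero =>
    intro w
    have : cls 0 w = Set.univ := by ext x; simp [cls, EF]
    rw [this]
    exact Ht.univ 0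
  | succ k ih =>
    intro w
    have := ef_finite (A := A) k
    -- the words having the triple `t`
    let S : (Quotient (efSetoid A k) × A × Quotient (efSetoid A k)) → Set (List A) :=
      fun t => {x | t ∈ tri k x}
    have hS : ∀ t, Ht 0 (S t) := by
      rintro ⟨p, a, q⟩
      induction p using Quotient.ind with
      | _ u =>
      induction q using Quotient.ind with
      | _ v =>
      have : S (Quotient.mk _ u, a, Quotient.mk _ v) = cat (cls k u) (cat {[a]} (cls k v)) := by
        ext x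
        constructor
        · rintro ⟨u', v', h1, h2, h3⟩
          exact ⟨u', (Quotient.exact h2 : EF k _ _).symm, a :: v',
            ⟨[a], rfl, v', (Quotient.exact h3 : EF k _ _).symm, rfl⟩, h1.symm⟩
        · rintro ⟨u', h1, _, ⟨_, rfl, v', h2, rfl⟩, rfl⟩
          exact ⟨u', v', rfl, Quotient.sound (EF.symm h1), Quotient.sound (EF.symm h2)⟩
      rw [this]
      exact (ih u).cat ((Ht.letter 0 a).cat (ih v))
    have : cls (k + 1) w = ⋂ t : (Quotient (efSetoid A k) × A × Quotient (efSetoid A k)),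
        (({x | t ∈ tri k w ∧ x ∈ S t} ∪ {x | t ∉ tri k w ∧ x ∈ (S t)ᶜ}) : Set (List A)) := by
      ext x
      simp only [Set.mem_iInter]
      constructor
      · intro hx t
        have hx' : tri k x = tri k w := (EF_iff_tri k x w).1 hx
        by_cases ht : t ∈ tri k w
        · exact Or.inl ⟨ht, by show t ∈ tri k x; rw [hx']; exact ht⟩
        · exact Or.inr ⟨ht, by show ¬ (t ∈ tri k x); rw [hx']; exact ht⟩
      · intro hx
        refine (EF_iff_tri k x w).2 ?_
        ext t
        rcases hx t with ⟨h1, h2⟩ | ⟨h1, h2⟩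
        · exact ⟨fun _ => h1, fun _ => h2⟩
        · exact ⟨fun h => absurd h h2, fun h => absurd h h1⟩
    rw [this]
    exact Ht.iInter (fun t => (Ht.prop _ (hS t)).union (Ht.prop _ (hS t).compl))

/-- every star-free language is saturated for some depth -/
def Sat (k : ℕ) (L : Set (List A)) : Prop := ∀ w w', EF k w w' → w ∈ L → w' ∈ L

theorem Sat.mono {j k : ℕ} (hjk : j ≤ k) {L : Set (List A)} (h : Sat j L) : Sat k L :=
  fun w w' hw hL => h w w' (hw.mono hjk) hL

theorem exists_sat {L : Set (List A)} (h : Ht 0 L) : ∃ k, Sat k L := by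
  have : ∀ n (L : Set (List A)), Ht n L → n = 0 → ∃ k, Sat k L := by
    intro n L h
    induction h with
    | empty n => exact fun _ => ⟨0, fun _ _ _ h => h⟩
    | one n =>
      intro _
      refine ⟨1, fun w w' h1 h2 => ?_⟩
      rw [Set.mem_singleton_iff] at h2
      subst h2
      exact EF.nil le_rfl h1.symm
    | letter n a =>
      intro _
      refine ⟨2, fun w w' h1 h2 => ?_⟩
      rw [Set.mem_singleton_iff] at h2
      subst h2
      obtain ⟨u, v, g1, g2, g3⟩ := h1.1 [] a [] rfl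
      rw [EF.nil le_rfl g2.symm, EF.nil le_rfl g3.symm] at g1
      exact g1
    | @compl n K _ ih =>
      intro hn
      obtain ⟨k, hk⟩ := ih hn
      exact ⟨k, fun w w' h1 h2 h3 => h2 (hk w' w h1.symm h3)⟩
    | @union n K L _ _ ih1 ih2 =>
      intro hn
      obtain ⟨k1, h1⟩ := ih1 hn
      obtain ⟨k2, h2⟩ := ih2 hn
      refine ⟨max k1 k2, fun w w' h h' => ?_⟩
      rcases h' with h' | h'
      · exact Or.inl (h1 w w' (h.mono (le_max_left _ _)) h')
      · exact Or.inr (h2 w w' (h.mono (le_max_right _ _)) h')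
    | @inter n K L _ _ ih1 ih2 =>
      intro hn
      obtain ⟨k1, h1⟩ := ih1 hn
      obtain ⟨k2, h2⟩ := ih2 hn
      exact ⟨max k1 k2, fun w w' h h' => ⟨h1 w w' (h.mono (le_max_left _ _)) h'.1,
        h2 w w' (h.mono (le_max_right _ _)) h'.2⟩⟩
    | @cat n K L _ _ ih1 ih2 =>
      intro hn
      obtain ⟨k1, h1⟩ := ih1 hn
      obtain ⟨k2, h2⟩ := ih2 hn
      refine ⟨max k1 k2 + 1, ?_⟩
      rintro w w' h ⟨u, hu, v, hv, rfl⟩
      obtain ⟨u', v', g1, g2, g3⟩ := h.symm.split
      exact ⟨u', h1 u u' (g2.symm.mono (le_max_left _ _)) hu, v',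
        h2 v v' (g3.symm.mono (le_max_right _ _)) hv, g1.symm⟩
    | star _ _ => exact fun hn => absurd hn (by simp)
  exact this 0 L h rfl

/-- saturated languages are star-free -/
theorem Sat.ht [Finite A] {k : ℕ} {L : Set (List A)} (h : Sat k L) : Ht 0 L := by
  have := ef_finite (A := A) k
  have : L = ⋃ q : Quotient (efSetoid A k), {x | q.out ∈ L ∧ x ∈ cls k q.out} := by
    ext x
    simp only [Set.mem_iUnion]
    constructor
    · intro hx
      have h1 : EF k (Quotient.mk (efSetoid A k) x).out x := Quotient.mk_out (s := efSetoid A k) x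
      exact ⟨Quotient.mk _ x, h _ _ h1.symm hx, h1.symm⟩
    · rintro ⟨q, h1, h2⟩
      exact h _ _ (EF.symm h2) h1
  rw [this]
  exact Ht.iUnion (fun q => Ht.prop _ (ht_cls k _))

end Pool.Agent.GSH.NP
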