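import Pool.Agent.GSH.NPAlign
import Pool.Agent.NIL.Taylor
import Pool.Agent.NIL.LCS

/-!
# Nilpotent groups of any class: the product of a word of labels is determined by functions of
bounded degree
-/

set_option autoImplicit false

namespace Pool.Agent.GSH.NP

open Pool.Agent.GSH Pool.Agent.GSH.FC

variable {A B Θ : Type}

theorem Pol.congr {R : Type} [AddCommGroup R] {j : ℕ} {F G : List Θ → R} (h : ∀ l, F l = G l)
    (hF : Pol j F) : Pol j G := by
  have : F = G := funext h
  rwa [this] at hF

/-- subword counts have bounded degree -/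
theorem Pol.count (M : ℕ) (u : List Θ) :
    Pol (u.length + 1) (fun l : List Θ => ((NIL.C l u : ℤ) : ZMod M)) := by
  classical
  induction u with
  | nil =>
    intro b
    refine Pol.congr (fun l => ?_) (Pol.zero 0)
    have h1 : ∀ l : List Θ, NIL.C l [] = 1 := fun l => by cases l <;> rfl
    show (0 : ZMod M) = ((NIL.C (b :: l) [] : ℤ) : ZMod M) - ((NIL.C l [] : ℤ) : ZMod M)
    rw [h1, h1, sub_self]
  | cons a u ih =>
    intro b
    by_cases hba : b = a
    · refine Pol.congr (fun l => ?_) ih
      show ((NIL.C l u : ℤ) : ZMod M)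
        = ((NIL.C (b :: l) (a :: u) : ℤ) : ZMod M) - ((NIL.C l (a :: u) : ℤ) : ZMod M)
      rw [show NIL.C (b :: l) (a :: u) = NIL.C l (a :: u) + if b = a then NIL.C l u else 0 from rfl,
        if_pos hba]
      push_cast
      ring
    · refine Pol.congr (fun l => ?_) (Pol.zero (u.length + 1))
      show (0 : ZMod M)
        = ((NIL.C (b :: l) (a :: u) : ℤ) : ZMod M) - ((NIL.C l (a :: u) : ℤ) : ZMod M)
      rw [show NIL.C (b :: l) (a :: u) = NIL.C l (a :: u) + if b = a then NIL.C l u else 0 from rfl,
        if_neg hba, add_zero, sub_self]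

/-- **F7.** If all functions of bounded degree of the labels are measurable, then so is the
product of the labels in a finite nilpotent group. -/
theorem nil_prod [Finite Θ] {G : Type} [Group G] [Finite G] [Group.IsNilpotent G]
    {c : B → List A} (hc : SFC c) (θ : B → Θ)
    (h : ∀ (M : ℕ) [NeZero M] (j : ℕ) (F : List Θ → ZMod M), Pol j F →
      ME c (fun l => F (l.map θ)))
    (φ : Θ → G) : ME c (fun l => ((l.map θ).map φ).prod) := by
  classical
  have hbot : (⊤ : Subgroup G).lowerCentralSeries (Group.nilpotencyClass G) = ⊥ :=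
    Subgroup.lowerCentralSeries_eq_bot_iff_nilpotencyClass_le.2 le_rfl
  set d := Group.nilpotencyClass G with hd
  let N := Nat.card G
  have hN0 : 0 < N := Nat.card_pos
  have : NeZero N := ⟨by omega⟩
  have hN : ∀ g : G, g ^ N = 1 := fun g => pow_card_eq_one'
  have hfin : {u : List Θ | u.length ≤ d}.Finite := List.finite_length_le Θ d
  have : Finite {u : List Θ | u.length ≤ d} := hfin
  have hm : ME c (fun l : List B => fun u : {u : List Θ | u.length ≤ d} =>
      ((NIL.C (l.map θ) u.1 : ℤ) : ZMod N)) := by
    apply hc.pi
    intro u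
    exact h N (u.1.length + 1) (fun l => ((NIL.C l u.1 : ℤ) : ZMod N)) (Pol.count N u.1)
  refine hm.determined (fun w w' e => ?_)
  refine NIL.poly_det (fun n => (⊤ : Subgroup G).lowerCentralSeries (n - 1)) (NIL.lcs_filt G) d
    hbot φ N hN (w.map θ) (w'.map θ) (fun u hu => ?_)
  exact congrFun e ⟨u, hu⟩

/-- The languages over a code which are recognised by a finite nilpotent group. -/
theorem nil_lang [Finite Θ] {G : Type} [Group G] [Finite G] [Group.IsNilpotent G]
    {c : B → List A} (hc : SFC c) (θ : B → Θ)
    (h : ∀ (M : ℕ) [NeZero M] (j : ℕ) (F : List Θ → ZMod M), Pol j F →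
      ME c (fun l => F (l.map θ)))
    (φ : Θ → G) (T : Set G) :
    Ht 1 (E c '' {l : List B | ((l.map θ).map φ).prod ∈ T}) :=
  (nil_prod hc θ h φ).preimage T

/-- the code of the letters -/
theorem sfc_letters [Finite A] : SFC (fun a : A => [a]) where
  pre := by
    intro b b' w h
    have h1 : b' :: ([] : List A) = b :: w := h
    exact (List.cons.inj h1).1
  ne := by
    intro b h
    exact List.cons_ne_nil _ _ h
  sf := by
    apply ht_finite
    exact Set.finite_range _

theorem E_letters (w : List A) : E (fun a : A => [a]) w = w := by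
  induction w with
  | nil => rfl
  | cons a w ih => rw [E_cons, ih]; rfl

/-- The languages of a finite nilpotent group, from the statement for the code of the letters. -/
theorem nil_group [Finite A] {G : Type} [Group G] [Finite G] [Group.IsNilpotent G]
    (h : ∀ (M : ℕ) [NeZero M] (j : ℕ) (F : List A → ZMod M), Pol j F →
      ME (fun a : A => [a]) (fun l => F (l.map id)))
    (φ : A → G) (T : Set G) : Ht 1 {w : List A | (w.map φ).prod ∈ T} := by
  have h1 := nil_lang (sfc_letters (A := A)) id h φ T
  have h2 : E (fun a : A => [a]) '' {l : List A | ((l.map id).map φ).prod ∈ T}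
      = {w : List A | (w.map φ).prod ∈ T} := by
    ext w
    constructor
    · rintro ⟨l, hl, rfl⟩
      rw [E_letters]
      have hl' : ((l.map id).map φ).prod ∈ T := hl
      rw [List.map_id] at hl'
      exact hl'
    · intro hw
      refine ⟨w, ?_, E_letters w⟩
      show ((w.map id).map φ).prod ∈ T
      rw [List.map_id]
      exact hw
  rwa [h2] at h1

end Pool.Agent.GSH.NP
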