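import Pool.Agent.GSH.NPWord

/-!
# Row F4 (helper33): the sum over the rests behind the letters of a pure set is measurable

* `cz_sfc`, `cz_lab` : the code `Z* (L - Z)`, labelled by the label of the last letter; `gz` : decomposition of the words;
* `all_me` : the sum over all the proper rests; `rest_me` : over the rests behind the letters not labelled `z`;
* `count_me` : the counting functions of the words of length `j` which contain `z`;
* **`pure_kill`**.
-/

set_option autoImplicit false

namespace Pool.Agent.GSH.NP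

open Pool.Agent.GSH Pool.Agent.GSH.FC

open scoped Classical

variable {A B : Type} {c : B → List A}

/-! ### The code `Z* (L - Z)` -/

theorem star_one (Z : Set B) : star (one Z) = {l : List B | ∀ b ∈ l, b ∈ Z} := by
  ext l
  constructor
  · rintro ⟨ks, h1, rfl⟩ b hb
    obtain ⟨k, hk, hb'⟩ := List.mem_flatten.1 hb
    obtain ⟨b', h2, rfl⟩ := h1 k hk
    rw [List.mem_singleton] at hb'
    rwa [hb']
  · intro hl
    induction l with
    | nil => exact nil_mem_star _
    | cons b l ih =>
      exact star_append (u := [b]) (mem_star_of_mem ⟨b, hl b (by simp), rfl⟩)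
        (ih fun x hx => hl x (by simp [hx]))

theorem E_one (S : Set B) : E c '' one S = c '' S := by
  ext w
  constructor
  · rintro ⟨_, ⟨b, hb, rfl⟩, rfl⟩
    exact ⟨b, hb, (E_single c b).symm⟩
  · rintro ⟨b, hb, rfl⟩
    exact ⟨[b], ⟨b, hb, rfl⟩, E_single c b⟩

theorem H_all {n : ℕ} {Z : Set B} : H c n {l : List B | ∀ b ∈ l, b ∈ Z} ↔ Ht n (star (c '' Z)) := by
  unfold H
  rw [← star_one, image_star, E_one]

theorem SFC.inj (hc : SFC c) : Function.Injective c := by
  intro b b' h
  exact (hc.pre b b' [] (by rw [h, List.append_nil])).symm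

theorem ht_not (hc : SFC c) {S : Set B} (hS : Ht 0 (c '' S)) : Ht 0 (c '' Sᶜ) := by
  rw [Set.compl_eq_univ_sdiff, Set.image_sdiff hc.inj, Set.image_univ]
  exact hc.sf.inter hS.compl

/-- the word over `B` of a word over `ZB Z` -/
def gz {Z : Set B} (ps : List (ZB Z)) : List B := (ps.map fun p => p.1.1 ++ [p.1.2]).flatten

theorem gz_nil {Z : Set B} : gz ([] : List (ZB Z)) = [] := rfl

theorem gz_cons {Z : Set B} (p : ZB Z) (ps : List (ZB Z)) :
    gz (p :: ps) = p.1.1 ++ (p.1.2 :: gz ps) := by
  simp [gz]

theorem E_cz {Z : Set B} (ps : List (ZB Z)) : E (cz c Z) ps = E c (gz ps) := by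
  induction ps with
  | nil => rfl
  | cons p ps ih =>
    rw [E_cons, gz_cons, ih]
    show E c (p.1.1 ++ [p.1.2]) ++ _ = _
    rw [← E_append, List.append_assoc]
    rfl

theorem H_cz {Z : Set B} {n : ℕ} {S : Set (List (ZB Z))} : H (cz c Z) n S ↔ H c n (gz '' S) := by
  unfold H
  have : E (cz c Z) '' S = E c '' (gz '' S) := by
    rw [Set.image_image]
    exact Set.image_congr fun ps _ => E_cz ps
  rw [this]

theorem cz_img (Z S : Set B) : cz c Z '' {p | p.1.2 ∈ S} =
    E c '' cat {l : List B | ∀ b ∈ l, b ∈ Z} (one (S ∩ Zᶜ)) := by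
  ext w
  constructor
  · rintro ⟨p, hp, rfl⟩
    exact ⟨p.1.1 ++ [p.1.2], ⟨p.1.1, p.2.1, [p.1.2], ⟨p.1.2, ⟨hp, p.2.2⟩, rfl⟩, rfl⟩, rfl⟩
  · rintro ⟨_, ⟨u, hu, _, ⟨b, ⟨hb, hbZ⟩, rfl⟩, rfl⟩, rfl⟩
    exact ⟨⟨(u, b), hu, hbZ⟩, hb, rfl⟩

theorem cz_ht (hc : SFC c) {Z S : Set B} (hZ : Ht 0 (c '' Z)) (hs : Ht 0 (star (c '' Z)))
    (hS : Ht 0 (c '' S)) : Ht 0 (cz c Z '' {p | p.1.2 ∈ S}) := by
  rw [cz_img]
  refine (H_all.2 hs).cat (H_one.2 ?_)
  rw [Set.image_inter hc.inj]
  exact hS.inter (ht_not hc hZ)

/-- **the code `Z* (L - Z)`** -/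
theorem cz_sfc (hc : SFC c) {Z : Set B} (hZ : Ht 0 (c '' Z)) (hs : Ht 0 (star (c '' Z))) :
    SFC (cz c Z) := by
  refine ⟨?_, ?_, ?_⟩
  · intro p p' w h
    obtain ⟨r, h1, h2⟩ := hc.comp' (p.1.1 ++ [p.1.2]) (p'.1.1 ++ [p'.1.2]) w h
    rcases List.eq_nil_or_concat r with rfl | ⟨r', x, rfl⟩
    · rw [List.append_nil] at h1
      obtain ⟨h3, h4⟩ := List.append_inj' h1 rfl
      rw [List.cons.injEq] at h4
      exact Subtype.ext (Prod.ext h3 h4.1)
    · exfalso
      rw [List.concat_eq_append, ← List.append_assoc] at h1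
      obtain ⟨h3, -⟩ := List.append_inj' h1 rfl
      refine p.2.2 (p'.2.1 _ ?_)
      rw [h3]
      simp
  · intro p h
    have h1 : E c (p.1.1 ++ [p.1.2]) = E c [] := h
    have h2 := hc.code h1
    simp at h2
  · have h1 := cz_ht hc (S := Set.univ) hZ hs (by rw [Set.image_univ]; exact hc.sf)
    have h2 : {p : ZB Z | p.1.2 ∈ (Set.univ : Set B)} = Set.univ := by
      ext p
      simp
    rwa [h2, Set.image_univ] at h1

/-- the label of the last letter -/
theorem cz_lab {Θ : Type} {θ : B → Θ} (hc : SFC c) {Z : Set B} (hZ : Ht 0 (c '' Z))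
    (hs : Ht 0 (star (c '' Z))) (hθ : Lab c θ) : Lab (cz c Z) (fun p => θ p.1.2) := fun i =>
  cz_ht hc (S := θ ⁻¹' {i}) hZ hs (hθ i)

/-- the decomposition of the words -/
theorem exists_gz (Z : Set B) (l : List B) : ∃ (ps : List (ZB Z)) (zs : List B),
    (∀ b ∈ zs, b ∈ Z) ∧ l = gz ps ++ zs := by
  induction l with
  | nil => exact ⟨[], [], by simp, rfl⟩
  | cons b l ih =>
    obtain ⟨ps, zs, h1, h2⟩ := ih
    by_cases hb : b ∈ Z
    · cases ps with
      | nil =>
        refine ⟨[], b :: zs, ?_, by rw [h2]; rfl⟩
        intro x hx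
        rcases List.mem_cons.1 hx with rfl | hx
        · exact hb
        · exact h1 x hx
      | cons p ps =>
        refine ⟨⟨(b :: p.1.1, p.1.2), ?_, p.2.2⟩ :: ps, zs, h1, ?_⟩
        · intro x hx
          rcases List.mem_cons.1 hx with rfl | hx
          · exact hb
          · exact p.2.1 x hx
        · rw [h2, gz_cons, gz_cons]
          rfl
    · exact ⟨⟨([], b), by simp, hb⟩ :: ps, zs, h1, by rw [h2, gz_cons]; rfl⟩

section Labels

variable {Θ R : Type} [CommRing R] {θ : B → Θ} {z : Θ}

theorem NN_skip {w : List Θ} (hw : z ∉ w) (l : List Θ) : NN (R := R) w (z :: l) = NN w l := by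
  cases w with
  | nil => rfl
  | cons b u =>
    rw [NN_cons_cons, if_neg, add_zero]
    intro h
    exact hw (by rw [h]; simp)

theorem NN_skips {w : List Θ} (hw : z ∉ w) {zs : List B} (hz : ∀ b ∈ zs, b ∈ θ ⁻¹' {z})
    (l : List Θ) : NN (R := R) w (zs.map θ ++ l) = NN w l := by
  induction zs with
  | nil => rfl
  | cons b zs ih =>
    have hb : θ b = z := hz b (by simp)
    rw [List.map_cons, hb, List.cons_append, NN_skip hw, ih fun x hx => hz x (by simp [hx])]

theorem NN_none {b : Θ} (u : List Θ) {l : List Θ} (h : b ∉ l) : NN (R := R) (b :: u) l = 0 := by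
  induction l with
  | nil => rfl
  | cons a l ih =>
    rw [List.mem_cons, not_or] at h
    rw [NN_cons_cons, ih h.2, if_neg (fun e => h.1 e.symm), add_zero]

theorem NN_gz (ps : List (ZB (θ ⁻¹' {z}))) {zs : List B} (hz : ∀ b ∈ zs, b ∈ θ ⁻¹' {z}) :
    ∀ w : List Θ, z ∉ w → NN (R := R) w ((gz ps ++ zs).map θ) =
      NN w (ps.map fun p => θ p.1.2) := by
  induction ps with
  | nil =>
    intro w hw
    have := NN_skips (R := R) (θ := θ) hw hz []
    rw [List.append_nil] at this
    rw [gz_nil, List.nil_append, this]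
    rfl
  | cons p ps ih =>
    intro w hw
    have e : (gz (p :: ps) ++ zs).map θ = p.1.1.map θ ++ (θ p.1.2 :: (gz ps ++ zs).map θ) := by
      rw [gz_cons]
      simp
    rw [e, NN_skips hw p.2.1, List.map_cons]
    cases w with
    | nil => rfl
    | cons b u =>
      rw [NN_cons_cons, NN_cons_cons, ih _ hw, ih u fun h => hw (by simp [h])]

/-- the sum over all the proper rests -/
theorem sum_II [Fintype Θ] (G : List Θ → R) (l : List Θ) : ∑ b : Θ, II b G l = SS G l - G l := by
  induction l with
  | nil =>
    rw [SS_nil, sub_self]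
    exact Finset.sum_eq_zero fun b _ => II_nil b G
  | cons a l ih =>
    simp only [II_cons, Finset.sum_add_distrib]
    rw [ih, SS_cons, Finset.sum_eq_single a]
    · rw [if_pos rfl]
      ring
    · intro b _ hb
      rw [if_neg fun h => hb h.symm]
    · intro h
      exact absurd (Finset.mem_univ a) h

end Labels

section Main

variable {j : ℕ} {Θ : Type} [Finite Θ] {θ : B → Θ} {M : ℕ} [NeZero M]

theorem all_me [Fintype Θ] (hj : CJ A j) (hc : SFC c) (hθ : Lab c θ) {G : List Θ → ZMod M}
    (hG : Pol j G) : ME c (fun l => ∑ b : Θ, II b G (l.map θ)) := by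
  have h1 := hc.sub (clock hj hc hθ hG) (hj B c hc Θ θ hθ M G hG)
  have e : (fun l => ∑ b : Θ, II b G (l.map θ)) = fun l =>
      SS (fun y : List B => G (y.map θ)) l - G (l.map θ) := by
    funext l
    rw [sum_II, SS_letter]
  rw [e]
  exact h1

/-- the rests behind the letters which are not labelled `z`, for a word without `z` -/
theorem rest_me [Fintype Θ] (hj : CJ A j) (hc : SFC c) (hθ : Lab c θ) {z : Θ}
    (hs : Ht 0 (star (c '' (θ ⁻¹' {z})))) {u : List Θ} (hu : u.length + 1 ≤ j) (hz : z ∉ u) :
    ME c (fun l => ∑ b ∈ Finset.univ.erase z, NN (R := ZMod M) (b :: u) (l.map θ)) := by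
  have h1 : ME (cz c (θ ⁻¹' {z})) (fun ps => ∑ b : Θ, II b (NN (R := ZMod M) u)
      (ps.map fun p => θ p.1.2)) :=
    all_me hj (cz_sfc hc (hθ z) hs) (cz_lab hc (hθ z) hs hθ) ((pol_NN u).mono hu)
  have key : ∀ (ps : List (ZB (θ ⁻¹' {z}))) (zs : List B), (∀ b ∈ zs, b ∈ θ ⁻¹' {z}) →
      ∑ b ∈ Finset.univ.erase z, NN (R := ZMod M) (b :: u) ((gz ps ++ zs).map θ) =
        ∑ b : Θ, II b (NN (R := ZMod M) u) (ps.map fun p => θ p.1.2) := by
    intro ps zs hzs
    rw [← Finset.add_sum_erase Finset.univ (fun b => II b (NN (R := ZMod M) u)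
      (ps.map fun p => θ p.1.2)) (Finset.mem_univ z)]
    have h0 : II z (NN (R := ZMod M) u) (ps.map fun p => θ p.1.2) = 0 := by
      rw [← NN_cons]
      refine NN_none u fun h => ?_
      rw [List.mem_map] at h
      obtain ⟨p, -, hp⟩ := h
      exact p.2.2 hp
    rw [h0, zero_add]
    refine Finset.sum_congr rfl fun b hb => ?_
    rw [NN_gz ps hzs (b :: u) ?_]
    · rfl
    · rw [List.mem_cons, not_or]
      exact ⟨fun h => (Finset.ne_of_mem_erase hb) h.symm, hz⟩
  intro x
  have e : {l : List B | ∑ b ∈ Finset.univ.erase z, NN (R := ZMod M) (b :: u) (l.map θ) = x} =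
      cat (gz '' {ps : List (ZB (θ ⁻¹' {z})) | ∑ b : Θ, II b (NN (R := ZMod M) u)
        (ps.map fun p => θ p.1.2) = x}) {l : List B | ∀ b ∈ l, b ∈ θ ⁻¹' {z}} := by
    ext l
    constructor
    · intro hl
      obtain ⟨ps, zs, h2, rfl⟩ := exists_gz (θ ⁻¹' {z}) l
      exact ⟨gz ps, ⟨ps, (key ps zs h2).symm.trans hl, rfl⟩, zs, h2, rfl⟩
    · rintro ⟨_, ⟨ps, h2, rfl⟩, zs, h3, rfl⟩
      exact (key ps zs h3).trans h2
  rw [e]
  exact (H_cz.1 (h1 x)).cat ((H_all.2 hs).mono (by omega))

omit [Finite Θ] in
theorem split_mark (z : Θ) : ∀ u : List Θ, z ∈ u → ∃ u1 v : List Θ, u = u1 ++ z :: v ∧ z ∉ u1 ∧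
    u1.length = u.idxOf z := by
  intro u
  induction u with
  | nil => intro h; simp at h
  | cons a u ih =>
    intro h
    by_cases ha : a = z
    · subst ha
      exact ⟨[], u, rfl, by simp, by rw [List.idxOf_cons_self]; rfl⟩
    · have h1 : z ∈ u := by
        rcases List.mem_cons.1 h with h | h
        · exact absurd h.symm ha
        · exact h
      obtain ⟨u1, v, h2, h3, h4⟩ := ih h1
      refine ⟨a :: u1, v, by rw [h2]; rfl, ?_, ?_⟩
      · rw [List.mem_cons, not_or]
        exact ⟨fun h => ha h.symm, h3⟩
      · rw [List.idxOf_cons_ne _ ha, List.length_cons, h4]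

/-- **the counting functions of the words of length `j` which contain `z`** -/
theorem count_me [Fintype Θ] (hj : CJ A j) (hc : SFC c) (hθ : Lab c θ) {z : Θ}
    (hs : Ht 0 (star (c '' (θ ⁻¹' {z})))) : ∀ (k i : ℕ) (u : List Θ), u.length = j → z ∈ u →
      u.count z = k → u.idxOf z = i → ME c (fun l => NN (R := ZMod M) u (l.map θ)) := by
  have hlow : ∀ u : List Θ, u.length + 1 ≤ j → ME c (fun l => NN (R := ZMod M) u (l.map θ)) :=
    fun u hu => hj B c hc Θ θ hθ M _ ((pol_NN u).mono hu)
  intro k
  induction k using Nat.strong_induction_on with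
  | _ k ihk =>
    intro i
    induction i using Nat.strong_induction_on with
    | _ i ihi =>
      intro u hu hz hk hi
      obtain ⟨u1, v, rfl, h1, h2⟩ := split_mark z u hz
      rcases Nat.eq_zero_or_pos i with h0 | h0
      · -- the first letter is `z`
        have hu1 : u1 = [] := List.eq_nil_of_length_eq_zero (by omega)
        subst hu1
        rw [List.nil_append] at hu hk ⊢
        have hv : v.length + 1 ≤ j := by
          rw [← hu, List.length_cons]
        have e1 : ME c (fun l => ∑ b : Θ, II b (NN (R := ZMod M) v) (l.map θ)) :=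
          all_me hj hc hθ ((pol_NN v).mono hv)
        have e2 : ME c (fun l => ∑ b ∈ Finset.univ.erase z,
            NN (R := ZMod M) (b :: v) (l.map θ)) := by
          by_cases hzv : z ∈ v
          · refine hc.sum _ fun b hb => ?_
            have hbz : b ≠ z := Finset.ne_of_mem_erase hb
            have hcount : (b :: v).count z = v.count z := List.count_cons_of_ne hbz
            refine ihk (v.count z) ?_ _ (b :: v) ?_ (by simp [hzv]) hcount rfl
            · rw [← hk, List.count_cons_self]
              omega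
            · rw [← hu, List.length_cons, List.length_cons]
          · exact rest_me hj hc hθ hs hv hzv
        have e3 := hc.sub e1 e2
        have e4 : (fun l : List B => NN (R := ZMod M) (z :: v) (l.map θ)) = fun l =>
            ∑ b : Θ, II b (NN (R := ZMod M) v) (l.map θ) -
              ∑ b ∈ Finset.univ.erase z, NN (R := ZMod M) (b :: v) (l.map θ) := by
          funext l
          rw [← Finset.add_sum_erase Finset.univ (fun b => II b (NN (R := ZMod M) v) (l.map θ))
            (Finset.mem_univ z)]
          simp only [← NN_cons]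
          ring
        rw [e4]
        exact e3
      · -- the product formula
        have hl : u1.length + (z :: v).length = j := by
          rw [← hu, List.length_append]
        have hl' : u1.length + v.length + 1 = j := by
          rw [List.length_cons] at hl
          omega
        obtain ⟨L, hL1, hL2⟩ := sh_mark z v u1 h1
        have e0 : ∀ m : List Θ, SH (R := ZMod M) (sh u1 (z :: v)) m =
            NN (u1 ++ z :: v) m + SH L m := by
          intro m
          unfold SH
          rw [(hL1.map fun w => NN (R := ZMod M) w m).sum_eq, List.map_cons, List.sum_cons]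
        have e1 : ME c (fun l : List B => NN (R := ZMod M) u1 (l.map θ) *
            NN (z :: v) (l.map θ) - SH (sh u1 (z :: v)) (l.map θ)) :=
          hj B c hc Θ θ hθ M _ (hl ▸ NN_mul (R := ZMod M) _ u1 (z :: v) rfl)
        have e2 : ME c (fun l : List B => NN (R := ZMod M) u1 (l.map θ) *
            NN (z :: v) (l.map θ)) :=
          hc.comp₂ (hlow u1 (by omega)) (hlow (z :: v) (by rw [List.length_cons]; omega))
            fun x y => x * y
        have e3 : ∀ L' : List (List Θ), (∀ w ∈ L', w ∈ L) →
            ME c (fun l : List B => SH (R := ZMod M) L' (l.map θ)) := by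
          intro L'
          induction L' with
          | nil =>
            intro _
            have : (fun l : List B => SH (R := ZMod M) ([] : List (List Θ)) (l.map θ)) =
                fun _ => 0 := by
              funext l
              simp [SH]
            rw [this]
            exact hc.const 0
          | cons w L' ih =>
            intro hw
            obtain ⟨g1, g2, g3⟩ := hL2 w (hw w (by simp))
            have hzw : z ∈ w := List.count_pos_iff.1 (by omega)
            have a1 : ME c (fun l : List B => NN (R := ZMod M) w (l.map θ)) := by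
              refine ihi (w.idxOf z) (by omega) w (by omega) hzw ?_ rfl
              rw [g2, ← hk, List.count_append, List.count_cons_self,
                List.count_eq_zero.2 h1, zero_add]
            have a2 := hc.add a1 (ih fun x hx => hw x (by simp [hx]))
            have : (fun l : List B => SH (R := ZMod M) (w :: L') (l.map θ)) = fun l =>
                NN w (l.map θ) + SH L' (l.map θ) := by
              funext l
              simp [SH]
            rw [this]
            exact a2
        have e4 := hc.sub (hc.sub e2 e1) (e3 L fun _ h => h)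
        have e5 : (fun l : List B => NN (R := ZMod M) (u1 ++ z :: v) (l.map θ)) = fun l =>
            NN (R := ZMod M) u1 (l.map θ) * NN (z :: v) (l.map θ) -
              (NN (R := ZMod M) u1 (l.map θ) * NN (z :: v) (l.map θ) -
                SH (sh u1 (z :: v)) (l.map θ)) - SH L (l.map θ) := by
          funext l
          rw [e0]
          ring
        rw [e5]
        exact e4

/-- **Row F4.** The sum of a function of degree less than `j` over the rests behind the letters
of `Z` is measurable, if the stars of all the star-free subsets of `Z` are star-free. -/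
theorem pure_kill (hj : CJ A j) (hc : SFC c) (hθ : Lab c θ) {Z : Set B}
    (hZ : ∀ Z' ⊆ Z, Ht 0 (c '' Z') → Ht 0 (star (c '' Z'))) (hZ0 : Ht 0 (c '' Z))
    {G : List Θ → ZMod M} (hG : Pol j G) :
    ME c (SS (wt 1 (one Z) (0 : ZMod 1) (fun y => G (y.map θ)))) := by
  have := Fintype.ofFinite Θ
  have := Fintype.ofFinite (Θ × Prop)
  have hθ' : Lab c (fun b => (θ b, b ∈ Z)) := hθ.prod hc (Lab.set hc hZ0)
  have hG' : Pol j (fun m : List (Θ × Prop) => G (m.map Prod.fst)) := hG.letter Prod.fst
  have key : ∀ i : Θ, ME c (fun l : List B => II (i, True)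
      (fun m : List (Θ × Prop) => G (m.map Prod.fst)) (l.map fun b => (θ b, b ∈ Z))) := by
    intro i
    refine pol_ind j (fun F : List (Θ × Prop) → ZMod M => ME c (fun l : List B =>
      II (i, True) F (l.map fun b => (θ b, b ∈ Z)))) ?_ ?_ ?_ ?_ _ hG'
    · have : (fun l : List B => II (i, True) (fun _ : List (Θ × Prop) => (0 : ZMod M))
          (l.map fun b => (θ b, b ∈ Z))) = fun _ => 0 := by
        funext l
        rw [II_zero]
      rw [this]
      exact hc.const 0
    · intro F F' h1 h2
      have := hc.add h1 h2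
      refine (show (fun l : List B => II (i, True) (fun l => F l + F' l)
        (l.map fun b => (θ b, b ∈ Z))) = _ from ?_) ▸ this
      funext l
      rw [II_add]
    · intro r F h1
      have := h1.comp fun x => r * x
      refine (show (fun l : List B => II (i, True) (fun l => r * F l)
        (l.map fun b => (θ b, b ∈ Z))) = _ from ?_) ▸ this
      funext l
      rw [II_mul]
    · intro u hu
      show ME c (fun l : List B => NN (R := ZMod M) ((i, True) :: u)
        (l.map fun b => (θ b, b ∈ Z)))
      rcases Nat.lt_or_ge (u.length + 1) j with h1 | h1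
      · exact hj B c hc _ _ hθ' M _ ((pol_NN ((i, True) :: u)).mono (by
          rw [List.length_cons]
          omega))
      · refine count_me hj hc hθ' (z := (i, True)) ?_ _ _ ((i, True) :: u) ?_ (by simp) rfl rfl
        · refine hZ _ ?_ (hθ' (i, True))
          intro b hb
          have hb' : (θ b, b ∈ Z) = (i, True) := hb
          have h2 : (b ∈ Z) = True := (Prod.ext_iff.1 hb').2
          rw [h2]
          trivial
        · rw [List.length_cons]
          omega
  have hsum : ME c (fun l : List B => ∑ i : Θ, II (i, True)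
      (fun m : List (Θ × Prop) => G (m.map Prod.fst)) (l.map fun b => (θ b, b ∈ Z))) :=
    hc.sum _ fun i _ => key i
  have e : SS (wt 1 (one Z) (0 : ZMod 1) (fun y => G (y.map θ))) = fun l : List B =>
      ∑ i : Θ, II (i, True) (fun m : List (Θ × Prop) => G (m.map Prod.fst))
        (l.map fun b => (θ b, b ∈ Z)) := by
    funext l
    induction l with
    | nil =>
      rw [SS_nil]
      unfold wt
      rw [if_neg (by simp)]
      exact (Finset.sum_eq_zero fun i _ => II_nil _ _).symm
    | cons b l ih =>
      rw [SS_cons, ih]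
      simp only [List.map_cons, II_cons, Finset.sum_add_distrib]
      rw [add_comm]
      congr 1
      have h3 : (l.map fun b => (θ b, b ∈ Z)).map Prod.fst = l.map θ := by
        rw [List.map_map]
        rfl
      rw [h3, Finset.sum_eq_single (θ b)]
      · unfold wt
        by_cases hb : b ∈ Z
        · rw [if_pos ⟨by simp, take_one_mem.2 hb, Subsingleton.elim _ _⟩, if_pos (by simp [hb])]
          rfl
        · rw [if_neg fun h => hb (take_one_mem.1 h.2.1), if_neg]
          intro h
          have h4 : (b ∈ Z) = True := (Prod.ext_iff.1 h).2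
          exact hb (by rw [h4]; trivial)
      · intro i _ hi
        rw [if_neg]
        intro h
        exact hi (Prod.ext_iff.1 h).1.symm
      · intro h
        exact absurd (Finset.mem_univ _) h
  rw [e]
  exact hsum

end Main

end Pool.Agent.GSH.NP
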