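import Pool.Agent.GSH.NPAver
import Pool.Agent.GSH.NPKill
import Pool.Agent.GSH.NPGroup

/-!
# Theorem N: finite nilpotent groups over star-free prefix codes
-/

set_option autoImplicit false

namespace Pool.Agent.GSH.NP

open Pool.Agent.GSH Pool.Agent.GSH.FC

variable {A : Type}

theorem cj [Finite A] (j : ℕ) : CJ A j := by
  refine main_code ?_ tree_lemma j
  intro j hj B c hc Θ _ θ hθ Z hZ hZ0 M _ G hG
  exact pure_kill hj hc hθ hZ hZ0 hG

/-- nilpotent groups over a star-free prefix code given as a set of words -/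
theorem nil_main [Finite A] {G : Type} [Group G] [Finite G] [Group.IsNilpotent G]
    {K : Set (List A)} (hK : ∀ u ∈ K, ∀ v, u ++ v ∈ K → v = []) (hK1 : [] ∉ K) (f : List A → G)
    (hf : ∀ g, Ht 0 {u | u ∈ K ∧ f u = g}) (T : Set G) :
    Ht 1 {w : List A | ∃ l : List (List A), (∀ u ∈ l, u ∈ K) ∧ l.flatten = w ∧
      (l.map f).prod ∈ T} := by
  let B : Type := {u : List A // u ∈ K}
  let c : B → List A := Subtype.val
  have hc : SFC c := by
    refine ⟨?_, ?_, ?_⟩
    · intro b b' w h
      have h1 : w = [] := hK b.1 b.2 w (by rw [← show b'.1 = b.1 ++ w from h]; exact b'.2)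
      rw [h1, List.append_nil] at h
      exact Subtype.ext h
    · rintro ⟨b, hb⟩ h
      have h' : b = [] := h
      subst h'
      exact hK1 hb
    · have : Set.range c = ⋃ g : G, {u | u ∈ K ∧ f u = g} := by
        ext u
        simp only [Set.mem_range, Set.mem_iUnion]
        constructor
        · rintro ⟨b, rfl⟩
          exact ⟨f b.1, b.2, rfl⟩
        · rintro ⟨g, hu, _⟩
          exact ⟨⟨u, hu⟩, rfl⟩
      rw [this]
      exact Ht.iUnion hf
  let θ : B → G := fun b => f b.1
  have hθ : Lab c θ := by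
    intro g
    have : c '' (θ ⁻¹' {g}) = {u | u ∈ K ∧ f u = g} := by
      ext u
      constructor
      · rintro ⟨b, hb, rfl⟩
        exact ⟨b.2, hb⟩
      · rintro ⟨h1, h2⟩
        exact ⟨⟨u, h1⟩, h2, rfl⟩
    rw [this]
    exact hf g
  have h := nil_lang hc θ (fun M _ j F hF => cj j B c hc G θ hθ M F hF) id T
  have h2 : E c '' {l : List B | ((l.map θ).map id).prod ∈ T} =
      {w : List A | ∃ l : List (List A), (∀ u ∈ l, u ∈ K) ∧ l.flatten = w ∧
        (l.map f).prod ∈ T} := by
    ext w
    constructor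
    · rintro ⟨l, hl, rfl⟩
      have hl' : ((l.map θ).map id).prod ∈ T := hl
      refine ⟨l.map Subtype.val, ?_, rfl, ?_⟩
      · intro u hu
        rw [List.mem_map] at hu
        obtain ⟨b, _, rfl⟩ := hu
        exact b.2
      · rw [List.map_id] at hl'
        rw [List.map_map]
        exact hl'
    · rintro ⟨l, h1, rfl, h3⟩
      refine ⟨l.attach.map (fun u => (⟨u.1, h1 u.1 u.2⟩ : B)), ?_, ?_⟩
      · show (((l.attach.map _).map θ).map id).prod ∈ T
        rw [List.map_id, List.map_map]
        have : l.attach.map (θ ∘ fun u => (⟨u.1, h1 u.1 u.2⟩ : B)) = l.map f := by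
          have h4 : (θ ∘ fun u : {x // x ∈ l} => (⟨u.1, h1 u.1 u.2⟩ : B)) = f ∘ Subtype.val := rfl
          rw [h4, ← List.map_map, List.attach_map_subtype_val]
        rw [this]
        exact h3
      · show ((l.attach.map _).map c).flatten = l.flatten
        rw [List.map_map]
        have h4 : (c ∘ fun u : {x // x ∈ l} => (⟨u.1, h1 u.1 u.2⟩ : B)) = Subtype.val := rfl
        rw [h4, List.attach_map_subtype_val]
  rw [h2] at h
  exact h

end Pool.Agent.GSH.NP
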