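import Pool.Agent.GSH.NPEF

/-!
# The limit monoid
-/

set_option autoImplicit false

namespace Pool.Agent.GSH.NP

open Pool.Agent.GSH Filter

variable {A : Type}

/-- the congruence of depth `k` on the free monoid -/
def efCon (A : Type) (k : ℕ) : Con (FreeMonoid A) where
  r := fun x y => EF k x.toList y.toList
  iseqv := ⟨fun x => EF.refl k _, fun h => h.symm, fun h h' => h.trans h'⟩
  mul' := fun h h' => by
    rw [FreeMonoid.toList_mul, FreeMonoid.toList_mul]
    exact EF.append h h'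

/-- the class of a word -/
def qt (k : ℕ) (w : List A) : (efCon A k).Quotient := ((FreeMonoid.ofList w : FreeMonoid A) :)

theorem qt_eq {k : ℕ} {w w' : List A} : qt k w = qt k w' ↔ EF k w w' := by
  unfold qt
  rw [Con.eq]
  rfl

theorem qt_append (k : ℕ) (u v : List A) : qt k (u ++ v) = qt k u * qt k v := rfl

theorem qt_nil (k : ℕ) : qt k ([] : List A) = 1 := rfl

theorem qt_surj (k : ℕ) (x : (efCon A k).Quotient) : ∃ w, qt k w = x := by
  induction x using Con.induction_on with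
  | H x => exact ⟨x.toList, rfl⟩

theorem qt_rep (k n : ℕ) (w : List A) : qt k (rep n w) = qt k w ^ n := by
  induction n with
  | zero => rw [rep_zero, pow_zero]; rfl
  | succ n ih => rw [rep_succ, qt_append, ih, pow_succ']

instance [Finite A] (k : ℕ) : Finite (efCon A k).Quotient := by
  have := ef_finite (A := A) k
  refine Finite.of_surjective (fun x : Quotient (efSetoid A k) =>
    Quotient.lift (s := efSetoid A k) (fun w => qt k w) (fun w w' h => qt_eq.2 h) x) ?_
  intro x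
  obtain ⟨w, rfl⟩ := qt_surj k x
  exact ⟨Quotient.mk _ w, rfl⟩

/-- the limit monoid -/
def WS (A : Type) : Submonoid (∀ k, (efCon A k).Quotient) where
  carrier := {x | ∀ k, ∃ w : List A, ∀ j ≤ k, x j = qt j w}
  mul_mem' := by
    intro x y hx hy k
    obtain ⟨u, hu⟩ := hx k
    obtain ⟨v, hv⟩ := hy k
    exact ⟨u ++ v, fun j hj => by rw [Pi.mul_apply, hu j hj, hv j hj, qt_append]⟩
  one_mem' := fun k => ⟨[], fun j _ => rfl⟩

/-- the limit monoid -/
abbrev W (A : Type) : Type := ↥(WS A)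

theorem W.ext' {x y : W A} (h : ∀ k, x.1 k = y.1 k) : x = y := Subtype.ext (funext h)

theorem W.mul_at (x y : W A) (k : ℕ) : (x * y).1 k = x.1 k * y.1 k := rfl

theorem W.one_at (k : ℕ) : (1 : W A).1 k = 1 := rfl

theorem W.pow_at (x : W A) (n k : ℕ) : (x ^ n).1 k = x.1 k ^ n := by
  induction n with
  | zero => rw [pow_zero, pow_zero]; rfl
  | succ n ih => rw [pow_succ, pow_succ, W.mul_at, ih]

/-- a word representing `x` up to depth `k` -/
noncomputable def W.w (x : W A) (k : ℕ) : List A := (x.2 k).choose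

theorem W.w_spec (x : W A) {j k : ℕ} (h : j ≤ k) : x.1 j = qt j (x.w k) := (x.2 k).choose_spec j h

/-- words as elements of the limit monoid -/
def W.of (w : List A) : W A := ⟨fun k => qt k w, fun _ => ⟨w, fun _ _ => rfl⟩⟩

theorem W.of_at (w : List A) (k : ℕ) : (W.of w).1 k = qt k w := rfl

theorem W.of_append (u v : List A) : W.of (u ++ v) = W.of u * W.of v := rfl

theorem W.of_nil : W.of ([] : List A) = 1 := rfl

theorem W.at_mono {x y : W A} {j k : ℕ} (hjk : j ≤ k) (h : x.1 k = y.1 k) : x.1 j = y.1 j := by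
  rw [x.w_spec hjk, y.w_spec hjk]
  rw [x.w_spec le_rfl, y.w_spec le_rfl] at h
  exact qt_eq.2 ((qt_eq.1 h).mono hjk)

theorem W.eq_one_of_at {x : W A} {k : ℕ} (hk : 1 ≤ k) (h : x.1 k = 1) : x = 1 := by
  apply W.ext'
  intro j
  have h1 : (x.w (max j k)) = [] := by
    rw [x.w_spec (le_max_right j k), ← qt_nil] at h
    exact EF.nil hk (qt_eq.1 h)
  rw [x.w_spec (le_max_left j k), h1]
  rfl

theorem W.of_eq_one {w : List A} (h : W.of w = 1) : w = [] := by
  have h1 : qt 1 w = qt 1 [] := congrFun (congrArg Subtype.val h) 1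
  exact EF.nil le_rfl (qt_eq.1 h1)

theorem W.mul_eq_one {x y : W A} (h : x * y = 1) : x = 1 ∧ y = 1 := by
  have h1 : (x * y).1 1 = qt 1 [] := by rw [h]; rfl
  rw [W.mul_at, x.w_spec le_rfl, y.w_spec le_rfl, ← qt_append] at h1
  have h2 := List.append_eq_nil_iff.1 (EF.nil le_rfl (qt_eq.1 h1))
  constructor
  · apply W.eq_one_of_at le_rfl
    rw [x.w_spec le_rfl, h2.1]; rfl
  · apply W.eq_one_of_at le_rfl
    rw [y.w_spec le_rfl, h2.2]; rfl

theorem W.aper (b : W A) {k m n : ℕ} (hm : 2 ^ k ≤ m + 1) (hn : 2 ^ k ≤ n + 1) :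
    (b ^ m).1 k = (b ^ n).1 k := by
  rw [W.pow_at, W.pow_at, b.w_spec le_rfl, ← qt_rep, ← qt_rep]
  exact qt_eq.2 (EF.aper _ k m n hm hn)

theorem W.absorb_pow {x a b : W A} (h : x = a * x * b) (n : ℕ) : x = a ^ n * x * b ^ n := by
  induction n with
  | zero => simp
  | succ n ih =>
    have h1 : a ^ (n + 1) * x * b ^ (n + 1) = a ^ n * (a * x * b) * b ^ n := by
      rw [pow_succ a, pow_succ' b]
      simp only [mul_assoc]
    rw [h1, ← h]
    exact ih

/-- `x = a x b` implies `x = x b` -/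
theorem W.absorb {x a b : W A} (h : x = a * x * b) : x = x * b := by
  apply W.ext'
  intro k
  have h1 := W.absorb_pow h (2 ^ k)
  have h2 : (a ^ 2 ^ k * x * b ^ (2 ^ k)).1 k = (a ^ 2 ^ k * x * b ^ (2 ^ k + 1)).1 k := by
    rw [W.mul_at, W.mul_at _ (b ^ (2 ^ k + 1)), W.aper b (m := 2 ^ k) (n := 2 ^ k + 1) (by omega)
      (by omega)]
  rw [← h1, pow_succ, ← mul_assoc, ← h1] at h2
  exact h2

theorem W.absorb' {x a b : W A} (h : x = a * x * b) : x = a * x := by
  have h1 := W.absorb h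
  conv_lhs => rw [h]
  rw [mul_assoc, ← h1]

/-! ### Limits -/

theorem exists_eventually {X : Type*} [Finite X] (U : Ultrafilter ℕ) (g : ℕ → X) :
    ∃ x, ∀ᶠ n in (U : Filter ℕ), g n = x := by
  obtain ⟨x, hx⟩ := (U.map g).eq_pure_of_finite
  refine ⟨x, ?_⟩
  have h1 : ({x} : Set X) ∈ U.map g := by rw [hx]; exact Ultrafilter.mem_pure.2 rfl
  exact Ultrafilter.mem_map.1 h1

/-- the ultrafilter used for limits -/
noncomputable def UU : Ultrafilter ℕ := hyperfilter ℕ

theorem UU_of_atTop {p : ℕ → Prop} (h : ∀ᶠ n in atTop, p n) : ∀ᶠ n in (UU : Filter ℕ), p n :=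
  Nat.hyperfilter_le_atTop h

theorem UU_ge (k : ℕ) : ∀ᶠ n in (UU : Filter ℕ), k ≤ n := UU_of_atTop (eventually_ge_atTop k)

/-- the limit of a sequence of words -/
noncomputable def lim [Finite A] (f : ℕ → List A) : W A :=
  ⟨fun k => (exists_eventually UU (fun n => qt k (f n))).choose, by
    intro k
    have h1 : ∀ j ∈ Finset.range (k + 1), ∀ᶠ n in (UU : Filter ℕ),
        qt j (f n) = (exists_eventually UU (fun n => qt j (f n))).choose :=
      fun j _ => (exists_eventually UU (fun n => qt j (f n))).choose_spec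
    obtain ⟨n, hn⟩ := ((Finset.eventually_all _).2 h1).exists
    exact ⟨f n, fun j hj => (hn j (Finset.mem_range.2 (by omega))).symm⟩⟩

theorem lim_at [Finite A] (f : ℕ → List A) (k : ℕ) :
    ∀ᶠ n in (UU : Filter ℕ), qt k (f n) = (lim f).1 k :=
  (exists_eventually UU (fun n => qt k (f n))).choose_spec

theorem lim_eq [Finite A] {f : ℕ → List A} {x : W A}
    (h : ∀ k, ∀ᶠ n in (UU : Filter ℕ), qt k (f n) = x.1 k) : lim f = x := by
  apply W.ext'
  intro k
  obtain ⟨n, h1, h2⟩ := ((lim_at f k).and (h k)).exists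
  rw [← h1, h2]

theorem lim_w [Finite A] (x : W A) : lim x.w = x := by
  apply lim_eq
  intro k
  filter_upwards [UU_ge k] with n hn
  exact (x.w_spec hn).symm

theorem lim_append [Finite A] (f g : ℕ → List A) : lim (fun n => f n ++ g n) = lim f * lim g := by
  apply lim_eq
  intro k
  filter_upwards [lim_at f k, lim_at g k] with n h1 h2
  rw [qt_append, h1, h2, W.mul_at]

theorem lim_ne_one [Finite A] {f : ℕ → List A} (h : ∀ᶠ n in (UU : Filter ℕ), f n ≠ []) :
    lim f ≠ 1 := by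
  intro h1
  obtain ⟨n, h2, h3⟩ := ((lim_at f 1).and h).exists
  rw [h1, W.one_at, ← qt_nil] at h2
  exact h3 (EF.nil le_rfl (qt_eq.1 h2))

/-- equidivisibility -/
theorem W.equi [Finite A] {x y z t : W A} (h : x * y = z * t) :
    ∃ w, (z = x * w ∧ y = w * t) ∨ (x = z * w ∧ t = w * y) := by
  have key : ∀ n, ∃ r, (EF n (z.w (n + 1)) (x.w (n + 1) ++ r) ∧ EF n (y.w (n + 1))
      (r ++ t.w (n + 1))) ∨ (EF n (x.w (n + 1)) (z.w (n + 1) ++ r) ∧ EF n (t.w (n + 1))
      (r ++ y.w (n + 1))) := by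
    intro n
    have h1 : EF (n + 1) (x.w (n + 1) ++ y.w (n + 1)) (z.w (n + 1) ++ t.w (n + 1)) := by
      apply qt_eq.1
      rw [qt_append, qt_append, ← x.w_spec le_rfl, ← y.w_spec le_rfl, ← z.w_spec le_rfl,
        ← t.w_spec le_rfl, ← W.mul_at, ← W.mul_at, h]
    obtain ⟨u, v, h2, h3, h4⟩ := h1.split
    rcases List.append_eq_append_iff.1 h2 with ⟨r, g1, g2⟩ | ⟨r, g1, g2⟩
    · refine ⟨r, Or.inl ⟨?_, ?_⟩⟩
      · rw [← g1]; exact h3.symm
      · rw [g2]; exact (EF.refl _ _).append h4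
    · refine ⟨r, Or.inr ⟨?_, ?_⟩⟩
      · rw [g1]; exact h3.append (EF.refl _ _)
      · rw [← g2]; exact h4.symm
  choose r hr using key
  refine ⟨lim r, ?_⟩
  rcases Ultrafilter.eventually_or.1 (Eventually.of_forall hr : ∀ᶠ n in (UU : Filter ℕ), _)
    with h1 | h1
  · left
    constructor
    · apply W.ext'
      intro k
      obtain ⟨n, ⟨h2, h3⟩, h4⟩ := ((h1.and (lim_at r k)).and (UU_ge k)).exists
      rw [W.mul_at, ← h3, z.w_spec (le_trans h4 (Nat.le_succ n)),
        x.w_spec (le_trans h4 (Nat.le_succ n)), ← qt_append]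
      exact qt_eq.2 (h2.1.mono h4)
    · apply W.ext'
      intro k
      obtain ⟨n, ⟨h2, h3⟩, h4⟩ := ((h1.and (lim_at r k)).and (UU_ge k)).exists
      rw [W.mul_at, ← h3, y.w_spec (le_trans h4 (Nat.le_succ n)),
        t.w_spec (le_trans h4 (Nat.le_succ n)), ← qt_append]
      exact qt_eq.2 (h2.2.mono h4)
  · right
    constructor
    · apply W.ext'
      intro k
      obtain ⟨n, ⟨h2, h3⟩, h4⟩ := ((h1.and (lim_at r k)).and (UU_ge k)).exists
      rw [W.mul_at, ← h3, x.w_spec (le_trans h4 (Nat.le_succ n)),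
        z.w_spec (le_trans h4 (Nat.le_succ n)), ← qt_append]
      exact qt_eq.2 (h2.1.mono h4)
    · apply W.ext'
      intro k
      obtain ⟨n, ⟨h2, h3⟩, h4⟩ := ((h1.and (lim_at r k)).and (UU_ge k)).exists
      rw [W.mul_at, ← h3, t.w_spec (le_trans h4 (Nat.le_succ n)),
        y.w_spec (le_trans h4 (Nat.le_succ n)), ← qt_append]
      exact qt_eq.2 (h2.2.mono h4)

/-! ### Rigid elements -/

/-- `x` is rigid at depth `k` -/
def SRk (k : ℕ) (x : W A) : Prop := ∀ b : W A, (x * b).1 k = x.1 k → b = 1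

/-- `x` is rigid -/
def SR (x : W A) : Prop := ∃ k, SRk k x

theorem SRk.mono {j k : ℕ} (hjk : j ≤ k) {x : W A} (h : SRk j x) : SRk k x :=
  fun b hb => h b (W.at_mono hjk hb)

theorem SRk.suffix {k : ℕ} {x y : W A} (h : SRk k (x * y)) : SRk k y := by
  intro b hb
  apply h b
  rw [mul_assoc, W.mul_at, hb, W.mul_at]

theorem SR.suffix {x y : W A} (h : SR (x * y)) : SR y := ⟨h.choose, h.choose_spec.suffix⟩

theorem SR.rc {x b : W A} (h : SR x) (hb : x * b = x) : b = 1 :=
  h.choose_spec b (by rw [hb])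

theorem SR.cancel [Finite A] {x y z : W A} (h : SR x) (e : x * y = x * z) : y = z := by
  obtain ⟨w, (⟨h1, h2⟩ | ⟨h1, h2⟩)⟩ := W.equi e
  · rw [h2, h.rc h1.symm, one_mul]
  · rw [h2, h.rc h1.symm, one_mul]

theorem SRk.mul {k : ℕ} {x y : W A} (hx : SRk k x) (hy : SRk k y) : SRk (k + 1) (x * y) := by
  intro b hb
  have h1 : EF (k + 1) (x.w (k + 1) ++ (y.w (k + 1) ++ b.w (k + 1)))
      (x.w (k + 1) ++ y.w (k + 1)) := by
    apply qt_eq.1
    rw [qt_append, qt_append, qt_append, ← x.w_spec le_rfl, ← y.w_spec le_rfl,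
      ← b.w_spec le_rfl, ← mul_assoc]
    exact hb
  obtain ⟨u, v, h2, h3, h4⟩ := h1.split
  have hr : ∀ r, (x * W.of r).1 k = x.1 k → r = [] := fun r h => W.of_eq_one (hx _ h)
  have hxw := x.w_spec (Nat.le_succ k)
  rcases List.append_eq_append_iff.1 h2 with ⟨r, g1, g2⟩ | ⟨r, g1, g2⟩
  · have h5 : r = [] := by
      apply hr
      rw [W.mul_at, hxw, W.of_at, ← qt_append]
      exact qt_eq.2 (by rw [← g1]; exact h3)
    rw [h5, List.nil_append] at g2
    apply hy
    rw [W.mul_at, y.w_spec (Nat.le_succ k), b.w_spec (Nat.le_succ k), ← qt_append]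
    exact qt_eq.2 (by rw [g2]; exact h4)
  · have h5 : r = [] := by
      apply hr
      rw [W.mul_at, hxw, W.of_at, ← qt_append]
      apply qt_eq.2
      have h6 : EF k (x.w (k + 1) ++ r) (u ++ r) := h3.symm.append (EF.refl _ _)
      exact h6.trans (by rw [← g1]; exact EF.refl _ _)
    rw [h5, List.nil_append] at g2
    apply hy
    rw [W.mul_at, y.w_spec (Nat.le_succ k), b.w_spec (Nat.le_succ k), ← qt_append]
    exact qt_eq.2 (by rw [← g2]; exact h4)

theorem SR.mul {x y : W A} (hx : SR x) (hy : SR y) : SR (x * y) := by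
  obtain ⟨j, hj⟩ := hx
  obtain ⟨k, hk⟩ := hy
  exact ⟨max j k + 1, (hj.mono (le_max_left _ _)).mul (hk.mono (le_max_right _ _))⟩

theorem SR.one : SR (1 : W A) := ⟨1, fun b hb => W.eq_one_of_at le_rfl (by simpa using hb)⟩

theorem SR.pow {x : W A} (hx : SR x) (n : ℕ) : SR (x ^ n) := by
  induction n with
  | zero => rw [pow_zero]; exact SR.one
  | succ n ih => rw [pow_succ]; exact ih.mul hx

theorem SR.prod {l : List (W A)} (h : ∀ x ∈ l, SR x) : SR l.prod := by
  induction l with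
  | nil => exact SR.one
  | cons x l ih =>
    rw [List.prod_cons]
    exact (h x (by simp)).mul (ih (fun y hy => h y (by simp [hy])))

theorem SRk.pow_lt {k n : ℕ} {u : W A} (hu : u ≠ 1) (h : SRk k (u ^ n)) : n < 2 ^ k := by
  by_contra h0
  apply hu
  apply h
  rw [← pow_succ]
  exact W.aper u (by omega) (by omega)

/-- primitive elements -/
def Prim (u : W A) : Prop := u ≠ 1 ∧ ∀ (r : W A) (n : ℕ), u = r ^ n → n = 1

theorem exists_root {x r : W A} (hx : SR x) (hx1 : x ≠ 1) {m : ℕ} (hm : x = r ^ m) :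
    ∃ u n, Prim u ∧ m ≤ n ∧ x = u ^ n := by
  obtain ⟨k, hk⟩ := hx
  have hb : ∀ n, (∃ r : W A, x = r ^ n) → n < 2 ^ k := by
    rintro n ⟨r, rfl⟩
    refine hk.pow_lt ?_
    rintro rfl
    exact hx1 (one_pow n)
  classical
  let P : ℕ → Prop := fun n => ∃ r : W A, x = r ^ n
  have hP : P m := ⟨r, hm⟩
  have hle : m ≤ 2 ^ k := (hb m hP).le
  have h1 : P (Nat.findGreatest P (2 ^ k)) := Nat.findGreatest_spec hle hP
  obtain ⟨u, hu⟩ := h1
  have h0 : Nat.findGreatest P (2 ^ k) ≠ 0 := by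
    intro h0
    rw [h0, pow_zero] at hu
    exact hx1 hu
  refine ⟨u, _, ⟨?_, ?_⟩, Nat.le_findGreatest hle hP, hu⟩
  · rintro rfl
    rw [one_pow] at hu
    exact hx1 hu
  · intro s n hs
    rw [hs, ← pow_mul] at hu
    have h2 : n * Nat.findGreatest P (2 ^ k) ≤ Nat.findGreatest P (2 ^ k) :=
      Nat.le_findGreatest (hb _ ⟨s, hu⟩).le ⟨s, hu⟩
    have h3 : n ≠ 0 := by
      rintro rfl
      rw [Nat.zero_mul, pow_zero] at hu
      exact hx1 hu
    by_contra h4
    have h5 : 2 * Nat.findGreatest P (2 ^ k) ≤ n * Nat.findGreatest P (2 ^ k) :=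
      Nat.mul_le_mul_right _ (by omega)
    omega

end Pool.Agent.GSH.NP
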