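import Pool.Agent.GSH.NPAlign

/-!
# Counting functions of subwords, their span, the product formula (row F4, helper33)

* `II b G` : the sum of `G` over the rests behind the letters `b`; `NN u` : the number of the occurrences of `u` as a subword;
* `Pol` : sums, products, `pol_ind` (the functions in `Pol j` are the combinations of the `NN u`, `|u| < j`);
* `sh u v` : the list of the shuffles; **`NN_mul`** : `NN u * NN v` is the sum over the shuffles, up to lower order;
* `sh_mark` : the shuffles of `u` and `z :: v` if `z` is not in `u`.
-/

set_option autoImplicit false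

namespace Pool.Agent.GSH.NP

open scoped Classical

variable {Θ : Type} {R : Type}

/-! ### Sums over the rests -/

/-- the sum of `G` over the rests behind the letters `b` -/
noncomputable def II [AddCommGroup R] (b : Θ) (G : List Θ → R) : List Θ → R
  | [] => 0
  | a :: l => II b G l + if a = b then G l else 0

theorem II_nil [AddCommGroup R] (b : Θ) (G : List Θ → R) : II b G [] = 0 := rfl

theorem II_cons [AddCommGroup R] (b : Θ) (G : List Θ → R) (a : Θ) (l : List Θ) :
    II b G (a :: l) = II b G l + if a = b then G l else 0 := rfl

theorem II_add [AddCommGroup R] (b : Θ) (F G : List Θ → R) (l : List Θ) :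
    II b (fun l => F l + G l) l = II b F l + II b G l := by
  induction l with
  | nil => simp [II_nil]
  | cons a l ih =>
    rw [II_cons, II_cons, II_cons, ih]
    split_ifs <;> abel

theorem II_mul [Ring R] (b : Θ) (r : R) (F : List Θ → R) (l : List Θ) :
    II b (fun l => r * F l) l = r * II b F l := by
  induction l with
  | nil => simp [II_nil]
  | cons a l ih =>
    rw [II_cons, II_cons, ih]
    split_ifs <;> simp [mul_add]

theorem II_zero [AddCommGroup R] (b : Θ) (l : List Θ) : II b (fun _ => (0 : R)) l = 0 := by
  induction l with
  | nil => rfl
  | cons a l ih => rw [II_cons, ih]; simp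

theorem II_congr [AddCommGroup R] (b : Θ) {F G : List Θ → R} (h : ∀ l, F l = G l) (l : List Θ) :
    II b F l = II b G l := by
  rw [show F = G from funext h]

/-! ### The spaces `Pol` -/

section Pol

variable [AddCommGroup R]

theorem Pol.congr {j : ℕ} {F G : List Θ → R} (h : ∀ l, F l = G l) (hF : Pol j F) : Pol j G := by
  rwa [← show F = G from funext h]

theorem Pol.ite {j : ℕ} {F : List Θ → R} (hF : Pol j F) (p : Prop) :
    Pol j (fun l => if p then F l else 0) := by
  by_cases hp : p
  · simpa [hp] using hF
  · simpa [hp] using Pol.zero (Θ := Θ) (R := R) j

theorem Pol.II {j : ℕ} {F : List Θ → R} (hF : Pol j F) (b : Θ) : Pol (j + 1) (II b F) := by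
  intro a
  refine (hF.ite (a = b)).congr (fun l => ?_)
  rw [II_cons]
  abel

/-- a function is determined by its value at the empty word and its differences -/
theorem expand [Fintype Θ] (F : List Θ → R) (l : List Θ) :
    F l = F [] + ∑ b : Θ, II b (fun l => F (b :: l) - F l) l := by
  induction l with
  | nil => simp [II_nil]
  | cons a l ih =>
    have h1 : ∑ b : Θ, II b (fun l => F (b :: l) - F l) (a :: l) =
        ∑ b : Θ, II b (fun l => F (b :: l) - F l) l + (F (a :: l) - F l) := by
      simp only [II_cons, Finset.sum_add_distrib]
      congr 1
      rw [Finset.sum_eq_single a]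
      · rw [if_pos rfl]
      · intro b _ hb
        rw [if_neg (fun h => hb h.symm)]
      · intro h
        exact absurd (Finset.mem_univ a) h
    rw [h1]
    calc F (a :: l) = F l + (F (a :: l) - F l) := by abel
      _ = (F [] + ∑ b : Θ, II b (fun l => F (b :: l) - F l) l) + (F (a :: l) - F l) :=
        congrArg (fun t => t + (F (a :: l) - F l)) ih
      _ = _ := by abel

end Pol

section Ring

variable [CommRing R]

theorem Pol.mul_left {j : ℕ} (r : R) : ∀ {F : List Θ → R}, Pol j F → Pol j (fun l => r * F l) := by
  induction j with
  | zero =>
    intro F hF l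
    have h1 : F l = 0 := hF l
    show r * F l = 0
    rw [h1, mul_zero]
  | succ j ih =>
    intro F hF b
    exact (ih (hF b)).congr (fun l => by beta_reduce; ring)

/-- products -/
theorem Pol.mul : ∀ (n : ℕ) {i k : ℕ}, i + k = n → ∀ {F G : List Θ → R}, Pol (i + 1) F →
    Pol (k + 1) G → Pol (i + k + 1) (fun l => F l * G l) := by
  intro n
  induction n with
  | zero =>
    intro i k hn F G hF hG
    obtain ⟨rfl, rfl⟩ : i = 0 ∧ k = 0 := by omega
    intro b l
    have h1 : F (b :: l) - F l = 0 := hF b l
    have h2 : G (b :: l) - G l = 0 := hG b l
    show F (b :: l) * G (b :: l) - F l * G l = 0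
    rw [sub_eq_zero.1 h1, sub_eq_zero.1 h2, sub_self]
  | succ n ih =>
    intro i k hn F G hF hG b
    have a1 : Pol (i + k) (fun l => (F (b :: l) - F l) * G l) := by
      rcases Nat.eq_zero_or_pos i with h0 | h0
      · subst h0
        refine (Pol.zero _).congr (fun l => ?_)
        have h1 : F (b :: l) - F l = 0 := hF b l
        rw [h1, zero_mul]
      · obtain ⟨i', rfl⟩ : ∃ i', i = i' + 1 := ⟨i - 1, by omega⟩
        have := ih (i := i') (k := k) (by omega) (F := fun l => F (b :: l) - F l) (hF b) hG
        rwa [show i' + k + 1 = i' + 1 + k by omega] at this
    have a2 : Pol (i + k) (fun l => F l * (G (b :: l) - G l)) := by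
      rcases Nat.eq_zero_or_pos k with h0 | h0
      · subst h0
        refine (Pol.zero _).congr (fun l => ?_)
        have h1 : G (b :: l) - G l = 0 := hG b l
        rw [h1, mul_zero]
      · obtain ⟨k', rfl⟩ : ∃ k', k = k' + 1 := ⟨k - 1, by omega⟩
        have := ih (i := i) (k := k') (by omega) hF (G := fun l => G (b :: l) - G l) (hG b)
        rwa [show i + k' + 1 = i + (k' + 1) by omega] at this
    have a3 : Pol (i + k) (fun l => (F (b :: l) - F l) * (G (b :: l) - G l)) := by
      rcases Nat.eq_zero_or_pos i with h0 | h0
      · subst h0
        refine (Pol.zero _).congr (fun l => ?_)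
        have h1 : F (b :: l) - F l = 0 := hF b l
        rw [h1, zero_mul]
      · rcases Nat.eq_zero_or_pos k with h1 | h1
        · subst h1
          refine (Pol.zero _).congr (fun l => ?_)
          have h1 : G (b :: l) - G l = 0 := hG b l
          rw [h1, mul_zero]
        · obtain ⟨i', rfl⟩ : ∃ i', i = i' + 1 := ⟨i - 1, by omega⟩
          obtain ⟨k', rfl⟩ : ∃ k', k = k' + 1 := ⟨k - 1, by omega⟩
          have := ih (i := i') (k := k' + 1) (by omega) (F := fun l => F (b :: l) - F l) (hF b)
            (G := fun l => G (b :: l) - G l) (Pol.succ (hG b))
          rwa [show i' + (k' + 1) + 1 = i' + 1 + (k' + 1) by omega] at this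
    exact ((a1.add a2).add a3).congr (fun l => by beta_reduce; ring)

/-! ### Counting functions -/

/-- the number of the occurrences of `u` as a subword -/
noncomputable def NN : List Θ → List Θ → R
  | [] => fun _ => 1
  | b :: u => II b (NN u)

theorem NN_nil (l : List Θ) : NN (R := R) ([] : List Θ) l = 1 := rfl

theorem NN_cons_nil (b : Θ) (u : List Θ) : NN (R := R) (b :: u) [] = 0 := rfl

theorem NN_cons_cons (b : Θ) (u : List Θ) (a : Θ) (l : List Θ) :
    NN (R := R) (b :: u) (a :: l) = NN (b :: u) l + if a = b then NN u l else 0 := rfl

theorem NN_cons (b : Θ) (u : List Θ) : NN (R := R) (b :: u) = II b (NN u) := rfl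

theorem pol_NN (u : List Θ) : Pol (u.length + 1) (NN (R := R) u) := by
  induction u with
  | nil => exact Pol.const 1
  | cons b u ih => exact ih.II b

/-- **the functions in `Pol j` are combinations of the counting functions** -/
theorem pol_ind [Fintype Θ] : ∀ (j : ℕ) (Q : (List Θ → R) → Prop), Q (fun _ => 0) →
    (∀ F G, Q F → Q G → Q (fun l => F l + G l)) → (∀ (r : R) F, Q F → Q (fun l => r * F l)) →
    (∀ u : List Θ, u.length < j → Q (NN u)) → ∀ G : List Θ → R, Pol j G → Q G := by
  intro j
  induction j with
  | zero =>
    intro Q h0 _ _ _ G hG
    rwa [show G = fun _ => 0 from funext hG]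
  | succ j ih =>
    intro Q h0 hadd hmul hN G hG
    have hb : ∀ b : Θ, Q (II b (fun l => G (b :: l) - G l)) := by
      intro b
      refine ih (fun F => Q (II b F)) ?_ ?_ ?_ ?_ _ (hG b)
      · rwa [show II b (fun _ : List Θ => (0 : R)) = fun _ => 0 from funext (II_zero b)]
      · intro F F' h1 h2
        show Q (II b fun l => F l + F' l)
        rw [show II b (fun l => F l + F' l) = fun l => II b F l + II b F' l from
          funext (II_add b F F')]
        exact hadd _ _ h1 h2
      · intro r F h1
        show Q (II b fun l => r * F l)
        rw [show II b (fun l => r * F l) = fun l => r * II b F l from funext (II_mul b r F)]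
        exact hmul r _ h1
      · intro u hu
        exact hN (b :: u) (by simp only [List.length_cons]; omega)
    have hs : ∀ s : Finset Θ, Q (fun l => ∑ b ∈ s, II b (fun l => G (b :: l) - G l) l) := by
      intro s
      induction s using Finset.induction_on with
      | empty => simpa using h0
      | insert a s ha ih2 =>
        have := hadd _ _ (hb a) ih2
        rwa [show (fun l => ∑ b ∈ insert a s, II b (fun l => G (b :: l) - G l) l) = fun l =>
          II a (fun l => G (a :: l) - G l) l + ∑ b ∈ s, II b (fun l => G (b :: l) - G l) l from
          funext fun l => Finset.sum_insert ha]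
    have hc : Q (fun _ => G []) := by
      have := hmul (G []) _ (hN [] (by simp))
      rwa [show (fun l => G [] * NN (R := R) ([] : List Θ) l) = fun _ => G [] from
        funext fun l => by rw [NN_nil, mul_one]] at this
    have := hadd _ _ hc (hs Finset.univ)
    rwa [← show G = fun l => G [] + ∑ b ∈ Finset.univ, II b (fun l => G (b :: l) - G l) l from
      funext fun l => expand G l] at this

/-! ### The product formula -/

/-- the list of the shuffles -/
def sh : List Θ → List Θ → List (List Θ)
  | [], v => [v]
  | a :: u, [] => [a :: u]
  | a :: u, b :: v => (sh u (b :: v)).map (List.cons a) ++ (sh (a :: u) v).map (List.cons b)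
termination_by u v => u.length + v.length

theorem sh_nil (v : List Θ) : sh [] v = [v] := by
  rw [sh]

theorem sh_nil' (u : List Θ) : sh u [] = [u] := by
  cases u <;> rw [sh]

theorem sh_cons (a b : Θ) (u v : List Θ) : sh (a :: u) (b :: v) =
    (sh u (b :: v)).map (List.cons a) ++ (sh (a :: u) v).map (List.cons b) := by
  rw [sh]

/-- the sum over the shuffles -/
noncomputable def SH (L : List (List Θ)) (l : List Θ) : R := (L.map fun w => NN w l).sum

theorem SH_append (L L' : List (List Θ)) (l : List Θ) :
    SH (R := R) (L ++ L') l = SH L l + SH L' l := by
  simp [SH]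

theorem SH_single (w : List Θ) (l : List Θ) : SH (R := R) [w] l = NN w l := by
  simp [SH]

theorem SH_map (a x : Θ) (L : List (List Θ)) (l : List Θ) :
    SH (R := R) (L.map (List.cons a)) (x :: l) - SH (L.map (List.cons a)) l =
      if x = a then SH L l else 0 := by
  induction L with
  | nil => simp [SH]
  | cons w L ih =>
    have h1 : ∀ m : List Θ, SH (R := R) ((w :: L).map (List.cons a)) m =
        NN (a :: w) m + SH (L.map (List.cons a)) m := fun m => by simp [SH]
    have h2 : SH (R := R) (w :: L) l = NN w l + SH L l := by simp [SH]
    rw [h1, h1, h2, NN_cons_cons]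
    have h3 : NN (R := R) (a :: w) l + (if x = a then NN w l else 0) +
        SH (L.map (List.cons a)) (x :: l) - (NN (a :: w) l + SH (L.map (List.cons a)) l) =
        (if x = a then NN w l else 0) + (SH (L.map (List.cons a)) (x :: l) -
          SH (L.map (List.cons a)) l) := by ring
    rw [h3, ih]
    split_ifs <;> simp

/-- **the product formula**: the product of two counting functions is the sum over the shuffles,
up to functions of lower order -/
theorem NN_mul : ∀ (n : ℕ) (u v : List Θ), u.length + v.length = n →
    Pol (u.length + v.length) (fun l => NN (R := R) u l * NN v l - SH (sh u v) l) := by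
  intro n
  induction n with
  | zero =>
    intro u v hn
    have h1 : u = [] := List.eq_nil_of_length_eq_zero (by omega)
    have h2 : v = [] := List.eq_nil_of_length_eq_zero (by omega)
    subst h1 h2
    intro l
    show NN (R := R) [] l * NN [] l - SH (sh [] []) l = 0
    rw [sh_nil, SH_single, NN_nil]
    ring
  | succ n ih =>
    intro u v hn
    cases u with
    | nil =>
      refine (Pol.zero _).congr (fun l => ?_)
      rw [sh_nil, SH_single, NN_nil]
      ring
    | cons a u =>
      cases v with
      | nil =>
        refine (Pol.zero _).congr (fun l => ?_)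
        rw [sh_nil', SH_single, NN_nil]
        ring
      | cons b v =>
        have hl : (a :: u).length + (b :: v).length = (u.length + v.length + 1) + 1 := by
          simp only [List.length_cons]
          omega
        rw [hl]
        intro x
        have e1 : Pol (u.length + v.length + 1) (fun l => NN (R := R) u l * NN (b :: v) l -
            SH (sh u (b :: v)) l) := by
          have := ih u (b :: v) (by simp only [List.length_cons] at hn ⊢; omega)
          rwa [List.length_cons, ← add_assoc] at this
        have e2 : Pol (u.length + v.length + 1) (fun l => NN (R := R) (a :: u) l * NN v l -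
            SH (sh (a :: u) v) l) := by
          have := ih (a :: u) v (by simp only [List.length_cons] at hn ⊢; omega)
          rwa [List.length_cons, show u.length + 1 + v.length = u.length + v.length + 1 by omega]
            at this
        have e3 : Pol (u.length + v.length + 1) (fun l => NN (R := R) u l * NN v l) :=
          Pol.mul _ rfl (pol_NN u) (pol_NN v)
        refine (((e1.ite (x = a)).add (e2.ite (x = b))).add ((e3.ite (x = b)).ite (x = a))).congr
          (fun l => ?_)
        beta_reduce
        rw [sh_cons, SH_append, SH_append, NN_cons_cons, NN_cons_cons]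
        have h1 := SH_map (R := R) a x (sh u (b :: v)) l
        have h2 := SH_map (R := R) b x (sh (a :: u) v) l
        have h3 : (NN (R := R) (a :: u) l + if x = a then NN u l else 0) *
            (NN (b :: v) l + if x = b then NN v l else 0) -
            (SH ((sh u (b :: v)).map (List.cons a)) (x :: l) +
              SH ((sh (a :: u) v).map (List.cons b)) (x :: l)) -
            (NN (a :: u) l * NN (b :: v) l -
            (SH ((sh u (b :: v)).map (List.cons a)) l +
              SH ((sh (a :: u) v).map (List.cons b)) l)) =
            (NN (a :: u) l + if x = a then NN u l else 0) *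
            (NN (b :: v) l + if x = b then NN v l else 0) - NN (a :: u) l * NN (b :: v) l -
            (SH ((sh u (b :: v)).map (List.cons a)) (x :: l) -
              SH ((sh u (b :: v)).map (List.cons a)) l) -
            (SH ((sh (a :: u) v).map (List.cons b)) (x :: l) -
              SH ((sh (a :: u) v).map (List.cons b)) l) := by ring
        rw [h3, h1, h2]
        split_ifs <;> ring

/-- **the shuffles of `u` and `z :: v`**, if `z` is not in `u`: one is `u ++ z :: v`, in the others
the first `z` comes earlier -/
theorem sh_mark (z : Θ) (v : List Θ) : ∀ u : List Θ, z ∉ u → ∃ L : List (List Θ),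
    (sh u (z :: v)).Perm ((u ++ z :: v) :: L) ∧
      ∀ w ∈ L, w.length = u.length + v.length + 1 ∧ w.count z = v.count z + 1 ∧
        w.idxOf z < u.length := by
  -- the lengths and the numbers of `z`
  have hgen : ∀ (n : ℕ) (u v : List Θ), u.length + v.length = n → ∀ w ∈ sh u v,
      w.length = u.length + v.length ∧ w.count z = u.count z + v.count z := by
    intro n
    induction n with
    | zero =>
      intro u v hn w hw
      have h1 : u = [] := List.eq_nil_of_length_eq_zero (by omega)
      subst h1
      rw [sh_nil, List.mem_singleton] at hw
      subst hw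
      simp
    | succ n ih =>
      intro u v hn w hw
      cases u with
      | nil =>
        rw [sh_nil, List.mem_singleton] at hw
        subst hw
        simp
      | cons a u =>
        cases v with
        | nil =>
          rw [sh_nil', List.mem_singleton] at hw
          subst hw
          simp
        | cons b v =>
          rw [sh_cons, List.mem_append, List.mem_map, List.mem_map] at hw
          simp only [List.length_cons] at hn
          rcases hw with ⟨w', h1, rfl⟩ | ⟨w', h1, rfl⟩
          · obtain ⟨h2, h3⟩ := ih u (b :: v) (by simp only [List.length_cons]; omega) w' h1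
            rw [List.length_cons, List.count_cons, List.count_cons, h2, h3]
            constructor
            · simp only [List.length_cons]
              omega
            · omega
          · obtain ⟨h2, h3⟩ := ih (a :: u) v (by simp only [List.length_cons]; omega) w' h1
            rw [List.length_cons, List.count_cons, List.count_cons (l := v), h2, h3]
            constructor
            · simp only [List.length_cons]
              omega
            · omega
  intro u
  induction u with
  | nil =>
    intro _
    exact ⟨[], by rw [sh_nil]; exact List.Perm.refl _, by simp⟩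
  | cons a u ih =>
    intro hz
    rw [List.mem_cons, not_or] at hz
    obtain ⟨L, h1, h2⟩ := ih hz.2
    refine ⟨L.map (List.cons a) ++ (sh (a :: u) v).map (List.cons z), ?_, ?_⟩
    · rw [sh_cons]
      have h3 := (h1.map (List.cons a)).append_right ((sh (a :: u) v).map (List.cons z))
      rwa [List.map_cons, List.cons_append] at h3
    · intro w hw
      rw [List.mem_append, List.mem_map, List.mem_map] at hw
      rcases hw with ⟨w', h3, rfl⟩ | ⟨w', h3, rfl⟩
      · obtain ⟨h4, h5, h6⟩ := h2 w' h3
        refine ⟨by simp only [List.length_cons, h4]; omega, ?_, ?_⟩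
        · rw [List.count_cons_of_ne (fun h => hz.1 h.symm), h5]
        · rw [List.idxOf_cons_ne _ (fun h => hz.1 h.symm), List.length_cons]
          omega
      · obtain ⟨h4, h5⟩ := hgen _ (a :: u) v rfl w' h3
        have h0 : (a :: u).count z = 0 := List.count_eq_zero.2 (by
          rw [List.mem_cons, not_or]
          exact hz)
        refine ⟨by simp only [List.length_cons] at h4 ⊢; omega, ?_, ?_⟩
        · rw [List.count_cons_self, h5, h0, zero_add]
        · rw [List.idxOf_cons_self, List.length_cons]
          omega

end Ring

end Pool.Agent.GSH.NP
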