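import Pool.Agent.GSH.S4Cert

/-!
# Languages recognised by the symmetric group on four letters
-/

set_option autoImplicit false

namespace Pool.Agent.GSH.S4

variable {A : Type}

section DA

variable (step : P → A → P)

theorem alive_cons {x : P} {a : A} {w : List A}
    (h : List.foldl (stepD step 0) (some x) (a :: w) ≠ none) :
    step x a ≠ 0 ∧ List.foldl (stepD step 0) (some (step x a)) w ≠ none := by
  rw [List.foldl_cons] at h
  by_cases h1 : step x a = 0
  · exfalso
    apply h
    have : stepD step 0 (some x) a = none := by simp [stepD, h1]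
    rw [this, foldl_stepD_none]
  · refine ⟨h1, ?_⟩
    have : stepD step 0 (some x) a = some (step x a) := by simp [stepD, h1]
    rwa [this] at h

theorem foldl_inj (hinj : ∀ a, Function.Injective (fun x => step x a)) (w : List A) :
    Function.Injective (fun x => List.foldl step x w) := by
  induction w with
  | nil => intro x y h; exact h
  | cons a w ih => intro x y h; exact hinj a (ih h)

theorem pair_mono (hinj : ∀ a, Function.Injective (fun x => step x a)) (ρ : P → P → ℕ)
    (hmono : ∀ a x y, (x ≠ y ∧ x ≠ 0 ∧ y ≠ 0 ∧ step x a ≠ 0 ∧ step y a ≠ 0) →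
      ρ x y ≤ ρ (step x a) (step y a)) (w : List A) (x y : P) (hxy : x ≠ y) (hx : x ≠ 0)
    (hy : y ≠ 0) (ax : List.foldl (stepD step 0) (some x) w ≠ none)
    (ay : List.foldl (stepD step 0) (some y) w ≠ none) :
    ρ x y ≤ ρ (List.foldl step x w) (List.foldl step y w) := by
  induction w generalizing x y with
  | nil => exact le_rfl
  | cons a w ih =>
    obtain ⟨h1, h2⟩ := alive_cons step ax
    obtain ⟨h3, h4⟩ := alive_cons step ay
    exact (hmono a x y ⟨hxy, hx, hy, h1, h3⟩).trans
      (ih _ _ (fun e => hxy (hinj a e)) h1 h3 h2 h4)

set_option synthInstance.maxHeartbeats 400000 in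
set_option synthInstance.maxSize 4000 in
theorem three' : ∀ x y z u : P, (x ≠ y ∧ x ≠ z ∧ y ≠ z ∧ x ≠ 0 ∧ y ≠ 0 ∧ z ≠ 0 ∧ u ≠ 0) →
    u = x ∨ u = y ∨ u = z := by
  decide +kernel

theorem three (x y z u : P) (h : x ≠ y ∧ x ≠ z ∧ y ≠ z ∧ x ≠ 0 ∧ y ≠ 0 ∧ z ≠ 0 ∧ u ≠ 0) :
    u = x ∨ u = y ∨ u = z := three' x y z u h

theorem triple_id (hinj : ∀ a, Function.Injective (fun x => step x a))
    (hid : ∀ a, step 0 a = 0 → ∀ x, step x a = x) (w : List A) (x y z : P)
    (h : x ≠ y ∧ x ≠ z ∧ y ≠ z ∧ x ≠ 0 ∧ y ≠ 0 ∧ z ≠ 0)
    (ax : List.foldl (stepD step 0) (some x) w ≠ none)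
    (ay : List.foldl (stepD step 0) (some y) w ≠ none)
    (az : List.foldl (stepD step 0) (some z) w ≠ none) : List.foldl step x w = x := by
  induction w with
  | nil => rfl
  | cons a w ih =>
    obtain ⟨h1, h2⟩ := alive_cons step ax
    obtain ⟨h3, h4⟩ := alive_cons step ay
    obtain ⟨h5, h6⟩ := alive_cons step az
    have hs : Function.Surjective (fun x => step x a) := Finite.surjective_of_injective (hinj a)
    obtain ⟨u, hu⟩ := hs 0
    have hu' : step u a = 0 := hu
    have hu0 : u = 0 := by
      by_contra hne
      rcases three x y z u ⟨h.1, h.2.1, h.2.2.1, h.2.2.2.1, h.2.2.2.2.1, h.2.2.2.2.2, hne⟩ with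
        rfl | rfl | rfl
      · exact h1 hu'
      · exact h3 hu'
      · exact h5 hu'
    rw [hu0] at hu'
    have e := hid a hu'
    rw [e x] at h2
    rw [e y] at h4
    rw [e z] at h6
    rw [List.foldl_cons, e x]
    exact ih h2 h4 h6

theorem alive_append {x : P} {u v : List A}
    (h : List.foldl (stepD step 0) (some x) (u ++ v) ≠ none) :
    List.foldl (stepD step 0) (some x) u ≠ none ∧
      List.foldl (stepD step 0) (some (List.foldl step x u)) v ≠ none := by
  rw [List.foldl_append] at h
  have h1 : List.foldl (stepD step 0) (some x) u ≠ none := by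
    intro e
    rw [e, foldl_stepD_none] at h
    exact h rfl
  rw [foldl_stepD_some' step 0 h1] at h
  exact ⟨h1, h⟩

theorem alive_ne_zero {x : P} {w : List A} (hx : x ≠ 0)
    (h : List.foldl (stepD step 0) (some x) w ≠ none) : List.foldl step x w ≠ 0 := by
  induction w generalizing x with
  | nil => exact hx
  | cons a w ih =>
    obtain ⟨h1, h2⟩ := alive_cons step h
    exact ih h1 h2

theorem da_of_potential (hinj : ∀ a, Function.Injective (fun x => step x a))
    (hid : ∀ a, step 0 a = 0 → ∀ x, step x a = x) (ρ : P → P → ℕ)
    (hmono : ∀ a x y, (x ≠ y ∧ x ≠ 0 ∧ y ≠ 0 ∧ step x a ≠ 0 ∧ step y a ≠ 0) →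
      ρ x y ≤ ρ (step x a) (step y a))
    (hasym : ∀ x y, (x ≠ y ∧ x ≠ 0 ∧ y ≠ 0) → ρ x y ≠ ρ y x) (w : List A) (s : Option P) :
    ∃ n, List.foldl (stepD step 0) s (rep (n + 1) w) = List.foldl (stepD step 0) s (rep n w) := by
  cases s with
  | none => exact ⟨0, by rw [foldl_stepD_none, foldl_stepD_none]⟩
  | some x0 =>
    by_cases hav : ∀ n, List.foldl (stepD step 0) (some x0) (rep n w) ≠ none
    · -- the run is alive for ever
      rcases w with _ | ⟨a, w'⟩
      · refine ⟨0, ?_⟩
        rw [rep_succ']; rfl
      set w := a :: w' with hw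
      set y : ℕ → P := fun n => List.foldl step x0 (rep n w) with hy
      have hsucc : ∀ n, y (n + 1) = List.foldl step (y n) w := fun n => by
        simp only [hy]
        rw [foldl_rep_succ]
      have hal : ∀ n, List.foldl (stepD step 0) (some (y n)) w ≠ none := by
        intro n
        have := hav (n + 1)
        rw [rep_succ'] at this
        exact (alive_append step this).2
      have hne : ∀ n, y (n + 1) ≠ 0 := by
        intro n
        rw [hsucc]
        have h1 := hal n
        rw [hw] at h1 ⊢
        obtain ⟨h2, h3⟩ := alive_cons step h1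
        show List.foldl step (step (y n) a) w' ≠ 0
        exact alive_ne_zero step h2 h3
      have hI := foldl_inj step hinj w
      have hsome : ∀ n, List.foldl (stepD step 0) (some x0) (rep n w) = some (y n) := fun n =>
        foldl_stepD_some' step 0 (hav n)
      -- it suffices to find a repetition
      suffices h : y 2 = y 1 by
        refine ⟨1, ?_⟩
        rw [hsome, hsome, h]
      by_contra h21
      have h23 : y 3 ≠ y 2 := by
        intro e
        apply h21
        apply hI
        show List.foldl step (y 2) w = List.foldl step (y 1) w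
        rw [← hsucc, ← hsucc]
        exact e
      have hmon := fun (p q : P) => pair_mono step hinj ρ hmono w p q
      -- no period two
      have h13 : y 3 ≠ y 1 := by
        intro e
        have h1 := hmon (y 1) (y 2) (Ne.symm h21) (hne 0) (hne 1) (hal 1) (hal 2)
        rw [← hsucc, ← hsucc] at h1
        have h2 := hmon (y 2) (y 3) (Ne.symm h23) (hne 1) (hne 2) (hal 2) (hal 3)
        rw [← hsucc, ← hsucc] at h2
        have e4 : y 4 = y 2 := by rw [hsucc 3, e, ← hsucc]
        simp only [Nat.reduceAdd] at h1 h2
        rw [e] at h1 h2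
        rw [e4] at h2
        exact hasym (y 1) (y 2) ⟨Ne.symm h21, hne 0, hne 1⟩ (le_antisymm h1 h2)
      have := triple_id step hinj hid w (y 1) (y 2) (y 3)
        ⟨Ne.symm h21, Ne.symm h13, Ne.symm h23, hne 0, hne 1, hne 2⟩ (hal 1) (hal 2) (hal 3)
      rw [← hsucc] at this
      exact h21 this
    · push Not at hav
      obtain ⟨n, hn⟩ := hav
      exact ⟨n, by rw [rep_succ', List.foldl_append, hn, foldl_stepD_none]⟩

end DA

section Lifts

variable (cls : A → Fin 6)

/-- the affine action of a letter -/
def st (t : A → P) (x : P) (a : A) : P := lin (cls a) x + t a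

/-- the run -/
def run (t : A → P) (x : P) (w : List A) : P := List.foldl (st cls t) x w

@[simp] theorem run_nil (t : A → P) (x : P) : run cls t x [] = x := rfl

theorem run_cons (t : A → P) (x : P) (a : A) (w : List A) :
    run cls t x (a :: w) = run cls t (lin (cls a) x + t a) w := rfl

theorem run_snoc (t : A → P) (x : P) (a : A) (w : List A) :
    run cls t x (w ++ [a]) = lin (cls a) (run cls t x w) + t a := by
  unfold run
  rw [List.foldl_append]
  rfl

theorem run_add (t t' : A → P) (x x' : P) (w : List A) :
    run cls (t + t') (x + x') w = run cls t x w + run cls t' x' w := by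
  induction w using List.reverseRecOn with
  | nil => simp
  | append_singleton w a ih =>
    rw [run_snoc, run_snoc, run_snoc, ih, lin_add, Pi.add_apply]
    abel

theorem run_zero (w : List A) : run cls 0 0 w = 0 := by
  induction w using List.reverseRecOn with
  | nil => simp
  | append_singleton w a ih =>
    rw [run_snoc, ih, lin_zero]; simp

/-- the linear part of a run -/
def lw (x : P) (w : List A) : P := run cls 0 x w

theorem lw_snoc (x : P) (a : A) (w : List A) :
    lw cls x (w ++ [a]) = lin (cls a) (lw cls x w) := by
  unfold lw
  rw [run_snoc]; simp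

theorem run_eq (t : A → P) (x : P) (w : List A) :
    run cls t x w = lw cls x w + run cls t 0 w := by
  have := run_add cls 0 t x 0 w
  rw [zero_add, add_zero] at this
  exact this

theorem lw_add (x y : P) (w : List A) : lw cls (x + y) w = lw cls x w + lw cls y w := by
  have := run_add cls 0 0 x y w
  rw [zero_add] at this
  exact this

theorem lw_inj (w : List A) : Function.Injective (fun x => lw cls x w) := by
  induction w using List.reverseRecOn with
  | nil => intro x y h; exact h
  | append_singleton w a ih =>
    intro x y h
    simp only [lw_snoc] at h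
    exact ih (lin_inj _ h)

theorem st_inj (t : A → P) (a : A) : Function.Injective (fun x => st cls t x a) := by
  intro x y h
  exact lin_inj _ (add_right_cancel h)

/-- good lifts -/
def Good (t : A → P) : Prop := ∃ ρ, okR ρ ∧ ∀ a, okL ρ (cls a) (t a)

theorem Good.da {t : A → P} (h : Good cls t) (w : List A) (s : Option P) :
    ∃ n, List.foldl (stepD (st cls t) 0) s (rep (n + 1) w) =
      List.foldl (stepD (st cls t) 0) s (rep n w) := by
  obtain ⟨ρ, h1, h2⟩ := h
  refine da_of_potential (st cls t) (st_inj cls t) ?_ ρ ?_ h1 w s
  · intro a ha x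
    have h3 : t a = 0 := by
      have : lin (cls a) 0 + t a = 0 := ha
      rwa [lin_zero, zero_add] at this
    have h4 := (h2 a).1 h3
    show lin (cls a) x + t a = x
    rw [h3, h4, lin_id, add_zero]
  · intro a x y hxy
    exact (h2 a).2 x y hxy

theorem Good.meas [Finite A] {t : A → P} (h : Good cls t) (x : P) :
    Meas 1 (fun w : List A => run cls t x w) :=
  hub (st cls t) 0 (h.da cls) x

/-- a good lift exists -/
theorem exists_good : ∃ T : Fin 6 → P, ∀ cls : A → Fin 6, Good cls (fun a => T (cls a)) := by
  obtain ⟨T, T', ρ, ρ', h1, h2, h3, h4, h5⟩ := certB (0, 1) (by decide)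
  exact ⟨T, fun cls => ⟨ρ, h1, fun a => h3 _⟩⟩

theorem meas_lw [Finite A] (x : P) : Meas 1 (fun w : List A => lw cls x w) := by
  obtain ⟨T, hT⟩ := exists_good (A := A)
  have h := (hT cls).meas
  refine ((h x).comp₂ (h 0) (fun p q => p + q)).determined (fun w w' e => ?_)
  have e' : ∀ w : List A, lw cls x w = run cls (fun a => T (cls a)) x w +
      run cls (fun a => T (cls a)) 0 w := by
    intro w
    rw [run_eq, add_assoc, add_self, add_zero]
  show lw cls x w = lw cls x w'
  rw [e', e']
  exact e

/-- one letter with nontrivial linear part -/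
theorem meas_single [Finite A] [DecidableEq A] (b : A) (hb : cls b ≠ 0) (d : P) (hd : d ≠ 0) :
    Meas 1 (fun w : List A => run cls (Pi.single b d) 0 w) := by
  obtain ⟨T, q, q', ρ, ρ', h1, h2, h3, h4, h5, h6, h7⟩ := certC (cls b) hb d hd
  let t1 : A → P := fun a => if a = b then q else T (cls a)
  let t2 : A → P := fun a => if a = b then q' else T (cls a)
  have g1 : Good cls t1 := by
    refine ⟨ρ, h2, fun a => ?_⟩
    by_cases e : a = b
    · subst e; simpa [t1] using h6
    · simpa [t1, e] using h4 _
  have g2 : Good cls t2 := by
    refine ⟨ρ', h3, fun a => ?_⟩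
    by_cases e : a = b
    · subst e; simpa [t2] using h7
    · simpa [t2, e] using h5 _
  have e : (Pi.single b d : A → P) = t1 + t2 := by
    funext a
    by_cases e : a = b
    · subst e; simp [t1, t2, h1]
    · simp [t1, t2, e, add_self]
  have h := ((g1.meas cls 0).comp₂ (g2.meas cls 0) (fun p q => p + q))
  convert h using 2 with w
  rw [e, ← run_add, add_zero]

end Lifts

section Trivial

variable (cls : A → Fin 6) (T : Fin 6 → P) (hT0 : T 0 = 0) (b : A) (hb : cls b = 0)

/-- increments of the first counter -/
def inc1 (x : P) (a : A) : Prop := x = 0 ∧ (cls a ≠ 0 ∨ a = b)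

/-- increments of the second counter -/
def inc2 (x : P) (a : A) : Prop := x = 0 ∧ cls a ≠ 0

include hT0 in
theorem lemA (inc : P → A → Prop) (hinc : ∀ a, cls a ≠ 0 → inc 0 a) (w : List A)
    (h : incs (st cls (fun a => T (cls a))) inc 0 w = 0) :
    List.foldl (st cls (fun a => T (cls a))) 0 w = 0 := by
  induction w with
  | nil => rfl
  | cons a w ih =>
    have h1 : cls a = 0 := by
      by_contra hne
      simp [incs, hinc a hne] at h
    have h2 : st cls (fun a => T (cls a)) 0 a = 0 := by
      show lin (cls a) 0 + T (cls a) = 0
      rw [h1, hT0, lin_zero, add_zero]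
    rw [List.foldl_cons, h2]
    apply ih
    simp only [incs, h2] at h
    omega

include hT0 in
theorem lemB (inc : P → A → Prop) (hinc : ∀ a, cls a ≠ 0 → inc 0 a) (q : P) (w : List A)
    (h : incs (st cls (fun a => T (cls a))) inc q w = 0) :
    List.foldl (stepD (st cls (fun a => T (cls a))) 0) (some q) w ≠ none ∨
      List.foldl (st cls (fun a => T (cls a))) q w = 0 := by
  induction w generalizing q with
  | nil => left; simp
  | cons a w ih =>
    rw [incs] at h
    by_cases h2 : st cls (fun a => T (cls a)) q a = 0
    · right
      rw [List.foldl_cons, h2]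
      apply lemA cls T hT0 inc hinc
      rw [h2] at h
      omega
    · rcases ih (st cls (fun a => T (cls a)) q a) (by omega) with h3 | h3
      · left
        rw [List.foldl_cons]
        have : stepD (st cls (fun a => T (cls a))) 0 (some q) a =
            some (st cls (fun a => T (cls a)) q a) := by simp [stepD, h2]
        rwa [this]
      · right; exact h3

include hT0 in
theorem meas_inc [Finite A] (hg : Good cls (fun a => T (cls a))) (inc : P → A → Prop)
    (hinc0 : ∀ x a, inc x a → x = 0) (hinc : ∀ a, cls a ≠ 0 → inc 0 a) (s : P) :
    Meas 1 (fun w : List A => (incs (st cls (fun a => T (cls a))) inc s w : ZMod 2)) := by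
  have := counter (step := st cls (fun a => T (cls a))) (inc := inc) (t0 := 0)
    (W := fun _ => False) (fun q a h => Or.inl (hinc0 q a h)) (fun q a _ h => h)
    (fun q a h => h.elim) ?_ 2 s
  · exact this.comp (fun p => p.2)
  · intro q w hz
    by_cases h0 : ∃ n, List.foldl (st cls (fun a => T (cls a))) q (rep n w) = 0
    · obtain ⟨n, hn⟩ := h0
      refine ⟨n, ?_⟩
      rw [foldl_rep_succ, hn]
      apply lemA cls T hT0 inc hinc
      have := hz (n + 1)
      rw [rep_succ', incs_append, hn] at this
      omega
    · push Not at h0
      obtain ⟨n, hn⟩ := hg.da cls w (some q)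
      refine ⟨n, ?_⟩
      have h1 : ∀ m, List.foldl (stepD (st cls (fun a => T (cls a))) 0) (some q) (rep m w) =
          some (List.foldl (st cls (fun a => T (cls a))) q (rep m w)) := by
        intro m
        rcases lemB cls T hT0 inc hinc q (rep m w) (hz m) with h | h
        · exact foldl_stepD_some' _ 0 h
        · exact absurd h (h0 m)
      rw [h1, h1] at hn
      exact Option.some.inj hn

open Classical in
/-- number of letters `b` read in the state `0`, starting from `s` -/
noncomputable def cnt (s : P) (w : List A) : ℕ :=
  incs (st cls (fun a => T (cls a))) (fun x a => x = 0 ∧ a = b) s w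

include hb in
theorem cnt_eq (s : P) (w : List A) :
    incs (st cls (fun a => T (cls a))) (inc1 cls b) s w =
      incs (st cls (fun a => T (cls a))) (inc2 cls) s w + cnt cls T b s w := by
  classical
  induction w generalizing s with
  | nil => simp [incs, cnt]
  | cons a w ih =>
    unfold cnt
    rw [incs, incs, incs, ih]
    unfold cnt
    have : (if inc1 cls b s a then 1 else 0) =
        (if inc2 cls s a then 1 else 0) + (if s = 0 ∧ a = b then 1 else 0) := by
      unfold inc1 inc2
      by_cases h1 : s = 0
      · by_cases h2 : a = b
        · subst h2; simp [h1, hb]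
        · by_cases h3 : cls a = 0
          · simp [h1, h2, h3]
          · simp [h1, h2, h3]
      · simp [h1]
    rw [this]
    ring

include hT0 hb in
theorem meas_cnt [Finite A] (hg : Good cls (fun a => T (cls a))) (s : P) :
    Meas 1 (fun w : List A => (cnt cls T b s w : ZMod 2)) := by
  have h1 := meas_inc cls T hT0 hg (inc1 cls b) (fun x a h => h.1)
    (fun a h => ⟨rfl, Or.inl h⟩) s
  have h2 := meas_inc cls T hT0 hg (inc2 cls) (fun x a h => h.1) (fun a h => ⟨rfl, h⟩) s
  have h3 := h1.comp₂ h2 (fun p q => p - q)
  convert h3 using 2 with w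
  rw [cnt_eq cls T b hb s w]
  push_cast
  ring

/-- the weighted sum of the counts -/
noncomputable def Y (w : List A) : P := ∑ s : P, ((cnt cls T b s w : ZMod 2) * s.1,
  (cnt cls T b s w : ZMod 2) * s.2)

theorem cnt_snoc (s : P) (w : List A) (a : A) :
    cnt cls T b s (w ++ [a]) = cnt cls T b s w +
      (open Classical in if run cls (fun a => T (cls a)) s w = 0 ∧ a = b then 1 else 0) := by
  unfold cnt
  rw [incs_append]
  congr 1
  simp only [incs, add_zero]
  unfold run
  congr

theorem lw_smul (c : ZMod 2) (x : P) (w : List A) :
    lw cls (c * x.1, c * x.2) w = (c * (lw cls x w).1, c * (lw cls x w).2) := by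
  have : c = 0 ∨ c = 1 := by revert c; decide
  rcases this with rfl | rfl
  · simp only [zero_mul]
    have : lw cls ((0, 0) : P) w = 0 := run_zero cls w
    rw [this]; rfl
  · simp only [one_mul]

theorem lw_sum {ι : Type} (s : Finset ι) (f : ι → P) (w : List A) :
    lw cls (∑ i ∈ s, f i) w = ∑ i ∈ s, lw cls (f i) w := by
  classical
  induction s using Finset.induction_on with
  | empty => simp only [Finset.sum_empty]; exact run_zero cls w
  | insert a s ha ih => rw [Finset.sum_insert ha, Finset.sum_insert ha, lw_add, ih]

theorem Y_snoc (w : List A) (a : A) :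
    lw cls (Y cls T b (w ++ [a])) w = lw cls (Y cls T b w) w +
      (open Classical in if a = b then run cls (fun a => T (cls a)) 0 w else 0) := by
  classical
  have h1 : Y cls T b (w ++ [a]) = Y cls T b w +
      ∑ s : P, (if run cls (fun a => T (cls a)) s w = 0 ∧ a = b then s else 0) := by
    unfold Y
    rw [← Finset.sum_add_distrib]
    refine Finset.sum_congr rfl (fun s _ => ?_)
    rw [cnt_snoc]
    split_ifs with h
    · push_cast
      ext <;> simp <;> ring
    · simp
  rw [h1, lw_add, lw_sum]
  congr 1
  by_cases e : a = b
  · simp only [e, and_true, if_true]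
    -- the bijection
    have hs : Function.Surjective (fun x => lw cls x w) :=
      Finite.surjective_of_injective (lw_inj cls w)
    obtain ⟨s0, hs0⟩ := hs (run cls (fun a => T (cls a)) 0 w)
    have hs0' : lw cls s0 w = run cls (fun a => T (cls a)) 0 w := hs0
    rw [Finset.sum_eq_single s0]
    · rw [if_pos]
      · exact hs0'
      · rw [run_eq, hs0', add_self]
    · intro s _ hne
      rw [if_neg]
      · exact run_zero cls w
      · intro h
        apply hne
        apply lw_inj cls w
        show lw cls s w = lw cls s0 w
        rw [hs0']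
        rw [run_eq] at h
        have h2 := congrArg (fun z => z + run cls (fun a => T (cls a)) 0 w) h
        simp only [add_assoc, add_self, add_zero, zero_add] at h2
        exact h2
    · intro h; exact absurd (Finset.mem_univ _) h
  · simp only [e, and_false, if_false]
    apply Finset.sum_eq_zero
    intro s _
    exact run_zero cls w

end Trivial

section Main

variable (cls : A → Fin 6)

theorem run_cob (c : P) (w : List A) :
    run cls (fun a => lin (cls a) c + c) 0 w = lw cls c w + c := by
  induction w using List.reverseRecOn with
  | nil => simp [lw, add_self]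
  | append_singleton w a ih =>
    rw [run_snoc, ih, lw_snoc, lin_add]
    have := add_self (lin (cls a) c)
    calc lin (cls a) (lw cls c w) + lin (cls a) c + (lin (cls a) c + c)
        = lin (cls a) (lw cls c w) + (lin (cls a) c + lin (cls a) c) + c := by abel
      _ = _ := by rw [this, add_zero]

/-- one letter with trivial linear part -/
theorem meas_trivial [Finite A] [DecidableEq A] (b : A) (hb : cls b = 0) (c : P) (hc : c ≠ 0) :
    Meas 1 (fun w : List A => run cls (Pi.single b c) 0 w) := by
  obtain ⟨T, T', ρ, ρ', h1, h2, h3, h4, h5, h6, h7⟩ := certB c hc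
  have g : Good cls (fun a => T (cls a)) := ⟨ρ, h1, fun a => h3 _⟩
  have g' : Good cls (fun a => T' (cls a)) := ⟨ρ', h2, fun a => h4 _⟩
  have key : ∀ w : List A, run cls (Pi.single b c) 0 w =
      lw cls (Y cls T b w + Y cls T' b w +
        ((w.count b : ZMod 2) * c.1, (w.count b : ZMod 2) * c.2)) w := by
    intro w
    induction w using List.reverseRecOn with
    | nil =>
      have : ∀ T : Fin 6 → P, Y cls T b [] = 0 := by
        intro T
        unfold Y
        apply Finset.sum_eq_zero
        intro s _
        simp [cnt, incs]
      simp [lw, this]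
      rfl
    | append_singleton w a ih =>
      rw [run_snoc, ih, lw_snoc, lw_add, lw_add, lw_add, lw_add, Y_snoc, Y_snoc]
      have hco : run cls (fun a => T (cls a)) 0 w + run cls (fun a => T' (cls a)) 0 w =
          lw cls c w + c := by
        rw [← run_cob, ← run_add]
        congr 1
        · funext a; exact h7 _
      by_cases e : a = b
      · subst e
        simp only [if_true, hb, lin_id, Pi.single_eq_same]
        rw [List.count_append]
        have e1 : ((List.count a w + List.count a [a] : ℕ) : ZMod 2) =
            (List.count a w : ZMod 2) + 1 := by simp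
        rw [e1]
        have e2 : (((List.count a w : ZMod 2) + 1) * c.1, ((List.count a w : ZMod 2) + 1) * c.2) =
            (((List.count a w : ZMod 2)) * c.1, ((List.count a w : ZMod 2)) * c.2) + c := by
          ext <;> simp <;> ring
        rw [e2, lw_add]
        calc _ = lw cls (Y cls T a w) w + lw cls (Y cls T' a w) w +
              lw cls (((List.count a w : ZMod 2)) * c.1, ((List.count a w : ZMod 2)) * c.2) w +
              (lw cls c w + (lw cls c w + c)) := by
              rw [← add_assoc (lw cls c w), add_self, zero_add]
          _ = _ := by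
              rw [← hco]
              abel
      · simp only [e, if_false, add_zero]
        rw [List.count_append]
        have e1 : List.count b [a] = 0 := by simp [e]
        rw [e1, add_zero, Pi.single_eq_of_ne e, add_zero]
  have hlw : Meas 1 (fun (w : List A) (x : P) => lw cls x w) := Meas.pi (fun x => meas_lw cls x)
  have hY : ∀ T : Fin 6 → P, T 0 = 0 → Good cls (fun a => T (cls a)) →
      Meas 1 (fun w : List A => Y cls T b w) := by
    intro T h0 hg
    unfold Y
    exact Meas.sum _ (fun s _ => (meas_cnt cls T h0 b hb hg s).comp
      (fun z => ((z * s.1, z * s.2) : P)))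
  have hct := (meas_count b 2).comp (fun z => ((z * c.1, z * c.2) : P))
  have hsum := ((hY T h5 g).comp₂ (hY T' h6 g') (fun p q => p + q)).comp₂ hct (fun p q => p + q)
  have := hlw.comp₂ hsum (fun l p => l p)
  convert this using 2 with w
  exact key w

theorem meas_run0 [Finite A] (t : A → P) : Meas 1 (fun w : List A => run cls t 0 w) := by
  classical
  let _ := Fintype.ofFinite A
  have h1 : ∀ (s : Finset A), Meas 1 (fun w : List A => run cls (∑ b ∈ s, Pi.single b (t b)) 0 w) := by
    intro s
    induction s using Finset.induction_on with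
    | empty =>
      simp only [Finset.sum_empty, run_zero]
      exact Meas.const 1 0
    | insert b s hb ih =>
      have h2 : Meas 1 (fun w : List A => run cls (Pi.single b (t b)) 0 w) := by
        by_cases h0 : t b = 0
        · rw [h0, Pi.single_zero]
          simp only [run_zero]
          exact Meas.const 1 0
        · by_cases hc : cls b = 0
          · exact meas_trivial cls b hc _ h0
          · exact meas_single cls b hc _ h0
      have h3 := h2.comp₂ ih (fun p q => p + q)
      convert h3 using 2 with w
      rw [Finset.sum_insert hb, ← run_add, add_zero]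
  have h4 := h1 Finset.univ
  rw [Finset.univ_sum_single] at h4
  exact h4

theorem meas_run [Finite A] (t : A → P) (x : P) : Meas 1 (fun w : List A => run cls t x w) := by
  have := (meas_lw cls x).comp₂ (meas_run0 cls t) (fun p q => p + q)
  convert this using 2 with w
  exact run_eq cls t x w

theorem meas_perm [Finite A] (f : A → Equiv.Perm P) :
    Meas 1 (fun w : List A => (w.map f).prod) := by
  choose cls t h using fun a => affine (fun x => (f a)⁻¹ x) (f a)⁻¹.injective
  have h1 : Meas 1 (fun (w : List A) (x : P) => run cls t x w) :=
    Meas.pi (fun x => meas_run cls t x)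
  have h2 : ∀ (w : List A) (x : P), ((w.map f).prod)⁻¹ x = run cls t x w := by
    intro w
    induction w with
    | nil => intro x; simp
    | cons a w ih =>
      intro x
      rw [List.map_cons, List.prod_cons, mul_inv_rev, Equiv.Perm.mul_apply, ih, run_cons, h]
  refine h1.determined (fun w w' e => ?_)
  apply inv_injective
  ext1 x
  rw [h2, h2]
  exact congrFun e x

/-- Languages recognised by a group whose homomorphisms to the symmetric group on four letters
separate its elements. -/
theorem main_S4 [Finite A] {G : Type} [Group G] {ι : Type} [Finite ι]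
    (φ : ι → G →* Equiv.Perm (Fin 4)) (hφ : ∀ g : G, (∀ i, φ i g = 1) → g = 1) (f : A → G)
    (T : Set G) : Ht 1 {w : List A | (w.map f).prod ∈ T} := by
  have e : Fin 4 ≃ P := Fintype.equivOfCardEq (by decide)
  have h1 : Meas 1 (fun (w : List A) (i : ι) => (w.map (fun a => e.permCongr (φ i (f a)))).prod) :=
    Meas.pi (fun i => meas_perm (fun a => e.permCongr (φ i (f a))))
  have hG : Finite G := by
    have : Function.Injective (fun (g : G) (i : ι) => φ i g) := by
      intro g h e
      have : g⁻¹ * h = 1 := hφ _ (fun i => by
        rw [map_mul, map_inv]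
        have h5 : φ i g = φ i h := congrFun e i
        rw [h5]; simp)
      exact (inv_mul_eq_one.1 this)
    exact Finite.of_injective _ this
  have h2 : ∀ (i : ι) (w : List A), (w.map (fun a => e.permCongr (φ i (f a)))).prod =
      e.permCongrHom (φ i (w.map f).prod) := by
    intro i w
    rw [map_list_prod, map_list_prod, List.map_map, List.map_map]
    rfl
  have h3 : Meas 1 (fun w : List A => (w.map f).prod) := by
    refine h1.determined (fun w w' e' => ?_)
    have : (w.map f).prod⁻¹ * (w'.map f).prod = 1 := hφ _ (fun i => by
      have := congrFun e' i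
      rw [h2, h2] at this
      have h4 := e.permCongrHom.injective this
      rw [map_mul, map_inv, h4]; simp)
    exact (inv_mul_eq_one.1 this)
  exact h3.preimage T

end Main

end Pool.Agent.GSH.S4
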