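import Pool.Agent.GSH.Counter

/-!
# Languages recognised by the symmetric group on four letters
-/

set_option autoImplicit false

namespace Pool.Agent.GSH.S4

/-- the four points -/
abbrev P : Type := ZMod 2 × ZMod 2

/-- image of `(0,1)` -/
def im1 : Fin 6 → P := ![(0, 1), (0, 1), (1, 0), (1, 0), (1, 1), (1, 1)]

/-- image of `(1,0)` -/
def im2 : Fin 6 → P := ![(1, 0), (1, 1), (0, 1), (1, 1), (0, 1), (1, 0)]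

/-- the six linear bijections of the plane over the field with two elements -/
def lin (i : Fin 6) (x : P) : P :=
  (x.1 * (im2 i).1 + x.2 * (im1 i).1, x.1 * (im2 i).2 + x.2 * (im1 i).2)

theorem lin_add (i : Fin 6) (x y : P) : lin i (x + y) = lin i x + lin i y := by
  unfold lin
  ext
  · simp only [Prod.fst_add, Prod.snd_add]; ring
  · simp only [Prod.fst_add, Prod.snd_add]; ring

theorem lin_zero (i : Fin 6) : lin i 0 = 0 := by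
  unfold lin; simp

theorem lin_id (x : P) : lin 0 x = x := by
  revert x; decide

theorem lin_inj (i : Fin 6) : Function.Injective (lin i) := by
  revert i; decide

theorem add_self (x : P) : x + x = 0 := by revert x; decide

set_option synthInstance.maxHeartbeats 400000 in
set_option synthInstance.maxSize 4000 in
theorem affine0 : ∀ b c d : P, (b ≠ 0 ∧ c ≠ 0 ∧ d ≠ 0 ∧ b ≠ c ∧ b ≠ d ∧ c ≠ d) →
    ∃ l : Fin 6, lin l (0, 1) = b ∧ lin l (1, 0) = c ∧ lin l (1, 1) = d := by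
  decide +kernel

theorem cases_P (x : P) : x = (0, 0) ∨ x = (0, 1) ∨ x = (1, 0) ∨ x = (1, 1) := by
  revert x; decide

theorem affine (g : P → P) (hg : Function.Injective g) :
    ∃ (l : Fin 6) (s : P), ∀ x, g x = lin l x + s := by
  have h : ∀ x y : P, x ≠ y → g x + g 0 ≠ g y + g 0 := fun x y hxy e =>
    hxy (hg (add_right_cancel e))
  have h0 : ∀ x : P, x ≠ 0 → g x + g 0 ≠ 0 := by
    intro x hx
    have := h x 0 hx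
    rwa [add_self] at this
  obtain ⟨l, h1, h2, h3⟩ := affine0 (g (0, 1) + g 0) (g (1, 0) + g 0) (g (1, 1) + g 0)
    ⟨h0 _ (by decide), h0 _ (by decide), h0 _ (by decide), h _ _ (by decide), h _ _ (by decide),
      h _ _ (by decide)⟩
  refine ⟨l, g 0, fun x => ?_⟩
  rcases cases_P x with rfl | rfl | rfl | rfl
  · have : lin l ((0, 0) : P) = 0 := lin_zero l
    rw [this, zero_add]; rfl
  · rw [h1, add_assoc, add_self, add_zero]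
  · rw [h2, add_assoc, add_self, add_zero]
  · rw [h3, add_assoc, add_self, add_zero]

/-- table of a potential -/
def tb (r : List ℕ) (x y : P) : ℕ := r.getD (8 * x.1.val + 4 * x.2.val + 2 * y.1.val + y.2.val) 0

/-- local condition -/
def okL (ρ : P → P → ℕ) (l : Fin 6) (s : P) : Prop :=
  (s = 0 → l = 0) ∧ ∀ x y : P,
    (x ≠ y ∧ x ≠ 0 ∧ y ≠ 0 ∧ lin l x + s ≠ 0 ∧ lin l y + s ≠ 0) →
    ρ x y ≤ ρ (lin l x + s) (lin l y + s)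

instance (ρ : P → P → ℕ) (l : Fin 6) (s : P) : Decidable (okL ρ l s) := by
  unfold okL; infer_instance

/-- asymmetry -/
def okR (ρ : P → P → ℕ) : Prop := ∀ x y : P, (x ≠ y ∧ x ≠ 0 ∧ y ≠ 0) → ρ x y ≠ ρ y x

instance (ρ : P → P → ℕ) : Decidable (okR ρ) := by
  unfold okR; infer_instance

/-- the condition on a pair of lifts -/
def okC (l : Fin 6) (d : P) (T : Fin 6 → P) (q q' : P) (ρ ρ' : P → P → ℕ) : Prop :=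
  q + q' = d ∧ okR ρ ∧ okR ρ' ∧ (∀ i, okL ρ i (T i)) ∧ (∀ i, okL ρ' i (T i)) ∧
    okL ρ l q ∧ okL ρ' l q'

instance (l : Fin 6) (d : P) (T : Fin 6 → P) (q q' : P) (ρ ρ' : P → P → ℕ) :
    Decidable (okC l d T q q' ρ ρ') := by
  unfold okC; infer_instance

/-- the condition on a coboundary -/
def okB (c : P) (T T' : Fin 6 → P) (ρ ρ' : P → P → ℕ) : Prop :=
  okR ρ ∧ okR ρ' ∧ (∀ i, okL ρ i (T i)) ∧ (∀ i, okL ρ' i (T' i)) ∧ T 0 = 0 ∧ T' 0 = 0 ∧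
    ∀ i, T i + T' i = lin i c + c

instance (c : P) (T T' : Fin 6 → P) (ρ ρ' : P → P → ℕ) : Decidable (okB c T T' ρ ρ') := by
  unfold okB; infer_instance

theorem c11 : okC 1 (0, 1) ![(0, 0), (0, 1), (0, 1), (0, 1), (0, 1), (0, 1)] (1, 0) (1, 1)
    (tb [0, 0, 0, 0, 0, 0, 0, 2, 0, 1, 0, 4, 0, 3, 5, 0])
    (tb [0, 0, 0, 0, 0, 0, 3, 0, 0, 1, 0, 4, 0, 2, 5, 0]) := by
  decide +kernel

theorem c12 : okC 1 (1, 0) ![(0, 0), (0, 1), (0, 1), (0, 1), (0, 1), (0, 1)] (0, 1) (1, 1)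
    (tb [0, 0, 0, 0, 0, 0, 0, 1, 0, 2, 0, 4, 0, 3, 5, 0])
    (tb [0, 0, 0, 0, 0, 0, 3, 0, 0, 1, 0, 4, 0, 2, 5, 0]) := by
  decide +kernel

theorem c13 : okC 1 (1, 1) ![(0, 0), (0, 1), (0, 1), (0, 1), (0, 1), (0, 1)] (0, 1) (1, 0)
    (tb [0, 0, 0, 0, 0, 0, 0, 1, 0, 2, 0, 4, 0, 3, 5, 0])
    (tb [0, 0, 0, 0, 0, 0, 0, 2, 0, 1, 0, 4, 0, 3, 5, 0]) := by
  decide +kernel

theorem c21 : okC 2 (0, 1) ![(0, 0), (0, 1), (0, 1), (0, 1), (1, 0), (0, 1)] (1, 0) (1, 1)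
    (tb [0, 0, 0, 0, 0, 0, 0, 2, 0, 1, 0, 3, 0, 3, 2, 0])
    (tb [0, 0, 0, 0, 0, 0, 0, 1, 0, 2, 0, 4, 0, 3, 5, 0]) := by
  decide +kernel

theorem c22 : okC 2 (1, 0) ![(0, 0), (0, 1), (0, 1), (0, 1), (0, 1), (0, 1)] (0, 1) (1, 1)
    (tb [0, 0, 0, 0, 0, 0, 0, 1, 0, 2, 0, 4, 0, 3, 5, 0])
    (tb [0, 0, 0, 0, 0, 0, 0, 1, 0, 2, 0, 4, 0, 3, 5, 0]) := by
  decide +kernel

theorem c23 : okC 2 (1, 1) ![(0, 0), (0, 1), (0, 1), (0, 1), (1, 0), (0, 1)] (0, 1) (1, 0)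
    (tb [0, 0, 0, 0, 0, 0, 0, 1, 0, 2, 0, 4, 0, 3, 5, 0])
    (tb [0, 0, 0, 0, 0, 0, 0, 2, 0, 1, 0, 3, 0, 3, 2, 0]) := by
  decide +kernel

theorem c31 : okC 3 (0, 1) ![(0, 0), (0, 1), (1, 0), (0, 1), (1, 0), (1, 0)] (1, 0) (1, 1)
    (tb [0, 0, 0, 0, 0, 0, 0, 4, 0, 1, 0, 2, 0, 5, 3, 0])
    (tb [0, 0, 0, 0, 0, 0, 0, 0, 0, 1, 0, 1, 0, 1, 0, 0]) := by
  decide +kernel

theorem c32 : okC 3 (1, 0) ![(0, 0), (0, 1), (0, 1), (0, 1), (0, 1), (0, 1)] (0, 1) (1, 1)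
    (tb [0, 0, 0, 0, 0, 0, 0, 1, 0, 2, 0, 4, 0, 3, 5, 0])
    (tb [0, 0, 0, 0, 0, 0, 1, 0, 0, 3, 0, 4, 0, 2, 5, 0]) := by
  decide +kernel

theorem c33 : okC 3 (1, 1) ![(0, 0), (0, 1), (1, 0), (0, 1), (1, 0), (0, 1)] (0, 1) (1, 0)
    (tb [0, 0, 0, 0, 0, 0, 0, 5, 0, 1, 0, 2, 0, 3, 4, 0])
    (tb [0, 0, 0, 0, 0, 0, 0, 4, 0, 1, 0, 2, 0, 5, 3, 0]) := by
  decide +kernel

theorem c41 : okC 4 (0, 1) ![(0, 0), (0, 1), (0, 1), (0, 1), (0, 1), (1, 0)] (1, 0) (1, 1)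
    (tb [0, 0, 0, 0, 0, 0, 0, 1, 0, 2, 0, 4, 0, 3, 5, 0])
    (tb [0, 0, 0, 0, 0, 0, 2, 0, 0, 3, 0, 3, 0, 1, 2, 0]) := by
  decide +kernel

theorem c42 : okC 4 (1, 0) ![(0, 0), (0, 1), (0, 1), (0, 1), (0, 1), (1, 0)] (0, 1) (1, 1)
    (tb [0, 0, 0, 0, 0, 0, 0, 1, 0, 2, 0, 4, 0, 3, 5, 0])
    (tb [0, 0, 0, 0, 0, 0, 2, 0, 0, 3, 0, 3, 0, 1, 2, 0]) := by
  decide +kernel

theorem c43 : okC 4 (1, 1) ![(0, 0), (0, 1), (0, 1), (0, 1), (0, 1), (0, 1)] (0, 1) (1, 0)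
    (tb [0, 0, 0, 0, 0, 0, 0, 1, 0, 2, 0, 4, 0, 3, 5, 0])
    (tb [0, 0, 0, 0, 0, 0, 0, 1, 0, 2, 0, 4, 0, 3, 5, 0]) := by
  decide +kernel

theorem c51 : okC 5 (0, 1) ![(0, 0), (0, 1), (0, 1), (1, 1), (0, 1), (0, 1)] (1, 0) (1, 1)
    (tb [0, 0, 0, 0, 0, 0, 1, 0, 0, 3, 0, 4, 0, 2, 5, 0])
    (tb [0, 0, 0, 0, 0, 0, 2, 0, 0, 3, 0, 2, 0, 1, 3, 0]) := by
  decide +kernel

theorem c52 : okC 5 (1, 0) ![(0, 0), (0, 1), (0, 1), (1, 1), (0, 1), (0, 1)] (0, 1) (1, 1)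
    (tb [0, 0, 0, 0, 0, 0, 1, 0, 0, 3, 0, 4, 0, 2, 5, 0])
    (tb [0, 0, 0, 0, 0, 0, 2, 0, 0, 3, 0, 2, 0, 1, 3, 0]) := by
  decide +kernel

theorem c53 : okC 5 (1, 1) ![(0, 0), (0, 1), (0, 1), (0, 1), (0, 1), (0, 1)] (0, 1) (1, 0)
    (tb [0, 0, 0, 0, 0, 0, 0, 1, 0, 2, 0, 4, 0, 3, 5, 0])
    (tb [0, 0, 0, 0, 0, 0, 0, 1, 0, 2, 0, 4, 0, 3, 5, 0]) := by
  decide +kernel

theorem b1 : okB (0, 1) ![(0, 0), (0, 1), (0, 1), (0, 1), (0, 1), (0, 1)] ![(0, 0), (0, 1), (1, 0), (1, 0), (1, 1), (1, 1)]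
    (tb [0, 0, 0, 0, 0, 0, 0, 1, 0, 2, 0, 4, 0, 3, 5, 0])
    (tb [0, 0, 0, 0, 0, 0, 2, 3, 0, 4, 0, 0, 0, 5, 1, 0]) := by
  decide +kernel

theorem b2 : okB (1, 0) ![(0, 0), (1, 0), (1, 0), (1, 0), (1, 0), (0, 1)] ![(0, 0), (1, 1), (0, 1), (1, 1), (0, 1), (0, 1)]
    (tb [0, 0, 0, 0, 0, 0, 0, 4, 0, 1, 0, 2, 0, 5, 3, 0])
    (tb [0, 0, 0, 0, 0, 0, 2, 0, 0, 3, 0, 4, 0, 1, 5, 0]) := by
  decide +kernel

theorem b3 : okB (1, 1) ![(0, 0), (1, 0), (0, 1), (0, 1), (1, 0), (0, 1)] ![(0, 0), (1, 1), (0, 1), (1, 1), (1, 1), (1, 1)]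
    (tb [0, 0, 0, 0, 0, 0, 0, 2, 0, 1, 0, 4, 0, 3, 5, 0])
    (tb [0, 0, 0, 0, 0, 0, 4, 0, 0, 5, 0, 2, 0, 1, 3, 0]) := by
  decide +kernel

theorem certC (l : Fin 6) (hl : l ≠ 0) (d : P) (hd : d ≠ 0) :
    ∃ T q q' ρ ρ', okC l d T q q' ρ ρ' := by
  fin_cases l
  · exact absurd rfl hl

  · rcases (by revert d; decide : ∀ d : P, d ≠ 0 → d = (0, 1) ∨ d = (1, 0) ∨ d = (1, 1)) d hd with
      rfl | rfl | rfl
    · exact ⟨_, _, _, _, _, c11⟩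
    · exact ⟨_, _, _, _, _, c12⟩
    · exact ⟨_, _, _, _, _, c13⟩
  · rcases (by revert d; decide : ∀ d : P, d ≠ 0 → d = (0, 1) ∨ d = (1, 0) ∨ d = (1, 1)) d hd with
      rfl | rfl | rfl
    · exact ⟨_, _, _, _, _, c21⟩
    · exact ⟨_, _, _, _, _, c22⟩
    · exact ⟨_, _, _, _, _, c23⟩
  · rcases (by revert d; decide : ∀ d : P, d ≠ 0 → d = (0, 1) ∨ d = (1, 0) ∨ d = (1, 1)) d hd with
      rfl | rfl | rfl
    · exact ⟨_, _, _, _, _, c31⟩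
    · exact ⟨_, _, _, _, _, c32⟩
    · exact ⟨_, _, _, _, _, c33⟩
  · rcases (by revert d; decide : ∀ d : P, d ≠ 0 → d = (0, 1) ∨ d = (1, 0) ∨ d = (1, 1)) d hd with
      rfl | rfl | rfl
    · exact ⟨_, _, _, _, _, c41⟩
    · exact ⟨_, _, _, _, _, c42⟩
    · exact ⟨_, _, _, _, _, c43⟩
  · rcases (by revert d; decide : ∀ d : P, d ≠ 0 → d = (0, 1) ∨ d = (1, 0) ∨ d = (1, 1)) d hd with
      rfl | rfl | rfl
    · exact ⟨_, _, _, _, _, c51⟩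
    · exact ⟨_, _, _, _, _, c52⟩
    · exact ⟨_, _, _, _, _, c53⟩

theorem certB (c : P) (hc : c ≠ 0) : ∃ T T' ρ ρ', okB c T T' ρ ρ' := by
  rcases (by revert c; decide : ∀ d : P, d ≠ 0 → d = (0, 1) ∨ d = (1, 0) ∨ d = (1, 1)) c hc with
    rfl | rfl | rfl
  · exact ⟨_, _, _, _, b1⟩
  · exact ⟨_, _, _, _, b2⟩
  · exact ⟨_, _, _, _, b3⟩

end Pool.Agent.GSH.S4
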