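import Pool.Agent.GSH.Basic

/-!
# Aperiodic monoids and star-free languages

Schützenberger's theorem by local divisors (after Diekert and Kufleitner).
-/

set_option autoImplicit false

namespace Pool.Agent.GSH

section Finite

variable {A : Type*}

theorem Ht.iUnion {ι : Type*} [Finite ι] {n : ℕ} {S : ι → Set (List A)} (h : ∀ i, Ht n (S i)) :
    Ht n (⋃ i, S i) := by
  classical
  have key : ∀ T : Set ι, T.Finite → Ht n (⋃ i ∈ T, S i) := by
    intro T hT
    induction T, hT using Set.Finite.induction_on with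
    | empty => simpa using Ht.empty n
    | @insert a s _ _ ih =>
      rw [Set.biUnion_insert]
      exact (h a).union ih
  have := key Set.univ Set.finite_univ
  simpa using this

theorem Ht.iInter {ι : Type*} [Finite ι] {n : ℕ} {S : ι → Set (List A)} (h : ∀ i, Ht n (S i)) :
    Ht n (⋂ i, S i) := by
  have := (Ht.iUnion (fun i => (h i).compl)).compl
  rw [Set.compl_iUnion] at this
  simpa using this

theorem Ht.prop {n : ℕ} (p : Prop) {S : Set (List A)} (h : Ht n S) :
    Ht n {w | p ∧ w ∈ S} := by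
  by_cases hp : p
  · simpa [hp] using h
  · simpa [hp] using Ht.empty n

/-- words over a subset of the letters -/
theorem Ht.over [Finite A] (n : ℕ) (B : Set A) : Ht n {w : List A | ∀ a ∈ w, a ∈ B} := by
  have h1 : Ht n (⋃ a : A, {w : List A | a ∉ B ∧ w ∈ GSH.cat (GSH.cat Set.univ {[a]}) Set.univ}) :=
    Ht.iUnion (fun a => Ht.prop _ (((Ht.univ n).cat (Ht.letter n a)).cat (Ht.univ n)))
  have h2 : {w : List A | ∀ a ∈ w, a ∈ B} =
      (⋃ a : A, {w : List A | a ∉ B ∧ w ∈ GSH.cat (GSH.cat Set.univ {[a]}) Set.univ})ᶜ := by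
    ext w
    simp only [Set.mem_compl_iff, Set.mem_iUnion, not_exists]
    constructor
    · rintro h a ⟨ha, _, ⟨x, _, _, rfl, rfl⟩, y, _, rfl⟩
      exact ha (h a (by simp))
    · intro h a ha
      by_contra hB
      obtain ⟨x, y, rfl⟩ := List.append_of_mem ha
      refine h a ⟨hB, x ++ [a], ⟨x, trivial, [a], rfl, rfl⟩, y, trivial, by simp⟩
  rw [h2]
  exact h1.compl

end Finite

section LocalDivisor

variable {M : Type} [Monoid M]

/-- The local divisor `cM ∩ Mc`. -/
def LocDiv (c : M) : Type := {x : M // (∃ y, x = c * y) ∧ (∃ z, x = z * c)}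

/-- product in the local divisor: `xc * cy = xcy` -/
noncomputable def LocDiv.mulv {c : M} (x y : LocDiv c) : LocDiv c :=
  ⟨x.1 * y.2.1.choose, by
    obtain ⟨u, hu⟩ := x.2.1
    obtain ⟨z, hz⟩ := x.2.2
    obtain ⟨v, hv⟩ := y.2.2
    refine ⟨⟨u * y.2.1.choose, by rw [← mul_assoc, ← hu]⟩, ⟨z * v, ?_⟩⟩
    have h : y.1 = c * y.2.1.choose := y.2.1.choose_spec
    rw [mul_assoc, ← hv]
    conv_rhs => rw [h]
    rw [← mul_assoc, ← hz]⟩

theorem LocDiv.mulv_val {c : M} (x y : LocDiv c) {z : M} (hz : x.1 = z * c) :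
    (LocDiv.mulv x y).1 = z * y.1 := by
  show x.1 * y.2.1.choose = z * y.1
  have h : y.1 = c * y.2.1.choose := y.2.1.choose_spec
  conv_rhs => rw [h]
  rw [hz, mul_assoc]

/-- the identity of the local divisor -/
def LocDiv.onev (c : M) : LocDiv c := ⟨c, ⟨1, (mul_one c).symm⟩, ⟨1, (one_mul c).symm⟩⟩

noncomputable instance (c : M) : Monoid (LocDiv c) where
  mul := LocDiv.mulv
  one := LocDiv.onev c
  mul_assoc x y w := by
    apply Subtype.ext
    obtain ⟨z, hz⟩ := x.2.2
    obtain ⟨v, hv⟩ := y.2.2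
    have h1 : (LocDiv.mulv x y).1 = (z * v) * c := by
      rw [LocDiv.mulv_val x y hz, hv, mul_assoc]
    show (LocDiv.mulv (LocDiv.mulv x y) w).1 = (LocDiv.mulv x (LocDiv.mulv y w)).1
    rw [LocDiv.mulv_val _ _ h1, LocDiv.mulv_val _ _ hz, LocDiv.mulv_val _ _ hv, mul_assoc]
  one_mul x := by
    apply Subtype.ext
    show (LocDiv.mulv (LocDiv.onev c) x).1 = x.1
    rw [LocDiv.mulv_val (LocDiv.onev c) x (z := 1) (one_mul c).symm, one_mul]
  mul_one x := by
    apply Subtype.ext
    obtain ⟨z, hz⟩ := x.2.2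
    show (LocDiv.mulv x (LocDiv.onev c)).1 = x.1
    rw [LocDiv.mulv_val _ _ hz]
    exact hz.symm

theorem LocDiv.one_val (c : M) : (1 : LocDiv c).1 = c := rfl

theorem LocDiv.mul_val {c : M} (x y : LocDiv c) {z : M} (hz : x.1 = z * c) :
    (x * y).1 = z * y.1 := LocDiv.mulv_val x y hz

theorem LocDiv.pow_val {c : M} (x : LocDiv c) {z : M} (hz : x.1 = z * c) (n : ℕ) :
    (x ^ n).1 = z ^ n * c := by
  induction n with
  | zero => rw [pow_zero, pow_zero, one_mul]; rfl
  | succ n ih => rw [pow_succ', LocDiv.mul_val x _ hz, ih, pow_succ', mul_assoc]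

theorem LocDiv.aper {c : M} (h : ∀ m : M, ∃ k, m ^ (k + 1) = m ^ k) (x : LocDiv c) :
    ∃ k, x ^ (k + 1) = x ^ k := by
  obtain ⟨z, hz⟩ := x.2.2
  obtain ⟨k, hk⟩ := h z
  refine ⟨k, Subtype.ext ?_⟩
  rw [LocDiv.pow_val x hz, LocDiv.pow_val x hz, hk]

theorem eq_one_of_mul_eq_one {c y : M} (h : ∀ m : M, ∃ k, m ^ (k + 1) = m ^ k)
    (hc : c * y = 1) : c = 1 := by
  obtain ⟨k, hk⟩ := h c
  have h1 : ∀ n, c ^ n * y ^ n = 1 := by
    intro n
    induction n with
    | zero => simp
    | succ n ih =>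
      rw [pow_succ, pow_succ', mul_assoc, ← mul_assoc c y, hc, one_mul, ih]
  have h2 : c ^ (k + 1) * y ^ k = c := by
    rw [pow_succ', mul_assoc, h1, mul_one]
  rw [hk, h1] at h2
  exact h2.symm

instance {c : M} [Finite M] : Finite (LocDiv c) := by
  unfold LocDiv; infer_instance

theorem LocDiv.card_lt [Finite M] {c : M} (h : ∀ m : M, ∃ k, m ^ (k + 1) = m ^ k)
    (hc : c ≠ 1) : Nat.card (LocDiv c) < Nat.card M := by
  refine Finite.card_subtype_lt (x := (1 : M)) ?_
  rintro ⟨⟨y, hy⟩, _⟩
  exact hc (eq_one_of_mul_eq_one h hy.symm)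

/-- sandwiching -/
def LocDiv.psi (c : M) (m : M) : LocDiv c := ⟨c * m * c, ⟨m * c, mul_assoc _ _ _⟩, ⟨c * m, rfl⟩⟩

end LocalDivisor

section Coding

variable {A : Type}

theorem cut_unique {c : A} {x x' y y' : List A} (h : c ∉ x) (h' : c ∉ x')
    (he : x ++ c :: y = x' ++ c :: y') : x = x' ∧ y = y' := by
  induction x generalizing x' with
  | nil =>
    cases x' with
    | nil => simpa using he
    | cons b x' =>
      simp only [List.nil_append, List.cons_append, List.cons.injEq] at he
      exact absurd (by rw [he.1]; simp) h'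
  | cons a x ih =>
    cases x' with
    | nil =>
      simp only [List.nil_append, List.cons_append, List.cons.injEq] at he
      exact absurd (by rw [← he.1]; simp) h
    | cons b x' =>
      simp only [List.cons_append, List.cons.injEq] at he
      obtain ⟨e1, e2⟩ := ih (fun hh => h (by simp [hh])) (fun hh => h' (by simp [hh])) he.2
      exact ⟨by rw [he.1, e1], e2⟩

/-- coding of blocks separated by the letter `c` -/
def enc (c : A) (ls : List (List A)) : List A := (ls.map (fun v => v ++ [c])).flatten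

theorem enc_nil (c : A) : enc c [] = [] := rfl

theorem enc_cons (c : A) (v : List A) (ls : List (List A)) :
    enc c (v :: ls) = v ++ c :: enc c ls := by
  simp [enc]

theorem enc_append (c : A) (l l' : List (List A)) :
    enc c (l ++ l') = enc c l ++ enc c l' := by
  simp [enc]

theorem enc_exists (B : Set A) (c : A) (u : List A) (hu : ∀ a ∈ u, a ∈ B) :
    ∃ (ls : List (List A)) (v : List A), (∀ v ∈ ls, ∀ a ∈ v, a ∈ B ∧ a ≠ c) ∧
      (∀ a ∈ v, a ∈ B ∧ a ≠ c) ∧ u = enc c ls ++ v := by
  induction u with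
  | nil => exact ⟨[], [], by simp, by simp, by simp [enc]⟩
  | cons a u ih =>
    obtain ⟨ls, v, h1, h2, h3⟩ := ih (fun b hb => hu b (by simp [hb]))
    by_cases ha : a = c
    · subst ha
      refine ⟨[] :: ls, v, ?_, h2, ?_⟩
      · intro x hx
        rcases List.mem_cons.1 hx with rfl | hx
        · simp
        · exact h1 x hx
      · rw [enc_cons, h3]; simp
    · cases ls with
      | nil =>
        refine ⟨[], a :: v, by simp, ?_, ?_⟩
        · intro b hb
          rcases List.mem_cons.1 hb with rfl | hb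
          · exact ⟨hu b (by simp), ha⟩
          · exact h2 b hb
        · rw [h3]; simp [enc]
      | cons x ls =>
        refine ⟨(a :: x) :: ls, v, ?_, h2, ?_⟩
        · intro y hy
          rcases List.mem_cons.1 hy with rfl | hy
          · intro b hb
            rcases List.mem_cons.1 hb with rfl | hb
            · exact ⟨hu b (by simp), ha⟩
            · exact h1 x (by simp) b hb
          · exact h1 y (by simp [hy])
        · rw [h3, enc_cons, enc_cons]; simp

theorem enc_inj (c : A) (ls ls' : List (List A)) (v v' : List A) (h : ∀ x ∈ ls, c ∉ x)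
    (h' : ∀ x ∈ ls', c ∉ x) (hv : c ∉ v) (hv' : c ∉ v')
    (he : enc c ls ++ v = enc c ls' ++ v') : ls = ls' ∧ v = v' := by
  induction ls generalizing ls' with
  | nil =>
    cases ls' with
    | nil => simpa [enc] using he
    | cons x ls' =>
      exfalso
      rw [enc_cons, enc_nil, List.nil_append] at he
      exact hv (by rw [he]; simp)
  | cons x ls ih =>
    cases ls' with
    | nil =>
      exfalso
      rw [enc_cons, enc_nil, List.nil_append] at he
      exact hv' (by rw [← he]; simp)
    | cons x' ls' =>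
      rw [enc_cons, enc_cons, List.append_assoc, List.append_assoc, List.cons_append,
        List.cons_append] at he
      have h1 : c ∉ x := h x (by simp)
      have h2 : c ∉ x' := h' x' (by simp)
      obtain ⟨e1, e2⟩ := cut_unique h1 h2 he
      obtain ⟨e3, e4⟩ := ih ls' (fun y hy => h y (by simp [hy])) (fun y hy => h' y (by simp [hy])) e2
      exact ⟨by rw [e1, e3], e4⟩

end Coding

section Main

variable {A : Type} {M : Type} [Monoid M]

/-- preimage under the block coding -/
def Sig (f : A → M) (B : Set A) (c : A) (K : Set (List M)) : Set (List A) :=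
  {u | ∃ ls : List (List A), (∀ v ∈ ls, ∀ a ∈ v, a ∈ B ∧ a ≠ c) ∧
    ls.map (fun v => (v.map f).prod) ∈ K ∧ enc c ls = u}

theorem Sig_inj (f : A → M) (B : Set A) (c : A) {K K' : Set (List M)} {u : List A}
    (h : u ∈ Sig f B c K) (h' : u ∈ Sig f B c K') : u ∈ Sig f B c (K ∩ K') := by
  obtain ⟨ls, h1, h2, h3⟩ := h
  obtain ⟨ls', h1', h2', h3'⟩ := h'
  have := (enc_inj c ls ls' [] [] (fun x hx hc => (h1 x hx c hc).2 rfl)
    (fun x hx hc => (h1' x hx c hc).2 rfl) (by simp) (by simp)
    (by rw [List.append_nil, List.append_nil, h3, h3'])).1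
  subst this
  exact ⟨ls, h1, ⟨h2, h2'⟩, h3⟩

theorem Sig_compl (f : A → M) (B : Set A) (c : A) (K : Set (List M)) :
    Sig f B c Kᶜ = Sig f B c Set.univ ∩ (Sig f B c K)ᶜ := by
  ext u
  constructor
  · intro h
    refine ⟨?_, fun h' => ?_⟩
    · obtain ⟨ls, h1, h2, h3⟩ := h
      exact ⟨ls, h1, trivial, h3⟩
    · obtain ⟨ls, _, h2, _⟩ := Sig_inj f B c h h'
      exact h2.1 h2.2
  · rintro ⟨⟨ls, h1, _, h3⟩, h4⟩
    refine ⟨ls, h1, fun h5 => h4 ⟨ls, h1, h5, h3⟩, h3⟩

theorem Sig_cat (f : A → M) (B : Set A) (c : A) (K L : Set (List M)) :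
    Sig f B c (GSH.cat K L) = GSH.cat (Sig f B c K) (Sig f B c L) := by
  ext u
  constructor
  · rintro ⟨ls, h1, ⟨p, hp, q, hq, hpq⟩, h3⟩
    obtain ⟨l1, l2, rfl, hl1, hl2⟩ := List.append_eq_map_iff.1 hpq
    refine ⟨enc c l1, ⟨l1, fun v hv => h1 v (by simp [hv]), by rw [hl1]; exact hp, rfl⟩,
      enc c l2, ⟨l2, fun v hv => h1 v (by simp [hv]), by rw [hl2]; exact hq, rfl⟩, ?_⟩
    rw [← enc_append, h3]
  · rintro ⟨_, ⟨l1, h1, h2, rfl⟩, _, ⟨l2, h3, h4, rfl⟩, rfl⟩
    refine ⟨l1 ++ l2, ?_, ⟨_, h2, _, h4, by rw [List.map_append]⟩, enc_append _ _ _⟩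
    intro v hv
    rcases List.mem_append.1 hv with hv | hv
    · exact h1 v hv
    · exact h3 v hv

theorem Sig_univ (f : A → M) (B : Set A) (c : A) (hc : c ∈ B) :
    Sig f B c Set.univ = {w | ∀ a ∈ w, a ∈ B} ∩ ({[]} ∪ GSH.cat Set.univ {[c]}) := by
  ext u
  constructor
  · rintro ⟨ls, h1, _, rfl⟩
    constructor
    · intro a ha
      simp only [enc, List.mem_flatten, List.mem_map] at ha
      obtain ⟨_, ⟨v, hv, rfl⟩, ha⟩ := ha
      rcases List.mem_append.1 ha with ha | ha
      · exact (h1 v hv a ha).1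
      · rw [List.mem_singleton.1 ha]; exact hc
    · rcases List.eq_nil_or_concat ls with rfl | ⟨ls', v, rfl⟩
      · left; rfl
      · right
        refine ⟨enc c ls' ++ v, trivial, [c], rfl, ?_⟩
        simp [enc]
  · rintro ⟨h1, h2⟩
    obtain ⟨ls, v, h3, h4, h5⟩ := enc_exists B c u h1
    have hv : v = [] := by
      rcases h2 with h2 | ⟨x, _, _, rfl, h2⟩
      · have : u = [] := h2
        rw [this] at h5
        have := congrArg List.length h5
        simp at this
        exact List.length_eq_zero_iff.1 (by omega)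
      · rcases List.eq_nil_or_concat v with rfl | ⟨v', a, rfl⟩
        · rfl
        · exfalso
          rw [← h2] at h5
          have h6 : x ++ [c] = (enc c ls ++ v') ++ [a] := by
            rw [h5]; simp
          have := (List.append_inj' h6 rfl).2
          simp at this
          exact (h4 a (by simp)).2 this.symm
    subst hv
    exact ⟨ls, h3, trivial, by rw [h5, List.append_nil]⟩

theorem Sig_ht [Finite A] (f : A → M) (B : Set A) (c : A) (hc : c ∈ B)
    (hB : ∀ m, Ht 0 {w : List A | (∀ a ∈ w, a ∈ B ∧ a ≠ c) ∧ (w.map f).prod = m})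
    {n : ℕ} {K : Set (List M)} (hK : Ht n K) : n = 0 → Ht 0 (Sig f B c K) := by
  have huniv : Ht 0 (Sig f B c Set.univ) := by
    rw [Sig_univ f B c hc]
    exact (Ht.over 0 B).inter ((Ht.one 0).union ((Ht.univ 0).cat (Ht.letter 0 c)))
  induction hK with
  | empty n =>
    intro _
    have : Sig f B c ∅ = ∅ := by
      ext u
      simp [Sig]
    rw [this]; exact Ht.empty 0
  | one n =>
    intro _
    have : Sig f B c {[]} = {[]} := by
      ext u
      constructor
      · rintro ⟨ls, h1, h2, h3⟩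
        have h4 : ls.map (fun v => (v.map f).prod) = [] := h2
        rw [List.map_eq_nil_iff] at h4
        subst h4
        exact h3.symm
      · rintro rfl
        exact ⟨[], by simp, by simp, rfl⟩
    rw [this]; exact Ht.one 0
  | letter n m =>
    intro _
    have : Sig f B c {[m]} =
        GSH.cat {w : List A | (∀ a ∈ w, a ∈ B ∧ a ≠ c) ∧ (w.map f).prod = m} {[c]} := by
      ext u
      constructor
      · rintro ⟨ls, h1, h2, h3⟩
        have h4 : ls.map (fun v => (v.map f).prod) = [m] := h2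
        obtain ⟨v, rfl, hv⟩ := List.map_eq_singleton_iff.1 h4
        refine ⟨v, ⟨h1 v (by simp), hv⟩, [c], rfl, ?_⟩
        rw [← h3]; simp [enc]
      · rintro ⟨v, ⟨h1, h2⟩, _, rfl, rfl⟩
        refine ⟨[v], by simpa using h1, ?_, by simp [enc]⟩
        simp [h2]
    rw [this]; exact (hB m).cat (Ht.letter 0 c)
  | compl _ ih =>
    intro hn
    rw [Sig_compl]
    exact huniv.inter (ih hn).compl
  | @union n K L _ _ ih1 ih2 =>
    intro hn
    have : Sig f B c (K ∪ L) = Sig f B c K ∪ Sig f B c L := by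
      ext u
      constructor
      · rintro ⟨ls, h1, h2 | h2, h3⟩
        · exact Or.inl ⟨ls, h1, h2, h3⟩
        · exact Or.inr ⟨ls, h1, h2, h3⟩
      · rintro (⟨ls, h1, h2, h3⟩ | ⟨ls, h1, h2, h3⟩)
        · exact ⟨ls, h1, Or.inl h2, h3⟩
        · exact ⟨ls, h1, Or.inr h2, h3⟩
    rw [this]; exact (ih1 hn).union (ih2 hn)
  | @inter n K L _ _ ih1 ih2 =>
    intro hn
    have : Sig f B c (K ∩ L) = Sig f B c K ∩ Sig f B c L := by
      ext u
      constructor
      · rintro ⟨ls, h1, h2, h3⟩
        exact ⟨⟨ls, h1, h2.1, h3⟩, ⟨ls, h1, h2.2, h3⟩⟩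
      · rintro ⟨h, h'⟩
        exact Sig_inj f B c h h'
    rw [this]; exact (ih1 hn).inter (ih2 hn)
  | cat _ _ ih1 ih2 =>
    intro hn
    rw [Sig_cat]
    exact (ih1 hn).cat (ih2 hn)
  | star _ _ => intro hn; exact absurd hn (Nat.succ_ne_zero _)

theorem prod_enc (f : A → M) (c : A) (ls : List (List A)) :
    (((ls.map (fun v => (v.map f).prod)).map (LocDiv.psi (f c))).prod).1 =
      f c * ((enc c ls).map f).prod := by
  induction ls with
  | nil => simp [enc, LocDiv.one_val]
  | cons v ls ih =>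
    rw [List.map_cons, List.map_cons, List.prod_cons,
      LocDiv.mul_val _ _ (z := f c * (v.map f).prod) rfl, ih, enc_cons]
    simp [mul_assoc]

end Main

/-- Schützenberger's theorem (aperiodic implies star-free). -/
theorem aperiodic_starfree_aux : ∀ (n : ℕ) (M : Type) [Monoid M] [Finite M],
    Nat.card M = n → (∀ m : M, ∃ k, m ^ (k + 1) = m ^ k) →
    ∀ (A : Type) [Finite A] (f : A → M) (k : ℕ) (B : Finset A), B.card = k →
      ∀ m : M, Ht 0 {w : List A | (∀ a ∈ w, a ∈ (B : Set A)) ∧ (w.map f).prod = m} := by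
  intro n
  induction n using Nat.strong_induction_on with
  | _ n ihn =>
  intro M _ _ hM hap A _ f k
  induction k using Nat.strong_induction_on with
  | _ k ihk =>
  intro B hBk m
  classical
  by_cases hall : ∀ a ∈ B, f a = 1
  · have h1 : ∀ w : List A, (∀ a ∈ w, a ∈ (B : Set A)) → (w.map f).prod = 1 := by
      intro w hw
      apply List.prod_eq_one
      intro x hx
      obtain ⟨a, ha, rfl⟩ := List.mem_map.1 hx
      exact hall a (by simpa using hw a ha)
    have h2 : {w : List A | (∀ a ∈ w, a ∈ (B : Set A)) ∧ (w.map f).prod = m} =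
        {w : List A | 1 = m ∧ w ∈ {w : List A | ∀ a ∈ w, a ∈ (B : Set A)}} := by
      ext w
      constructor
      · rintro ⟨h3, h4⟩
        exact ⟨by rw [← h4, h1 w h3], h3⟩
      · rintro ⟨h3, h4⟩
        exact ⟨h4, by rw [h1 w h4, h3]⟩
    rw [h2]
    exact Ht.prop _ (Ht.over 0 _)
  · push Not at hall
    obtain ⟨c, hcB, hc⟩ := hall
    -- words over B \ {c}
    have hB' : ∀ m, Ht 0 {w : List A | (∀ a ∈ w, a ∈ (B : Set A) ∧ a ≠ c) ∧
        (w.map f).prod = m} := by
      intro m
      have := ihk (B.erase c).card (by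
        rw [← hBk]; exact Finset.card_erase_lt_of_mem hcB) (B.erase c) rfl m
      convert this using 6
      simp [and_comm]
    have hloc : ∀ q : LocDiv (f c), Ht 0 (Sig f (B : Set A) c
        {l : List M | (l.map (LocDiv.psi (f c))).prod = q}) := by
      intro q
      refine Sig_ht f (B : Set A) c (by simpa using hcB) hB' (n := 0) ?_ rfl
      let _ := Fintype.ofFinite M
      have := ihn (Nat.card (LocDiv (f c))) (by rw [← hM]; exact LocDiv.card_lt hap hc)
        (LocDiv (f c)) rfl (LocDiv.aper hap) M (LocDiv.psi (f c)) _ Finset.univ rfl q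
      simpa using this
    let L : M → Set (List A) := fun m =>
      {w : List A | (∀ a ∈ w, a ∈ (B : Set A) ∧ a ≠ c) ∧ (w.map f).prod = m}
    let P : LocDiv (f c) → Set (List A) := fun q =>
      Sig f (B : Set A) c {l : List M | (l.map (LocDiv.psi (f c))).prod = q}
    have hU : Ht 0 (L m ∪ ⋃ t : M × LocDiv (f c) × M,
        {w | t.1 * t.2.1.1 * t.2.2 = m ∧
          w ∈ GSH.cat (L t.1) (GSH.cat (GSH.cat {[c]} (P t.2.1)) (L t.2.2))}) := by
      refine (hB' m).union (Ht.iUnion fun t => Ht.prop _ ?_)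
      exact (hB' _).cat (((Ht.letter 0 c).cat (hloc _)).cat (hB' _))
    convert hU using 1
    ext w
    constructor
    · rintro ⟨h1, h2⟩
      obtain ⟨ls, v, h3, h4, rfl⟩ := enc_exists (B : Set A) c w h1
      cases ls with
      | nil =>
        left
        refine ⟨?_, h2⟩
        simpa [enc] using h4
      | cons x ls =>
        right
        rw [Set.mem_iUnion]
        let q : LocDiv (f c) := ((ls.map (fun v => (v.map f).prod)).map (LocDiv.psi (f c))).prod
        have hq : q.1 = f c * ((enc c ls).map f).prod := prod_enc f c ls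
        refine ⟨((x.map f).prod, q, (v.map f).prod), ?_, ?_⟩
        · show (x.map f).prod * q.1 * (v.map f).prod = m
          rw [hq, ← h2, enc_cons]
          simp [mul_assoc]
        · refine ⟨x, ⟨h3 x (by simp), rfl⟩, c :: enc c ls ++ v, ⟨c :: enc c ls,
            ⟨[c], rfl, enc c ls, ⟨ls, fun y hy => h3 y (by simp [hy]), rfl, rfl⟩, rfl⟩,
            v, ⟨h4, rfl⟩, rfl⟩, ?_⟩
          rw [enc_cons]; simp
    · rintro (⟨h1, h2⟩ | h)
      · exact ⟨fun a ha => (h1 a ha).1, h2⟩
      · rw [Set.mem_iUnion] at h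
        obtain ⟨⟨p1, q, p3⟩, h1, x, ⟨hx1, hx2⟩, _, ⟨_, ⟨_, rfl, _, ⟨ls, h3, h4, rfl⟩, rfl⟩,
          v, ⟨hv1, hv2⟩, rfl⟩, rfl⟩ := h
        have h1' : p1 * q.1 * p3 = m := h1
        have hx2' : (x.map f).prod = p1 := hx2
        have hv2' : (v.map f).prod = p3 := hv2
        have h4' : ((ls.map (fun v => (v.map f).prod)).map (LocDiv.psi (f c))).prod = q := h4
        constructor
        · intro a ha
          simp only [enc, List.mem_append, List.mem_singleton, List.mem_flatten,
            List.mem_map] at ha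
          rcases ha with ha | (ha | ⟨_, ⟨y, hy, rfl⟩, ha⟩) | ha
          · exact (hx1 a ha).1
          · rw [ha]; simpa using hcB
          · rcases List.mem_append.1 ha with ha | ha
            · exact (h3 y hy a ha).1
            · rw [List.mem_singleton.1 ha]; simpa using hcB
          · exact (hv1 a ha).1
        · have hq := prod_enc f c ls
          rw [h4'] at hq
          rw [← h1', ← hx2', ← hv2', hq]
          simp [mul_assoc]

/-- Schützenberger's theorem (aperiodic implies star-free). -/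
theorem aperiodic_starfree {M : Type} [Monoid M] [Finite M]
    (hap : ∀ m : M, ∃ k, m ^ (k + 1) = m ^ k) {A : Type} [Finite A] (f : A → M) (m : M) :
    Ht 0 {w : List A | (w.map f).prod = m} := by
  classical
  let _ := Fintype.ofFinite A
  have := aperiodic_starfree_aux _ M rfl hap A f _ Finset.univ rfl m
  simpa using this

end Pool.Agent.GSH
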