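import Pool.Agent.GSH.Reduce

/-!
# Simple groups: a single star suffices
-/

set_option autoImplicit false

namespace Pool.Agent.GSH

universe u

variable {A : Type u}

theorem Cg.mono {S S' : Set (Set (List A))} (h : S ⊆ S') {w w' : List A} (hw : Cg S' w w') :
    Cg S w w' := fun L hL => hw L (h hL)

theorem Cg.union {S S' : Set (Set (List A))} {w w' : List A} (h : Cg S w w')
    (h' : Cg S' w w') : Cg (S ∪ S') w w' := by
  rintro L (hL | hL)
  · exact h L hL
  · exact h' L hL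

/-- A word `e` such that `e w e` is, up to the congruence, a unit of the local monoid at `e`,
for all `w`. -/
theorem exists_group_word {S : Set (Set (List A))} (hS : S.Finite) (hF : ∀ L ∈ S, FinData L) :
    ∃ e, Cg S e (e ++ e) ∧ ∀ w, ∃ k, 1 ≤ k ∧ Cg S (rep k (e ++ w ++ e)) e := by
  classical
  let Q : Set (Set (List A)) := ⋃ L ∈ S, quots L
  have hQ : Q.Finite := hS.biUnion (fun L hL => (hF L hL).quots_finite)
  have := hQ.to_subtype
  let ty : List A → Set Q := fun w => {X : Q | w ∈ X.1}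
  have hty : ∀ w w', ty w = ty w' ↔ Cg S w w' := by
    intro w w'
    constructor
    · intro h L hL x y
      have hX : {v | x ++ v ++ y ∈ L} ∈ Q := Set.mem_biUnion hL ⟨x, y, rfl⟩
      exact Set.ext_iff.1 h ⟨_, hX⟩
    · intro h
      ext ⟨X, hX⟩
      obtain ⟨L, hL, x, y, rfl⟩ := Set.mem_iUnion₂.1 hX
      exact h L hL x y
  let r : List A → ℕ := fun e => (Set.range (fun w => ty (e ++ w ++ e))).ncard
  have hne : ∃ n, ∃ e, Cg S e (e ++ e) ∧ r e = n := ⟨_, [], by simpa using Cg.refl S [], rfl⟩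
  obtain ⟨e, he, hr⟩ := Nat.find_spec hne
  have hmin : ∀ f, Cg S f (f ++ f) → r e ≤ r f := by
    intro f hf
    rw [hr]
    exact Nat.find_min' hne ⟨f, hf, rfl⟩
  refine ⟨e, he, fun w => ?_⟩
  obtain ⟨k, hk, hidem⟩ := exists_idem_pow hS hF (e ++ w ++ e)
  refine ⟨k, hk, ?_⟩
  obtain ⟨k, rfl⟩ : ∃ d, k = d + 1 := ⟨k - 1, by omega⟩
  set f := rep (k + 1) (e ++ w ++ e) with hf
  -- f begins and ends with e
  have hf1 : ∃ a, f = e ++ a := by
    refine ⟨w ++ e ++ rep k (e ++ w ++ e), ?_⟩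
    rw [hf, rep_succ]; simp [List.append_assoc]
  have hf2 : ∃ b, f = b ++ e := by
    refine ⟨rep k (e ++ w ++ e) ++ (e ++ w), ?_⟩
    rw [hf, rep_succ']; simp [List.append_assoc]
  obtain ⟨a, ha⟩ := hf1
  obtain ⟨b, hb⟩ := hf2
  have hef : Cg S (e ++ f) f := by
    have h1 := he.symm.append (Cg.refl S a)
    rw [List.append_assoc, ← ha] at h1
    exact h1
  have hfe : Cg S (f ++ e) f := by
    have h1 := (Cg.refl S b).append he.symm
    rw [← List.append_assoc, ← hb] at h1
    exact h1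
  have hsub : Set.range (fun w => ty (f ++ w ++ f)) ⊆ Set.range (fun w => ty (e ++ w ++ e)) := by
    rintro _ ⟨v, rfl⟩
    refine ⟨a ++ v ++ b, ?_⟩
    show ty _ = ty _
    congr 1
    rw [ha] 
    conv_rhs => rw [List.append_assoc, List.append_assoc]
    rw [← ha, hb]
    simp [List.append_assoc]
  have hfin : (Set.range (fun w => ty (e ++ w ++ e))).Finite := Set.toFinite _
  have heq := Set.eq_of_subset_of_ncard_le hsub (hmin f hidem) hfin
  have hmem : ty e ∈ Set.range (fun w => ty (f ++ w ++ f)) := by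
    rw [heq]
    refine ⟨e, ?_⟩
    show ty _ = ty _
    rw [hty]
    exact (he.symm.append (Cg.refl S e)).trans he.symm
  obtain ⟨v, hv⟩ := hmem
  have hv' : Cg S (f ++ v ++ f) e := (hty _ _).1 hv
  -- f e ≡ e
  have h1 : Cg S (f ++ e) e := by
    refine ((Cg.refl S f).append hv'.symm).trans (Cg.trans ?_ hv')
    have h2 := hidem.symm.append (Cg.refl S (v ++ f))
    simpa [List.append_assoc] using h2
  exact hfe.symm.trans h1

variable {G : Type*} [Group G]

/-- evaluation of words in a group -/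
def ev (f : A → G) (w : List A) : G := (w.map f).prod

theorem ev_append (f : A → G) (u v : List A) : ev f (u ++ v) = ev f u * ev f v := by
  simp [ev]

theorem ev_nil (f : A → G) : ev f [] = 1 := by simp [ev]

theorem ev_rep (f : A → G) (n : ℕ) (u : List A) : ev f (rep n u) = ev f u ^ n := by
  induction n with
  | zero => rw [rep_zero, ev_nil, pow_zero]
  | succ n ih => rw [rep_succ, ev_append, ih, pow_succ']

theorem simple_two [IsSimpleGroup G] (hna : ∃ a b : G, a * b ≠ b * a) (f : A → G)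
    (hf : Function.Surjective (ev f)) {S₁ S₂ : Set (Set (List A))} (hS₁ : S₁.Finite)
    (hS₂ : S₂.Finite) (hF₁ : ∀ L ∈ S₁, FinData L) (hF₂ : ∀ L ∈ S₂, FinData L)
    (h : ∀ w w', Cg (S₁ ∪ S₂) w w' → ev f w = ev f w') :
    (∀ w w', Cg S₁ w w' → ev f w = ev f w') ∨ (∀ w w', Cg S₂ w w' → ev f w = ev f w') := by
  classical
  obtain ⟨e, he, hu⟩ := exists_group_word (S := S₁ ∪ S₂) (hS₁.union hS₂) (by
    rintro L (hL | hL)
    · exact hF₁ L hL
    · exact hF₂ L hL)
  have he1 : ev f e = 1 := by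
    have := h _ _ he
    rw [ev_append] at this
    exact (mul_eq_left.1 this.symm)
  -- local elements
  let loc : List A → Prop := fun x => Cg (S₁ ∪ S₂) (e ++ x ++ e) x
  have loc_l : ∀ x, loc x → Cg (S₁ ∪ S₂) (e ++ x) x := by
    intro x hx
    have h1 := (Cg.refl (S₁ ∪ S₂) e).append hx.symm
    have h2 := he.symm.append (Cg.refl (S₁ ∪ S₂) (x ++ e))
    have h3 : Cg (S₁ ∪ S₂) (e ++ (e ++ x ++ e)) (e ++ x ++ e) := by
      simpa [List.append_assoc] using h2
    exact h1.trans (h3.trans hx)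
  have loc_r : ∀ x, loc x → Cg (S₁ ∪ S₂) (x ++ e) x := by
    intro x hx
    have h1 := hx.symm.append (Cg.refl (S₁ ∪ S₂) e)
    have h2 := (Cg.refl (S₁ ∪ S₂) (e ++ x)).append he.symm
    have h3 : Cg (S₁ ∪ S₂) (e ++ x ++ e ++ e) (e ++ x ++ e) := by
      simpa [List.append_assoc] using h2
    exact h1.trans (h3.trans hx)
  have loc_mk : ∀ x, loc (e ++ x ++ e) := by
    intro x
    show Cg _ _ _
    have h1 := (he.symm.append (Cg.refl (S₁ ∪ S₂) x)).append he.symm
    simpa [List.append_assoc] using h1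
  have loc_mul : ∀ x y, loc x → loc y → loc (x ++ y) := by
    intro x y hx hy
    have h1 := (loc_l x hx).append (loc_r y hy)
    show Cg _ _ _
    simpa [List.append_assoc] using h1
  have loc_e : loc e := by
    show Cg _ _ _
    exact (he.symm.append (Cg.refl _ e)).trans he.symm
  have loc_inv : ∀ x, loc x → ∃ y, loc y ∧ Cg (S₁ ∪ S₂) (x ++ y) e ∧ Cg (S₁ ∪ S₂) (y ++ x) e := by
    intro x hx
    obtain ⟨k, hk, hk'⟩ := hu x
    have hk2 : Cg (S₁ ∪ S₂) (rep k x) e := ((Cg.rep hx k).symm).trans hk'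
    obtain ⟨k, rfl⟩ : ∃ d, k = d + 1 := ⟨k - 1, by omega⟩
    refine ⟨e ++ rep k x ++ e, loc_mk _, ?_, ?_⟩
    · have h1 : Cg (S₁ ∪ S₂) (x ++ e ++ rep k x ++ e) (x ++ rep k x ++ e) :=
        ((loc_r x hx).append (Cg.refl _ (rep k x))).append (Cg.refl _ e)
      have h2 : Cg (S₁ ∪ S₂) (x ++ rep k x ++ e) (e ++ e) := by
        rw [← rep_succ]; exact hk2.append (Cg.refl _ e)
      have h3 := h1.trans (h2.trans he.symm)
      simpa [List.append_assoc] using h3
    · have h1 : Cg (S₁ ∪ S₂) (e ++ rep k x ++ (e ++ x)) (e ++ rep k x ++ x) :=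
        (Cg.refl _ (e ++ rep k x)).append (loc_l x hx)
      have h2 : Cg (S₁ ∪ S₂) (e ++ (rep k x ++ x)) (e ++ e) := by
        rw [← rep_succ']; exact (Cg.refl _ e).append hk2
      have h3 : Cg (S₁ ∪ S₂) (e ++ rep k x ++ (e ++ x)) e := by
        refine h1.trans ?_
        rw [List.append_assoc]
        exact h2.trans he.symm
      simpa [List.append_assoc] using h3
  -- the two normal subgroups
  have sub_of : ∀ S : Set (Set (List A)), S ⊆ S₁ ∪ S₂ → ∃ N : Subgroup G, N.Normal ∧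
      ∀ g, g ∈ N ↔ ∃ x, loc x ∧ Cg S x e ∧ ev f x = g := by
    intro S hS
    refine ⟨⟨⟨⟨{g | ∃ x, loc x ∧ Cg S x e ∧ ev f x = g}, ?_⟩, ?_⟩, ?_⟩, ⟨?_⟩, fun g => Iff.rfl⟩
    · rintro _ _ ⟨x, hx, hx', rfl⟩ ⟨y, hy, hy', rfl⟩
      refine ⟨x ++ y, loc_mul x y hx hy, (hx'.append hy').trans (he.mono hS).symm, ?_⟩
      rw [ev_append]
    · exact ⟨e, loc_e, Cg.refl _ _, he1⟩
    · rintro _ ⟨x, hx, hx', rfl⟩
      obtain ⟨y, hy, hxy, hyx⟩ := loc_inv x hx
      refine ⟨y, hy, ?_, ?_⟩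
      · -- y ≡ e y ≡ x y ≡ e
        exact ((loc_l y hy).mono hS).symm.trans
          ((hx'.symm.append (Cg.refl S y)).trans (hxy.mono hS))
      · have := h _ _ hxy
        rw [ev_append, he1] at this
        exact (eq_inv_of_mul_eq_one_right this)
    · rintro _ ⟨x, hx, hx', rfl⟩ g
      obtain ⟨t, rfl⟩ := hf g
      obtain ⟨y, hy, hty, hyt⟩ := loc_inv (e ++ t ++ e) (loc_mk t)
      refine ⟨(e ++ t ++ e) ++ x ++ y, loc_mul _ _ (loc_mul _ _ (loc_mk t) hx) hy, ?_, ?_⟩
      · have h1 := ((Cg.refl S (e ++ t ++ e)).append hx').append (Cg.refl S y)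
        have h2 := ((loc_r (e ++ t ++ e) (loc_mk t)).mono hS).append (Cg.refl S y)
        exact h1.trans (h2.trans (hty.mono hS))
      · have := h _ _ hty
        rw [ev_append, he1] at this
        have h3 := eq_inv_of_mul_eq_one_right this
        rw [ev_append, ev_append, h3]
        simp [ev_append, he1]
  obtain ⟨N₁, hN₁, hm₁⟩ := sub_of S₁ Set.subset_union_left
  obtain ⟨N₂, hN₂, hm₂⟩ := sub_of S₂ Set.subset_union_right
  have hcomm : ∀ a ∈ N₁, ∀ b ∈ N₂, a * b = b * a := by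
    intro a ha b hb
    obtain ⟨x, hx, hx', rfl⟩ := (hm₁ a).1 ha
    obtain ⟨y, hy, hy', rfl⟩ := (hm₂ b).1 hb
    obtain ⟨x', hxl, hxx, hxx'⟩ := loc_inv x hx
    obtain ⟨y', hyl, hyy, hyy'⟩ := loc_inv y hy
    -- x y x' y' ≡ e modulo both
    have hx'e : Cg S₁ x' e :=
      ((loc_l x' hxl).mono Set.subset_union_left).symm.trans
          ((hx'.symm.append (Cg.refl S₁ x')).trans (hxx.mono Set.subset_union_left))
    have hy'e : Cg S₂ y' e :=
      ((loc_l y' hyl).mono Set.subset_union_right).symm.trans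
          ((hy'.symm.append (Cg.refl S₂ y')).trans (hyy.mono Set.subset_union_right))
    have c1 : Cg S₁ (x ++ y ++ x' ++ y') e := by
      have a1 := ((hx'.append (Cg.refl S₁ y)).append hx'e).append (Cg.refl S₁ y')
      have a2 := (((loc_mul _ _ (loc_mk []) hy) : Cg _ _ _))
      have a3 : Cg (S₁ ∪ S₂) (e ++ y ++ e ++ y') (y ++ y') := hy.append (Cg.refl _ y')
      exact a1.trans ((a3.trans hyy).mono Set.subset_union_left)
    have c2 : Cg S₂ (x ++ y ++ x' ++ y') e := by
      have a1 := (((Cg.refl S₂ x).append hy').append (Cg.refl S₂ x')).append hy'e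
      have a3 : Cg (S₁ ∪ S₂) (x ++ e ++ x' ++ e) (x ++ x' ++ e) :=
        ((loc_r x hx).append (Cg.refl _ x')).append (Cg.refl _ e)
      have a4 : Cg (S₁ ∪ S₂) (x ++ x' ++ e) (e ++ e) := hxx.append (Cg.refl _ e)
      exact a1.trans ((a3.trans (a4.trans he.symm)).mono Set.subset_union_right)
    have h1 := h _ _ (c1.union c2)
    have h2 := h _ _ hxx
    have h3 := h _ _ hyy
    rw [ev_append, he1] at h2 h3
    have h2' := eq_inv_of_mul_eq_one_right h2
    have h3' := eq_inv_of_mul_eq_one_right h3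
    rw [ev_append, ev_append, ev_append, he1, h2', h3'] at h1
    have h4 : ev f x * ev f y * (ev f x)⁻¹ * (ev f y)⁻¹ = 1 := h1
    rw [mul_inv_eq_one, mul_inv_eq_iff_eq_mul] at h4
    exact h4
  have fin : ∀ S : Set (Set (List A)), S ⊆ S₁ ∪ S₂ → ∀ N : Subgroup G,
      (∀ g, g ∈ N ↔ ∃ x, loc x ∧ Cg S x e ∧ ev f x = g) → N = ⊥ →
      ∀ w w', Cg S w w' → ev f w = ev f w' := by
    intro S hS N hN hbot w w' hw
    obtain ⟨y, hy, hwy, _⟩ := loc_inv (e ++ w' ++ e) (loc_mk w')
    have hmem : ev f ((e ++ w ++ e) ++ y) ∈ N := by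
      rw [hN]
      refine ⟨_, loc_mul _ _ (loc_mk w) hy, ?_, rfl⟩
      have h1 := (((Cg.refl S e).append hw).append (Cg.refl S e)).append (Cg.refl S y)
      exact h1.trans (hwy.mono hS)
    rw [hbot, Subgroup.mem_bot] at hmem
    have h2 := h _ _ hwy
    rw [ev_append, he1] at h2
    rw [ev_append] at hmem
    have h3 := mul_right_cancel (hmem.trans h2.symm)
    simpa [ev_append, he1] using h3
  rcases hN₁.eq_bot_or_eq_top with hb | ht
  · exact Or.inl (fin S₁ Set.subset_union_left N₁ hm₁ hb)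
  · rcases hN₂.eq_bot_or_eq_top with hb2 | ht2
    · exact Or.inr (fin S₂ Set.subset_union_right N₂ hm₂ hb2)
    · exfalso
      obtain ⟨a, b, hab⟩ := hna
      exact hab (hcomm a (by rw [ht]; trivial) b (by rw [ht2]; trivial))

theorem simple_finite [IsSimpleGroup G] (hna : ∃ a b : G, a * b ≠ b * a) (f : A → G)
    (hf : Function.Surjective (ev f)) {F : Set (Set (List A))} (hF : F.Finite)
    (hD : ∀ K ∈ F, FinData (star K))
    (h : ∀ w w', Cg (star '' F) w w' → ev f w = ev f w') :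
    ∃ K ∈ F, ∀ w w', Cg {star K} w w' → ev f w = ev f w' := by
  induction F, hF using Set.Finite.induction_on with
  | empty =>
    exfalso
    have : ∀ w w', ev f w = ev f w' := fun w w' => h w w' (by rintro L ⟨K, hK, _⟩; exact hK.elim)
    obtain ⟨a, b, hab⟩ := hna
    obtain ⟨u, rfl⟩ := hf a
    obtain ⟨v, rfl⟩ := hf b
    exact hab (by rw [this u v])
  | @insert K F hK hF ih =>
    rw [Set.image_insert_eq, Set.insert_eq] at h
    rcases simple_two hna f hf (Set.finite_singleton _) (hF.image _)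
      (by rintro L rfl; exact hD K (Set.mem_insert _ _))
      (by rintro L ⟨K', hK', rfl⟩; exact hD K' (Set.mem_insert_of_mem _ hK')) h with h1 | h2
    · exact ⟨K, Set.mem_insert _ _, h1⟩
    · obtain ⟨K', hK', h3⟩ := ih (fun K' hK' => hD K' (Set.mem_insert_of_mem _ hK')) h2
      exact ⟨K', Set.mem_insert_of_mem _ hK', h3⟩

end Pool.Agent.GSH
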