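import Pool.Agent.GSH.Zp

/-!
# Counting letters at given residues in an elementary abelian group
-/

set_option autoImplicit false

namespace Pool.Agent.GSH

variable {A : Type}

open Classical in
/-- Push-forward of occurrence counts along an additive map. -/
theorem occ_push {V W : Type*} [AddCommGroup V] [AddCommGroup W] [Fintype V] (φ : V →+ W)
    (β : A → V) (a : A) (u : W) (r : V) (w : List A) :
    occ (fun x => φ (β x)) a u (φ r) w = ∑ v : V, if φ v = u then occ β a v r w else 0 := by
  induction w generalizing r with
  | nil => simp [occ]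
  | cons x w ih =>
    rw [occ, ← map_add, ih]
    have h1 : ∀ v, (if φ v = u then occ β a v r (x :: w) else 0) =
        (if φ v = u then (if x = a ∧ r = v then 1 else 0) else 0) +
          (if φ v = u then occ β a v (r + β x) w else 0) := by
      intro v
      rw [occ]
      split_ifs <;> simp
    simp only [h1, Finset.sum_add_distrib]
    congr 1
    rw [Finset.sum_eq_single r]
    · by_cases h2 : x = a <;> by_cases h3 : φ r = u <;> simp [h2, h3]
    · intro v _ hv
      simp [Ne.symm hv]
    · intro h; exact absurd (Finset.mem_univ r) h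

section

variable {p : ℕ} [Fact p.Prime] {ι : Type} [Fintype ι]

/-- the linear functional given by the dot product -/
def dot (c : ι → ZMod p) : (ι → ZMod p) →+ ZMod p where
  toFun x := ∑ i, c i * x i
  map_zero' := by simp
  map_add' x y := by simp [mul_add, Finset.sum_add_distrib]

theorem dot_apply (c x : ι → ZMod p) : dot c x = ∑ i, c i * x i := rfl

theorem dot_add (c c' x : ι → ZMod p) : dot (c + c') x = dot c x + dot c' x := by
  simp [dot_apply, add_mul, Finset.sum_add_distrib]

theorem dot_sub (c c' x : ι → ZMod p) : dot (c - c') x = dot c x - dot c' x := by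
  simp [dot_apply, sub_mul, Finset.sum_sub_distrib]

theorem dot_single [DecidableEq ι] (i : ι) (k : ZMod p) (x : ι → ZMod p) :
    dot (Pi.single i k) x = k * x i := by
  rw [dot_apply, Finset.sum_eq_single i]
  · simp
  · intro j _ hj; simp [Pi.single_eq_of_ne hj]
  · intro h; exact absurd (Finset.mem_univ i) h

open Classical in
theorem card_dot {x : ι → ZMod p} (hx : x ≠ 0) :
    p * (Finset.univ.filter (fun c : ι → ZMod p => dot c x = 0)).card =
      Fintype.card (ι → ZMod p) := by
  obtain ⟨i, hi⟩ : ∃ i, x i ≠ 0 := by
    by_contra h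
    push Not at h
    exact hx (funext h)
  let e : (ι → ZMod p) ≃ {c : ι → ZMod p // dot c x = 0} × ZMod p :=
    { toFun := fun c => (⟨c - Pi.single i (dot c x / x i), by
        rw [dot_sub, dot_single, div_mul_cancel₀ _ hi, sub_self]⟩, dot c x / x i)
      invFun := fun q => q.1.1 + Pi.single i q.2
      left_inv := by
        intro c
        simp
      right_inv := by
        rintro ⟨⟨c, hc⟩, k⟩
        have h1 : dot (c + Pi.single i k) x / x i = k := by
          rw [dot_add, dot_single, hc, zero_add, mul_div_assoc, div_self hi, mul_one]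
        simp only [Prod.mk.injEq, Subtype.mk.injEq]
        exact ⟨by rw [h1]; simp, h1⟩ }
  have h1 := Fintype.card_congr e
  rw [Fintype.card_prod, ZMod.card, Fintype.card_subtype] at h1
  rw [h1, mul_comm]

open Classical in
theorem occ_fourier (β : A → ι → ZMod p) (a : A) (v r : ι → ZMod p) (w : List A) :
    (Fintype.card (ι → ZMod p) * (p - 1)) * occ β a v r w +
      Fintype.card (ι → ZMod p) * w.count a =
      p * ∑ c : ι → ZMod p, occ (fun x => dot c (β x)) a (dot c v) (dot c r) w := by
  have hp : 1 ≤ p := (Fact.out : p.Prime).one_lt.le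
  have h1 : ∀ v', (p * ∑ c : ι → ZMod p, if dot c v' = dot c v then occ β a v' r w else 0) =
      (if v' = v then Fintype.card (ι → ZMod p) * (p - 1) * occ β a v r w else 0) +
        Fintype.card (ι → ZMod p) * occ β a v' r w := by
    intro v'
    rw [← Finset.sum_filter, Finset.sum_const, smul_eq_mul]
    by_cases hv : v' = v
    · subst hv
      simp only [if_true, Finset.filter_true, Finset.card_univ]
      generalize Fintype.card (ι → ZMod p) = D
      generalize occ β a v' r w = n
      have : D * (p - 1) * n + D * n = D * ((p - 1) + 1) * n := by ring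
      rw [this, Nat.sub_add_cancel hp]; ring
    · rw [if_neg hv, zero_add, ← mul_assoc]
      have h2 : (Finset.univ.filter (fun c : ι → ZMod p => dot c v' = dot c v)) =
          (Finset.univ.filter (fun c : ι → ZMod p => dot c (v' - v) = 0)) := by
        ext c
        simp only [Finset.mem_filter, Finset.mem_univ, true_and]
        rw [map_sub, sub_eq_zero]
      rw [h2, card_dot (sub_ne_zero.2 hv)]
  have h3 : ∑ c : ι → ZMod p, occ (fun x => dot c (β x)) a (dot c v) (dot c r) w =
      ∑ v' : ι → ZMod p, ∑ c : ι → ZMod p, if dot c v' = dot c v then occ β a v' r w else 0 := by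
    rw [Finset.sum_comm]
    refine Finset.sum_congr rfl (fun c _ => ?_)
    rw [occ_push (dot c) β a (dot c v) r w]
    refine Finset.sum_congr rfl (fun _ _ => ?_)
    congr
  rw [h3, Finset.mul_sum]
  simp only [h1, Finset.sum_add_distrib, Finset.sum_ite_eq', Finset.mem_univ, if_true]
  rw [← Finset.mul_sum, sum_occ]

/-- Counting modulo `M` the occurrences of a letter at a given residue in `(Z/p)^ι`. -/
theorem meas_occ_vec [Finite A] (β : A → ι → ZMod p) (a : A) (v r : ι → ZMod p) (M : ℕ)
    [NeZero M] : Meas 1 (fun w : List A => (occ β a v r w : ZMod M)) := by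
  classical
  have hp := (Fact.out : p.Prime).one_lt
  have : NeZero p := ⟨by omega⟩
  have hd : Fintype.card (ι → ZMod p) * (p - 1) ≠ 0 := by
    apply Nat.mul_ne_zero
    · exact Fintype.card_ne_zero
    · omega
  apply Meas.div hd
  set D := Fintype.card (ι → ZMod p) with hD
  have : NeZero (D * (p - 1) * M) := ⟨Nat.mul_ne_zero hd (NeZero.ne M)⟩
  have h1 : Meas 1 (fun w : List A => ∑ c : ι → ZMod p,
      (occ (fun x => dot c (β x)) a (dot c v) (dot c r) w : ZMod (D * (p - 1) * M))) :=
    Meas.sum _ (fun c _ => meas_occ_prime _ a _ _ _)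
  have h2 := h1.comp₂ (meas_count a (D * (p - 1) * M))
    (fun x y => (p : ZMod (D * (p - 1) * M)) * x - (D : ZMod (D * (p - 1) * M)) * y)
  convert h2 using 2 with w
  have h3 := occ_fourier β a v r w
  rw [← hD] at h3
  have h4 := congrArg (fun z : ℕ => (z : ZMod (D * (p - 1) * M))) h3
  rw [eq_sub_iff_add_eq]
  have h5 : ((p * ∑ c : ι → ZMod p, occ (fun x => dot c (β x)) a (dot c v) (dot c r) w : ℕ) :
      ZMod (D * (p - 1) * M)) = (p : ZMod (D * (p - 1) * M)) * ∑ c : ι → ZMod p,
      (occ (fun x => dot c (β x)) a (dot c v) (dot c r) w : ZMod (D * (p - 1) * M)) := by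
    rw [Nat.cast_mul, Nat.cast_sum]
  rw [← h5, ← h4, Nat.cast_add, Nat.cast_mul D (w.count a)]

end

end Pool.Agent.GSH
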