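import Pool.Agent.GSH.Counter

/-!
# Counting letters at given residues modulo a prime
-/

set_option autoImplicit false

namespace Pool.Agent.GSH

variable {A : Type}

open Classical in
/-- `occ β a v r w`: the number of occurrences of the letter `a` in `w` such that the sum of the
weights of the preceding letters, added to `r`, is `v`. -/
noncomputable def occ {V : Type*} [Add V] (β : A → V) (a : A) (v : V) : V → List A → ℕ
  | _, [] => 0
  | r, x :: w => (if x = a ∧ r = v then 1 else 0) + occ β a v (r + β x) w

section Base

variable {p : ℕ} (β : A → ZMod p)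

/-- residue of a base state -/
def res (b : A) (t : ZMod p) : Option (ZMod p) → ZMod p
  | none => t + β b
  | some i => i

open Classical in
/-- the base automaton -/
noncomputable def bstep (b : A) (t : ZMod p) (q : Option (ZMod p)) (x : A) : Option (ZMod p) :=
  if β x = 0 then q else if q = some t ∧ x = b then none else some (res β b t q + β x)

/-- the increments -/
def binc (b : A) (t : ZMod p) (S C : Set A) (q : Option (ZMod p)) (x : A) : Prop :=
  (q = some t ∧ ((β x = 0 ∧ x ∈ C) ∨ (β x ≠ 0 ∧ x ≠ b))) ∨ (q = none ∧ β x ≠ 0 ∧ x ∉ S)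

variable {β} {b : A} {t : ZMod p} {S C : Set A}

theorem res_bstep (q : Option (ZMod p)) (x : A) :
    res β b t (bstep β b t q x) = res β b t q + β x := by
  unfold bstep
  split_ifs with h1 h2
  · rw [h1, add_zero]
  · rw [h2.1, h2.2]; rfl
  · rfl

theorem res_foldl (q : Option (ZMod p)) (w : List A) :
    res β b t (List.foldl (bstep β b t) q w) = res β b t q + (w.map β).sum := by
  induction w generalizing q with
  | nil => simp
  | cons x w ih => rw [List.foldl_cons, ih, res_bstep, List.map_cons, List.sum_cons, add_assoc]

theorem eq_some_iff (hb : β b ≠ 0) (q : Option (ZMod p)) :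
    q = some t ↔ res β b t q = t := by
  cases q with
  | none =>
    simp only [reduceCtorEq, false_iff]
    intro h
    exact hb (add_eq_left.1 h)
  | some i => simp [res]

theorem bstep_congr (hb : β b ≠ 0) {q q' : Option (ZMod p)} {x : A} (hx : β x ≠ 0)
    (h : res β b t q = res β b t q') : bstep β b t q x = bstep β b t q' x := by
  unfold bstep
  rw [if_neg hx, if_neg hx, h]
  have e : (q = some t ∧ x = b) ↔ (q' = some t ∧ x = b) := by
    rw [eq_some_iff hb, eq_some_iff hb, h]
  by_cases hq : q = some t ∧ x = b
  · rw [if_pos hq, if_pos (e.1 hq)]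
  · rw [if_neg hq, if_neg (fun h' => hq (e.2 h'))]

theorem foldl_congr' (hb : β b ≠ 0) {q q' : Option (ZMod p)} {w : List A}
    (hx : ∃ x ∈ w, β x ≠ 0) (h : res β b t q = res β b t q') :
    List.foldl (bstep β b t) q w = List.foldl (bstep β b t) q' w := by
  induction w generalizing q q' with
  | nil => simp at hx
  | cons x w ih =>
    by_cases h0 : β x = 0
    · have hx' : ∃ x ∈ w, β x ≠ 0 := by
        obtain ⟨y, hy, hy0⟩ := hx
        rcases List.mem_cons.1 hy with rfl | hy
        · exact absurd h0 hy0
        · exact ⟨y, hy, hy0⟩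
      rw [List.foldl_cons, List.foldl_cons]
      exact ih hx' (by rw [res_bstep, res_bstep, h])
    · rw [List.foldl_cons, List.foldl_cons, bstep_congr hb h0 h]

theorem foldl_zero {q : Option (ZMod p)} {w : List A} (hw : ∀ x ∈ w, β x = 0) :
    List.foldl (bstep β b t) q w = q := by
  induction w with
  | nil => rfl
  | cons x w ih =>
    have : bstep β b t q x = q := by simp [bstep, hw x (by simp)]
    rw [List.foldl_cons, this]
    exact ih (fun y hy => hw y (by simp [hy]))

theorem sum_rep (n : ℕ) (w : List A) : ((rep n w).map β).sum = n • (w.map β).sum := by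
  induction n with
  | zero => simp [rep_zero]
  | succ n ih => rw [rep_succ, List.map_append, List.sum_append, ih, succ_nsmul, add_comm]

theorem exists_first {w : List A} (hx : ∃ x ∈ w, β x ≠ 0) :
    ∃ z y v, w = z ++ y :: v ∧ (∀ x ∈ z, β x = 0) ∧ β y ≠ 0 := by
  induction w with
  | nil => simp at hx
  | cons x w ih =>
    by_cases h0 : β x = 0
    · have hx' : ∃ x ∈ w, β x ≠ 0 := by
        obtain ⟨y, hy, hy0⟩ := hx
        rcases List.mem_cons.1 hy with rfl | hy
        · exact absurd h0 hy0
        · exact ⟨y, hy, hy0⟩
      obtain ⟨z, y, v, rfl, h1, h2⟩ := ih hx'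
      refine ⟨x :: z, y, v, rfl, ?_, h2⟩
      intro u hu
      rcases List.mem_cons.1 hu with rfl | hu
      · exact h0
      · exact h1 u hu
    · exact ⟨[], x, w, rfl, by simp, h0⟩

theorem inc_false_of_incs {Q : Type} {step : Q → A → Q} {inc : Q → A → Prop} {q : Q}
    {u v : List A} {x : A} (h : incs step inc q (u ++ x :: v) = 0) :
    ¬ inc (List.foldl step q u) x := by
  rw [incs_append, incs] at h
  intro hi
  rw [if_pos hi] at h
  omega

/-- The base automaton stabilises on powers without increments. -/
theorem base_stable [Fact p.Prime] (hb : β b ≠ 0) (hS : b ∉ S) (q : Option (ZMod p))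
    (w : List A) (h : ∀ n, incs (bstep β b t) (binc β b t S C) q (rep n w) = 0) :
    ∃ n, List.foldl (bstep β b t) q (rep (n + 1) w) = List.foldl (bstep β b t) q (rep n w) := by
  by_cases hw : (w.map β).sum = 0
  · refine ⟨1, ?_⟩
    rw [foldl_rep_succ, rep_one]
    by_cases hx : ∃ x ∈ w, β x ≠ 0
    · exact foldl_congr' hb hx (by rw [res_foldl, hw, add_zero])
    · push Not at hx
      rw [foldl_zero hx, foldl_zero hx]
  · exfalso
    -- hitting the residue t
    have hit : ∀ u : List A, ∃ i : ℕ,
        List.foldl (bstep β b t) q (rep i w ++ u) = some t := by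
      intro u
      refine ⟨((t - res β b t q - (u.map β).sum) / (w.map β).sum).val, ?_⟩
      rw [eq_some_iff hb, res_foldl, List.map_append, List.sum_append, sum_rep]
      rw [nsmul_eq_mul, ZMod.natCast_zmod_val, div_mul_cancel₀ _ hw]
      ring
    -- every nonzero letter of w is b
    have hall : ∀ x ∈ w, β x ≠ 0 → x = b := by
      intro x hx hx0
      obtain ⟨u, v, rfl⟩ := List.append_of_mem hx
      obtain ⟨i, hi⟩ := hit u
      have h1 := h (i + 1)
      rw [rep_succ'] at h1
      have h2 : rep i (u ++ x :: v) ++ (u ++ x :: v) = (rep i (u ++ x :: v) ++ u) ++ x :: v := by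
        simp
      rw [h2] at h1
      have h3 := inc_false_of_incs h1
      rw [hi] at h3
      by_contra hxb
      exact h3 (Or.inl ⟨rfl, Or.inr ⟨hx0, hxb⟩⟩)
    have hex : ∃ x ∈ w, β x ≠ 0 := by
      by_contra hne
      push Not at hne
      apply hw
      apply List.sum_eq_zero
      intro y hy
      obtain ⟨x, hx, rfl⟩ := List.mem_map.1 hy
      exact hne x hx
    obtain ⟨u, y, v, hw', hu, hy⟩ := exists_first hex
    have hyb : y = b := hall y (by rw [hw']; simp) hy
    subst hyb
    obtain ⟨i, hi⟩ := hit u
    -- the word after y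
    have hex2 : ∃ x ∈ v ++ w, β x ≠ 0 := by
      obtain ⟨x, hx, hx0⟩ := hex
      exact ⟨x, by simp [hx], hx0⟩
    obtain ⟨z, y', v', hv', hz, hy'⟩ := exists_first hex2
    have hyb' : y' = y := by
      apply hall _ _ hy'
      have : y' ∈ v ++ w := by rw [hv']; simp
      rcases List.mem_append.1 this with h5 | h5
      · rw [hw']; simp [h5]
      · exact h5
    subst hyb'
    have h1 := h (i + 2)
    have h2 : rep (i + 2) w = ((rep i w ++ u) ++ [y'] ++ z) ++ y' :: v' := by
      have e1 : rep (i + 2) w = rep i w ++ (w ++ w) := by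
        rw [rep_add]; simp [rep, List.replicate_succ]
      have e2 : w ++ w = u ++ y' :: (v ++ w) := by
        conv_lhs => rw [hw']
        simp only [List.append_assoc, List.cons_append]
        rw [← hw']
      rw [e1, e2, hv']
      simp
    rw [h2] at h1
    have h3 := inc_false_of_incs h1
    apply h3
    right
    refine ⟨?_, hy', hS⟩
    rw [List.foldl_append, List.foldl_append, hi, foldl_zero hz]
    simp [bstep, hy']

theorem meas_base [Fact p.Prime] [Finite A] (hb : β b ≠ 0) (hS : b ∉ S) (M : ℕ) [NeZero M]
    (q0 : Option (ZMod p)) :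
    Meas 1 (fun w : List A => (List.foldl (bstep β b t) q0 w,
      (incs (bstep β b t) (binc β b t S C) q0 w : ZMod M))) := by
  have : NeZero p := ⟨(Fact.out : p.Prime).ne_zero⟩
  refine counter (t0 := some t) (W := fun q => q = none) ?_ ?_ ?_ ?_ M q0
  · rintro q a (h | h)
    · exact Or.inl h.1
    · exact Or.inr h.1
  · rintro q a (⟨rfl, ⟨h1, h2⟩ | ⟨h1, h2⟩⟩ | ⟨rfl, h1, h2⟩)
    · simp [bstep, h1]
    · simp [bstep, h1, h2]
    · simp [bstep, h1]
  · intro q a h
    unfold bstep at h
    split_ifs at h with h1 h2
    · exact Or.inr h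
    · exact Or.inl h2.1
  · intro q w h
    exact base_stable hb hS q w h

end Base

section History

variable {p : ℕ} (β : A → ZMod p)

open Classical in
/-- the history automaton: residue and last letter of nonzero weight -/
noncomputable def hstep (h : ZMod p × A) (x : A) : ZMod p × A :=
  if β x = 0 then h else (h.1 + β x, x)

open Classical in
/-- projection to the base automaton -/
noncomputable def toB (b : A) (t : ZMod p) (h : ZMod p × A) : Option (ZMod p) :=
  if h.2 = b ∧ h.1 = t + β b then none else some h.1

open Classical in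
/-- count of events -/
noncomputable def cnt (E : (ZMod p × A) → A → Prop) : (ZMod p × A) → List A → ℕ
  | _, [] => 0
  | h, x :: w => (if E h x then 1 else 0) + cnt E (hstep β h x) w

variable {β} {b : A} {t : ZMod p} {S C : Set A}

theorem res_toB (h : ZMod p × A) : res β b t (toB β b t h) = h.1 := by
  unfold toB
  split_ifs with h1
  · exact h1.2.symm
  · rfl

theorem toB_eq_some (hb : β b ≠ 0) (h : ZMod p × A) : toB β b t h = some t ↔ h.1 = t := by
  rw [eq_some_iff hb, res_toB]

theorem toB_eq_none (h : ZMod p × A) : toB β b t h = none ↔ h.2 = b ∧ h.1 = t + β b := by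
  unfold toB
  split_ifs with h1
  · simp [h1]
  · simp [h1]

theorem toB_hstep (hb : β b ≠ 0) (h : ZMod p × A) (x : A) :
    toB β b t (hstep β h x) = bstep β b t (toB β b t h) x := by
  unfold hstep bstep
  split_ifs with h1 h2
  · rfl
  · rw [toB_eq_none]
    rw [toB_eq_some hb] at h2
    exact ⟨h2.2, by rw [h2.1, h2.2]⟩
  · rw [res_toB]
    unfold toB
    rw [if_neg]
    rintro ⟨h3, h4⟩
    apply h2
    rw [toB_eq_some hb]
    simp only at h3 h4
    rw [h3] at h4
    exact ⟨add_right_cancel h4, h3⟩

theorem toB_foldl (hb : β b ≠ 0) (h : ZMod p × A) (w : List A) :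
    toB β b t (List.foldl (hstep β) h w) = List.foldl (bstep β b t) (toB β b t h) w := by
  induction w generalizing h with
  | nil => rfl
  | cons x w ih => rw [List.foldl_cons, List.foldl_cons, ih, toB_hstep hb]

theorem incs_toB (hb : β b ≠ 0) (h : ZMod p × A) (w : List A) :
    incs (bstep β b t) (binc β b t S C) (toB β b t h) w =
      cnt β (fun h x => binc β b t S C (toB β b t h) x) h w := by
  induction w generalizing h with
  | nil => rfl
  | cons x w ih => rw [incs, cnt, ← toB_hstep hb, ih]

theorem cnt_add {E E1 E2 : (ZMod p × A) → A → Prop} (h1 : ∀ h x, E h x ↔ E1 h x ∨ E2 h x)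
    (h2 : ∀ h x, ¬ (E1 h x ∧ E2 h x)) (h : ZMod p × A) (w : List A) :
    cnt β E h w = cnt β E1 h w + cnt β E2 h w := by
  induction w generalizing h with
  | nil => rfl
  | cons x w ih =>
    rw [cnt, cnt, cnt, ih]
    have e1 := h1 h x
    have e2 := h2 h x
    by_cases c1 : E1 h x
    · have c2 : ¬ E2 h x := fun c => e2 ⟨c1, c⟩
      simp only [e1, c1, c2, true_or, if_true, if_false]
      omega
    · by_cases c2 : E2 h x
      · simp only [e1, c1, c2, or_true, if_true, if_false]
        omega
      · simp only [e1, c1, c2, or_false, if_false]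
        omega

theorem cnt_occ (a : A) (s : ZMod p) (h : ZMod p × A) (w : List A) :
    cnt β (fun h x => x = a ∧ h.1 = s) h w = occ β a s h.1 w := by
  induction w generalizing h with
  | nil => rfl
  | cons x w ih =>
    have : (hstep β h x).1 = h.1 + β x := by
      unfold hstep
      split_ifs with h0
      · rw [h0, add_zero]
      · rfl
    rw [cnt, occ, ih, this]
    congr

/-- event: a letter of `S` of nonzero weight is read, the last letter of nonzero weight being
the letter `b` read at the residue `t`. -/
def evP (β : A → ZMod p) (b : A) (t : ZMod p) (S : Set A) (h : ZMod p × A) (x : A) : Prop :=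
  h.2 = b ∧ h.1 = t + β b ∧ β x ≠ 0 ∧ x ∈ S

theorem meas_evP [Fact p.Prime] [Finite A] (hb : β b ≠ 0) (hS : b ∉ S) (M : ℕ) [NeZero M]
    (h0 : ZMod p × A) :
    Meas 1 (fun w : List A => (cnt β (evP β b t S) h0 w : ZMod M)) := by
  have e1 := (meas_base (t := t) (C := ∅) hb (Set.notMem_empty b) M (toB β b t h0)).comp
    (fun p => p.2)
  have e2 := (meas_base (t := t) (C := ∅) hb hS M (toB β b t h0)).comp (fun p => p.2)
  have e3 := e1.comp₂ e2 (fun x y => x - y)
  convert e3 using 2 with w
  rw [incs_toB hb, incs_toB hb]
  have := cnt_add (β := β) (E := fun h x => binc β b t ∅ ∅ (toB β b t h) x)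
    (E1 := evP β b t S) (E2 := fun h x => binc β b t S ∅ (toB β b t h) x) (by
      intro h x
      simp only [binc, evP, toB_eq_none, Set.mem_empty_iff_false, not_false_eq_true, and_true]
      tauto) (by
      rintro h x ⟨h1, h2⟩
      simp only [binc, evP, toB_eq_none, toB_eq_some hb] at h1 h2
      rcases h2 with h2 | h2
      · have := h1.2.1
        rw [h2.1] at this
        exact hb (left_eq_add.1 this)
      · exact h2.2.2 h1.2.2.2) h0 w
  rw [this]
  push_cast
  ring

theorem meas_zero [Fact p.Prime] [Finite A] (hb : β b ≠ 0) {a : A} (ha : β a = 0) (s : ZMod p)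
    (M : ℕ) [NeZero M] (r : ZMod p) :
    Meas 1 (fun w : List A => (occ β a s r w : ZMod M)) := by
  have e1 := (meas_base (t := s) (C := {a}) hb (Set.notMem_empty b) M (toB β b s (r, b))).comp
    (fun p => p.2)
  have e2 := (meas_base (t := s) (C := ∅) hb (Set.notMem_empty b) M (toB β b s (r, b))).comp
    (fun p => p.2)
  have e3 := e1.comp₂ e2 (fun x y => x - y)
  convert e3 using 2 with w
  rw [incs_toB hb, incs_toB hb]
  have := cnt_add (β := β) (E := fun h x => binc β b s ∅ {a} (toB β b s h) x)
    (E1 := fun h x => x = a ∧ h.1 = s) (E2 := fun h x => binc β b s ∅ ∅ (toB β b s h) x) (by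
      intro h x
      simp only [binc, toB_eq_none, toB_eq_some hb, Set.mem_empty_iff_false, not_false_eq_true,
        and_true, Set.mem_singleton_iff, and_false, false_or]
      constructor
      · rintro (⟨h1, ⟨h2, h3⟩ | h2⟩ | h1)
        · exact Or.inl ⟨h3, h1⟩
        · exact Or.inr (Or.inl ⟨h1, h2⟩)
        · exact Or.inr (Or.inr h1)
      · rintro (⟨h1, h2⟩ | ⟨h1, h2⟩ | h1)
        · exact Or.inl ⟨h2, Or.inl ⟨by rw [h1]; exact ha, h1⟩⟩
        · exact Or.inl ⟨h1, Or.inr h2⟩
        · exact Or.inr h1) (by
      rintro h x ⟨⟨rfl, h1⟩, h2⟩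
      simp only [binc, ha] at h2
      simp at h2) (r, b) w
  rw [this, cnt_occ]
  push_cast
  ring

open Classical in
/-- integer indicator -/
noncomputable def ind (P : Prop) : ℤ := if P then 1 else 0

theorem ind_pos {P : Prop} (h : P) : ind P = 1 := by unfold ind; rw [if_pos h]

theorem ind_neg {P : Prop} (h : ¬ P) : ind P = 0 := by unfold ind; rw [if_neg h]

theorem ind_congr {P P' : Prop} (h : P ↔ P') : ind P = ind P' := by rw [propext h]

theorem cnt_nil (E : (ZMod p × A) → A → Prop) (h : ZMod p × A) : cnt β E h [] = 0 := rfl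

theorem cnt_cons (E : (ZMod p × A) → A → Prop) (h : ZMod p × A) (x : A) (w : List A) :
    (cnt β E h (x :: w) : ℤ) = ind (E h x) + cnt β E (hstep β h x) w := by
  rw [cnt]
  by_cases hE : E h x
  · rw [ind_pos hE, if_pos hE]; push_cast; rfl
  · rw [ind_neg hE, if_neg hE]; push_cast; rfl

theorem occ_cons {V : Type*} [Add V] (β : A → V) (a : A) (v r : V) (x : A) (w : List A) :
    (occ β a v r (x :: w) : ℤ) = ind (x = a ∧ r = v) + occ β a v (r + β x) w := by
  rw [occ]
  by_cases hE : x = a ∧ r = v
  · rw [ind_pos hE, if_pos hE]; push_cast; rfl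
  · rw [ind_neg hE, if_neg hE]; push_cast; rfl

open Classical in
/-- the main identity -/
theorem main_identity [Fintype A] {a : A} (ha : β a ≠ 0) (s : ZMod p) (h : ZMod p × A)
    (hh : β h.2 ≠ 0) (w : List A) :
    (occ β a s h.1 w : ℤ) - occ β a (s + β a) h.1 w =
      cnt β (evP β a s {x | x ≠ a}) h w -
        ∑ b ∈ Finset.univ.filter (fun b => b ≠ a ∧ β b ≠ 0),
          (cnt β (evP β b (s + β a - β b) {a}) h w : ℤ) +
        ind (toB β a s (List.foldl (hstep β) h w) = none) -
        ind (toB β a s h = none) := by
  induction w generalizing h with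
  | nil => simp [occ, cnt]
  | cons x w ih =>
    have hr : (hstep β h x).1 = h.1 + β x := by
      unfold hstep
      split_ifs with h0
      · rw [h0, add_zero]
      · rfl
    have hh' : β (hstep β h x).2 ≠ 0 := by
      unfold hstep
      split_ifs with h0
      · exact hh
      · exact h0
    have ih' := ih (hstep β h x) hh'
    rw [hr] at ih'
    simp only [occ_cons, cnt_cons, Finset.sum_add_distrib, List.foldl_cons]
    -- step identity
    have hstepid : ind (x = a ∧ h.1 = s) - ind (x = a ∧ h.1 = s + β a) =
        ind (evP β a s {x | x ≠ a} h x) -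
        ∑ b ∈ Finset.univ.filter (fun b => b ≠ a ∧ β b ≠ 0),
          ind (evP β b (s + β a - β b) {a} h x) +
        ind (toB β a s (hstep β h x) = none) -
        ind (toB β a s h = none) := by
      have hsum : ∑ b ∈ Finset.univ.filter (fun b => b ≠ a ∧ β b ≠ 0),
          ind (evP β b (s + β a - β b) {a} h x) =
          ind (h.2 ≠ a ∧ h.1 = s + β a ∧ x = a) := by
        by_cases h2 : h.2 = a
        · rw [ind_neg (fun h3 => h3.1 h2)]
          apply Finset.sum_eq_zero
          intro b hb
          apply ind_neg
          rintro ⟨h3, _⟩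
          have := (Finset.mem_filter.1 hb).2.1
          exact this (by rw [← h3, h2])
        · rw [Finset.sum_eq_single h.2]
          · apply ind_congr
            simp only [evP, sub_add_cancel, true_and, Set.mem_singleton_iff]
            constructor
            · rintro ⟨h3, _, h4⟩
              exact ⟨h2, h3, h4⟩
            · rintro ⟨_, h3, h4⟩
              exact ⟨h3, by rw [h4]; exact ha, h4⟩
          · intro b _ hb
            apply ind_neg
            rintro ⟨h3, _⟩
            exact hb h3.symm
          · intro hn
            exact absurd (Finset.mem_filter.2 ⟨Finset.mem_univ _, h2, hh⟩) hn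
      rw [hsum]
      simp only [toB_eq_none, evP]
      by_cases h0 : β x = 0
      · have hxa : x ≠ a := by rintro rfl; exact ha h0
        have : hstep β h x = h := by simp [hstep, h0]
        rw [this, ind_neg (fun h1 => hxa h1.1), ind_neg (fun h1 => hxa h1.1),
          ind_neg (fun h1 => h1.2.2.1 h0), ind_neg (fun h1 => hxa h1.2.2)]
        ring
      · have : hstep β h x = (h.1 + β x, x) := by simp [hstep, h0]
        rw [this]
        have e1 : ind ((h.1 + β x, x).2 = a ∧ (h.1 + β x, x).1 = s + β a) =
            ind (x = a ∧ h.1 = s) := by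
          apply ind_congr
          constructor
          · rintro ⟨h3, h4⟩
            have h3' : x = a := h3
            have h4' : h.1 + β x = s + β a := h4
            rw [h3'] at h4'
            exact ⟨h3', add_right_cancel h4'⟩
          · rintro ⟨h3, h4⟩
            exact ⟨h3, by show h.1 + β x = s + β a; rw [h3, h4]⟩
        rw [e1]
        have e2 : ind (h.2 = a ∧ h.1 = s + β a ∧ β x ≠ 0 ∧ x ∈ {x | x ≠ a}) =
            ind (h.2 = a ∧ h.1 = s + β a ∧ x ≠ a) := by
          apply ind_congr
          constructor
          · rintro ⟨h3, h4, _, h5⟩; exact ⟨h3, h4, h5⟩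
          · rintro ⟨h3, h4, h5⟩; exact ⟨h3, h4, h0, h5⟩
        rw [e2]
        generalize ind (x = a ∧ h.1 = s) = I
        by_cases X : x = a
        · by_cases Y : h.2 = a
          · by_cases Z : h.1 = s + β a <;> simp [ind, X, Y, Z]
          · by_cases Z : h.1 = s + β a
            · simp only [ind, X, Y, Z, not_false_eq_true, and_self, ne_eq, if_true, and_false,
                false_and, if_false, not_true_eq_false]
              ring
            · simp [ind, X, Y, Z]
        · by_cases Y : h.2 = a
          · by_cases Z : h.1 = s + β a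
            · simp only [ind, X, Y, Z, not_false_eq_true, and_self, ne_eq, if_true, and_false,
                false_and, if_false, not_true_eq_false]
              ring
            · simp [ind, X, Y, Z]
          · by_cases Z : h.1 = s + β a <;> simp [ind, X, Y, Z]
    linarith

theorem meas_toB_none [Fact p.Prime] [Finite A] (hb : β b ≠ 0) (h0 : ZMod p × A) (M : ℕ)
    [NeZero M] :
    Meas 1 (fun w : List A =>
      ((ind (toB β b t (List.foldl (hstep β) h0 w) = none) : ℤ) : ZMod M)) := by
  have : NeZero p := ⟨(Fact.out : p.Prime).ne_zero⟩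
  have e1 := (meas_base (t := t) (C := ∅) hb (Set.notMem_empty b) M (toB β b t h0)).comp
    (fun p => p.1)
  have e2 := e1.comp (fun q => ((ind (q = none) : ℤ) : ZMod M))
  convert e2 using 2 with w
  rw [toB_foldl hb]

theorem meas_diff_step [Fact p.Prime] [Finite A] {a : A} (ha : β a ≠ 0) (s r : ZMod p) (M : ℕ)
    [NeZero M] :
    Meas 1 (fun w : List A => ((occ β a s r w : ZMod M) - (occ β a (s + β a) r w : ZMod M))) := by
  classical
  have := Fintype.ofFinite A
  have e1 := meas_evP (t := s) (S := {x | x ≠ a}) ha (by simp) M (r, a)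
  have e2 : Meas 1 (fun w : List A => ∑ b ∈ Finset.univ.filter (fun b => b ≠ a ∧ β b ≠ 0),
      (cnt β (evP β b (s + β a - β b) {a}) (r, a) w : ZMod M)) := by
    apply Meas.sum
    intro b hb
    have hb' := (Finset.mem_filter.1 hb).2
    exact meas_evP hb'.2 (by simpa using hb'.1) M (r, a)
  have e3 := meas_toB_none (b := a) (t := s) ha (r, a) M
  have e4 := ((e1.comp₂ e2 (fun x y => x - y)).comp₂ e3 (fun x y => x + y)).comp
    (fun x => x - ((ind (toB β a s (r, a) = none) : ℤ) : ZMod M))
  convert e4 using 2 with w
  have key := main_identity ha s (r, a) ha w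
  have key' := congrArg (fun z : ℤ => (z : ZMod M)) key
  simp only at key'
  push_cast at key'
  exact key'

theorem meas_diff [Fact p.Prime] [Finite A] {a : A} (ha : β a ≠ 0) (s s' r : ZMod p) (M : ℕ)
    [NeZero M] :
    Meas 1 (fun w : List A => ((occ β a s r w : ZMod M) - (occ β a s' r w : ZMod M))) := by
  have key : ∀ k : ℕ, Meas 1 (fun w : List A =>
      ((occ β a s r w : ZMod M) - (occ β a (s + k * β a) r w : ZMod M))) := by
    intro k
    induction k with
    | zero => simpa using Meas.const 1 (0 : ZMod M)
    | succ k ih =>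
      have h1 := meas_diff_step ha (s + k * β a) r M
      have h2 := ih.comp₂ h1 (fun x y => x + y)
      convert h2 using 2 with w
      have : s + ((k + 1 : ℕ) : ZMod p) * β a = s + k * β a + β a := by push_cast; ring
      rw [this]; ring
  have h1 := key ((s' - s) / β a).val
  have h2 : s + (((s' - s) / β a).val : ZMod p) * β a = s' := by
    rw [ZMod.natCast_zmod_val, div_mul_cancel₀ _ ha]; ring
  rwa [h2] at h1

/-- The total number of occurrences. -/
theorem sum_occ {V : Type*} [Add V] [Fintype V] [DecidableEq A] (β : A → V) (a : A) (r : V)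
    (w : List A) : ∑ v : V, occ β a v r w = w.count a := by
  classical
  induction w generalizing r with
  | nil => simp [occ]
  | cons x w ih =>
    simp only [occ, Finset.sum_add_distrib, ih, List.count_cons]
    by_cases hx : x = a
    · simp [hx, add_comm]
    · simp [hx]

/-- dividing a measured residue -/
theorem Meas.div {n : ℕ} {N : List A → ℕ} {d : ℕ} (hd : d ≠ 0) (M : ℕ) [NeZero M]
    (h : Meas n (fun w => ((d * N w : ℕ) : ZMod (d * M)))) :
    Meas n (fun w => (N w : ZMod M)) := by
  have : NeZero (d * M) := ⟨Nat.mul_ne_zero hd (NeZero.ne M)⟩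
  refine h.determined (fun w w' e => ?_)
  rw [ZMod.natCast_eq_natCast_iff] at e ⊢
  exact Nat.ModEq.mul_left_cancel' hd e

/-- Counting modulo `M` the occurrences of a letter at a given residue modulo `p`. -/
theorem meas_occ_prime [Fact p.Prime] [Finite A] (β : A → ZMod p) (a : A) (s r : ZMod p) (M : ℕ)
    [NeZero M] : Meas 1 (fun w : List A => (occ β a s r w : ZMod M)) := by
  classical
  have : NeZero p := ⟨(Fact.out : p.Prime).ne_zero⟩
  by_cases ha : β a = 0
  · by_cases hex : ∃ b, β b ≠ 0
    · obtain ⟨b, hb⟩ := hex
      exact meas_zero hb ha s M r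
    · push Not at hex
      have h1 := (meas_count a M).comp (fun x => if r = s then x else 0)
      convert h1 using 2 with w
      split_ifs with hrs
      · congr 1
        induction w with
        | nil => rfl
        | cons x w ih =>
          rw [occ, hex x, add_zero, ih, List.count_cons]
          by_cases hx : x = a
          · simp [hx, hrs, add_comm]
          · simp [hx]
      · have : occ β a s r w = 0 := by
          induction w with
          | nil => rfl
          | cons x w ih =>
            rw [occ, hex x, add_zero, ih]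
            simp [hrs]
        rw [this]; simp
  · apply Meas.div (d := p) (NeZero.ne p)
    have : NeZero (p * M) := ⟨Nat.mul_ne_zero (NeZero.ne p) (NeZero.ne M)⟩
    have h1 : Meas 1 (fun w : List A => ∑ s' : ZMod p,
        ((occ β a s r w : ZMod (p * M)) - (occ β a s' r w : ZMod (p * M)))) :=
      Meas.sum _ (fun s' _ => meas_diff ha s s' r (p * M))
    have h2 := h1.comp₂ (meas_count a (p * M)) (fun x y => x + y)
    convert h2 using 2 with w
    rw [← sum_occ β a r w]
    rw [Finset.sum_sub_distrib, Finset.sum_const, Finset.card_univ, ZMod.card]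
    push_cast
    simp

end History

end Pool.Agent.GSH
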